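import Pool.Agent.Helper39.Density

/-!
Area mean value inequality and closedness of analytic functions under `L^p` limits of polynomials.
-/

open Set Metric Filter Topology MeasureTheory
open scoped ENNReal Real

namespace Pool.Agent.Helper39

theorem circle_mean {h : ℂ → ℂ} (hh : Differentiable ℂ h) (z : ℂ) (ρ : ℝ) :
    ENNReal.ofReal (2 * π) * ‖h z‖ₑ ≤ ∫⁻ θ in Ioo (-π) π, ‖h (circleMap z ρ θ)‖ₑ := by
  have h1 : Real.circleAverage h z ρ = h z := (hh.diffContOnCl).circleAverage
  rw [Real.circleAverage_def] at h1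
  have hper : Function.Periodic (fun θ => h (circleMap z ρ θ)) (2 * π) := by
    intro θ
    simp only [periodic_circleMap z ρ θ]
  have h2 : ∫ θ in (0:ℝ)..2 * π, h (circleMap z ρ θ) = ∫ θ in (-π)..π, h (circleMap z ρ θ) := by
    have := hper.intervalIntegral_add_eq 0 (-π)
    rw [zero_add] at this
    rw [this]
    congr 1
    ring
  rw [h2] at h1
  have h3 : ((2 * π : ℝ) : ℂ) * h z = ∫ θ in (-π)..π, h (circleMap z ρ θ) := by
    rw [← h1]
    rw [Complex.real_smul]
    have : (π : ℂ) ≠ 0 := by exact_mod_cast Real.pi_pos.ne'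
    push_cast
    field_simp
  have h4 : ENNReal.ofReal (2 * π) * ‖h z‖ₑ = ‖((2 * π : ℝ) : ℂ) * h z‖ₑ := by
    rw [enorm_mul]
    congr 1
    rw [← ofReal_norm, Complex.norm_real, Real.norm_of_nonneg (by positivity)]
  rw [h4, h3, intervalIntegral.integral_of_le (by linarith [Real.pi_pos]),
    ← restrict_Ioo_eq_restrict_Ioc]
  exact enorm_integral_le_lintegral_enorm _

/-- Area mean value inequality. -/
theorem area_mean {h : ℂ → ℂ} (hh : Differentiable ℂ h) (z : ℂ) {r : ℝ} (hr : 0 < r) :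
    ENNReal.ofReal (π * r ^ 2) * ‖h z‖ₑ ≤ ∫⁻ w in ball z r, ‖h w‖ₑ := by
  set H : ℂ → ℝ≥0∞ := (ball z r).indicator (fun w => ‖h w‖ₑ) with hH
  have hHm : Measurable H := (hh.continuous.enorm.measurable).indicator measurableSet_ball
  have e1 : ∫⁻ w in ball z r, ‖h w‖ₑ = ∫⁻ w, H w := (lintegral_indicator measurableSet_ball _).symm
  have e2 : ∫⁻ w, H w = ∫⁻ w, H (z + w) := (lintegral_add_left_eq_self H z).symm
  rw [e1, e2, ← Complex.lintegral_comp_polarCoord_symm (fun w => H (z + w)),
    polarCoord_target, Measure.volume_eq_prod, ← Measure.prod_restrict]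
  have hsymm : Measurable (fun p : ℝ × ℝ => (Complex.polarCoord.symm p : ℂ)) := by
    have : (fun p : ℝ × ℝ => (Complex.polarCoord.symm p : ℂ))
        = fun p : ℝ × ℝ => (p.1 : ℂ) * (Real.cos p.2 + Real.sin p.2 * Complex.I) := by
      funext p; exact Complex.polarCoord_symm_apply p
    rw [this]
    fun_prop
  have hmeas : Measurable (fun p : ℝ × ℝ => ENNReal.ofReal p.1 • H (z + Complex.polarCoord.symm p)) :=
    (ENNReal.measurable_ofReal.comp measurable_fst).mul (hHm.comp (measurable_const.add hsymm))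
  rw [lintegral_prod _ hmeas.aemeasurable]
  have hinner : ∀ ρ ∈ Ioo (0:ℝ) r, ENNReal.ofReal ρ * (ENNReal.ofReal (2 * π) * ‖h z‖ₑ)
      ≤ ∫⁻ θ in Ioo (-π) π, ENNReal.ofReal ρ • H (z + Complex.polarCoord.symm (ρ, θ)) := by
    intro ρ hρ
    have h1 : ∀ θ : ℝ, H (z + Complex.polarCoord.symm (ρ, θ)) = ‖h (circleMap z ρ θ)‖ₑ := by
      intro θ
      have h2 : z + Complex.polarCoord.symm (ρ, θ) = circleMap z ρ θ := by
        rw [Complex.polarCoord_symm_apply, circleMap, Complex.exp_mul_I]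
        simp
      rw [h2, hH, indicator_of_mem]
      rw [mem_ball, dist_eq_norm]
      have : circleMap z ρ θ - z = circleMap 0 ρ θ := by simp [circleMap]
      rw [this, norm_circleMap_zero, abs_of_pos hρ.1]
      exact hρ.2
    simp only [h1, smul_eq_mul]
    rw [lintegral_const_mul' _ _ ENNReal.ofReal_ne_top]
    gcongr
    exact circle_mean hh z ρ
  calc ENNReal.ofReal (π * r ^ 2) * ‖h z‖ₑ
      = ∫⁻ ρ in Ioo (0:ℝ) r, ENNReal.ofReal ρ * (ENNReal.ofReal (2 * π) * ‖h z‖ₑ) := by
        rw [lintegral_mul_const _ ENNReal.measurable_ofReal, ← mul_assoc]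
        congr 1
        have h1 : ∫⁻ ρ in Ioo (0:ℝ) r, ENNReal.ofReal ρ = ENNReal.ofReal (r ^ 2 / 2) := by
          rw [← ofReal_integral_eq_lintegral_ofReal]
          · rw [← integral_Ioc_eq_integral_Ioo, ← intervalIntegral.integral_of_le hr.le,
              integral_id]
            congr 1
            ring
          · exact (continuous_id.integrableOn_Icc (a := (0:ℝ)) (b := r)).mono_set Ioo_subset_Icc_self
          · filter_upwards [ae_restrict_mem measurableSet_Ioo] with ρ hρ using hρ.1.le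
        rw [h1, ← ENNReal.ofReal_mul (by positivity)]
        congr 1
        ring
    _ ≤ ∫⁻ ρ in Ioo (0:ℝ) r, ∫⁻ θ in Ioo (-π) π,
          ENNReal.ofReal ρ • H (z + Complex.polarCoord.symm (ρ, θ)) :=
        setLIntegral_mono' measurableSet_Ioo hinner
    _ ≤ ∫⁻ ρ in Ioi (0:ℝ), ∫⁻ θ in Ioo (-π) π,
          ENNReal.ofReal ρ • H (z + Complex.polarCoord.symm (ρ, θ)) :=
        lintegral_mono_set Ioo_subset_Ioi_self

end Pool.Agent.Helper39
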