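import Mathlib

/-!
Hurwitz-type facts for sequences of holomorphic functions.
-/

open Set Metric Filter Topology

namespace Pool.Agent.Helper39

/-- A locally uniform limit of eventually locally holomorphic functions is holomorphic. -/
theorem differentiableOn_of_tendsto {U : Set ℂ} (hU : IsOpen U) {f : ℕ → ℂ → ℂ} {g : ℂ → ℂ}
    (hlim : TendstoLocallyUniformlyOn f g atTop U)
    (hd : ∀ z ∈ U, ∃ r > 0, ∀ᶠ n in atTop, DifferentiableOn ℂ (f n) (ball z r)) :
    DifferentiableOn ℂ g U := by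
  intro z hz
  obtain ⟨r, hr, hev⟩ := hd z hz
  obtain ⟨r', hr', hr'U⟩ := Metric.isOpen_iff.1 hU z hz
  have hsub : ball z (min r r') ⊆ U := (ball_subset_ball (min_le_right _ _)).trans hr'U
  have h1 : DifferentiableOn ℂ g (ball z (min r r')) := by
    refine (hlim.mono hsub).differentiableOn ?_ isOpen_ball
    filter_upwards [hev] with n hn using hn.mono (ball_subset_ball (min_le_left _ _))
  exact (h1.differentiableAt (isOpen_ball.mem_nhds (mem_ball_self (lt_min hr hr')))).differentiableWithinAt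

/-- Derivatives converge locally uniformly on a ball. -/
theorem exists_ball_deriv_tendsto {U : Set ℂ} (hU : IsOpen U) {f : ℕ → ℂ → ℂ} {g : ℂ → ℂ}
    (hlim : TendstoLocallyUniformlyOn f g atTop U)
    (hd : ∀ z ∈ U, ∃ r > 0, ∀ᶠ n in atTop, DifferentiableOn ℂ (f n) (ball z r)) :
    TendstoLocallyUniformlyOn (fun n => deriv (f n)) (deriv g) atTop U := by
  rw [tendstoLocallyUniformlyOn_iff_filter]
  intro z hz
  obtain ⟨r, hr, hev⟩ := hd z hz
  obtain ⟨r', hr', hr'U⟩ := Metric.isOpen_iff.1 hU z hz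
  have hsub : ball z (min r r') ⊆ U := (ball_subset_ball (min_le_right _ _)).trans hr'U
  have h1 : TendstoLocallyUniformlyOn (deriv ∘ f) (deriv g) atTop (ball z (min r r')) := by
    refine (hlim.mono hsub).deriv ?_ isOpen_ball
    filter_upwards [hev] with n hn using hn.mono (ball_subset_ball (min_le_left _ _))
  rw [tendstoLocallyUniformlyOn_iff_filter] at h1
  have h2 := h1 z (mem_ball_self (lt_min hr hr'))
  rw [isOpen_ball.nhdsWithin_eq (mem_ball_self (lt_min hr hr'))] at h2
  rw [hU.nhdsWithin_eq hz]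
  exact h2

theorem tendsto_deriv_of_tendsto {U : Set ℂ} (hU : IsOpen U) {f : ℕ → ℂ → ℂ} {g : ℂ → ℂ}
    (hlim : TendstoLocallyUniformlyOn f g atTop U)
    (hd : ∀ z ∈ U, ∃ r > 0, ∀ᶠ n in atTop, DifferentiableOn ℂ (f n) (ball z r)) {z : ℂ}
    (hz : z ∈ U) : Tendsto (fun n => deriv (f n) z) atTop (𝓝 (deriv g z)) :=
  (exists_ball_deriv_tendsto hU hlim hd).tendsto_at hz

/-- **Hurwitz**: a nonconstant locally uniform limit of injective holomorphic functions on a
preconnected open set is injective. The functions need only be injective on sets `V n` which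
eventually contain a neighbourhood of each point. -/
theorem injOn_of_tendsto {U : Set ℂ} (hU : IsOpen U) (hUc : IsPreconnected U)
    {f : ℕ → ℂ → ℂ} {g : ℂ → ℂ} (hlim : TendstoLocallyUniformlyOn f g atTop U)
    (V : ℕ → Set ℂ) (hV : ∀ z ∈ U, ∃ r > 0, ∀ᶠ n in atTop, ball z r ⊆ V n)
    (hd : ∀ n, DifferentiableOn ℂ (f n) (V n)) (hi : ∀ n, InjOn (f n) (V n))
    (hconst : ¬ ∃ c, ∀ z ∈ U, g z = c) : InjOn g U := by
  intro a ha b hb hab
  by_contra hne
  have hgd : DifferentiableOn ℂ g U := differentiableOn_of_tendsto hU hlim (fun z hz => by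
    obtain ⟨r, hr, hev⟩ := hV z hz
    exact ⟨r, hr, by filter_upwards [hev] with n hn using (hd n).mono hn⟩)
  have hha : AnalyticOnNhd ℂ (fun z => g z - g b) U :=
    ((hgd.sub_const (g b))).analyticOnNhd hU
  -- isolated zero at `a`
  have hiso : ∀ᶠ z in 𝓝[≠] a, g z - g b ≠ 0 := by
    by_contra hcon
    rw [Filter.not_eventually] at hcon
    have hcon' : ∃ᶠ z in 𝓝[≠] a, g z - g b = 0 := hcon.mono (fun z hz => by simpa using hz)
    have h0 := hha.eqOn_zero_of_preconnected_of_frequently_eq_zero hUc ha hcon'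
    exact hconst ⟨g b, fun z hz => by simpa [sub_eq_zero] using h0 hz⟩
  rw [eventually_nhdsWithin_iff, Metric.eventually_nhds_iff_ball] at hiso
  obtain ⟨r₁, hr₁, hr₁z⟩ := hiso
  obtain ⟨r₂, hr₂, hr₂U⟩ := Metric.isOpen_iff.1 hU a ha
  obtain ⟨r₃, hr₃, hr₃V⟩ := hV a ha
  have hdist : 0 < dist a b := dist_pos.2 hne
  set ρ := min (min r₁ r₂) (min r₃ (dist a b)) / 2 with hρ
  have hmin : 0 < min (min r₁ r₂) (min r₃ (dist a b)) :=
    lt_min (lt_min hr₁ hr₂) (lt_min hr₃ hdist)
  have hρpos : 0 < ρ := by positivity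
  have hρ1 : ρ < r₁ := by
    have := (min_le_left _ _ : min (min r₁ r₂) (min r₃ (dist a b)) ≤ _).trans (min_le_left _ _)
    rw [hρ]; linarith
  have hρ2 : ρ < r₂ := by
    have := (min_le_left _ _ : min (min r₁ r₂) (min r₃ (dist a b)) ≤ _).trans (min_le_right _ _)
    rw [hρ]; linarith
  have hρ3 : ρ < r₃ := by
    have := (min_le_right _ _ : min (min r₁ r₂) (min r₃ (dist a b)) ≤ _).trans (min_le_left _ _)
    rw [hρ]; linarith
  have hρ4 : ρ < dist a b := by
    have := (min_le_right _ _ : min (min r₁ r₂) (min r₃ (dist a b)) ≤ _).trans (min_le_right _ _)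
    rw [hρ]; linarith
  have hsubU : closedBall a ρ ⊆ U := (closedBall_subset_ball hρ2).trans hr₂U
  -- minimum of |g - g b| on the sphere
  have hcont : ContinuousOn (fun z => ‖g z - g b‖) (sphere a ρ) :=
    ((hgd.continuousOn.mono (sphere_subset_closedBall.trans hsubU)).sub continuousOn_const).norm
  obtain ⟨w, hw, hwmin⟩ := (isCompact_sphere a ρ).exists_isMinOn
    (NormedSpace.sphere_nonempty.2 hρpos.le) hcont
  have hwpos : 0 < ‖g w - g b‖ := by
    rw [norm_pos_iff]
    apply hr₁z w (sphere_subset_ball hρ1 hw)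
    rintro rfl
    simp at hw
    linarith
  set δ := ‖g w - g b‖ with hδ
  have hmin' : ∀ z ∈ sphere a ρ, δ ≤ ‖g z - g b‖ := fun z hz => hwmin hz
  -- uniform convergence on the closed ball
  have hunif : TendstoUniformlyOn f g atTop (closedBall a ρ) :=
    (tendstoLocallyUniformlyOn_iff_tendstoUniformlyOn_of_compact (isCompact_closedBall a ρ)).1
      (hlim.mono hsubU)
  rw [Metric.tendstoUniformlyOn_iff] at hunif
  have hb' : Tendsto (fun n => f n b) atTop (𝓝 (g b)) := hlim.tendsto_at hb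
  obtain ⟨r₄, hr₄, hr₄V⟩ := hV b hb
  have hev := (hunif (δ / 6) (by positivity)).and
    (((Metric.tendsto_nhds.1 hb') (δ / 6) (by positivity)).and (hr₃V.and hr₄V))
  obtain ⟨n, hn1, hn2, hn3, hn4⟩ := hev.exists
  rw [dist_eq_norm] at hn2
  have hbV : b ∈ V n := hn4 (mem_ball_self hr₄)
  have hsubV : closedBall a ρ ⊆ V n := (closedBall_subset_ball hρ3).trans hn3
  have hne0 : ∀ z ∈ closedBall a ρ, f n z - f n b ≠ 0 := by
    intro z hz h
    have := hi n (hsubV hz) hbV (sub_eq_zero.1 h)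
    subst this
    rw [mem_closedBall, dist_comm] at hz
    linarith
  have hsph : ∀ z ∈ sphere a ρ, δ / 2 ≤ ‖f n z - f n b‖ := by
    intro z hz
    have h1 := hmin' z hz
    have h2 := hn1 z (sphere_subset_closedBall hz)
    rw [dist_eq_norm] at h2
    have h3 : g z - g b = (g z - f n z) + (f n z - f n b) + (f n b - g b) := by ring
    have h4 : ‖g z - g b‖ ≤ ‖g z - f n z‖ + ‖f n z - f n b‖ + ‖f n b - g b‖ := by
      rw [h3]
      exact (norm_add_le _ _).trans (by gcongr; exact norm_add_le _ _)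
    linarith
  have hinv : DifferentiableOn ℂ (fun z => (f n z - f n b)⁻¹) (closedBall a ρ) :=
    (((hd n).mono hsubV).sub_const _).fun_inv hne0
  have hmax : ‖(f n a - f n b)⁻¹‖ ≤ (δ / 2)⁻¹ := by
    refine Complex.norm_le_of_forall_mem_frontier_norm_le (U := ball a ρ)
      (f := fun z => (f n z - f n b)⁻¹) isBounded_ball (hinv.diffContOnCl_ball subset_rfl)
      ?_ (subset_closure (mem_ball_self hρpos))
    intro z hz
    rw [frontier_ball a hρpos.ne'] at hz
    rw [norm_inv]
    gcongr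
    exact hsph z hz
  have ha2 := hn1 a (mem_closedBall_self hρpos.le)
  rw [dist_eq_norm] at ha2
  have h5 : ‖f n a - f n b‖ < δ / 2 := by
    have h3 : f n a - f n b = -(g a - f n a) - (f n b - g b) := by rw [hab]; ring
    rw [h3]
    calc ‖-(g a - f n a) - (f n b - g b)‖ ≤ ‖-(g a - f n a)‖ + ‖f n b - g b‖ := norm_sub_le _ _
      _ < δ / 2 := by rw [norm_neg]; linarith
  have h6 : 0 < ‖f n a - f n b‖ := norm_pos_iff.2 (hne0 a (mem_closedBall_self hρpos.le))
  rw [norm_inv] at hmax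
  have h7 : δ / 2 ≤ ‖f n a - f n b‖ := (inv_le_inv₀ h6 (by positivity)).1 hmax
  linarith

end Pool.Agent.Helper39
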