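import Pool.Agent.Helper39.AreaMean
import Pool.Agent.Helper39.Hurwitz

/-!
`L^p(μ)`-limits of polynomials are analytic.
-/

open Set Metric Filter Topology MeasureTheory
open scoped ENNReal Real

namespace Pool.Agent.Helper39

theorem local_sup_bound {U : Set ℂ} {w : ℂ → ℝ≥0∞}
    (hw : AEMeasurable w (volume.restrict U)) (hfin : wmeas U w univ ≠ ∞) {z₀ : ℂ} {r : ℝ}
    (hr : 0 < r) (hsub : ball z₀ (2 * r) ⊆ U) {c : ℝ≥0∞} (hc : c ≠ 0) (hctop : c ≠ ∞)
    (hcw : ∀ z ∈ ball z₀ (2 * r), c ≤ w z) {p : ℝ≥0∞} (hp : 1 ≤ p) :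
    ∃ K : ℝ≥0∞, K ≠ ∞ ∧ ∀ h : ℂ → ℂ, Differentiable ℂ h → ∀ z ∈ ball z₀ r,
      ‖h z‖ₑ ≤ K * eLpNorm h p (wmeas U w) := by
  set μ := wmeas U w with hμ
  have hA : ENNReal.ofReal (π * r ^ 2) ≠ 0 := by
    have : 0 < π * r ^ 2 := by positivity
    simpa using this
  refine ⟨(ENNReal.ofReal (π * r ^ 2))⁻¹ * (c⁻¹ * μ univ ^ (1 - 1 / p.toReal)), ?_, ?_⟩
  · refine ENNReal.mul_ne_top (ENNReal.inv_ne_top.2 hA) (ENNReal.mul_ne_top (ENNReal.inv_ne_top.2 hc)
      ?_)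
    rcases eq_or_ne p ∞ with rfl | hpt
    · simpa using hfin
    · apply ENNReal.rpow_ne_top_of_nonneg _ hfin
      have h1 : 1 ≤ p.toReal := by
        have := ENNReal.toReal_mono hpt hp
        simpa using this
      rw [sub_nonneg, div_le_one (by linarith)]
      exact h1
  · intro h hh z hz
    have h1 := area_mean hh z hr
    have hsub2 : ball z r ⊆ ball z₀ (2 * r) := by
      intro x hx
      rw [mem_ball] at *
      linarith [dist_triangle x z z₀]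
    have h2 : c * ∫⁻ x in ball z r, ‖h x‖ₑ ≤ eLpNorm h 1 μ := by
      rw [eLpNorm_one_eq_lintegral_enorm, hμ, lintegral_wmeas hw hh.continuous.enorm.measurable.aemeasurable]
      calc c * ∫⁻ x in ball z r, ‖h x‖ₑ = ∫⁻ x in ball z r, c * ‖h x‖ₑ :=
            (lintegral_const_mul _ hh.continuous.enorm.measurable).symm
        _ ≤ ∫⁻ x in ball z r, w x * ‖h x‖ₑ := by
            refine setLIntegral_mono' measurableSet_ball (fun x hx => ?_)
            gcongr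
            exact hcw x (hsub2 hx)
        _ ≤ ∫⁻ x in U, w x * ‖h x‖ₑ := lintegral_mono_set (hsub2.trans hsub)
    have h3 : eLpNorm h 1 μ ≤ eLpNorm h p μ * μ univ ^ (1 - 1 / p.toReal) := by
      have := eLpNorm_le_eLpNorm_mul_rpow_measure_univ (μ := μ) hp
        hh.continuous.aestronglyMeasurable
      simpa using this
    have h4 : ∫⁻ x in ball z r, ‖h x‖ₑ ≤ c⁻¹ * eLpNorm h 1 μ := by
      rw [mul_comm, ← div_eq_mul_inv, ENNReal.le_div_iff_mul_le (Or.inl hc) (Or.inl hctop),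
        mul_comm]
      exact h2
    have h5 : ‖h z‖ₑ ≤ (ENNReal.ofReal (π * r ^ 2))⁻¹ * ∫⁻ x in ball z r, ‖h x‖ₑ := by
      rw [mul_comm, ← div_eq_mul_inv, ENNReal.le_div_iff_mul_le (Or.inl hA)
        (Or.inl ENNReal.ofReal_ne_top), mul_comm]
      exact h1
    calc ‖h z‖ₑ ≤ (ENNReal.ofReal (π * r ^ 2))⁻¹ * ∫⁻ x in ball z r, ‖h x‖ₑ := h5
      _ ≤ (ENNReal.ofReal (π * r ^ 2))⁻¹ * (c⁻¹ * (eLpNorm h p μ * μ univ ^ (1 - 1 / p.toReal))) := by
          gcongr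
          exact h4.trans (by gcongr)
      _ = _ := by ring

/-- `L^p(w dA)`-limits of polynomials are analytic. -/
theorem analytic_of_mem_closure {U : Set ℂ} (hU : IsOpen U) {w : ℂ → ℝ≥0∞}
    (hw : AEMeasurable w (volume.restrict U)) (hfin : wmeas U w univ ≠ ∞)
    (hlow : ∀ z₀ ∈ U, ∃ r : ℝ, 0 < r ∧ ball z₀ (2 * r) ⊆ U ∧ ∃ c : ℝ≥0∞, c ≠ 0 ∧ c ≠ ∞ ∧
      ∀ z ∈ ball z₀ (2 * r), c ≤ w z) {p : ℝ≥0∞} (hp : 1 ≤ p) {F : ℂ → ℂ}
    (hF : AEStronglyMeasurable F (wmeas U w))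
    (happr : ∀ ε : ℝ≥0∞, ε ≠ 0 → ∃ P : Polynomial ℂ,
      eLpNorm (fun z => F z - P.eval z) p (wmeas U w) < ε) :
    ∃ f : ℂ → ℂ, DifferentiableOn ℂ f U ∧ F =ᵐ[wmeas U w] f := by
  set μ := wmeas U w with hμ
  have hp0 : p ≠ 0 := by rintro rfl; simp at hp
  have hseq : ∀ n : ℕ, ∃ P : Polynomial ℂ,
      eLpNorm (fun z => F z - P.eval z) p μ < ((n:ℝ≥0∞) + 1)⁻¹ := fun n =>
    happr _ (ENNReal.inv_ne_zero.2 (by simp))
  choose P hP using hseq
  have hinv : Tendsto (fun n : ℕ => ((n:ℝ≥0∞) + 1)⁻¹) atTop (𝓝 0) := by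
    have h1 : Tendsto (fun n : ℕ => ((n + 1 : ℕ) : ℝ≥0∞)⁻¹) atTop (𝓝 0) :=
      ENNReal.tendsto_inv_nat_nhds_zero.comp (tendsto_add_atTop_nat 1)
    refine h1.congr (fun n => ?_)
    push_cast
    rfl
  have hconv : Tendsto (fun n => eLpNorm ((fun z => (P n).eval z) - F) p μ) atTop (𝓝 0) := by
    refine tendsto_of_tendsto_of_tendsto_of_le_of_le tendsto_const_nhds hinv
      (fun n => zero_le) (fun n => ?_)
    have : (fun z => (P n).eval z) - F = fun z => (P n).eval z - F z := rfl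
    rw [eLpNorm_sub_comm]
    exact (hP n).le
  have hPm : ∀ n, AEStronglyMeasurable (fun z => (P n).eval z) μ := fun n =>
    (P n).continuous.aestronglyMeasurable
  obtain ⟨k, hk, hkae⟩ := (tendstoInMeasure_of_tendsto_eLpNorm hp0 hPm hF hconv).exists_seq_tendsto_ae
  -- Cauchy property
  have hcau : ∀ n m, eLpNorm (fun z => (P n - P m).eval z) p μ
      ≤ ((n:ℝ≥0∞) + 1)⁻¹ + ((m:ℝ≥0∞) + 1)⁻¹ := by
    intro n m
    calc eLpNorm (fun z => (P n - P m).eval z) p μ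
        = eLpNorm (((fun z => F z - (P m).eval z)) - (fun z => F z - (P n).eval z)) p μ := by
          congr 1; funext z; simp
      _ ≤ eLpNorm (fun z => F z - (P m).eval z) p μ + eLpNorm (fun z => F z - (P n).eval z) p μ :=
          eLpNorm_sub_le (hF.sub (hPm m)) (hF.sub (hPm n)) hp
      _ ≤ _ := by rw [add_comm]; exact add_le_add (hP n).le (hP m).le
  have hloc : ∀ z₀ ∈ U, ∃ r : ℝ, 0 < r ∧ ball z₀ r ⊆ U ∧
      ∀ ε : ℝ, 0 < ε → ∃ N, ∀ n ≥ N, ∀ m ≥ N, ∀ z ∈ ball z₀ r,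
        dist ((P n).eval z) ((P m).eval z) < ε := by
    intro z₀ hz₀
    obtain ⟨r, hr, hsub, c, hc, hct, hcw⟩ := hlow z₀ hz₀
    obtain ⟨K, hK, hKb⟩ := local_sup_bound hw hfin hr hsub hc hct hcw hp
    refine ⟨r, hr, (ball_subset_ball (by linarith)).trans hsub, fun ε hε => ?_⟩
    have h1 : Tendsto (fun n : ℕ => K * (((n:ℝ≥0∞) + 1)⁻¹ + ((n:ℝ≥0∞) + 1)⁻¹)) atTop (𝓝 0) := by
      have := ENNReal.Tendsto.const_mul (hinv.add hinv) (Or.inr hK)
      simpa using this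
    have hεpos : (0:ℝ≥0∞) < ENNReal.ofReal ε := by simpa using hε
    obtain ⟨N, hN⟩ := eventually_atTop.1 (h1.eventually (gt_mem_nhds hεpos))
    refine ⟨N, fun n hn m hm z hz => ?_⟩
    have h2 := hKb (fun z => (P n - P m).eval z) (P n - P m).differentiable z hz
    have h3 : ‖(P n - P m).eval z‖ₑ < ENNReal.ofReal ε := by
      refine lt_of_le_of_lt (h2.trans ?_) (hN N le_rfl)
      gcongr
      refine (hcau n m).trans ?_
      gcongr
    rw [dist_eq_norm]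
    rw [← ofReal_norm, ENNReal.ofReal_lt_ofReal_iff hε] at h3
    simpa using h3
  -- the limit function
  have hcs : ∀ z ∈ U, CauchySeq (fun n => (P n).eval z) := by
    intro z hz
    obtain ⟨r, hr, -, h⟩ := hloc z hz
    rw [Metric.cauchySeq_iff]
    intro ε hε
    obtain ⟨N, hN⟩ := h ε hε
    exact ⟨N, fun m hm n hn => hN m hm n hn z (mem_ball_self hr)⟩
  choose! f hf using fun z (hz : z ∈ U) => cauchySeq_tendsto_of_complete (hcs z hz)
  have hlu : TendstoLocallyUniformlyOn (fun n z => (P n).eval z) f atTop U := by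
    rw [Metric.tendstoLocallyUniformlyOn_iff]
    intro ε hε z₀ hz₀
    obtain ⟨r, hr, hrU, h⟩ := hloc z₀ hz₀
    obtain ⟨N, hN⟩ := h (ε / 2) (by positivity)
    refine ⟨ball z₀ r, mem_nhdsWithin_of_mem_nhds (ball_mem_nhds _ hr), ?_⟩
    filter_upwards [eventually_ge_atTop N] with n hn z hz
    have h1 : Tendsto (fun m => dist ((P m).eval z) ((P n).eval z)) atTop
        (𝓝 (dist (f z) ((P n).eval z))) := (hf z (hrU hz)).dist tendsto_const_nhds
    have h2 : dist (f z) ((P n).eval z) ≤ ε / 2 := by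
      refine le_of_tendsto h1 ?_
      filter_upwards [eventually_ge_atTop N] with m hm
      exact (hN m hm n hn z hz).le
    linarith
  refine ⟨f, ?_, ?_⟩
  · exact hlu.differentiableOn (Eventually.of_forall fun n => (P n).differentiable.differentiableOn)
      hU
  · have hUae : ∀ᵐ z ∂μ, z ∈ U := (wmeas_ac U w).ae_le (ae_restrict_mem hU.measurableSet)
    filter_upwards [hkae, hUae] with z hz1 hz2
    exact tendsto_nhds_unique hz1 ((hf z hz2).comp hk.tendsto_atTop)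

end Pool.Agent.Helper39
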