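import Mathlib

/-!
A continuous weight profile with prescribed upper and lower staircase bounds.
-/

open Set Metric Filter Topology MeasureTheory
open scoped ENNReal

namespace Pool.Agent.Helper39

/-- The ramp function, `0` for `x ≤ a` and `1` for `x ≥ 2a`. -/
noncomputable def ramp (a x : ℝ) : ℝ := max 0 (min 1 ((x - a) / a))

theorem ramp_nonneg (a x : ℝ) : 0 ≤ ramp a x := le_max_left _ _

theorem ramp_le_one (a x : ℝ) : ramp a x ≤ 1 := max_le zero_le_one (min_le_left _ _)

theorem ramp_of_le {a x : ℝ} (ha : 0 < a) (h : x ≤ a) : ramp a x = 0 := by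
  unfold ramp
  apply max_eq_left
  refine (min_le_right _ _).trans ?_
  apply div_nonpos_of_nonpos_of_nonneg (by linarith) ha.le

theorem ramp_of_ge {a x : ℝ} (ha : 0 < a) (h : 2 * a ≤ x) : ramp a x = 1 := by
  unfold ramp
  rw [min_eq_left, max_eq_right zero_le_one]
  rw [le_div_iff₀ ha]
  linarith

theorem ramp_mono {a : ℝ} (ha : 0 < a) : Monotone (ramp a) := by
  intro x y hxy
  unfold ramp
  gcongr

theorem ramp_continuous (a : ℝ) : Continuous (ramp a) := by
  unfold ramp
  fun_prop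

/-- Data for the staircase. -/
structure Stairs (t W : ℕ → ℝ) : Prop where
  t_pos : ∀ n, 0 < t n
  W_pos : ∀ n, 0 < W n
  t_half : ∀ n, t (n + 1) ≤ t n / 2
  W_half : ∀ n, W (n + 1) ≤ W n / 2
  t_zero : t 0 = 1
  W_zero : W 0 = 1

namespace Stairs

variable {t W : ℕ → ℝ} (h : Stairs t W)

/-- The weight profile. -/
noncomputable def fn (t W : ℕ → ℝ) (x : ℝ) : ℝ := ∑' n, (W n - W (n + 1)) * ramp (t (n + 1)) x

include h

theorem t_anti : Antitone t := antitone_nat_of_succ_le (fun n => by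
  linarith [h.t_half n, h.t_pos n])

theorem W_anti : Antitone W := antitone_nat_of_succ_le (fun n => by
  linarith [h.W_half n, h.W_pos n])

theorem t_le (n : ℕ) : t n ≤ (1 / 2) ^ n := by
  induction n with
  | zero => simp [h.t_zero]
  | succ n ih => calc t (n + 1) ≤ t n / 2 := h.t_half n
      _ ≤ (1 / 2) ^ n / 2 := by gcongr
      _ = (1 / 2) ^ (n + 1) := by ring

theorem W_le (n : ℕ) : W n ≤ (1 / 2) ^ n := by
  induction n with
  | zero => simp [h.W_zero]
  | succ n ih => calc W (n + 1) ≤ W n / 2 := h.W_half n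
      _ ≤ (1 / 2) ^ n / 2 := by gcongr
      _ = (1 / 2) ^ (n + 1) := by ring

theorem W_tendsto : Tendsto W atTop (𝓝 0) :=
  squeeze_zero (fun n => (h.W_pos n).le) h.W_le
    (tendsto_pow_atTop_nhds_zero_of_lt_one (by norm_num) (by norm_num))

theorem c_nonneg (n : ℕ) : 0 ≤ W n - W (n + 1) := by
  linarith [h.W_half n, h.W_pos n]

/-- Tail sums telescope. -/
theorem hasSum_tail (m : ℕ) : HasSum (fun n => if m ≤ n then W n - W (n + 1) else 0) (W m) := by
  rw [hasSum_iff_tendsto_nat_of_nonneg (fun n => by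
    split_ifs
    · exact h.c_nonneg n
    · exact le_rfl)]
  have h1 : ∀ N, m ≤ N → ∑ n ∈ Finset.range N, (if m ≤ n then W n - W (n + 1) else 0)
      = W m - W N := by
    intro N hN
    induction N, hN using Nat.le_induction with
    | base =>
      rw [sub_self]
      apply Finset.sum_eq_zero
      intro n hn
      rw [Finset.mem_range] at hn
      rw [if_neg (not_le.2 hn)]
    | succ N hN ih =>
      rw [Finset.sum_range_succ, ih, if_pos hN]
      ring
  have h2 : Tendsto (fun N => W m - W N) atTop (𝓝 (W m - 0)) := h.W_tendsto.const_sub _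
  rw [sub_zero] at h2
  refine h2.congr' ?_
  filter_upwards [eventually_ge_atTop m] with N hN using (h1 N hN).symm

theorem summable_c : Summable (fun n => W n - W (n + 1)) := by
  have := (h.hasSum_tail 0).summable
  simpa using this

theorem summable_term (x : ℝ) : Summable (fun n => (W n - W (n + 1)) * ramp (t (n + 1)) x) := by
  refine Summable.of_nonneg_of_le (fun n => mul_nonneg (h.c_nonneg n) (ramp_nonneg _ _))
    (fun n => ?_) h.summable_c
  have := h.c_nonneg n
  have h2 := ramp_le_one (t (n + 1)) x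
  nlinarith [ramp_nonneg (t (n + 1)) x]

theorem fn_le {m : ℕ} {x : ℝ} (hx : x ≤ t m) : fn t W x ≤ W m := by
  rw [← (h.hasSum_tail m).tsum_eq]
  refine (h.summable_term x).tsum_le_tsum (fun n => ?_) (h.hasSum_tail m).summable
  split_ifs with hmn
  · have := h.c_nonneg n
    have h2 := ramp_le_one (t (n + 1)) x
    nlinarith [ramp_nonneg (t (n + 1)) x]
  · have h1 : t m ≤ t (n + 1) := h.t_anti (by omega)
    rw [ramp_of_le (h.t_pos _) (hx.trans h1), mul_zero]

theorem le_fn {m : ℕ} {x : ℝ} (hx : 2 * t (m + 1) ≤ x) : W m ≤ fn t W x := by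
  rw [← (h.hasSum_tail m).tsum_eq]
  refine (h.hasSum_tail m).summable.tsum_le_tsum (fun n => ?_) (h.summable_term x)
  split_ifs with hmn
  · have h1 : t (n + 1) ≤ t (m + 1) := h.t_anti (by omega)
    rw [ramp_of_ge (h.t_pos _) (by linarith), mul_one]
  · exact mul_nonneg (h.c_nonneg n) (ramp_nonneg _ _)

theorem fn_continuous : Continuous (fn t W) := by
  refine continuous_tsum (fun n => continuous_const.mul (ramp_continuous _)) h.summable_c
    (fun n x => ?_)
  rw [Real.norm_of_nonneg (mul_nonneg (h.c_nonneg n) (ramp_nonneg _ _))]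
  have := h.c_nonneg n
  have h2 := ramp_le_one (t (n + 1)) x
  nlinarith [ramp_nonneg (t (n + 1)) x]

theorem fn_mono : Monotone (fn t W) := by
  intro x y hxy
  refine (h.summable_term x).tsum_le_tsum (fun n => ?_) (h.summable_term y)
  have := h.c_nonneg n
  have h2 := ramp_mono (h.t_pos (n + 1)) hxy
  gcongr

theorem exists_index {x : ℝ} (hx0 : 0 < x) (hx1 : x ≤ 1) :
    ∃ m, 2 * t (m + 1) < x ∧ x ≤ 2 * t m := by
  classical
  have hex : ∃ m, 2 * t (m + 1) < x := by
    obtain ⟨m, hm⟩ := exists_pow_lt_of_lt_one hx0 (show (1 / 2 : ℝ) < 1 by norm_num)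
    refine ⟨m, lt_of_le_of_lt ?_ hm⟩
    have := h.t_le (m + 1)
    calc 2 * t (m + 1) ≤ 2 * (1 / 2) ^ (m + 1) := by gcongr
      _ = (1 / 2) ^ m := by ring
  refine ⟨Nat.find hex, Nat.find_spec hex, ?_⟩
  rcases Nat.eq_zero_or_pos (Nat.find hex) with h0 | h0
  · rw [h0, h.t_zero]; linarith
  · obtain ⟨m', hm'⟩ := Nat.exists_eq_succ_of_ne_zero h0.ne'
    have := Nat.find_min hex (m := m') (by omega)
    rw [not_lt] at this
    rw [hm']
    exact this

theorem fn_pos {x : ℝ} (hx0 : 0 < x) (hx1 : x ≤ 1) : 0 < fn t W x := by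
  obtain ⟨m, hm, -⟩ := h.exists_index hx0 hx1
  exact (h.W_pos m).trans_le (h.le_fn hm.le)

theorem fn_le_one {x : ℝ} (hx1 : x ≤ 1) : fn t W x ≤ 1 := by
  have := h.fn_le (m := 0) (x := x) (by rw [h.t_zero]; exact hx1)
  rwa [h.W_zero] at this

theorem fn_tendsto : Tendsto (fn t W) (𝓝[>] 0) (𝓝 0) := by
  rw [Metric.tendsto_nhds]
  intro ε hε
  obtain ⟨m, hm⟩ := exists_pow_lt_of_lt_one hε (show (1 / 2 : ℝ) < 1 by norm_num)
  have h1 : ∀ᶠ x in 𝓝[>] (0:ℝ), x < min (t m) 1 :=
    Filter.Eventually.filter_mono nhdsWithin_le_nhds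
      (gt_mem_nhds (lt_min (h.t_pos m) one_pos))
  filter_upwards [h1, self_mem_nhdsWithin] with x hx1 hx0
  have hx0' : 0 < x := hx0
  rw [Real.dist_eq, sub_zero, abs_of_pos (h.fn_pos hx0' (hx1.le.trans (min_le_right _ _)))]
  exact ((h.fn_le (hx1.le.trans (min_le_left _ _))).trans (h.W_le m)).trans_lt hm

/-- Integrability from staircase bounds. -/
theorem integrableOn {F : ℝ → ℝ} {s : ℝ} (hs : s ≤ 1)
    (hF : AEStronglyMeasurable F (volume.restrict (Ioc 0 s)))
    {B : ℕ → ℝ} (hB : ∀ m, ∀ x ∈ Ioc 0 s, 2 * t (m + 1) < x → x ≤ 2 * t m → |F x| ≤ B m)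
    (hsum : Summable (fun m => t m * |B m|)) : IntegrableOn F (Ioc 0 s) := by
  set D : ℕ → Set ℝ := fun m => Ioc (2 * t (m + 1)) (2 * t m) ∩ Ioc 0 s with hD
  have hDm : ∀ m, MeasurableSet (D m) := fun m => measurableSet_Ioc.inter measurableSet_Ioc
  have hU : Ioc 0 s = ⋃ m, D m := by
    ext x
    rw [mem_iUnion]
    constructor
    · intro hx
      obtain ⟨m, h1, h2⟩ := h.exists_index hx.1 (hx.2.trans hs)
      exact ⟨m, ⟨h1, h2⟩, hx⟩
    · rintro ⟨m, -, hx⟩
      exact hx
  have hDvol : ∀ m, volume (D m) ≤ ENNReal.ofReal (2 * t m) := by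
    intro m
    refine (measure_mono inter_subset_left).trans ?_
    rw [Real.volume_Ioc]
    apply ENNReal.ofReal_le_ofReal
    linarith [h.t_pos (m + 1)]
  have hbd : ∀ m, ∀ᵐ x ∂(volume.restrict (D m)), ‖F x‖ ≤ |B m| := by
    intro m
    filter_upwards [ae_restrict_mem (hDm m)] with x hx
    exact (hB m x hx.2 hx.1.1 hx.1.2).trans (le_abs_self _)
  have hint : ∀ m, IntegrableOn F (D m) := by
    intro m
    refine IntegrableOn.of_bound ((hDvol m).trans_lt ENNReal.ofReal_lt_top)
      (hF.mono_measure (Measure.restrict_mono inter_subset_right le_rfl)) (|B m|) (hbd m)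
  rw [hU]
  refine integrableOn_iUnion_of_summable_integral_norm hint ?_
  refine Summable.of_nonneg_of_le (fun m => integral_nonneg fun _ => norm_nonneg _) (fun m => ?_)
    (hsum.mul_left 2)
  have h1 : ‖∫ x in D m, ‖F x‖‖ ≤ |B m| * (volume (D m)).toReal := by
    refine norm_setIntegral_le_of_norm_le_const_ae ((hDvol m).trans_lt ENNReal.ofReal_lt_top) ?_
    filter_upwards [hbd m] with x hx
    simpa using hx
  have h2 : (volume (D m)).toReal ≤ 2 * t m := by
    have := ENNReal.toReal_mono ENNReal.ofReal_ne_top (hDvol m)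
    rwa [ENNReal.toReal_ofReal (by linarith [h.t_pos m])] at this
  calc ∫ x in D m, ‖F x‖ ≤ ‖∫ x in D m, ‖F x‖‖ := le_abs_self _
    _ ≤ |B m| * (volume (D m)).toReal := h1
    _ ≤ |B m| * (2 * t m) := by gcongr
    _ = 2 * (t m * |B m|) := by ring

end Stairs

end Pool.Agent.Helper39
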