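import Pool.Agent.Helper39.Step
import Pool.Agent.Helper39.Closed
import Pool.Agent.Helper39.WeightFn

/-!
Assembly of the construction.
-/

open Set Metric Filter Topology MeasureTheory
open scoped ENNReal Real

namespace Pool.Agent.Helper39

/-- The initial state. -/
noncomputable def st0 : St := ⟨fun z => 2 * ‖z‖, ray 1, 1, 1⟩

theorem st0_valid : st0.Valid where
  gauge := {
    cont := by show Continuous (fun z : ℂ => 2 * ‖z‖); fun_prop
    hom := by
      intro t ht z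
      show 2 * ‖(t:ℂ) * z‖ = t * (2 * ‖z‖)
      rw [norm_mul, Complex.norm_real, Real.norm_of_nonneg ht]
      ring
    lower := by
      intro z
      show ‖z‖ ≤ 2 * ‖z‖
      linarith [norm_nonneg z]
    upper := fun z => le_rfl }
  cone := nullCone_ray one_ne_zero
  Wpos := one_pos
  tpos := one_pos

theorem exists_seq (Θ : ℝ → ℝ) : ∃ s : ℕ → St, s 0 = st0 ∧ (∀ n, (s n).Valid) ∧
    ∀ n, Step Θ n (s n) (s (n + 1)) := by
  classical
  let S : ℕ → {s : St // s.Valid} := fun n => Nat.rec ⟨st0, st0_valid⟩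
    (fun n s => ⟨(exists_step Θ n s.1 s.2).choose, (exists_step Θ n s.1 s.2).choose_spec.1⟩) n
  refine ⟨fun n => (S n).1, rfl, fun n => (S n).2, fun n => ?_⟩
  exact (exists_step Θ n (S n).1 (S n).2).choose_spec.2

section

variable {Θ : ℝ → ℝ} {s : ℕ → St} (h0 : s 0 = st0) (hv : ∀ n, (s n).Valid)
  (hs : ∀ n, Step Θ n (s n) (s (n + 1)))

/-- The final domain. -/
def fdom (s : ℕ → St) : Set ℂ := ⋃ n, gdom (s n).g

include hs in
theorem g_anti : ∀ z, Antitone (fun n => (s n).g z) := fun z =>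
  antitone_nat_of_succ_le (fun n => (hs n).gle z)

include hs in
theorem gdom_mono : Monotone (fun n => gdom (s n).g) := by
  intro m n hmn z hz
  exact lt_of_le_of_lt (g_anti hs z hmn) hz

include hs in
theorem C_mono : Monotone (fun n => (s n).C) := monotone_nat_of_le_succ (fun n => (hs n).Csub)

include hs in
theorem g_eq_of_mem {n : ℕ} {a : ℂ} (ha : a ∈ (s (n + 1)).C) : ∀ m, n ≤ m →
    (s m).g a = (s n).g a := by
  intro m hm
  induction m, hm using Nat.le_induction with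
  | base => rfl
  | succ m hm ih =>
    rw [(hs m).geq a (C_mono hs (show n + 1 ≤ m + 1 by omega) ha), ih]

include hs in
theorem notMem_fdom {n : ℕ} {a : ℂ} (ha : a ∈ (s (n + 1)).C) (hga : 1 ≤ (s n).g a) :
    a ∉ fdom s := by
  intro h
  obtain ⟨m, hm⟩ := mem_iUnion.1 h
  have hm' : (s m).g a < 1 := hm
  rcases le_total m n with hmn | hmn
  · have : (s n).g a ≤ (s m).g a := g_anti hs a hmn
    linarith
  · rw [g_eq_of_mem hs ha m hmn] at hm'
    linarith

include hv in
theorem fdom_open : IsOpen (fdom s) := isOpen_iUnion fun n => (hv n).gauge.starDom.isOpen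

include hv in
theorem fdom_subset_ball : fdom s ⊆ ball 0 1 := iUnion_subset fun n => (hv n).gauge.subset_ball

include hv in
theorem zero_mem_fdom : (0:ℂ) ∈ fdom s := mem_iUnion.2 ⟨0, (hv 0).gauge.starDom.zero_mem⟩

include hv in
theorem fdom_star : StarConvex ℝ 0 (fdom s) := starConvex_iUnion fun n => (hv n).gauge.starDom

include hv in
theorem fdom_simplyConnected : IsSimplyConnected (fdom s) :=
  isSimplyConnected_of_starConvex (fdom_star hv) (zero_mem_fdom hv)

include hs in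
theorem volume_ball_diff : volume (ball (0:ℂ) 1 \ fdom s) = 0 := by
  have hle : ∀ n : ℕ, volume (ball (0:ℂ) 1 \ fdom s) ≤ ENNReal.ofReal ((1 / 2) ^ n) := by
    intro n
    refine (measure_mono ?_).trans (hs n).area
    rintro z ⟨hz1, hz2⟩
    refine ⟨?_, hz1⟩
    by_contra hcon
    exact hz2 (mem_iUnion.2 ⟨n + 1, show (s (n + 1)).g z < 1 from not_le.1 hcon⟩)
  have hlim : Tendsto (fun n : ℕ => ENNReal.ofReal ((1 / 2 : ℝ) ^ n)) atTop (𝓝 0) := by
    have := ENNReal.tendsto_ofReal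
      (tendsto_pow_atTop_nhds_zero_of_lt_one (show (0:ℝ) ≤ 1 / 2 by norm_num) (by norm_num))
    simpa using this
  exact le_antisymm (ge_of_tendsto' hlim hle) bot_le

include h0 hs in
theorem point_notMem : ((3 / 4 : ℝ) : ℂ) ∉ fdom s := by
  have hmem : ((3 / 4 : ℝ) : ℂ) ∈ (s 0).C := by
    rw [h0]
    show (‖((3 / 4 : ℝ) : ℂ)‖ : ℂ) * 1 = (‖(1:ℂ)‖ : ℂ) * ((3 / 4 : ℝ) : ℂ)
    rw [Complex.norm_real, Real.norm_of_nonneg (by norm_num)]
    simp
  refine notMem_fdom hs (n := 0) ((hs 0).Csub hmem) ?_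
  rw [h0]
  show 1 ≤ 2 * ‖((3 / 4 : ℝ) : ℂ)‖
  rw [Complex.norm_real, Real.norm_of_nonneg (by norm_num)]
  norm_num

include hs in
theorem ball_subset_closure : ball (0:ℂ) 1 ⊆ closure (fdom s) := by
  intro z hz
  by_contra hcon
  have hopen : IsOpen (ball (0:ℂ) 1 \ closure (fdom s)) := isOpen_ball.sdiff isClosed_closure
  have hpos : 0 < volume (ball (0:ℂ) 1 \ closure (fdom s)) :=
    hopen.measure_pos volume ⟨z, hz, hcon⟩
  have hle : volume (ball (0:ℂ) 1 \ closure (fdom s)) ≤ volume (ball (0:ℂ) 1 \ fdom s) :=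
    measure_mono (sdiff_subset_sdiff_right subset_closure)
  rw [volume_ball_diff hs] at hle
  exact absurd hpos (not_lt.2 hle)

include h0 hv hs in
theorem inner_nonempty : (frontier (fdom s) ∩ interior (closure (fdom s))).Nonempty := by
  have hball : ((3 / 4 : ℝ) : ℂ) ∈ ball (0:ℂ) 1 := by
    rw [mem_ball_zero_iff, Complex.norm_real, Real.norm_of_nonneg (by norm_num)]
    norm_num
  refine ⟨((3 / 4 : ℝ) : ℂ), ?_, ?_⟩
  · rw [(fdom_open hv).frontier_eq]
    exact ⟨ball_subset_closure hs hball, point_notMem h0 hs⟩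
  · exact mem_interior.2 ⟨ball 0 1, ball_subset_closure hs, isOpen_ball, hball⟩

include hv hs in
theorem volume_frontier : volume (frontier (fdom s)) = 0 := by
  rw [(fdom_open hv).frontier_eq]
  have hsub : closure (fdom s) \ fdom s ⊆ (ball (0:ℂ) 1 \ fdom s) ∪ sphere (0:ℂ) 1 := by
    rintro z ⟨hz1, hz2⟩
    have h1 : z ∈ closedBall (0:ℂ) 1 :=
      closure_minimal ((fdom_subset_ball hv).trans ball_subset_closedBall) isClosed_closedBall hz1
    rw [mem_closedBall_zero_iff] at h1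
    rcases h1.lt_or_eq with h2 | h2
    · exact Or.inl ⟨by rwa [mem_ball_zero_iff], hz2⟩
    · exact Or.inr (by rwa [mem_sphere_zero_iff_norm])
  refine measure_mono_null hsub (measure_union_null (volume_ball_diff hs) ?_)
  exact Measure.addHaar_sphere volume 0 1

/-- The staircase data. -/
theorem stairs : Stairs (fun n => (s n).t) (fun n => (s n).W) ↔
    (s 0).t = 1 ∧ (s 0).W = 1 ∧ (∀ n, 0 < (s n).t) ∧ (∀ n, 0 < (s n).W) ∧
      (∀ n, (s (n + 1)).t ≤ (s n).t / 2) ∧ ∀ n, (s (n + 1)).W ≤ (s n).W / 2 :=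
  ⟨fun h => ⟨h.t_zero, h.W_zero, h.t_pos, h.W_pos, h.t_half, h.W_half⟩,
    fun ⟨a, b, c, d, e, f⟩ => ⟨c, d, e, f, a, b⟩⟩

include h0 hv hs in
theorem stairs_of : Stairs (fun n => (s n).t) (fun n => (s n).W) :=
  stairs.2 ⟨by rw [h0]; rfl, by rw [h0]; rfl, fun n => (hv n).tpos, fun n => (hv n).Wpos,
    fun n => (hs n).tle, fun n => (hs n).Wle⟩

/-- The final weight profile. -/
noncomputable def fW (s : ℕ → St) : ℝ → ℝ := Stairs.fn (fun n => (s n).t) (fun n => (s n).W)

include h0 hv hs in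
theorem fW_profile : Profile (fW s) where
  pos := fun _ hx => (stairs_of h0 hv hs).fn_pos hx.1 hx.2
  bdd := ⟨1, fun _ hx => (stairs_of h0 hv hs).fn_le_one hx.2⟩
  mono := (stairs_of h0 hv hs).fn_mono.monotoneOn _

include h0 hv hs in
/-- On the part of the domain added after stage `n`, the weight is tiny. -/
theorem weight_small {φ : ℂ → ℂ} (hφ : DifferentiableOn ℂ φ (fdom s))
    (hb : BijOn φ (fdom s) (ball 0 1)) :
    ∃ N : ℕ, ∀ n ≥ N, ∀ z ∈ fdom s, z ∉ gdom (s n).g →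
      dweight (fW s) (φ z) ≤ ENNReal.ofReal (s (n + 1)).W := by
  obtain ⟨C, hC, hCb⟩ := one_sub_norm_le (fdom_open hv) (fdom_subset_ball hv) hφ hb
  refine ⟨⌈C⌉₊, fun n hn z hz hzn => ?_⟩
  have hCn : C ≤ n + 1 := by
    have h1 := Nat.le_ceil C
    have h2 : ((⌈C⌉₊ : ℕ) : ℝ) ≤ n := by exact_mod_cast hn
    linarith
  have hz1 : z ∈ ball (0:ℂ) 1 := fdom_subset_ball hv hz
  have hgz : 1 ≤ (s n).g z := not_lt.1 hzn
  obtain ⟨a, ha, hga, δ, hδ0, hδ1, hza, hδt⟩ := (hs n).near z hz1 hgz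
  have hau : a ∉ fdom s := notMem_fdom hs ha hga
  have h1 := hCb z hz a hau δ hδ1 hza
  have hlog : 0 < Real.log (3 / δ) := by
    apply Real.log_pos
    rw [lt_div_iff₀ hδ0]
    linarith
  have h2 : 1 - ‖φ z‖ ≤ (s (n + 1)).t := by
    refine h1.trans (le_trans ?_ hδt)
    gcongr
  exact ENNReal.ofReal_le_ofReal ((stairs_of h0 hv hs).fn_le h2)

end

end Pool.Agent.Helper39
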