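import Pool.Agent.Helper39.Limit

/-!
A logarithmic estimate for `1 - |φ|` near the boundary.
-/

open Set Metric Filter Topology

namespace Pool.Agent.Helper39

/-- If `z ∈ Ω` is `δ`-close to a point outside `Ω`, then `1 - |φ z| ≤ C / log (3 / δ)`. -/
theorem one_sub_norm_le {Ω : Set ℂ} (hΩo : IsOpen Ω) (hΩb : Ω ⊆ ball 0 1) {φ : ℂ → ℂ}
    (hφ : DifferentiableOn ℂ φ Ω) (hb : BijOn φ Ω (ball 0 1)) :
    ∃ C : ℝ, 0 < C ∧ ∀ z ∈ Ω, ∀ a ∉ Ω, ∀ δ : ℝ, δ ≤ 1 → ‖z - a‖ ≤ δ →
      1 - ‖φ z‖ ≤ C / Real.log (3 / δ) := by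
  obtain ⟨g, hgd, hgb, hgφ, hφg, -⟩ := exists_inverse hΩo hφ hb
  have h0b : (0:ℂ) ∈ ball (0:ℂ) 1 := mem_ball_self one_pos
  obtain ⟨d, hd, hdΩ⟩ := Metric.isOpen_iff.1 hΩo (g 0) (hgb.mapsTo h0b)
  refine ⟨2 + 2 * (|Real.log (3 / d)| + Real.pi), by positivity, ?_⟩
  intro z hz a ha δ hδ1 hza
  have hza0 : 0 < ‖z - a‖ := by
    rw [norm_pos_iff, sub_ne_zero]; rintro rfl; exact ha hz
  have hδ0 : 0 < δ := hza0.trans_le hza
  have hΩn : ∀ w ∈ Ω, ‖w‖ < 1 := fun w hw => by simpa using hΩb hw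
  have han : ‖a‖ < 2 := by
    have h1 : a = z - (z - a) := by ring
    calc ‖a‖ = ‖z - (z - a)‖ := by rw [← h1]
      _ ≤ ‖z‖ + ‖z - a‖ := norm_sub_le _ _
      _ < 1 + 1 := by linarith [hΩn z hz]
      _ = 2 := by norm_num
  set G : ℂ → ℂ := fun u => (g u - a) / 3 with hG
  have hGd : DifferentiableOn ℂ G (ball 0 1) := (hgd.sub_const a).div_const 3
  have hGne : ∀ u ∈ ball (0:ℂ) 1, G u ≠ 0 := by
    intro u hu h
    have h1 : g u - a = 0 := by
      have : (g u - a) / 3 = 0 := h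
      simpa using this
    exact ha (by rw [← sub_eq_zero.1 h1]; exact hgb.mapsTo hu)
  have hGn : ∀ u ∈ ball (0:ℂ) 1, ‖G u‖ < 1 := by
    intro u hu
    simp only [hG]
    rw [norm_div, div_lt_one (by norm_num)]
    calc ‖g u - a‖ ≤ ‖g u‖ + ‖a‖ := norm_sub_le _ _
      _ < 1 + 2 := by linarith [hΩn _ (hgb.mapsTo hu)]
      _ = ‖(3:ℂ)‖ := by norm_num
  obtain ⟨F₀, hF₀d, hF₀e⟩ := exists_differentiableOn_log
    (isSimplyConnected_of_starConvex ((convex_ball (0:ℂ) 1).starConvex h0b) h0b) isOpen_ball hGd hGne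
  set F : ℂ → ℂ := fun u => F₀ u - (F₀ 0 - Complex.log (G 0)) with hF
  have hFd : DifferentiableOn ℂ F (ball 0 1) := hF₀d.sub_const _
  have hFe : ∀ u ∈ ball (0:ℂ) 1, Complex.exp (F u) = G u := by
    intro u hu
    simp only [hF]
    rw [Complex.exp_sub, hF₀e u hu, Complex.exp_sub, hF₀e 0 h0b, Complex.exp_log (hGne 0 h0b),
      div_self (hGne 0 h0b), div_one]
  have hFre : ∀ u ∈ ball (0:ℂ) 1, (F u).re = Real.log ‖G u‖ := by
    intro u hu
    rw [← hFe u hu, Complex.norm_exp, Real.log_exp]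
  have hF0 : ‖F 0‖ ≤ |Real.log (3 / d)| + Real.pi := by
    have h1 : F 0 = Complex.log (G 0) := by simp [hF]
    rw [h1]
    refine (Complex.norm_le_abs_re_add_abs_im _).trans ?_
    have h2 : |(Complex.log (G 0)).im| ≤ Real.pi := by
      rw [Complex.log_im]; exact Complex.abs_arg_le_pi _
    have h3 : |(Complex.log (G 0)).re| ≤ |Real.log (3 / d)| := by
      rw [Complex.log_re]
      have h4 : ‖G 0‖ < 1 := hGn 0 h0b
      have h5 : 0 < ‖G 0‖ := norm_pos_iff.2 (hGne 0 h0b)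
      have h6 : d / 3 ≤ ‖G 0‖ := by
        simp only [hG]
        rw [norm_div]
        have : d ≤ ‖g 0 - a‖ := by
          by_contra hcon
          push Not at hcon
          apply ha
          apply hdΩ
          rw [mem_ball, dist_comm, dist_eq_norm]
          exact hcon
        norm_num
        linarith
      have h7 : Real.log ‖G 0‖ < 0 := Real.log_neg h5 h4
      rw [abs_of_neg h7]
      have h8 : Real.log (d / 3) ≤ Real.log ‖G 0‖ := Real.log_le_log (by positivity) h6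
      have h9 : Real.log (3 / d) = - Real.log (d / 3) := by
        rw [← Real.log_inv, inv_div]
      rw [h9, abs_neg]
      linarith [neg_le_abs (Real.log (d / 3))]
    linarith
  have hzb := hb.mapsTo hz
  have hBC := Complex.borelCaratheodory (f := F) (M := 1) (R := 1) one_pos hFd (by
    intro u hu
    simp only [mem_ofPred_eq]
    rw [hFre u hu]
    have := Real.log_neg (norm_pos_iff.2 (hGne u hu)) (hGn u hu)
    linarith) one_pos hzb
  have hφn : ‖φ z‖ < 1 := by simpa using hzb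
  have h1φ : 0 < 1 - ‖φ z‖ := by linarith
  have hlog : Real.log (3 / δ) ≤ ‖F (φ z)‖ := by
    have h1 : Real.log (3 / δ) ≤ Real.log (3 / ‖z - a‖) :=
      Real.log_le_log (by positivity) (by gcongr)
    have h2 : (F (φ z)).re = - Real.log (3 / ‖z - a‖) := by
      rw [hFre _ hzb, ← Real.log_inv, inv_div]
      simp only [hG, hgφ z hz]
      rw [norm_div]
      norm_num
    have h3 := Complex.abs_re_le_norm (F (φ z))
    rw [h2, abs_neg] at h3
    exact (h1.trans (le_abs_self _)).trans h3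
  have hlogpos : 0 < Real.log (3 / δ) := by
    apply Real.log_pos
    rw [lt_div_iff₀ hδ0]
    linarith
  have hup : ‖F (φ z)‖ ≤ (2 + 2 * (|Real.log (3 / d)| + Real.pi)) / (1 - ‖φ z‖) := by
    refine hBC.trans ?_
    rw [← add_div]
    refine div_le_div_of_nonneg_right ?_ h1φ.le
    nlinarith [norm_nonneg (φ z), norm_nonneg (F 0), Real.pi_pos, abs_nonneg (Real.log (3 / d))]
  rw [le_div_iff₀ hlogpos]
  have := hlog.trans hup
  rw [le_div_iff₀ h1φ] at this
  linarith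

end Pool.Agent.Helper39
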