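import Pool.Agent.Helper39.Injective

/-!
Change of variables for injective holomorphic maps.
-/

open Set Filter Topology MeasureTheory
open scoped ENNReal

namespace Pool.Agent.Helper39

theorem lintegral_image_holo {U : Set ℂ} (hU : IsOpen U) {f : ℂ → ℂ}
    (hf : DifferentiableOn ℂ f U) (hi : InjOn f U) (F : ℂ → ℝ≥0∞) :
    ∫⁻ w in f '' U, F w = ∫⁻ z in U, ‖deriv f z‖ₑ ^ 2 * F (f z) := by
  have h := lintegral_image_eq_lintegral_abs_det_fderiv_mul volume hU.measurableSet
    (f := f) (f' := fun z =>
      (ContinuousLinearMap.toSpanSingleton ℂ (deriv f z)).restrictScalars ℝ)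
    (fun z hz => by
      have h1 : HasDerivAt f (deriv f z) z := (hf.differentiableAt (hU.mem_nhds hz)).hasDerivAt
      exact (h1.hasFDerivAt.restrictScalars ℝ).hasFDerivWithinAt) hi F
  rw [h]
  refine setLIntegral_congr_fun hU.measurableSet (fun z hz => ?_)
  congr 1
  have : ((ContinuousLinearMap.toSpanSingleton ℂ (deriv f z)).restrictScalars ℝ).det
      = ‖deriv f z‖ ^ 2 := by
    simp [ContinuousLinearMap.det, LinearMap.det_restrictScalars,
      Algebra.norm_complex_eq, Complex.normSq_eq_norm_sq]
  rw [this, abs_of_nonneg (by positivity), ENNReal.ofReal_pow (norm_nonneg _), ofReal_norm]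

end Pool.Agent.Helper39
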