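import Pool.Agent.Helper39.Assembly

/-!
Completeness of polynomials for the constructed domain and weight.
-/

open Set Metric Filter Topology MeasureTheory
open scoped ENNReal Real

namespace Pool.Agent.Helper39

variable {Θ : ℝ → ℝ} {s : ℕ → St} (h0 : s 0 = st0) (hv : ∀ n, (s n).Valid)
  (hs : ∀ n, Step Θ n (s n) (s (n + 1)))

theorem wmeas_le_of_le_one {U : Set ℂ} (hU : IsOpen U) {w : ℂ → ℝ≥0∞} (hw : ∀ z ∈ U, w z ≤ 1) :
    wmeas U w ≤ volume.restrict U := by
  unfold wmeas
  calc (volume.restrict U).withDensity w ≤ (volume.restrict U).withDensity 1 := by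
        apply withDensity_mono
        filter_upwards [ae_restrict_mem hU.measurableSet] with z hz using hw z hz
    _ = volume.restrict U := withDensity_one

theorem wmeas_restrict_le {U V B : Set ℂ} (hU : IsOpen U) (hV : IsOpen V) (hUB : U ⊆ B)
    {w : ℂ → ℝ≥0∞} {c : ℝ≥0∞} (hw : ∀ z ∈ U, z ∉ V → w z ≤ c) :
    (wmeas U w).restrict Vᶜ ≤ c • volume.restrict B := by
  unfold wmeas
  rw [restrict_withDensity hV.measurableSet.compl, Measure.restrict_restrict
    hV.measurableSet.compl]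
  calc (volume.restrict (Vᶜ ∩ U)).withDensity w
      ≤ (volume.restrict (Vᶜ ∩ U)).withDensity (fun _ => c) := by
        apply withDensity_mono
        filter_upwards [ae_restrict_mem (hV.measurableSet.compl.inter hU.measurableSet)] with z hz
          using hw z hz.2 hz.1
    _ = c • volume.restrict (Vᶜ ∩ U) := withDensity_const c
    _ ≤ c • volume.restrict B := by
        gcongr
        exact inter_subset_right.trans hUB

include h0 hv hs in
/-- The frame functions of the Riemann map are approximable for rational exponents. -/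
theorem frame_appr {ψ M : ℂ → ℂ} (hψ : RMap (fdom s) ψ) (hM : LogDer (fdom s) ψ M)
    {φ : ℂ → ℂ} (hφ : DifferentiableOn ℂ φ (fdom s)) (hb : BijOn φ (fdom s) (ball 0 1))
    (i j : ℕ) : Appr (qexp i) (wmeas (fdom s) (fun z => dweight (fW s) (φ z)))
      (fun z => ψ z ^ j * frame (qexp i) M z) := by
  set q := qexp i with hq
  have hq1 : 1 ≤ q := one_le_qexp i
  have hqt : q ≠ ∞ := qexp_ne_top i
  set U := fdom s with hU
  have hUo : IsOpen U := fdom_open hv
  set w : ℂ → ℝ≥0∞ := fun z => dweight (fW s) (φ z) with hw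
  set μ := wmeas U w with hμ
  have hprof := fW_profile h0 hv hs
  have hw1 : ∀ z ∈ U, w z ≤ 1 := by
    intro z hz
    have h1 := (stairs_of h0 hv hs).fn_le_one (one_sub_norm_mem (hb.mapsTo hz)).2
    exact ENNReal.ofReal_le_one.2 h1
  have hμle : μ ≤ volume.restrict U := wmeas_le_of_le_one hUo hw1
  choose φs Ls hRM hLD hpoly using fun n => (hs n).poly
  have hst : ∀ n, StarDom (gdom (s n).g) := fun n => (hv n).gauge.starDom
  have hmono := gdom_mono hs
  obtain ⟨k, hk, hlim⟩ := rmap_subseq hmono (fun n => (hst n).isOpen) (fun n => (hst n).zero_mem)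
    (fdom_star hv |>.isPathConnected (zero_mem_fdom hv) |>.isConnected.isPreconnected) hRM hψ
  have hT := frame_tendsto hmono hst hRM hψ hLD hM hk hlim hq1 hqt j
  obtain ⟨N, hN⟩ := weight_small h0 hv hs hφ hb
  intro ε hε
  have hε3 : ε / 3 ≠ 0 := ENNReal.div_ne_zero.2 ⟨hε, by simp⟩
  have hsmall : Tendsto (fun n : ℕ => ENNReal.ofReal (1 / ((n:ℝ) + 1))) atTop (𝓝 0) := by
    have := ENNReal.tendsto_ofReal (tendsto_one_div_add_atTop_nhds_zero_nat (𝕜 := ℝ))
    simpa using this
  have hev := (hT.eventually (gt_mem_nhds (pos_iff_ne_zero.2 hε3))).and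
    ((((hsmall.comp hk.tendsto_atTop).eventually (gt_mem_nhds (pos_iff_ne_zero.2 hε3)))).and
      ((hk.tendsto_atTop.eventually (eventually_ge_atTop N)).and
        (hk.tendsto_atTop.eventually (eventually_ge_atTop (Nat.pair i j)))))
  obtain ⟨m, hm1, hm2, hm3, hm4⟩ := hev.exists
  set n := k m with hn
  simp only [Function.comp_apply] at hm2
  obtain ⟨P, hP1, hP2⟩ := hpoly n (Nat.pair i j) hm4
  simp only [Nat.unpair_pair] at hP1 hP2
  refine ⟨P, ?_⟩
  set V := gdom (s n).g with hV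
  have hVo : IsOpen V := (hst n).isOpen
  have hVU : V ⊆ U := subset_iUnion (fun n => gdom (s n).g) n
  set h : ℂ → ℂ := fun z => ψ z ^ j * frame q M z with hh
  set hn' : ℂ → ℂ := fun z => φs n z ^ j * frame q (Ls n) z with hhn
  have hhd : DifferentiableOn ℂ h U := (hψ.diff.pow j).mul (frame_differentiableOn hM.diff q)
  have hhnd : DifferentiableOn ℂ hn' V :=
    ((hRM n).diff.pow j).mul (frame_differentiableOn (hLD n).diff q)
  have hhm : AEMeasurable h μ := (aemeasurable_of_diff hUo hhd).mono_ac (wmeas_ac _ _)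
  have hPm : Measurable (fun z : ℂ => P.eval z) := P.continuous.measurable
  have hind : AEMeasurable (V.indicator hn') μ := by
    have h1 := (aemeasurable_indicator_iff hVo.measurableSet).2 (aemeasurable_of_diff hVo hhnd)
    exact h1.mono_ac ((wmeas_ac U w).trans Measure.restrict_le_self.absolutelyContinuous)
  have hindP : AEMeasurable (V.indicator (fun z => hn' z - P.eval z)) μ := by
    have h1 := (aemeasurable_indicator_iff hVo.measurableSet).2
      ((aemeasurable_of_diff hVo hhnd).sub hPm.aemeasurable)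
    exact h1.mono_ac ((wmeas_ac U w).trans Measure.restrict_le_self.absolutelyContinuous)
  -- three pieces
  have e1 : eLpNorm (V.indicator hn' - h) q μ < ε / 3 :=
    (eLpNorm_mono_measure _ hμle).trans_lt hm1
  have e2 : eLpNorm (V.indicator (fun z => hn' z - P.eval z)) q μ < ε / 3 := by
    rw [eLpNorm_indicator_eq_eLpNorm_restrict hVo.measurableSet]
    refine lt_of_le_of_lt ?_ hm2
    refine (eLpNorm_mono_measure _ ?_).trans hP1
    calc μ.restrict V ≤ (volume.restrict U).restrict V := Measure.restrict_mono le_rfl hμle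
      _ = volume.restrict V := by
          rw [Measure.restrict_restrict hVo.measurableSet, inter_eq_left.2 hVU]
  have e3 : eLpNorm (Vᶜ.indicator (fun z => P.eval z)) q μ < ε / 3 := by
    rw [eLpNorm_indicator_eq_eLpNorm_restrict hVo.measurableSet.compl]
    refine lt_of_le_of_lt ?_ hm2
    refine (eLpNorm_mono_measure _ ?_).trans hP2
    exact wmeas_restrict_le hUo hVo (fdom_subset_ball hv) (fun z hz hzV => hN n hm3 z hz hzV)
  have hsplit : (fun z => h z - P.eval z) =
      ((h - V.indicator hn') + V.indicator (fun z => hn' z - P.eval z))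
        - Vᶜ.indicator (fun z => P.eval z) := by
    funext z
    by_cases hz : z ∈ V
    · simp [hz]
    · simp [hz]
  rw [hsplit]
  have e1' : eLpNorm (h - V.indicator hn') q μ < ε / 3 := by rwa [eLpNorm_sub_comm]
  calc eLpNorm (((h - V.indicator hn') + V.indicator (fun z => hn' z - P.eval z))
        - Vᶜ.indicator (fun z => P.eval z)) q μ
      ≤ eLpNorm ((h - V.indicator hn') + V.indicator (fun z => hn' z - P.eval z)) q μ
        + eLpNorm (Vᶜ.indicator (fun z => P.eval z)) q μ :=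
        eLpNorm_sub_le ((hhm.sub hind).add hindP).aestronglyMeasurable
          (hPm.indicator hVo.measurableSet.compl).aestronglyMeasurable hq1
    _ ≤ eLpNorm (h - V.indicator hn') q μ + eLpNorm (V.indicator (fun z => hn' z - P.eval z)) q μ
        + eLpNorm (Vᶜ.indicator (fun z => P.eval z)) q μ := by
        gcongr
        exact eLpNorm_add_le (hhm.sub hind).aestronglyMeasurable hindP.aestronglyMeasurable hq1
    _ < ε / 3 + ε / 3 + ε / 3 := ENNReal.add_lt_add (ENNReal.add_lt_add e1' e2) e3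
    _ = ε := ENNReal.add_thirds ε

theorem Appr.mono_exponent {p q : ℝ≥0∞} (hpq : p ≤ q) {μ : Measure ℂ} (hμ : μ univ ≠ ∞)
    (hp : 1 ≤ p) (hq : q ≠ ∞)
    {h : ℂ → ℂ} (hm : AEMeasurable h μ) (ha : Appr q μ h) : Appr p μ h := by
  have hp0 : p ≠ 0 := by rintro rfl; simp at hp
  have hpt : p ≠ ∞ := ne_top_of_le_ne_top hq hpq
  intro ε hε
  set K : ℝ≥0∞ := μ univ ^ (1 / p.toReal - 1 / q.toReal) with hK
  have hpr : 0 < p.toReal := ENNReal.toReal_pos hp0 hpt
  have hKtop : K ≠ ∞ := by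
    apply ENNReal.rpow_ne_top_of_nonneg _ hμ
    rw [sub_nonneg]
    exact one_div_le_one_div_of_le hpr (ENNReal.toReal_mono hq hpq)
  have hK0 : K + 1 ≠ 0 := by simp
  have hKt : K + 1 ≠ ∞ := by simp [hKtop]
  obtain ⟨P, hP⟩ := ha (ε / (K + 1)) (ENNReal.div_ne_zero.2 ⟨hε, hKt⟩)
  refine ⟨P, ?_⟩
  have hPm : AEMeasurable (fun z : ℂ => P.eval z) μ := P.continuous.aemeasurable
  calc eLpNorm (fun z => h z - P.eval z) p μ
      ≤ eLpNorm (fun z => h z - P.eval z) q μ * K :=
        eLpNorm_le_eLpNorm_mul_rpow_measure_univ hpq (hm.sub hPm).aestronglyMeasurable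
    _ ≤ eLpNorm (fun z => h z - P.eval z) q μ * (K + 1) := by gcongr; exact le_self_add
    _ < (ε / (K + 1)) * (K + 1) := (ENNReal.mul_lt_mul_iff_left hK0 hKt).2 hP
    _ = ε := ENNReal.div_mul_cancel hK0 hKt

/-- Convergence of frames in the exponent. -/
theorem frame_exponent_tendsto {U : Set ℂ} (hUo : IsOpen U) (hUb : Bornology.IsBounded U)
    {ψ M : ℂ → ℂ} (hψ : RMap U ψ) (hM : LogDer U ψ M) {p : ℝ≥0∞} (hp : 1 ≤ p) (hpt : p ≠ ∞)
    {q : ℕ → ℝ≥0∞} (hpq : ∀ n, p.toReal ≤ (q n).toReal)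
    (hq : Tendsto (fun n => (q n).toReal) atTop (𝓝 p.toReal)) (j : ℕ) :
    Tendsto (fun n => eLpNorm ((fun z => ψ z ^ j * frame (q n) M z)
      - fun z => ψ z ^ j * frame p M z) p (volume.restrict U)) atTop (𝓝 0) := by
  have hp0 : p ≠ 0 := by rintro rfl; simp at hp
  have hpr : 0 < p.toReal := ENNReal.toReal_pos hp0 hpt
  have hp1 : 1 ≤ p.toReal := by
    have := ENNReal.toReal_mono hpt hp
    simpa using this
  have hqr : ∀ n, 0 < (q n).toReal := fun n => hpr.trans_le (hpq n)
  have hd : ∀ q : ℝ≥0∞, DifferentiableOn ℂ (fun z => ψ z ^ j * frame q M z) U := fun q =>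
    (hψ.diff.pow j).mul (frame_differentiableOn hM.diff q)
  have hψ1 : ∀ z ∈ U, ‖ψ z ^ j‖ₑ ≤ 1 := by
    intro z hz
    have h1 := hψ.norm_lt hz
    rw [enorm_pow]
    apply pow_le_one₀ (by simp)
    rw [← ofReal_norm]
    exact ENNReal.ofReal_le_one.2 h1.le
  -- uniform bound
  have hbd : ∀ q : ℝ≥0∞, p.toReal ≤ q.toReal → ∀ z ∈ U,
      ‖ψ z ^ j * frame q M z‖ₑ ^ p.toReal ≤ 1 + ‖deriv ψ z‖ₑ ^ 2 := by
    intro q hq z hz
    have hqr : 0 < q.toReal := hpr.trans_le hq
    have h1 := frame_norm hqr (hM.exp_eq z hz)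
    have h2 : ‖frame q M z‖ₑ ^ p.toReal = (‖deriv ψ z‖ₑ ^ 2) ^ (p.toReal / q.toReal) := by
      rw [← h1, ← ENNReal.rpow_mul]
      congr 1
      field_simp
    calc ‖ψ z ^ j * frame q M z‖ₑ ^ p.toReal
        = ‖ψ z ^ j‖ₑ ^ p.toReal * ‖frame q M z‖ₑ ^ p.toReal := by
          rw [enorm_mul, ENNReal.mul_rpow_of_nonneg _ _ hpr.le]
      _ ≤ 1 * ‖frame q M z‖ₑ ^ p.toReal := by
          gcongr
          exact ENNReal.rpow_le_one (hψ1 z hz) hpr.le
      _ = (‖deriv ψ z‖ₑ ^ 2) ^ (p.toReal / q.toReal) := by rw [one_mul, h2]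
      _ ≤ 1 + ‖deriv ψ z‖ₑ ^ 2 := by
          have hexp1 : p.toReal / q.toReal ≤ 1 := (div_le_one hqr).2 hq
          have hexp0 : 0 ≤ p.toReal / q.toReal := by positivity
          rcases le_total (‖deriv ψ z‖ₑ ^ 2) 1 with hx | hx
          · exact (ENNReal.rpow_le_one hx hexp0).trans le_self_add
          · calc (‖deriv ψ z‖ₑ ^ 2) ^ (p.toReal / q.toReal) ≤ (‖deriv ψ z‖ₑ ^ 2) ^ (1:ℝ) :=
                  ENNReal.rpow_le_rpow_of_exponent_le hx hexp1
              _ = ‖deriv ψ z‖ₑ ^ 2 := ENNReal.rpow_one _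
              _ ≤ 1 + ‖deriv ψ z‖ₑ ^ 2 := le_add_self
  have hfinite : ∫⁻ z in U, (1 + ‖deriv ψ z‖ₑ ^ 2) ≠ ∞ := by
    rw [lintegral_add_left measurable_const]
    refine ENNReal.add_ne_top.2 ⟨?_, ?_⟩
    · rw [setLIntegral_const, one_mul]
      exact hUb.measure_lt_top.ne
    · have := lintegral_image_holo hUo hψ.diff hψ.bij.injOn (fun _ => 1)
      rw [hψ.bij.image_eq] at this
      simp only [mul_one] at this
      rw [← this, setLIntegral_const, one_mul]
      exact measure_ball_lt_top.ne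
  set C : ℝ≥0∞ := 2 ^ (p.toReal - 1) with hC
  have hCtop : C ≠ ∞ := by
    rw [hC]; exact ENNReal.rpow_ne_top_of_nonneg (by linarith) (by norm_num)
  have hlim : Tendsto (fun n => ∫⁻ z in U, ‖ψ z ^ j * frame (q n) M z - ψ z ^ j * frame p M z‖ₑ
      ^ p.toReal) atTop (𝓝 (∫⁻ z in U, 0)) := by
    refine tendsto_lintegral_of_dominated_convergence'
      (fun z => C * ((1 + ‖deriv ψ z‖ₑ ^ 2) + (1 + ‖deriv ψ z‖ₑ ^ 2))) (fun n => ?_) (fun n => ?_)
      ?_ ?_
    · exact ((aemeasurable_of_diff hUo (hd (q n))).sub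
        (aemeasurable_of_diff hUo (hd p))).enorm.pow_const _
    · filter_upwards [ae_restrict_mem hUo.measurableSet] with z hz
      calc ‖ψ z ^ j * frame (q n) M z - ψ z ^ j * frame p M z‖ₑ ^ p.toReal
          ≤ (‖ψ z ^ j * frame (q n) M z‖ₑ + ‖ψ z ^ j * frame p M z‖ₑ) ^ p.toReal :=
            ENNReal.rpow_le_rpow enorm_sub_le hpr.le
        _ ≤ C * (‖ψ z ^ j * frame (q n) M z‖ₑ ^ p.toReal + ‖ψ z ^ j * frame p M z‖ₑ ^ p.toReal) :=
            ENNReal.rpow_add_le_mul_rpow_add_rpow _ _ hp1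
        _ ≤ _ := by
            gcongr
            · exact hbd (q n) (hpq n) z hz
            · exact hbd p le_rfl z hz
    · rw [lintegral_const_mul' _ _ hCtop]
      refine ENNReal.mul_ne_top hCtop ?_
      rw [lintegral_add_left']
      · exact ENNReal.add_ne_top.2 ⟨hfinite, hfinite⟩
      · exact (aemeasurable_const).add
          ((aemeasurable_of_diff hUo (hψ.diff.deriv hUo)).enorm.pow_const _)
    · filter_upwards [ae_restrict_mem hUo.measurableSet] with z hz
      have h1 : Tendsto (fun n => (((2 / (q n).toReal : ℝ) : ℂ)) * M z) atTop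
          (𝓝 (((2 / p.toReal : ℝ) : ℂ) * M z)) := by
        refine Tendsto.mul_const _ ?_
        exact (Complex.continuous_ofReal.tendsto _).comp (tendsto_const_nhds.div hq hpr.ne')
      have h2 : Tendsto (fun n => frame (q n) M z) atTop (𝓝 (frame p M z)) :=
        (Complex.continuous_exp.tendsto _).comp h1
      have h3 : Tendsto (fun n => ψ z ^ j * frame (q n) M z - ψ z ^ j * frame p M z) atTop
          (𝓝 0) := by
        have := (h2.const_mul (ψ z ^ j)).sub_const (ψ z ^ j * frame p M z)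
        simpa using this
      have h4 := ((ENNReal.continuous_rpow_const (y := p.toReal)).tendsto _).comp
        ((continuous_enorm.tendsto _).comp h3)
      simpa [Function.comp_def, ENNReal.zero_rpow_of_pos hpr] using h4
  rw [lintegral_zero] at hlim
  have h5 : ∀ n, eLpNorm ((fun z => ψ z ^ j * frame (q n) M z)
      - fun z => ψ z ^ j * frame p M z) p (volume.restrict U)
      = (∫⁻ z in U, ‖ψ z ^ j * frame (q n) M z - ψ z ^ j * frame p M z‖ₑ
      ^ p.toReal) ^ (1 / p.toReal) := by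
    intro n
    rw [eLpNorm_eq_lintegral_rpow_enorm_toReal hp0 hpt]
    rfl
  simp only [h5]
  have := ((ENNReal.continuous_rpow_const (y := 1 / p.toReal)).tendsto _).comp hlim
  rw [ENNReal.zero_rpow_of_pos (by positivity)] at this
  exact this

include h0 hv hs in
/-- The frame functions are approximable for all exponents. -/
theorem frame_appr_all {ψ M : ℂ → ℂ} (hψ : RMap (fdom s) ψ) (hM : LogDer (fdom s) ψ M)
    {φ : ℂ → ℂ} (hφ : DifferentiableOn ℂ φ (fdom s)) (hb : BijOn φ (fdom s) (ball 0 1))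
    {p : ℝ≥0∞} (hp : 1 ≤ p) (hpt : p ≠ ∞) (j : ℕ) :
    Appr p (wmeas (fdom s) (fun z => dweight (fW s) (φ z)))
      (fun z => ψ z ^ j * frame p M z) := by
  have hUo : IsOpen (fdom s) := fdom_open hv
  have hUb : Bornology.IsBounded (fdom s) := isBounded_ball.subset (fdom_subset_ball hv)
  set w : ℂ → ℝ≥0∞ := fun z => dweight (fW s) (φ z) with hw
  set μ := wmeas (fdom s) w with hμ
  have hw1 : ∀ z ∈ fdom s, w z ≤ 1 := by
    intro z hz
    have h1 := (stairs_of h0 hv hs).fn_le_one (one_sub_norm_mem (hb.mapsTo hz)).2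
    exact ENNReal.ofReal_le_one.2 h1
  have hμle : μ ≤ volume.restrict (fdom s) := wmeas_le_of_le_one hUo hw1
  have hμfin : μ univ ≠ ∞ := (wmeas_univ_lt_top hUo hUb ENNReal.one_ne_top hw1).ne
  have hp1 : 1 ≤ p.toReal := by
    have := ENNReal.toReal_mono hpt hp
    simpa using this
  choose i hi1 hi2 using fun n : ℕ => exists_qexp hp1 (show (0:ℝ) < 1 / ((n:ℝ) + 1) by positivity)
  have hqlim : Tendsto (fun n => (qexp (i n)).toReal) atTop (𝓝 p.toReal) := by
    have h1 : Tendsto (fun n : ℕ => p.toReal + 1 / ((n:ℝ) + 1)) atTop (𝓝 (p.toReal + 0)) :=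
      tendsto_const_nhds.add tendsto_one_div_add_atTop_nhds_zero_nat
    rw [add_zero] at h1
    exact tendsto_of_tendsto_of_tendsto_of_le_of_le tendsto_const_nhds h1 hi1 (fun n => (hi2 n).le)
  have hT := frame_exponent_tendsto hUo hUb hψ hM hp hpt hi1 hqlim j
  have hd : ∀ q : ℝ≥0∞, AEMeasurable (fun z => ψ z ^ j * frame q M z) μ := fun q =>
    (aemeasurable_of_diff hUo ((hψ.diff.pow j).mul (frame_differentiableOn hM.diff q))).mono_ac
      (wmeas_ac _ _)
  refine Appr.of_close hp (hd p) (fun ε hε => ?_)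
  obtain ⟨n, hn⟩ := (hT.eventually (gt_mem_nhds (pos_iff_ne_zero.2 hε))).exists
  have hpq : p ≤ qexp (i n) := (ENNReal.toReal_le_toReal hpt (qexp_ne_top _)).1 (hi1 n)
  refine ⟨fun z => ψ z ^ j * frame (qexp (i n)) M z, hd _, ?_, ?_⟩
  · exact Appr.mono_exponent hpq hμfin hp (qexp_ne_top _) (hd _)
      (frame_appr h0 hv hs hψ hM hφ hb (i n) j)
  · have h1 : eLpNorm ((fun z => ψ z ^ j * frame p M z)
        - fun z => ψ z ^ j * frame (qexp (i n)) M z) p μ < ε := by
      rw [eLpNorm_sub_comm]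
      exact (eLpNorm_mono_measure _ hμle).trans_lt hn
    exact h1

theorem profile_one : Profile (fun _ => (1:ℝ)) where
  pos := fun _ _ => one_pos
  bdd := ⟨1, fun _ _ => le_rfl⟩
  mono := fun _ _ _ _ _ => le_rfl

include h0 hv hs in
/-- **Completeness.** Every function in the weighted Bergman space is approximable. -/
theorem appr_all {φ : ℂ → ℂ} (hφ : DifferentiableOn ℂ φ (fdom s))
    (hb : BijOn φ (fdom s) (ball 0 1)) {p : ℝ≥0∞} (hp : 1 ≤ p) (hpt : p ≠ ∞) {f : ℂ → ℂ}
    (hf : DifferentiableOn ℂ f (fdom s))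
    (hfin : ∫⁻ z in fdom s, dweight (fW s) (φ z) * ‖f z‖ₑ ^ p.toReal ≠ ∞) :
    Appr p (wmeas (fdom s) (fun z => dweight (fW s) (φ z))) f := by
  have hp0 : p ≠ 0 := by rintro rfl; simp at hp
  have hpr : 0 < p.toReal := ENNReal.toReal_pos hp0 hpt
  have hUo : IsOpen (fdom s) := fdom_open hv
  have hUb : Bornology.IsBounded (fdom s) := isBounded_ball.subset (fdom_subset_ball hv)
  have hUs := fdom_simplyConnected hv
  have h0U := zero_mem_fdom hv
  set w : ℂ → ℝ≥0∞ := fun z => dweight (fW s) (φ z) with hw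
  set μ := wmeas (fdom s) w with hμ
  have hw1 : ∀ z ∈ fdom s, w z ≤ 1 := by
    intro z hz
    have h1 := (stairs_of h0 hv hs).fn_le_one (one_sub_norm_mem (hb.mapsTo hz)).2
    exact ENNReal.ofReal_le_one.2 h1
  have hμle : μ ≤ volume.restrict (fdom s) := wmeas_le_of_le_one hUo hw1
  obtain ⟨ψ, hψ⟩ := exists_rmap hUo hUs h0U hUb
  obtain ⟨M, hM⟩ := hψ.exists_logDer hUo hUs h0U
  obtain ⟨K, hKd, hKe⟩ := exists_differentiableOn_log hUs hUo (hφ.deriv hUo)
    (fun z hz => deriv_ne_zero_of_injOn hUo hφ hb.injOn hz)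
  have hm : ∀ {h : ℂ → ℂ}, DifferentiableOn ℂ h (fdom s) → AEMeasurable h μ := fun hh =>
    (aemeasurable_of_diff hUo hh).mono_ac (wmeas_ac _ _)
  refine Appr.of_close hp (hm hf) (fun ε hε => ?_)
  obtain ⟨Q, hQ⟩ := exists_poly_frame hUo hφ hb hKd hKe hp hpt (fW_profile h0 hv hs) hf hfin hε
  have hQd : DifferentiableOn ℂ (fun z => Q.eval (φ z) * frame p K z) (fdom s) :=
    (Q.differentiable.comp_differentiableOn hφ).mul (frame_differentiableOn hKd p)
  refine ⟨fun z => Q.eval (φ z) * frame p K z, hm hQd, ?_, hQ⟩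
  -- second approximation
  refine Appr.of_close hp (hm hQd) (fun ε' hε' => ?_)
  have hone : ∀ u : ℂ, dweight (fun _ => (1:ℝ)) u = 1 := fun u => by simp [dweight]
  have hfin2 : ∫⁻ z in fdom s, dweight (fun _ => (1:ℝ)) (ψ z) *
      ‖Q.eval (φ z) * frame p K z‖ₑ ^ p.toReal ≠ ∞ := by
    simp only [hone]
    rw [lintegral_frame hUo hφ hb hKe hpr (fun _ => 1) (fun u => Q.eval u)]
    obtain ⟨B, hB⟩ := (isCompact_closedBall (0:ℂ) 1).exists_bound_of_continuousOn
      Q.continuous.continuousOn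
    have : ∫⁻ u in ball (0:ℂ) 1, 1 * ‖Q.eval u‖ₑ ^ p.toReal
        ≤ ∫⁻ _ in ball (0:ℂ) 1, (ENNReal.ofReal B) ^ p.toReal := by
      refine setLIntegral_mono' measurableSet_ball (fun u hu => ?_)
      rw [one_mul]
      apply ENNReal.rpow_le_rpow _ hpr.le
      rw [← ofReal_norm]
      exact ENNReal.ofReal_le_ofReal (hB u (ball_subset_closedBall hu))
    refine (this.trans_lt ?_).ne
    rw [setLIntegral_const]
    exact ENNReal.mul_lt_top (ENNReal.rpow_lt_top_of_nonneg hpr.le ENNReal.ofReal_ne_top)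
      measure_ball_lt_top
  obtain ⟨Q', hQ'⟩ := exists_poly_frame hUo hψ.diff hψ.bij hM.diff hM.exp_eq hp hpt profile_one
    hQd hfin2 hε'
  have hvol : wmeas (fdom s) (fun z => dweight (fun _ => (1:ℝ)) (ψ z))
      = volume.restrict (fdom s) := by
    simp only [hone]
    unfold wmeas
    exact withDensity_one
  rw [hvol] at hQ'
  refine ⟨fun z => Q'.eval (ψ z) * frame p M z, hm ((Q'.differentiable.comp_differentiableOn
    hψ.diff).mul (frame_differentiableOn hM.diff p)), ?_, (eLpNorm_mono_measure _ hμle).trans_lt hQ'⟩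
  exact Appr.poly hp (hm hψ.diff) (hm (frame_differentiableOn hM.diff p))
    (fun j => frame_appr_all h0 hv hs hψ hM hφ hb hp hpt j) Q'

end Pool.Agent.Helper39
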