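import Mathlib

/-!
Order-preserving actions of cyclically glued pretzel pieces on complete linear orders.

At each place `i` of the cycle there are order automorphisms `x i`, `y i`, `z i = x i * y i`, and
fractional powers `X i`, `Y i`, `Z i` of them.  We show that the relations between neighbouring
places force all of them to be trivial.
-/

set_option autoImplicit false

namespace Pool.Agent.Helper39.CycPretzel

section Fixed

variable {Ω : Type*} [CompleteLinearOrder Ω]

/-- An automorphism which moves `w` up and `t` down, where `w ≤ t`, has a fixed point between. -/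
theorem exists_fixed (z : Ω ≃o Ω) {w t : Ω} (hwt : w ≤ t) (hw : w ≤ z w) (ht : z t ≤ t) :
    ∃ f, w ≤ f ∧ f ≤ t ∧ z f = f := by
  refine ⟨sSup {p | p ≤ t ∧ p ≤ z p}, le_sSup ⟨hwt, hw⟩, sSup_le fun p hp => hp.1, ?_⟩
  set g := sSup {p | p ≤ t ∧ p ≤ z p} with hg
  have h1 : g ≤ t := sSup_le fun p hp => hp.1
  have h2 : g ≤ z g := sSup_le fun p hp => hp.2.trans (z.monotone (le_sSup hp))
  have h3 : z g ≤ g := le_sSup ⟨(z.monotone h1).trans ht, z.monotone h2⟩
  exact le_antisymm h3 h2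

end Fixed

section Piece

variable {Ω : Type*} [CompleteLinearOrder Ω]

/-- The automorphisms attached to one place. -/
structure Piece (Ω : Type*) [CompleteLinearOrder Ω] where
  x : Ω ≃o Ω
  y : Ω ≃o Ω
  X : Ω ≃o Ω
  Y : Ω ≃o Ω
  Z : Ω ≃o Ω
  W : Ω ≃o Ω
  cX : ∀ p, x (X p) = X (x p)
  cZ : ∀ p, x (y (Z p)) = Z (x (y p))
  X1 : ∀ p, p ≤ x p → x p ≤ X p
  X2 : ∀ p, x p ≤ p → X p ≤ x p
  Y1 : ∀ p, p ≤ y p → p ≤ Y p ∧ Y p ≤ y p
  Y2 : ∀ p, y p ≤ p → Y p ≤ p ∧ y p ≤ Y p
  S : (∀ p, Y p = p → y p = p) ∨ ((∀ p, Y p = p) ∧ ∀ p, Z p = p → x (y p) = p)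
  Z1 : ∀ p, p ≤ x (y p) → p ≤ Z p
  Z2 : ∀ p, x (y p) ≤ p → Z p ≤ p
  W1 : ∀ p, p ≤ Y (X p) → p ≤ W p
  W2 : ∀ p, Y (X p) ≤ p → W p ≤ p

namespace Piece

variable (D : Piece Ω)

/-- The curve which leaves the place. -/
def e (s : Ω) : Ω := D.Y (D.X s)

/-- The same curve seen from the place before. -/
def em (s : Ω) : Ω := D.x (D.y (D.Y (D.X s)))

/-- The second curve at the entrance. -/
def h (s : Ω) : Ω := D.Z.symm (D.X s)

/-- The second curve at the exit, before the last twist. -/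
def hp (s : Ω) : Ω := D.y.symm (D.x.symm (D.Z.symm (D.X (D.x s))))

/-- The same data with the order reversed. -/
def dual : Piece Ωᵒᵈ where
  x := D.x.dual
  y := D.y.dual
  X := D.X.dual
  Y := D.Y.dual
  Z := D.Z.dual
  W := D.W.dual
  cX := D.cX
  cZ := D.cZ
  X1 := D.X2
  X2 := D.X1
  Y1 := D.Y2
  Y2 := D.Y1
  S := D.S
  Z1 := D.Z2
  Z2 := D.Z1
  W1 := D.W2
  W2 := D.W1

theorem Ylt {p : Ω} (h : D.Y p < p) : D.y p < p := by
  by_contra hc
  exact absurd (D.Y1 p (not_lt.mp hc)).1 (not_le.mpr h)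

theorem Yge (Y3 : ∀ p, D.Y p = p → D.y p = p) {p : Ω} (h : p ≤ D.Y p) : p ≤ D.y p := by
  rcases lt_or_ge (D.y p) p with h1 | h1
  · have h2 := (D.Y2 p h1.le).1
    exact (Y3 p (le_antisymm h2 h)).ge
  · exact h1

theorem Yle (Y3 : ∀ p, D.Y p = p → D.y p = p) {p : Ω} (h : D.Y p ≤ p) : D.y p ≤ p := by
  rcases lt_or_ge p (D.y p) with h1 | h1
  · have h2 := (D.Y1 p h1.le).1
    exact (Y3 p (le_antisymm h h2)).le
  · exact h1

/-- In the state `s ≤ e s < h s` the automorphism `y` moves `X s` down. -/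
theorem y_lt {s : Ω} (h1 : s ≤ D.e s) (h2 : D.e s < D.h s) : D.y (D.X s) < D.X s := by
  by_contra hc
  push Not at hc
  set t := D.X s with ht
  have hq := D.Y1 t hc
  have h2' : D.Z (D.Y t) < t := by
    have := D.Z.strictMono h2
    simpa [h, e] using this
  have h3 : D.x (D.y t) < t := by
    by_contra hcon
    push Not at hcon
    exact absurd ((D.Z1 t hcon).trans (D.Z.monotone hq.1)) (not_le.mpr h2')
  have h4 : D.x (D.Y t) < t := (D.x.monotone hq.2).trans_lt h3
  have h5 : D.X (D.Y t) < t := (D.X2 _ (h4.le.trans hq.1)).trans_lt h4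
  exact absurd (D.X.monotone h1) (not_le.mpr h5)

/-- In the state `s ≤ e s < h s` the second curve grows. -/
theorem h_lt_hp {s : Ω} (h1 : s ≤ D.e s) (h2 : D.e s < D.h s) : D.h s < D.hp s := by
  have h3 := D.y_lt h1 h2
  unfold hp
  rw [D.y.lt_symm_apply, D.x.lt_symm_apply, D.Z.lt_symm_apply, ← D.cZ]
  unfold h
  rw [OrderIso.apply_symm_apply, ← D.cX]
  exact D.x.strictMono h3

theorem e_lt_h {s : Ω} (h1 : D.em s < D.h s) (h2 : s ≤ D.e s) : D.e s < D.h s := by
  unfold h at h1 ⊢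
  rw [D.Z.lt_symm_apply] at h1 ⊢
  unfold em at h1
  unfold e at h2 ⊢
  set t := D.X s with ht
  set q := D.Y t with hq
  by_contra hc
  push Not at hc
  -- `t ≤ Z q`
  have h3 : D.x (D.y q) < q := D.Z.lt_iff_lt.mp (h1.trans_le hc)
  have h4 : D.Z q ≤ q := D.Z2 q h3.le
  have h5 : t ≤ q := hc.trans h4
  rcases D.S with Y3 | ⟨hY, hZ⟩
  swap
  · have hqt : q = t := hY t
    rw [hqt] at hc h3 h4
    exact absurd (hZ t (le_antisymm h4 hc)) h3.ne
  have h6 : t ≤ D.y t := D.Yge Y3 h5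
  have h7 : q ≤ D.y t := (D.Y1 t h6).2
  have h8 : D.x (D.y t) < t := by
    have : D.x (D.y t) ≤ D.x (D.y (D.Z q)) := D.x.monotone (D.y.monotone hc)
    rw [D.cZ] at this
    exact this.trans_lt h1
  have h9 : D.x q < t := (D.x.monotone h7).trans_lt h8
  have h10 : D.X q < t := (D.X2 q (h9.le.trans h5)).trans_lt h9
  exact absurd (D.X.monotone h2) (not_le.mpr h10)

/-- The step in which the base point moves. -/
theorem move {s : Ω} (h1 : D.e s < s) (h2 : s ≤ D.em s) (h3 : s < D.h s) :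
    ∃ s', s' ≤ s ∧ s' ≤ D.e s' ∧ D.e s' < D.h s' ∧ D.h s < D.hp s' := by
  unfold h at h3
  rw [D.Z.lt_symm_apply] at h3
  unfold e at h1
  unfold em at h2
  set t := D.X s with ht
  set w := D.Y t with hw
  have hwz : w < D.x (D.y w) := h1.trans_le h2
  have hwt : w < t := ((D.Z1 w hwz.le).trans (D.Z.monotone h1.le)).trans_lt h3
  rcases D.S with Y3 | ⟨hY, -⟩
  swap
  · exact absurd (hY t) hwt.ne
  have hyt : D.y t < t := D.Ylt hwt
  have hyw : D.y t ≤ w := (D.Y2 t hyt.le).2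
  have hzt : D.x (D.y t) ≤ t := by
    by_contra hc
    push Not at hc
    have h5 : t < D.x w := hc.trans_le (D.x.monotone hyw)
    have h6 : D.x w ≤ D.X w := D.X1 w (hwt.trans h5).le
    exact absurd (D.X.lt_iff_lt.mp (h5.trans_le h6)) (not_lt.mpr h1.le)
  obtain ⟨g, hg1, hg2, hg3⟩ := exists_fixed (D.y.trans D.x) hwt.le hwz.le hzt
  have hg3' : D.x (D.y g) = g := hg3
  have hwg : w < g := by
    refine lt_of_le_of_ne hg1 ?_
    rintro rfl
    exact absurd hg3' hwz.ne'
  have hvg : D.x (D.y w) < g := by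
    rw [← hg3']
    exact D.x.strictMono (D.y.strictMono hwg)
  have hsg : s < g := h2.trans_lt hvg
  have hxg : g < D.x g := by
    by_contra hc
    push Not at hc
    have h5 : D.X g ≤ D.X s := ((D.X2 g hc).trans hc).trans hg2
    exact absurd (D.X.le_iff_le.mp h5) (not_le.mpr hsg)
  have hZg : D.Z g = g := le_antisymm (D.Z2 g hg3'.le) (D.Z1 g hg3'.ge)
  have hyg : D.y g < g := by
    apply D.x.lt_iff_lt.mp
    rw [hg3']
    exact hxg
  have hYg := D.Y2 g hyg.le
  have hYg' : D.Y g < g := lt_of_le_of_ne hYg.1 (fun h => absurd (Y3 g h) hyg.ne)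
  have hX : D.X (D.X.symm g) = g := D.X.apply_symm_apply g
  have hZs : D.Z.symm g = g := by
    rw [OrderIso.symm_apply_eq]
    exact hZg.symm
  refine ⟨D.X.symm g, ?_, ?_, ?_, ?_⟩
  · rw [D.X.symm_apply_le]
    exact hg2
  · unfold e
    rw [hX, D.X.symm_apply_le]
    have h5 : D.x (D.y g) ≤ D.X (D.y g) := D.X1 _ (by rw [hg3']; exact hyg.le)
    rw [hg3'] at h5
    exact h5.trans (D.X.monotone hYg.2)
  · unfold e h
    rw [hX, hZs]
    exact hYg'
  · unfold hp
    rw [D.y.lt_symm_apply, D.x.lt_symm_apply, D.Z.lt_symm_apply, ← D.cZ]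
    unfold h
    rw [OrderIso.apply_symm_apply, ← D.cX, hX]
    exact D.x.strictMono (hyw.trans_lt hwg)

/-- If `e` moves `s` down, `em` does not, and `h` does not move `s` up, then we are in the
reversed state. -/
theorem h_lt_e {s : Ω} (h1 : D.e s < s) (h2 : s ≤ D.em s) (h3 : D.h s ≤ s) : D.h s < D.e s := by
  unfold h at h3 ⊢
  rw [D.Z.symm_apply_le] at h3
  rw [D.Z.symm_apply_lt]
  unfold e at h1 ⊢
  unfold em at h2
  set t := D.X s with ht
  set w := D.Y t with hw
  by_contra hc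
  push Not at hc
  -- `Z w ≤ t`
  have hwz : w < D.x (D.y w) := h1.trans_le h2
  have hwZ : w ≤ D.Z w := D.Z1 w hwz.le
  have hwt : w ≤ t := hwZ.trans hc
  rcases D.S with Y3 | ⟨hY, hZ⟩
  swap
  · have hwt' : w = t := hY t
    rw [← hwt'] at hc
    exact absurd (hZ w (le_antisymm hc hwZ)) hwz.ne'
  have hyt : D.y t ≤ t := D.Yle Y3 hwt
  have hyw : D.y t ≤ w := (D.Y2 t hyt).2
  have h5 : t ≤ D.x (D.y t) := by
    calc t ≤ D.Z s := h3
      _ ≤ D.Z (D.x (D.y w)) := D.Z.monotone h2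
      _ = D.x (D.y (D.Z w)) := (D.cZ w).symm
      _ ≤ D.x (D.y t) := D.x.monotone (D.y.monotone hc)
  have h6 : t ≤ D.x w := h5.trans (D.x.monotone hyw)
  have h7 : D.x w ≤ D.X w := D.X1 w (hwt.trans h6)
  exact absurd (D.X.le_iff_le.mp (h6.trans h7)) (not_le.mpr h1)

end Piece

end Piece

section Cycle

variable {Ω : Type*} [CompleteLinearOrder Ω] {n : ℕ}

/-- Pieces glued in a cycle. -/
structure Cycle (Ω : Type*) [CompleteLinearOrder Ω] (n : ℕ) where
  D : ZMod n → Piece Ω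
  A : ∀ i p, (D i).e p = (D (i + 1)).em p
  B : ∀ i p, (D i).hp ((D i).W p) = (D (i + 1)).h p

namespace Cycle

/-- The same cycle with the order reversed. -/
def dual (C : Cycle Ω n) : Cycle Ωᵒᵈ n where
  D := fun i => (C.D i).dual
  A := C.A
  B := C.B

variable (C : Cycle Ω n)

theorem hp_mono (D : Piece Ω) : Monotone D.hp := by
  intro a b hab
  unfold Piece.hp
  exact D.y.symm.monotone (D.x.symm.monotone (D.Z.symm.monotone (D.X.monotone
    (D.x.monotone hab))))

theorem h_mono (D : Piece Ω) : Monotone D.h := by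
  intro a b hab
  unfold Piece.h
  exact D.Z.symm.monotone (D.X.monotone hab)

theorem next {i : ZMod n} {s : Ω} (h1 : s ≤ (C.D i).e s) (h2 : (C.D i).e s < (C.D i).h s) :
    s ≤ (C.D (i + 1)).em s ∧ (C.D (i + 1)).em s < (C.D (i + 1)).h s ∧
      (C.D i).hp s ≤ (C.D (i + 1)).h s := by
  have h3 : (C.D i).hp s ≤ (C.D (i + 1)).h s := by
    rw [← C.B]
    exact hp_mono _ ((C.D i).W1 s h1)
  refine ⟨by rw [← C.A]; exact h1, ?_, h3⟩
  rw [← C.A]
  exact (h2.trans ((C.D i).h_lt_hp h1 h2)).trans_le h3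

theorem step {i : ZMod n} {s : Ω} (h1 : s ≤ (C.D i).em s) (h2 : (C.D i).em s < (C.D i).h s) :
    ∃ s', s' ≤ s ∧ s' ≤ (C.D (i + 1)).em s' ∧ (C.D (i + 1)).em s' < (C.D (i + 1)).h s' ∧
      (C.D i).h s < (C.D (i + 1)).h s' := by
  rcases le_or_gt s ((C.D i).e s) with h3 | h3
  · have h4 := (C.D i).e_lt_h h2 h3
    obtain ⟨h5, h6, h7⟩ := C.next h3 h4
    exact ⟨s, le_rfl, h5, h6, ((C.D i).h_lt_hp h3 h4).trans_le h7⟩
  · obtain ⟨s', h4, h5, h6, h7⟩ := (C.D i).move h3 h1 (h1.trans_lt h2)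
    obtain ⟨h8, h9, h10⟩ := C.next h5 h6
    exact ⟨s', h4, h8, h9, h7.trans_le h10⟩

theorem steps (m : ℕ) {i : ZMod n} {s : Ω} (h1 : s ≤ (C.D i).em s)
    (h2 : (C.D i).em s < (C.D i).h s) :
    ∃ s', s' ≤ s ∧ s' ≤ (C.D (i + m)).em s' ∧ (C.D (i + m)).em s' < (C.D (i + m)).h s' ∧
      (C.D i).h s ≤ (C.D (i + m)).h s' ∧ (0 < m → (C.D i).h s < (C.D (i + m)).h s') := by
  induction m with
  | zero => exact ⟨s, le_rfl, by simpa using h1, by simpa using h2, by simp, by simp⟩
  | succ m ih =>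
    obtain ⟨s', a1, a2, a3, a4, a5⟩ := ih
    obtain ⟨s'', b1, b2, b3, b4⟩ := C.step a2 a3
    have he : i + ((m + 1 : ℕ) : ZMod n) = i + (m : ZMod n) + 1 := by push_cast; ring
    rw [he]
    exact ⟨s'', b1.trans a1, b2, b3, (a4.trans_lt b4).le, fun _ => a4.trans_lt b4⟩

variable [NeZero n]

/-- The entrance state is impossible. -/
theorem no_em (i : ZMod n) {s : Ω} (h1 : s ≤ (C.D i).em s) : (C.D i).h s ≤ (C.D i).em s := by
  by_contra hc
  push Not at hc
  obtain ⟨s', a1, -, -, -, a5⟩ := C.steps n h1 hc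
  have h3 := a5 (Nat.pos_of_ne_zero (NeZero.ne n))
  rw [ZMod.natCast_self, add_zero] at h3
  exact absurd (h_mono (C.D i) a1) (not_le.mpr h3)

/-- The exit state is impossible. -/
theorem no_e (i : ZMod n) {s : Ω} (h1 : s ≤ (C.D i).e s) : (C.D i).h s ≤ (C.D i).e s := by
  by_contra hc
  push Not at hc
  obtain ⟨h3, h4, -⟩ := C.next h1 hc
  exact absurd (C.no_em _ h3) (not_le.mpr h4)

theorem no_em' (i : ZMod n) {s : Ω} (h1 : (C.D i).em s ≤ s) : (C.D i).em s ≤ (C.D i).h s :=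
  C.dual.no_em i (s := s) h1

theorem no_e' (i : ZMod n) {s : Ω} (h1 : (C.D i).e s ≤ s) : (C.D i).e s ≤ (C.D i).h s :=
  C.dual.no_e i (s := s) h1

theorem em_lt (i : ZMod n) {s : Ω} (h1 : (C.D i).e s < s) : (C.D i).em s < s := by
  by_contra hc
  push Not at hc
  rcases lt_or_ge s ((C.D i).h s) with h2 | h2
  · obtain ⟨s', -, h4, h5, -⟩ := (C.D i).move h1 hc h2
    exact absurd (C.no_e i h4) (not_le.mpr h5)
  · exact absurd (C.no_e' i h1.le) (not_le.mpr ((C.D i).h_lt_e h1 hc h2))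

theorem prev_lt (i : ZMod n) {s : Ω} (h1 : (C.D (i + 1)).e s < s) : (C.D i).e s < s := by
  rw [C.A]
  exact C.em_lt _ h1

theorem prevs_lt (m : ℕ) (i : ZMod n) {s : Ω} (h1 : (C.D (i + m)).e s < s) :
    (C.D i).e s < s := by
  induction m with
  | zero => simpa using h1
  | succ m ih =>
    apply ih
    apply C.prev_lt
    have he : i + ((m + 1 : ℕ) : ZMod n) = i + (m : ZMod n) + 1 := by push_cast; ring
    rwa [← he]

theorem all_lt (i j : ZMod n) {s : Ω} (h1 : (C.D i).e s < s) : (C.D j).e s < s := by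
  apply C.prevs_lt ((i - j).val) j
  rw [ZMod.natCast_zmod_val]
  simpa using h1

theorem all_gt (i j : ZMod n) {s : Ω} (h1 : s < (C.D i).e s) : s < (C.D j).e s :=
  C.dual.all_lt i j (s := s) h1

theorem all_eq (i j : ZMod n) {s : Ω} (h1 : (C.D i).e s = s) : (C.D j).e s = s := by
  rcases lt_trichotomy ((C.D j).e s) s with h | h | h
  · exact absurd h1 (C.all_lt j i h).ne
  · exact h
  · exact absurd h1 (C.all_gt j i h).ne'

/-- A common fixed point of the curves is fixed by everything. -/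
theorem fix_all {s : Ω} (h1 : ∀ i, (C.D i).e s = s) (i : ZMod n) :
    (C.D i).x s = s ∧ (C.D i).y s = s ∧ (C.D i).X s = s ∧ (C.D i).Y s = s ∧
      (C.D i).Z s = s ∧ (C.D i).W s = s := by
  have hem : (C.D i).em s = s := by
    have := C.A (i - 1) s
    rw [sub_add_cancel] at this
    rw [← this]
    exact h1 _
  have hh : (C.D i).h s = s := by
    apply le_antisymm
    · exact (C.no_em i hem.ge).trans hem.le
    · exact hem.ge.trans (C.no_em' i hem.le)
  have hz : (C.D i).x ((C.D i).y s) = s := by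
    have h2 : (C.D i).em s = (C.D i).x ((C.D i).y ((C.D i).e s)) := rfl
    rw [h1, hem] at h2
    exact h2.symm
  have hZ : (C.D i).Z s = s := le_antisymm ((C.D i).Z2 s hz.le) ((C.D i).Z1 s hz.ge)
  have hX : (C.D i).X s = s := by
    have h2 : (C.D i).Z.symm ((C.D i).X s) = s := hh
    rw [OrderIso.symm_apply_eq] at h2
    rw [h2, hZ]
  have hx : (C.D i).x s = s := by
    rcases lt_trichotomy ((C.D i).x s) s with h | h | h
    · exact absurd hX (((C.D i).X2 s h.le).trans_lt h).ne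
    · exact h
    · exact absurd hX (h.trans_le ((C.D i).X1 s h.le)).ne'
  have hy : (C.D i).y s = s := by
    apply (C.D i).x.injective
    rw [hz, hx]
  have hY : (C.D i).Y s = s := le_antisymm ((C.D i).Y2 s hy.le).1 ((C.D i).Y1 s hy.ge).1
  have hW : (C.D i).W s = s :=
    le_antisymm ((C.D i).W2 s (h1 i).le) ((C.D i).W1 s (h1 i).ge)
  exact ⟨hx, hy, hX, hY, hZ, hW⟩

/-- An automorphism which fixes the common fixed points preserves the region where the curves
move points up. -/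
theorem invariant (g : Ω ≃o Ω) (hg : ∀ p, (∀ i, (C.D i).e p = p) → g p = p) {s : Ω}
    (hs : s < (C.D 0).e s) : g s < (C.D 0).e (g s) := by
  by_contra hc
  push Not at hc
  -- the curve as an automorphism
  let E : Ω ≃o Ω := (C.D 0).X.trans (C.D 0).Y
  have hE : ∀ p, E p = (C.D 0).e p := fun _ => rfl
  have hfix : ∀ p, (C.D 0).e p = p → g p = p := fun p hp =>
    hg p fun i => C.all_eq 0 i hp
  rcases le_total s (g s) with h1 | h1
  · obtain ⟨f, hf1, hf2, hf3⟩ := exists_fixed E h1 (by rw [hE]; exact hs.le)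
      (by rw [hE]; exact hc)
    rw [hE] at hf3
    have hgf := hfix f hf3
    have hsf : s < f := lt_of_le_of_ne hf1 (by rintro rfl; exact absurd hf3 hs.ne')
    have := g.strictMono hsf
    rw [hgf] at this
    exact absurd hf2 (not_le.mpr this)
  · obtain ⟨f, hf1, hf2, hf3⟩ := exists_fixed E.symm h1
      (by rw [E.le_symm_apply, hE]; exact hc)
      (by rw [E.symm_apply_le, hE]; exact hs.le)
    have hf4 : (C.D 0).e f = f := by
      rw [← hE]
      exact ((E.symm_apply_eq).mp hf3).symm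
    have hgf := hfix f hf4
    have hfs : f < s := lt_of_le_of_ne hf2 (by rintro rfl; exact absurd hf4 hs.ne')
    have := g.strictMono hfs
    rw [hgf] at this
    exact absurd hf1 (not_le.mpr this)

/-- In the region where the curves move points up, `x i * y i` does not move points down, and
moves them up if the slope of `Y i` is not zero. -/
theorem z_ge (i : ZMod n) {t : Ω} (ht : t < (C.D 0).e t) :
    t ≤ (C.D i).x ((C.D i).y t) ∧
      ((∀ p, (C.D i).Y p = p → (C.D i).y p = p) → t < (C.D i).x ((C.D i).y t)) := by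
  have hs0 := C.invariant (C.D i).X.symm (by
    intro p hp
    rw [OrderIso.symm_apply_eq]
    exact (C.fix_all hp i).2.2.1.symm) ht
  set s := (C.D i).X.symm t with hs
  have hXs : (C.D i).X s = t := (C.D i).X.apply_symm_apply t
  have h1 : s < (C.D i).e s := C.all_gt 0 i hs0
  have h2 : (C.D i).h s ≤ (C.D i).e s := C.no_e i h1.le
  unfold Piece.e at h1 h2
  unfold Piece.h at h2
  rw [hXs] at h1 h2
  rw [OrderIso.symm_apply_le] at h2
  have key : (∀ p, (C.D i).Y p = p → (C.D i).y p = p) → t < (C.D i).x ((C.D i).y t) := by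
    intro Y3
    by_contra hc
    push Not at hc
    have hZt : (C.D i).Z t ≤ t := (C.D i).Z2 t hc
    have h3 : t ≤ (C.D i).Y t := by
      have := hZt.trans h2
      exact (C.D i).Z.le_iff_le.mp this
    have h4 : t ≤ (C.D i).y t := (C.D i).Yge Y3 h3
    have h5 := ((C.D i).Y1 t h4).2
    have h6 : (C.D i).x ((C.D i).Y t) ≤ t := ((C.D i).x.monotone h5).trans hc
    have h7 : (C.D i).X ((C.D i).Y t) ≤ t := ((C.D i).X2 _ (h6.trans h3)).trans h6
    have h8 : (C.D i).X s < (C.D i).X ((C.D i).Y t) := (C.D i).X.strictMono h1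
    rw [hXs] at h8
    exact absurd h7 (not_le.mpr h8)
  refine ⟨?_, key⟩
  rcases (C.D i).S with Y3 | ⟨hY, hZ⟩
  · exact (key Y3).le
  · by_contra hc
    push Not at hc
    rw [hY] at h2
    have hZt : (C.D i).Z t ≤ t := (C.D i).Z2 t hc.le
    exact absurd (hZ t (le_antisymm hZt h2)) hc.ne

theorem no_up (s : Ω) : (C.D 0).e s ≤ s := by
  by_contra hc
  push Not at hc
  have hU : ∀ (i : ZMod n) (p : Ω), p < (C.D 0).e p → (C.D i).e p < (C.D 0).e ((C.D i).e p) := by
    intro i p hp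
    exact C.invariant ((C.D i).X.trans (C.D i).Y) (fun q hq => hq i) hp
  have h1 : ∀ (i : ZMod n) (p : Ω), p < (C.D 0).e p → (C.D (i + 1)).e p ≤ (C.D i).e p := by
    intro i p hp
    rw [C.A i]
    exact (C.z_ge (i + 1) (hU (i + 1) p hp)).1
  -- all curves agree on the region
  have h2 : ∀ (m : ℕ) (i : ZMod n) (p : Ω), p < (C.D 0).e p →
      (C.D (i + (m : ZMod n))).e p ≤ (C.D i).e p := by
    intro m i p hp
    induction m with
    | zero => simp
    | succ m ih =>
      have he : i + ((m + 1 : ℕ) : ZMod n) = i + (m : ZMod n) + 1 := by push_cast; ring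
      rw [he]
      exact (h1 _ p hp).trans ih
  have h3 : ∀ (i j : ZMod n) (p : Ω), p < (C.D 0).e p → (C.D i).e p ≤ (C.D j).e p := by
    intro i j p hp
    have := h2 ((i - j).val) j p hp
    rw [ZMod.natCast_zmod_val] at this
    simpa using this
  have h4 : ∀ (i j : ZMod n) (p : Ω), p < (C.D 0).e p → (C.D i).e p = (C.D j).e p :=
    fun i j p hp => le_antisymm (h3 i j p hp) (h3 j i p hp)
  -- hence `x i * y i` is trivial on the region
  have h5 : ∀ (i : ZMod n) (p : Ω), p < (C.D 0).e p → (C.D i).x ((C.D i).y p) = p := by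
    intro i p hp
    have hq := C.invariant ((C.D i).X.trans (C.D i).Y).symm (fun q hq => by
      rw [OrderIso.symm_apply_eq]
      exact (hq i).symm) hp
    set q := ((C.D i).X.trans (C.D i).Y).symm p with hqd
    have hqp : (C.D i).e q = p := ((C.D i).X.trans (C.D i).Y).apply_symm_apply p
    have h6 := C.A (i - 1) q
    rw [sub_add_cancel, h4 (i - 1) i q hq, hqp] at h6
    have h7 : (C.D i).em q = (C.D i).x ((C.D i).y ((C.D i).e q)) := rfl
    rw [hqp] at h7
    rw [← h7]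
    exact h6.symm
  have hZ : ∀ (i : ZMod n) (p : Ω), p < (C.D 0).e p → (C.D i).Z p = p := fun i p hp =>
    le_antisymm ((C.D i).Z2 p (h5 i p hp).le) ((C.D i).Z1 p (h5 i p hp).ge)
  have hY : ∀ (i : ZMod n) (p : Ω), (C.D i).Y p = p := by
    intro i
    rcases (C.D i).S with Y3 | ⟨hY, -⟩
    · exact absurd (h5 i s hc) ((C.z_ge i hc).2 Y3).ne'
    · exact hY
  have hX : ∀ (i : ZMod n) (p : Ω), (C.D i).e p = (C.D i).X p := fun i p => hY i _
  -- the second relation at `s`
  have hB := C.B 0 s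
  have hs1 : s < (C.D 0).e s := hc
  have hh : (C.D (0 + 1)).h s = (C.D 0).e s := by
    unfold Piece.h
    rw [OrderIso.symm_apply_eq]
    have h6 : (C.D 0).e s = (C.D (0 + 1)).e s := h4 _ _ s hc
    rw [h6, hX, hZ]
    have := hU (0 + 1) s hc
    rwa [hX] at this
  rw [hh] at hB
  have hW : s ≤ (C.D 0).W s := (C.D 0).W1 s hc.le
  have hxs : s < (C.D 0).x s := by
    by_contra hcon
    push Not at hcon
    have := ((C.D 0).X2 s hcon).trans hcon
    rw [← hX] at this
    exact absurd this (not_le.mpr hc)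
  have h8 : s < (C.D 0).x ((C.D 0).W s) := hxs.trans_le ((C.D 0).x.monotone hW)
  -- `hp (W s) = e s` gives `X (x (W s)) = Z (x (y (e s))) = e s = X s`
  have h9 : (C.D 0).X ((C.D 0).x ((C.D 0).W s)) = (C.D 0).X s := by
    unfold Piece.hp at hB
    rw [OrderIso.symm_apply_eq, OrderIso.symm_apply_eq, OrderIso.symm_apply_eq] at hB
    have h10 := hU 0 s hc
    rw [hB, h5 0 _ h10, hZ 0 _ h10, hX]
  exact absurd ((C.D 0).X.injective h9) h8.ne'

/-- All automorphisms of a cycle are trivial. -/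
theorem trivial_action (i : ZMod n) (s : Ω) :
    (C.D i).x s = s ∧ (C.D i).y s = s ∧ (C.D i).X s = s ∧ (C.D i).Y s = s ∧
      (C.D i).Z s = s ∧ (C.D i).W s = s := by
  apply C.fix_all
  intro j
  apply C.all_eq 0
  exact le_antisymm (C.no_up s) (C.dual.no_up s)

end Cycle

end Cycle

end Pool.Agent.Helper39.CycPretzel
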