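import Mathlib
import Pool.Agent.Helper39.CycPretzel

/-!
From fractional powers in a left-ordered group to the pointwise inequalities used in
`CycPretzel`, and the action of a left-ordered group on its lower sets.
-/

set_option autoImplicit false

namespace Pool.Agent.Helper39.CycPretzelGroup

section Powers

variable {Ω : Type*} [LinearOrder Ω]

theorem pow_ge {f : Ω ≃o Ω} {s : Ω} (h : s ≤ f s) (n : ℕ) : s ≤ (f ^ n) s := by
  induction n with
  | zero => simp
  | succ n ih =>
    rw [pow_succ, RelIso.mul_apply]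
    exact ih.trans ((f ^ n).monotone h)

theorem pow_le {f : Ω ≃o Ω} {s : Ω} (h : f s ≤ s) (n : ℕ) : (f ^ n) s ≤ s := by
  induction n with
  | zero => simp
  | succ n ih =>
    rw [pow_succ, RelIso.mul_apply]
    exact ((f ^ n).monotone h).trans ih

theorem pow_gt {f : Ω ≃o Ω} {s : Ω} (h : s < f s) {n : ℕ} (hn : 0 < n) : s < (f ^ n) s := by
  obtain ⟨m, rfl⟩ := Nat.exists_eq_succ_of_ne_zero hn.ne'
  rw [Nat.succ_eq_add_one, pow_succ', RelIso.mul_apply]
  exact h.trans_le (f.monotone (pow_ge h.le m))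

theorem pow_lt {f : Ω ≃o Ω} {s : Ω} (h : f s < s) {n : ℕ} (hn : 0 < n) : (f ^ n) s < s := by
  obtain ⟨m, rfl⟩ := Nat.exists_eq_succ_of_ne_zero hn.ne'
  rw [Nat.succ_eq_add_one, pow_succ', RelIso.mul_apply]
  exact (f.monotone (pow_le h.le m)).trans_lt h

theorem up {f g : Ω ≃o Ω} {d m : ℕ} (hd : 0 < d) (h : g ^ d = f ^ m) {p : Ω} (hp : p ≤ f p) :
    p ≤ g p := by
  by_contra hc
  have h1 := pow_lt (not_le.mp hc) hd
  rw [h] at h1
  exact absurd (pow_ge hp m) (not_le.mpr h1)

theorem down {f g : Ω ≃o Ω} {d m : ℕ} (hd : 0 < d) (h : g ^ d = f ^ m) {p : Ω}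
    (hp : f p ≤ p) : g p ≤ p := by
  by_contra hc
  have h1 := pow_gt (not_le.mp hc) hd
  rw [h] at h1
  exact absurd (pow_le hp m) (not_le.mpr h1)

theorem fixed {f g : Ω ≃o Ω} {d m : ℕ} (hm : 0 < m) (h : g ^ d = f ^ m) {p : Ω}
    (hp : g p = p) : f p = p := by
  have h1 : (g ^ d) p = p := le_antisymm (pow_le hp.le d) (pow_ge hp.ge d)
  rw [h] at h1
  rcases lt_trichotomy (f p) p with h2 | h2 | h2
  · exact absurd h1 (pow_lt h2 hm).ne
  · exact h2
  · exact absurd h1 (pow_gt h2 hm).ne'

/-- If `g` is a power of `f` with exponent at least one, then `g` moves points at least as far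
as `f`. -/
theorem far {f g : Ω ≃o Ω} (hc : Commute f g) {d m : ℕ} (hd : 0 < d) (hdm : d ≤ m)
    (h : g ^ d = f ^ m) (p : Ω) : (p ≤ f p → f p ≤ g p) ∧ (f p ≤ p → g p ≤ f p) := by
  have hC : (f⁻¹ * g) ^ d = f ^ (m - d) := by
    rw [(hc.inv_left).mul_pow, h, inv_pow, inv_mul_eq_iff_eq_mul, ← pow_add,
      Nat.add_sub_cancel' hdm]
  have hg : ∀ q, g q = f ((f⁻¹ * g) q) := by
    intro q
    rw [← RelIso.mul_apply]
    congr 1
    group
  constructor
  · intro hp
    rw [hg]
    exact f.monotone (up hd hC hp)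
  · intro hp
    rw [hg]
    exact f.monotone (down hd hC hp)

/-- If `g` is a power of `f` with exponent between zero and one, then `f` moves points at least
as far as `g`. -/
theorem near {f g : Ω ≃o Ω} (hc : Commute f g) {d m : ℕ} (hd : 0 < d) (hdm : m ≤ d)
    (h : g ^ d = f ^ m) (p : Ω) : (p ≤ f p → g p ≤ f p) ∧ (f p ≤ p → f p ≤ g p) := by
  have hC : (g⁻¹ * f) ^ d = f ^ (d - m) := by
    rw [(hc.symm.inv_left).mul_pow, inv_pow, h, inv_mul_eq_iff_eq_mul, ← pow_add,
      Nat.add_sub_cancel' hdm]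
  have hg : ∀ q, f q = g ((g⁻¹ * f) q) := by
    intro q
    rw [← RelIso.mul_apply]
    congr 1
    group
  constructor
  · intro hp
    rw [hg p]
    exact g.monotone (up hd hC hp)
  · intro hp
    rw [hg p]
    exact g.monotone (down hd hC hp)

end Powers

section Cuts

variable {G : Type*} [Group G] [LinearOrder G]

/-- Left multiplication as an order isomorphism. -/
def leftIso (hmul : ∀ f g h : G, g ≤ h → f * g ≤ f * h) (f : G) : G ≃o G where
  toEquiv := Equiv.mulLeft f
  map_rel_iff' := by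
    intro a b
    constructor
    · intro h
      have := hmul f⁻¹ _ _ h
      simpa using this
    · intro h
      exact hmul f _ _ h

/-- The action on lower sets. -/
def cutHom (hmul : ∀ f g h : G, g ≤ h → f * g ≤ f * h) : G →* (LowerSet G ≃o LowerSet G) where
  toFun := fun f => LowerSet.map (leftIso hmul f)
  map_one' := by
    apply RelIso.ext
    intro L
    apply SetLike.ext
    intro g
    rw [LowerSet.mem_map]
    change (1 : G)⁻¹ * g ∈ L ↔ g ∈ L
    simp
  map_mul' := by
    intro a b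
    apply RelIso.ext
    intro L
    apply SetLike.ext
    intro g
    rw [LowerSet.mem_map, RelIso.mul_apply, LowerSet.mem_map, LowerSet.mem_map]
    change (a * b)⁻¹ * g ∈ L ↔ b⁻¹ * (a⁻¹ * g) ∈ L
    rw [mul_inv_rev, mul_assoc]

theorem mem_cutHom (hmul : ∀ f g h : G, g ≤ h → f * g ≤ f * h) (f g : G) (L : LowerSet G) :
    g ∈ cutHom hmul f L ↔ f⁻¹ * g ∈ L := by
  change g ∈ LowerSet.map (leftIso hmul f) L ↔ _
  rw [LowerSet.mem_map]
  rfl

/-- Only the identity fixes the cut below the identity. -/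
theorem eq_one_of_fix (hmul : ∀ f g h : G, g ≤ h → f * g ≤ f * h) {f : G}
    (h : cutHom hmul f (LowerSet.Iic 1) = LowerSet.Iic 1) : f = 1 := by
  have h1 : f ≤ 1 := by
    have : f ∈ cutHom hmul f (LowerSet.Iic 1) := by
      rw [mem_cutHom]
      simp
    rw [h] at this
    simpa using this
  have h2 : f⁻¹ ≤ 1 := by
    have : (1 : G) ∈ cutHom hmul f (LowerSet.Iic 1) := by
      rw [h]
      simp
    rw [mem_cutHom] at this
    simpa using this
  have h3 : 1 ≤ f := by
    have := hmul f _ _ h2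
    simpa using this
  exact le_antisymm h1 h3

end Cuts

end Pool.Agent.Helper39.CycPretzelGroup
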