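import Mathlib
import Pool.Agent.Helper39.CycPretzel
import Pool.Agent.Helper39.CycPretzelGroup

/-!
Cyclic branched covers of pretzel knots, and the manifolds obtained from them by surgeries.

Let `p = 2 a + 1`, `q = 2 b + 1`, `r = 2 c + 1`.  The complement of the genus one Seifert surface
of the pretzel knot `P(p, -q, -r)` (two disks joined by three twisted bands) is a handlebody; its
fundamental group is free on the loops `x`, `y` around the first and the second band.  Gluing `n`
copies of it in a cycle gives the `n`-fold cyclic branched cover.  In its fundamental group the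
relations `first` and `second` below hold with `X i = x i ^ a`, `Y i = y i ^ b`,
`Z i = (x i * y i) ^ c`, `W i = 1`.  Rational exponents, which may depend on the place `i`,
correspond to surgeries on the curves around the bands, and a fractional power `W i` to a surgery
on the curve of the surface which runs through the first two bands.
-/

set_option autoImplicit false

namespace Pool.Agent.Helper39.CycPretzelVariant

/-- `X` is an `r`-th power of `x`, where `r = u / v` in lowest terms: `X` commutes with `x` and
`X ^ v = x ^ u`. -/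
def IsPower {G : Type*} [Group G] (x : G) (r : ℚ) (X : G) : Prop :=
  x * X = X * x ∧ X ^ r.den = x ^ r.num

/-- Elements of a group, with indices modulo `n`, which satisfy the relations of the fundamental
group of a cycle of `n` surgered complements of pretzel surfaces, with slopes `α`, `β`, `γ` for
the three bands and `δ` for the curve of the surface. -/
structure Rep (G : Type*) [Group G] (n : ℕ) (α β γ δ : ZMod n → ℚ) where
  x : ZMod n → G
  y : ZMod n → G
  X : ZMod n → G
  Y : ZMod n → G
  Z : ZMod n → G
  W : ZMod n → G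
  powX : ∀ i, IsPower (x i) (α i) (X i)
  powY : ∀ i, IsPower (y i) (β i) (Y i)
  powZ : ∀ i, IsPower (x i * y i) (γ i) (Z i)
  powW : ∀ i, IsPower (Y i * X i) (δ i) (W i)
  first : ∀ i, Y i * X i = x (i + 1) * y (i + 1) * Y (i + 1) * X (i + 1)
  second : ∀ i, (x i * y i)⁻¹ * (Z i)⁻¹ * X i * x i * W i = (Z (i + 1))⁻¹ * X (i + 1)

/-- A group is left-orderable if it is nontrivial and carries a total order which is invariant
under left multiplication. -/
def LeftOrderable (G : Type*) [Group G] : Prop :=
  Nontrivial G ∧ ∃ _ : LinearOrder G, ∀ f g h : G, g ≤ h → f * g ≤ f * h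

open Pool.Agent.Helper39.CycPretzel Pool.Agent.Helper39.CycPretzelGroup

theorem IsPower.map {G H : Type*} [Group G] [Group H] (φ : G →* H) {x X : G} {r : ℚ}
    (h : IsPower x r X) : IsPower (φ x) r (φ X) := by
  refine ⟨?_, ?_⟩
  · rw [← map_mul, h.1, map_mul]
  · rw [← map_pow, h.2, map_zpow]

theorem IsPower.nat {G : Type*} [Group G] {x X : G} {r : ℚ} (h : IsPower x r X) (hr : 0 ≤ r) :
    ∃ m : ℕ, X ^ r.den = x ^ m ∧ (r.num = m) := by
  have h0 : 0 ≤ r.num := Rat.num_nonneg.mpr hr
  refine ⟨r.num.toNat, ?_, (Int.toNat_of_nonneg h0).symm⟩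
  rw [h.2]
  conv_lhs => rw [← Int.toNat_of_nonneg h0]
  rw [zpow_natCast]

/-- The order automorphisms given by a representation. -/
noncomputable def cycle {Ω : Type*} [CompleteLinearOrder Ω] {n : ℕ} {α β γ δ : ZMod n → ℚ}
    (hα : ∀ i, 1 ≤ α i) (hβ : ∀ i, 0 ≤ β i ∧ β i ≤ 1) (hγ : ∀ i, 0 ≤ γ i)
    (hβγ : ∀ i, 0 < β i + γ i) (hδ : ∀ i, 0 ≤ δ i)
    (r : Rep (Ω ≃o Ω) n α β γ δ) : Cycle Ω n where
  D := fun i =>
    { x := r.x i
      y := r.y i
      X := r.X i
      Y := r.Y i
      Z := r.Z i
      W := r.W i
      cX := fun p => by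
        have := (r.powX i).1
        exact DFunLike.congr_fun this p
      cZ := fun p => by
        have := (r.powZ i).1
        exact DFunLike.congr_fun this p
      X1 := fun p => by
        obtain ⟨m, h1, h2⟩ := (r.powX i).nat (zero_le_one.trans (hα i))
        have h3 : (α i).den ≤ m := by
          have h4 := Rat.num_div_den (α i)
          have h5 := hα i
          rw [← h4, one_le_div (by exact_mod_cast (α i).den_pos), h2] at h5
          exact_mod_cast h5
        exact (far (r.powX i).1 (α i).den_pos h3 h1 p).1
      X2 := fun p => by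
        obtain ⟨m, h1, h2⟩ := (r.powX i).nat (zero_le_one.trans (hα i))
        have h3 : (α i).den ≤ m := by
          have h4 := Rat.num_div_den (α i)
          have h5 := hα i
          rw [← h4, one_le_div (by exact_mod_cast (α i).den_pos), h2] at h5
          exact_mod_cast h5
        exact (far (r.powX i).1 (α i).den_pos h3 h1 p).2
      Y1 := fun p hp => by
        obtain ⟨m, h1, h2⟩ := (r.powY i).nat (hβ i).1
        have h3 : m ≤ (β i).den := by
          have h4 := Rat.num_div_den (β i)
          have h5 := (hβ i).2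
          rw [← h4, div_le_one (by exact_mod_cast (β i).den_pos), h2] at h5
          exact_mod_cast h5
        exact ⟨up (β i).den_pos h1 hp, (near (r.powY i).1 (β i).den_pos h3 h1 p).1 hp⟩
      Y2 := fun p hp => by
        obtain ⟨m, h1, h2⟩ := (r.powY i).nat (hβ i).1
        have h3 : m ≤ (β i).den := by
          have h4 := Rat.num_div_den (β i)
          have h5 := (hβ i).2
          rw [← h4, div_le_one (by exact_mod_cast (β i).den_pos), h2] at h5
          exact_mod_cast h5
        exact ⟨down (β i).den_pos h1 hp, (near (r.powY i).1 (β i).den_pos h3 h1 p).2 hp⟩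
      S := by
        rcases (hβ i).1.lt_or_eq with hb | hb
        · left
          intro p hp
          obtain ⟨m, h1, h2⟩ := (r.powY i).nat (hβ i).1
          have hm : 0 < m := by
            have := Rat.num_pos.mpr hb
            rw [h2] at this
            exact_mod_cast this
          exact fixed hm h1 hp
        · right
          have hg : 0 < γ i := by
            have := hβγ i
            rwa [← hb, zero_add] at this
          constructor
          · intro p
            have h1 := (r.powY i).2
            rw [← hb] at h1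
            simp only [Rat.den_ofNat, pow_one, Rat.num_ofNat, zpow_zero] at h1
            rw [h1]
            rfl
          · intro p hp
            obtain ⟨m, h1, h2⟩ := (r.powZ i).nat (hγ i)
            have hm : 0 < m := by
              have := Rat.num_pos.mpr hg
              rw [h2] at this
              exact_mod_cast this
            exact fixed hm h1 hp
      Z1 := fun p hp => by
        obtain ⟨m, h1, -⟩ := (r.powZ i).nat (hγ i)
        exact up (γ i).den_pos h1 hp
      Z2 := fun p hp => by
        obtain ⟨m, h1, -⟩ := (r.powZ i).nat (hγ i)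
        exact down (γ i).den_pos h1 hp
      W1 := fun p hp => by
        obtain ⟨m, h1, -⟩ := (r.powW i).nat (hδ i)
        exact up (δ i).den_pos h1 hp
      W2 := fun p hp => by
        obtain ⟨m, h1, -⟩ := (r.powW i).nat (hδ i)
        exact down (δ i).den_pos h1 hp }
  A := fun i p => DFunLike.congr_fun (r.first i) p
  B := fun i p => DFunLike.congr_fun (r.second i) p

/-- The image of a representation under a homomorphism. -/
def Rep.map {G H : Type*} [Group G] [Group H] {n : ℕ} {α β γ δ : ZMod n → ℚ} (φ : G →* H)
    (r : Rep G n α β γ δ) : Rep H n α β γ δ where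
  x := fun i => φ (r.x i)
  y := fun i => φ (r.y i)
  X := fun i => φ (r.X i)
  Y := fun i => φ (r.Y i)
  Z := fun i => φ (r.Z i)
  W := fun i => φ (r.W i)
  powX := fun i => (r.powX i).map φ
  powY := fun i => (r.powY i).map φ
  powZ := fun i => by
    have := (r.powZ i).map φ
    rwa [map_mul] at this
  powW := fun i => by
    have := (r.powW i).map φ
    rwa [map_mul] at this
  first := fun i => by
    have := congrArg φ (r.first i)
    simpa only [map_mul] using this
  second := fun i => by
    have := congrArg φ (r.second i)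
    simpa only [map_mul, map_inv] using this

/-- For slopes `α i ≥ 1`, `0 ≤ β i ≤ 1`, `γ i ≥ 0`, `δ i ≥ 0` with `β i + γ i > 0`, a group
generated by elements which satisfy the relations is not left-orderable. -/
theorem result (n : ℕ) [NeZero n] (α β γ δ : ZMod n → ℚ)
    (hα : ∀ i, 1 ≤ α i) (hβ : ∀ i, 0 ≤ β i ∧ β i ≤ 1) (hγ : ∀ i, 0 ≤ γ i)
    (hβγ : ∀ i, 0 < β i + γ i) (hδ : ∀ i, 0 ≤ δ i)
    (G : Type*) [Group G] (r : Rep G n α β γ δ)
    (hG : Subgroup.closure (Set.range r.x ∪ Set.range r.y ∪ Set.range r.X ∪ Set.range r.Y ∪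
      Set.range r.Z ∪ Set.range r.W) = ⊤) :
    ¬ LeftOrderable G := by
  rintro ⟨hnt, ⟨ho, hmul⟩⟩
  let C := cycle hα hβ hγ hβγ hδ (r.map (cutHom hmul))
  have key := fun i => C.trivial_action i (LowerSet.Iic 1)
  have hsub : Set.range r.x ∪ Set.range r.y ∪ Set.range r.X ∪ Set.range r.Y ∪
      Set.range r.Z ∪ Set.range r.W ⊆ ({1} : Set G) := by
    rintro g (((((⟨i, rfl⟩ | ⟨i, rfl⟩) | ⟨i, rfl⟩) | ⟨i, rfl⟩) | ⟨i, rfl⟩) | ⟨i, rfl⟩)
    · exact eq_one_of_fix hmul (key i).1
    · exact eq_one_of_fix hmul (key i).2.1
    · exact eq_one_of_fix hmul (key i).2.2.1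
    · exact eq_one_of_fix hmul (key i).2.2.2.1
    · exact eq_one_of_fix hmul (key i).2.2.2.2.1
    · exact eq_one_of_fix hmul (key i).2.2.2.2.2
  have h1 : (⊤ : Subgroup G) ≤ ⊥ := by
    rw [← hG, Subgroup.closure_le]
    intro g hg
    exact hsub hg
  obtain ⟨a, b, hab⟩ := exists_pair_ne G
  have h2 : ∀ g : G, g = 1 := fun g => by
    have := h1 (Subgroup.mem_top g)
    rwa [Subgroup.mem_bot] at this
  exact hab ((h2 a).trans (h2 b).symm)

/-- The special case of the `n`-fold cyclic branched cover of the pretzel knot
`P(2 a + 1, -2 b - 1, -2 c - 1)` with `b ≤ 1 ≤ a`. -/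
theorem pretzel (n a b c : ℕ) [NeZero n] (ha : 1 ≤ a) (hb : b ≤ 1) (hbc : 0 < b + c)
    (G : Type*) [Group G] (x y : ZMod n → G)
    (h1 : ∀ i, y i ^ b * x i ^ a = x (i + 1) * y (i + 1) ^ (b + 1) * x (i + 1) ^ a)
    (h2 : ∀ i, ((x i * y i) ^ (c + 1))⁻¹ * x i ^ (a + 1) =
      ((x (i + 1) * y (i + 1)) ^ c)⁻¹ * x (i + 1) ^ a)
    (hG : Subgroup.closure (Set.range x ∪ Set.range y) = ⊤) : ¬ LeftOrderable G := by
  have hpow : ∀ (g : G) (m : ℕ), IsPower g (m : ℚ) (g ^ m) := by
    intro g m
    refine ⟨(Commute.self_pow g m).eq, ?_⟩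
    simp
  refine result n (fun _ => a) (fun _ => b) (fun _ => c) (fun _ => 0)
    (fun _ => by exact_mod_cast ha) (fun _ => ⟨by positivity, by exact_mod_cast hb⟩)
    (fun _ => by positivity) (fun _ => by exact_mod_cast hbc) (fun _ => le_rfl) G
    { x := x
      y := y
      X := fun i => x i ^ a
      Y := fun i => y i ^ b
      Z := fun i => (x i * y i) ^ c
      W := fun _ => 1
      powX := fun i => hpow _ _
      powY := fun i => hpow _ _
      powZ := fun i => hpow _ _
      powW := fun i => ⟨by simp, by simp⟩
      first := fun i => by rw [h1, pow_succ']; group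
      second := fun i => by
        rw [← h2, pow_succ, pow_succ]
        group } ?_
  rw [eq_top_iff, ← hG]
  apply Subgroup.closure_mono
  intro g hg
  rcases hg with hg | hg
  · exact Or.inl (Or.inl (Or.inl (Or.inl (Or.inl hg))))
  · exact Or.inl (Or.inl (Or.inl (Or.inl (Or.inr hg))))

end Pool.Agent.Helper39.CycPretzelVariant
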