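import Pool.Agent.Helper39.Montel

/-!
Uniform polynomial approximation of dilates of holomorphic functions on star domains.
-/

open Set Metric Filter Topology

namespace Pool.Agent.Helper39

/-- Bounded open sets, star-shaped about `0` in the strong sense that every dilation with factor in
`[0,1)` maps the closure into the set. -/
structure StarDom (U : Set ℂ) : Prop where
  isOpen : IsOpen U
  zero_mem : (0:ℂ) ∈ U
  bdd : Bornology.IsBounded U
  smul_mem : ∀ s : ℝ, 0 ≤ s → s < 1 → ∀ z ∈ closure U, (s:ℂ) * z ∈ U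

/-- Taylor polynomials. -/
theorem exists_poly_near_zero {f : ℂ → ℂ} {ρ ρ' : ℝ} (hρ' : 0 < ρ') (h : ρ' < ρ)
    (hf : DifferentiableOn ℂ f (closedBall 0 ρ)) {ε : ℝ} (hε : 0 < ε) :
    ∃ P : Polynomial ℂ, ∀ y ∈ ball (0:ℂ) ρ', ‖f y - P.eval y‖ < ε := by
  lift ρ to NNReal using (hρ'.trans h).le
  lift ρ' to NNReal using hρ'.le
  have hps := hf.hasFPowerSeriesOnBall (by exact_mod_cast hρ'.trans h)
  have hu := hps.tendstoUniformlyOn (r' := ρ') (by exact_mod_cast h)
  rw [Metric.tendstoUniformlyOn_iff] at hu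
  obtain ⟨n, hn⟩ := (hu ε hε).exists
  refine ⟨∑ k ∈ Finset.range n, Polynomial.C ((cauchyPowerSeries f 0 ρ).coeff k) * Polynomial.X ^ k,
    fun y hy => ?_⟩
  have := hn y hy
  rw [dist_eq_norm, zero_add] at this
  have heq : (∑ k ∈ Finset.range n, Polynomial.C ((cauchyPowerSeries f 0 ρ).coeff k) *
      Polynomial.X ^ k).eval y = (cauchyPowerSeries f 0 ρ).partialSum n y := by
    rw [Polynomial.eval_finsetSum, FormalMultilinearSeries.partialSum]
    refine Finset.sum_congr rfl fun k _ => ?_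
    rw [FormalMultilinearSeries.apply_eq_pow_smul_coeff, Polynomial.eval_mul, Polynomial.eval_C,
      Polynomial.eval_pow, Polynomial.eval_X, smul_eq_mul, mul_comm]
  rw [heq]
  exact this

/-- Second order Taylor bound with uniform constant. -/
theorem taylor_two_bound {F : ℂ → ℂ} {s₀ : ℂ} {δ M : ℝ} (hδ : 0 < δ)
    (hF : DifferentiableOn ℂ F (ball s₀ (4 * δ))) (hM : ∀ s ∈ ball s₀ (4 * δ), ‖F s‖ ≤ M) :
    ∀ s ∈ ball s₀ δ, ‖F s - F s₀ - (s - s₀) * deriv F s₀‖ ≤ 2 * (M / δ) / δ * ‖s - s₀‖ ^ 2 := by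
  have hd1 : DifferentiableOn ℂ (deriv F) (ball s₀ (2 * δ)) :=
    (hF.deriv isOpen_ball).mono (ball_subset_ball (by linarith))
  have hb1 : ∀ s ∈ ball s₀ (2 * δ), ‖deriv F s‖ ≤ M / δ := by
    intro s hs
    have hsub : closedBall s δ ⊆ ball s₀ (4 * δ) := by
      intro w hw
      rw [mem_ball]
      have := dist_triangle w s s₀
      have h1 := mem_closedBall.1 hw
      have h2 := mem_ball.1 hs
      linarith
    exact Complex.norm_deriv_le_of_forall_mem_sphere_norm_le hδ
      ((hF.mono hsub).diffContOnCl_ball subset_rfl)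
      (fun w hw => hM w (hsub (sphere_subset_closedBall hw)))
  have hL := lipschitz_of_bounded hδ hd1 hb1
  intro s hs
  have hs' : ‖s - s₀‖ < δ := by rwa [mem_ball, dist_eq_norm] at hs
  -- the auxiliary function
  have hsub : closedBall s₀ ‖s - s₀‖ ⊆ ball s₀ δ := closedBall_subset_ball hs'
  have hder : ∀ x ∈ closedBall s₀ ‖s - s₀‖,
      HasDerivAt (fun x => F x - x * deriv F s₀) (deriv F x - deriv F s₀) x := by
    intro x hx
    have h1 : HasDerivAt F (deriv F x) x :=
      (hF.differentiableAt (isOpen_ball.mem_nhds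
        (ball_subset_ball (by linarith) (hsub hx)))).hasDerivAt
    have h2 : HasDerivAt (fun x : ℂ => x * deriv F s₀) (1 * deriv F s₀) x :=
      (hasDerivAt_id x).mul_const _
    simpa using h1.fun_sub h2
  have hbound : ∀ x ∈ closedBall s₀ ‖s - s₀‖,
      ‖deriv F x - deriv F s₀‖ ≤ 2 * (M / δ) / δ * ‖s - s₀‖ := by
    intro x hx
    refine (hL x (hsub hx) s₀ (mem_ball_self hδ)).trans ?_
    have hMnn : 0 ≤ M / δ := (norm_nonneg _).trans (hb1 s₀ (mem_ball_self (by positivity)))
    gcongr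
    rw [mem_closedBall, dist_eq_norm] at hx
    exact hx
  have := (convex_closedBall s₀ ‖s - s₀‖).norm_image_sub_le_of_norm_hasDerivWithin_le
    (fun x hx => (hder x hx).hasDerivWithinAt) hbound
    (mem_closedBall_self (norm_nonneg _)) (show s ∈ closedBall s₀ ‖s - s₀‖ by
      rw [mem_closedBall, dist_eq_norm])
  calc ‖F s - F s₀ - (s - s₀) * deriv F s₀‖
      = ‖(F s - s * deriv F s₀) - (F s₀ - s₀ * deriv F s₀)‖ := by congr 1; ring
    _ ≤ 2 * (M / δ) / δ * ‖s - s₀‖ * ‖s - s₀‖ := this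
    _ = _ := by ring

/-- **Uniform approximation of dilates.** -/
theorem StarDom.exists_poly {U : Set ℂ} (hU : StarDom U) {f : ℂ → ℂ}
    (hf : DifferentiableOn ℂ f U) {r : ℝ} (hr0 : 0 ≤ r) (hr1 : r < 1) {ε : ℝ} (hε : 0 < ε) :
    ∃ P : Polynomial ℂ, ∀ z ∈ closure U, ‖f (r * z) - P.eval z‖ < ε := by
  classical
  set K : Set ℂ := closure U with hK
  have hKc : IsCompact K := hU.bdd.isCompact_closure
  have : CompactSpace K := isCompact_iff_compactSpace.1 hKc
  obtain ⟨R, hR, hKR⟩ := (hKc.isBounded).subset_ball_lt 0 0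
  have hKnorm : ∀ z ∈ K, ‖z‖ < R := fun z hz => by simpa using hKR hz
  -- the set of admissible dilations
  set S : Set ℂ := {s | ∀ z ∈ K, s * z ∈ U} with hS
  -- an open-ness statement with uniform compact neighbourhoods
  have hSnear : ∀ s₀ ∈ S, ∃ δ > 0, ∃ K' : Set ℂ, IsCompact K' ∧ K' ⊆ U ∧
      ∀ s ∈ ball s₀ δ, ∀ z ∈ K, s * z ∈ K' := by
    intro s₀ hs₀
    have hc : IsCompact ((fun z => s₀ * z) '' K) := hKc.image (continuous_const.mul continuous_id)
    have hsub : (fun z => s₀ * z) '' K ⊆ U := by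
      rintro _ ⟨z, hz, rfl⟩; exact hs₀ z hz
    obtain ⟨η, hη, hηU⟩ := hc.exists_cthickening_subset_open hU.isOpen hsub
    refine ⟨η / R, by positivity, cthickening η ((fun z => s₀ * z) '' K), hc.cthickening, hηU, ?_⟩
    intro s hs z hz
    refine mem_cthickening_of_dist_le (s * z) (s₀ * z) η _ ⟨z, hz, rfl⟩ ?_
    rw [dist_eq_norm, ← sub_mul, norm_mul]
    rw [mem_ball, dist_eq_norm] at hs
    calc ‖s - s₀‖ * ‖z‖ ≤ (η / R) * R := by
          gcongr
          exact (hKnorm z hz).le
      _ = η := by field_simp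
  have hSopen : IsOpen S := by
    rw [Metric.isOpen_iff]
    intro s₀ hs₀
    obtain ⟨δ, hδ, K', -, hK'U, h⟩ := hSnear s₀ hs₀
    exact ⟨δ, hδ, fun s hs z hz => hK'U (h s hs z hz)⟩
  have hS0 : (0:ℂ) ∈ S := fun z _ => by simpa using hU.zero_mem
  have hSstar : StarConvex ℝ 0 S := by
    intro s hs a b ha hb hab z hz
    have hb1 : b ≤ 1 := by linarith
    rcases hb1.lt_or_eq with hb1 | hb1
    · have := hU.smul_mem b hb hb1 (s * z) (subset_closure (hs z hz))
      simpa [mul_assoc] using this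
    · subst hb1
      simpa using hs z hz
  have hSpre : IsPreconnected S := (hSstar.isPathConnected hS0).isConnected.isPreconnected
  have hrS : (r:ℂ) ∈ S := fun z hz => hU.smul_mem r hr0 hr1 z hz
  -- the curve of functions
  have hcont : ∀ s ∈ S, Continuous (fun z : K => f (s * z)) := by
    intro s hs
    have h1 : Continuous (fun z : K => s * (z:ℂ)) := continuous_const.mul continuous_subtype_val
    exact hf.continuousOn.comp_continuous h1 (fun z => hs z z.2)
  have hcont' : ∀ s ∈ S, Continuous (fun z : K => (z:ℂ) * deriv f (s * z)) := by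
    intro s hs
    have h1 : Continuous (fun z : K => s * (z:ℂ)) := continuous_const.mul continuous_subtype_val
    exact continuous_subtype_val.mul
      ((hf.deriv hU.isOpen).continuousOn.comp_continuous h1 (fun z => hs z z.2))
  set G : ℂ → C(K, ℂ) := fun s => if hs : s ∈ S then ⟨_, hcont s hs⟩ else 0 with hG
  have hGapp : ∀ s ∈ S, ∀ z : K, G s z = f (s * z) := by
    intro s hs z
    simp only [hG, hs, dif_pos]
    rfl
  have hGder : ∀ s₀ (hs₀ : s₀ ∈ S), HasDerivAt G ⟨_, hcont' s₀ hs₀⟩ s₀ := by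
    intro s₀ hs₀
    obtain ⟨δ, hδ, K', hK'c, hK'U, h⟩ := hSnear s₀ hs₀
    obtain ⟨M, hM⟩ := (hK'c.exists_bound_of_continuousOn (hf.continuousOn.mono hK'U))
    rw [hasDerivAt_iff_isLittleO]
    have hbig : (fun s => G s - G s₀ - (s - s₀) • (⟨_, hcont' s₀ hs₀⟩ : C(K, ℂ)))
        =O[𝓝 s₀] (fun s => ‖s - s₀‖ ^ 2) := by
      refine Asymptotics.IsBigO.of_bound (2 * (max M 0 / (δ / 4)) / (δ / 4)) ?_
      filter_upwards [ball_mem_nhds s₀ (show 0 < δ / 4 by positivity)] with s hs
      have hsδ : s ∈ ball s₀ δ := ball_subset_ball (by linarith) hs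
      have hsS : s ∈ S := fun z hz => hK'U (h s hsδ z hz)
      rw [ContinuousMap.norm_le _ (by positivity)]
      intro z
      have h4 : 4 * (δ / 4) = δ := by ring
      have hF : DifferentiableOn ℂ (fun s : ℂ => f (s * z)) (ball s₀ (4 * (δ / 4))) := by
        rw [h4]
        refine hf.comp (differentiable_id.mul_const _).differentiableOn ?_
        intro s hs; exact hK'U (h s hs z z.2)
      have hder : deriv (fun s : ℂ => f (s * z)) s₀ = z * deriv f (s₀ * z) := by
        have h1 : HasDerivAt f (deriv f (s₀ * z)) (s₀ * z) :=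
          (hf.differentiableAt (hU.isOpen.mem_nhds (hs₀ z z.2))).hasDerivAt
        have h2 : HasDerivAt (fun s : ℂ => s * (z:ℂ)) (1 * (z:ℂ)) s₀ :=
          (hasDerivAt_id s₀).mul_const _
        have h3 := h1.comp s₀ h2
        rw [show (f ∘ fun s : ℂ => s * (z:ℂ)) = fun s : ℂ => f (s * z) from rfl] at h3
        rw [h3.deriv]; ring
      have := taylor_two_bound (F := fun s : ℂ => f (s * z)) (s₀ := s₀) (δ := δ / 4)
        (M := max M 0) (by positivity) hF (by
          rw [h4]; intro s hs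
          exact (hM _ (h s hs z z.2)).trans (le_max_left _ _)) s hs
      rw [hder] at this
      simp only [ContinuousMap.sub_apply, ContinuousMap.smul_apply, ContinuousMap.coe_mk,
        smul_eq_mul, hGapp s hsS, hGapp s₀ hs₀]
      simpa using this
    refine hbig.trans_isLittleO ?_
    have : (fun s : ℂ => ‖s - s₀‖ ^ 2) =o[𝓝 s₀] fun s => ‖s - s₀‖ := by
      have h1 : Tendsto (fun s : ℂ => ‖s - s₀‖) (𝓝 s₀) (𝓝 0) := by
        have : ContinuousAt (fun s : ℂ => ‖s - s₀‖) s₀ := by fun_prop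
        simpa [ContinuousAt] using this
      have h2 : (fun s : ℂ => ‖s - s₀‖ * ‖s - s₀‖) =o[𝓝 s₀] fun s => 1 * ‖s - s₀‖ :=
        ((Asymptotics.isLittleO_one_iff ℝ).2 h1).mul_isBigO (Asymptotics.isBigO_refl _ _)
      simpa [sq] using h2
    exact this.of_norm_right
  -- closed subspace of polynomials
  set A : Submodule ℂ C(K, ℂ) := (Subalgebra.toSubmodule (polynomialFunctions K)).topologicalClosure
    with hA
  have : IsClosed (A : Set C(K, ℂ)) := Submodule.isClosed_topologicalClosure _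
  have hnear0 : ∀ᶠ s in 𝓝 (0:ℂ), G s ∈ A := by
    obtain ⟨ρ, hρ, hρU⟩ := Metric.isOpen_iff.1 hU.isOpen 0 hU.zero_mem
    have hev : ∀ᶠ s in 𝓝 (0:ℂ), s ∈ S ∧ s ∈ ball (0:ℂ) (ρ / 4 / R) :=
      (hSopen.eventually_mem hS0).and (ball_mem_nhds _ (by positivity))
    filter_upwards [hev] with s hs
    obtain ⟨hsS, hsb⟩ := hs
    rw [hA, ← SetLike.mem_coe, Submodule.topologicalClosure_coe, Metric.mem_closure_iff]
    intro ε hε
    obtain ⟨P, hP⟩ := exists_poly_near_zero (f := f) (ρ := ρ / 2) (ρ' := ρ / 4) (by positivity)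
      (by linarith) (hf.mono ((closedBall_subset_ball (by linarith)).trans hρU))
      (show 0 < ε / 2 by positivity)
    refine ⟨(P.comp (Polynomial.C s * Polynomial.X)).toContinuousMapOn K, ?_, ?_⟩
    · simp only [Subalgebra.coe_toSubmodule, polynomialFunctions_coe, mem_range]
      exact ⟨_, rfl⟩
    · refine lt_of_le_of_lt ?_ (half_lt_self hε)
      rw [ContinuousMap.dist_le (by positivity)]
      intro z
      rw [hGapp s hsS, dist_eq_norm]
      have hmem : s * z ∈ ball (0:ℂ) (ρ / 4) := by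
        rw [mem_ball_zero_iff] at hsb ⊢
        rw [norm_mul]
        calc ‖s‖ * ‖(z:ℂ)‖ ≤ ‖s‖ * R := by gcongr; exact (hKnorm z z.2).le
          _ < ρ / 4 / R * R := by gcongr
          _ = ρ / 4 := by field_simp
      have := hP _ hmem
      simpa using this.le
  -- analytic function with values in the quotient
  set Q : C(K, ℂ) →L[ℂ] (C(K, ℂ) ⧸ A) := A.mkQL with hQ
  have hQG : DifferentiableOn ℂ (fun s => Q (G s)) S := by
    intro s hs
    exact (Q.differentiableAt.comp s (hGder s hs).differentiableAt).differentiableWithinAt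
  have hana : AnalyticOnNhd ℂ (fun s => Q (G s)) S := hQG.analyticOnNhd hSopen
  have hzero : EqOn (fun s => Q (G s)) 0 S := by
    refine hana.eqOn_zero_of_preconnected_of_eventuallyEq_zero hSpre hS0 ?_
    filter_upwards [hnear0] with s hs
    simpa [hQ] using hs
  have hmem : G r ∈ A := by
    have := hzero hrS
    simpa [hQ] using this
  rw [hA, ← SetLike.mem_coe, Submodule.topologicalClosure_coe, Metric.mem_closure_iff] at hmem
  obtain ⟨g, hg, hgr⟩ := hmem ε hε
  simp only [Subalgebra.coe_toSubmodule, polynomialFunctions_coe, mem_range] at hg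
  obtain ⟨P, rfl⟩ := hg
  refine ⟨P, fun z hz => ?_⟩
  have := (ContinuousMap.dist_lt_iff hε).1 hgr ⟨z, hz⟩
  rw [hGapp _ hrS, dist_eq_norm] at this
  simpa using this

end Pool.Agent.Helper39
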