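import Mathlib

/-!
Riesz–Scheffé lemma: pointwise convergence and convergence of norms imply norm convergence.
-/

open Set Filter Topology MeasureTheory
open scoped ENNReal

namespace Pool.Agent.Helper39

/-- Riesz–Scheffé, `lintegral` form. -/
theorem tendsto_lintegral_sub_of_tendsto {α : Type*} [MeasurableSpace α] {μ : Measure α}
    {p : ℝ} (hp : 1 ≤ p) {f : ℕ → α → ℂ} {g : α → ℂ} (hf : ∀ n, AEMeasurable (f n) μ)
    (hg : AEMeasurable g μ) (hlim : ∀ᵐ x ∂μ, Tendsto (fun n => f n x) atTop (𝓝 (g x)))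
    (hfin : ∫⁻ x, ‖g x‖ₑ ^ p ∂μ ≠ ∞) {b : ℕ → ℝ≥0∞}
    (hb : Tendsto b atTop (𝓝 (∫⁻ x, ‖g x‖ₑ ^ p ∂μ)))
    (hle : ∀ᶠ n in atTop, ∫⁻ x, ‖f n x‖ₑ ^ p ∂μ ≤ b n) :
    Tendsto (fun n => ∫⁻ x, ‖f n x - g x‖ₑ ^ p ∂μ) atTop (𝓝 0) := by
  have hp0 : 0 ≤ p := by linarith
  set I := ∫⁻ x, ‖g x‖ₑ ^ p ∂μ with hI
  set C : ℝ≥0∞ := 2 ^ (p - 1) with hC
  have hCtop : C ≠ ∞ := by
    rw [hC]; exact ENNReal.rpow_ne_top_of_nonneg (by linarith) (by norm_num)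
  set A : ℕ → α → ℝ≥0∞ := fun n x => C * (‖f n x‖ₑ ^ p + ‖g x‖ₑ ^ p) with hA
  set B : ℕ → α → ℝ≥0∞ := fun n x => ‖f n x - g x‖ₑ ^ p with hB
  set L : α → ℝ≥0∞ := fun x => C * (‖g x‖ₑ ^ p + ‖g x‖ₑ ^ p) with hL
  have hBA : ∀ n x, B n x ≤ A n x := by
    intro n x
    calc ‖f n x - g x‖ₑ ^ p ≤ (‖f n x‖ₑ + ‖g x‖ₑ) ^ p :=
          ENNReal.rpow_le_rpow enorm_sub_le hp0
      _ ≤ _ := ENNReal.rpow_add_le_mul_rpow_add_rpow _ _ hp
  have hAm : ∀ n, AEMeasurable (A n) μ := fun n =>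
    (((hf n).enorm.pow_const p).add (hg.enorm.pow_const p)).const_mul C
  have hBm : ∀ n, AEMeasurable (B n) μ := fun n => (((hf n).sub hg).enorm.pow_const p)
  have hLint : ∫⁻ x, L x ∂μ = C * (I + I) := by
    rw [hL, lintegral_const_mul' _ _ hCtop, lintegral_add_left' (hg.enorm.pow_const p)]
  have hLfin : ∫⁻ x, L x ∂μ ≠ ∞ := by
    rw [hLint]; exact ENNReal.mul_ne_top hCtop (ENNReal.add_ne_top.2 ⟨hfin, hfin⟩)
  have hAint : ∀ n, ∫⁻ x, A n x ∂μ = C * (∫⁻ x, ‖f n x‖ₑ ^ p ∂μ + I) := by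
    intro n
    rw [hA]
    simp only
    rw [lintegral_const_mul' _ _ hCtop, lintegral_add_left' ((hf n).enorm.pow_const p)]
  have hAle : ∀ᶠ n in atTop, ∫⁻ x, A n x ∂μ ≤ C * (b n + I) := by
    filter_upwards [hle] with n hn
    rw [hAint n]; gcongr
  have hAlim : Tendsto (fun n => C * (b n + I)) atTop (𝓝 (∫⁻ x, L x ∂μ)) := by
    rw [hLint]
    exact ENNReal.Tendsto.const_mul (hb.add tendsto_const_nhds) (Or.inr hCtop)
  -- pointwise convergence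
  have hAB : ∀ᵐ x ∂μ, Tendsto (fun n => A n x - B n x) atTop (𝓝 (L x)) := by
    filter_upwards [hlim] with x hx
    have h1 : Tendsto (fun n => ‖f n x‖ₑ ^ p) atTop (𝓝 (‖g x‖ₑ ^ p)) :=
      ((ENNReal.continuous_rpow_const (y := p)).tendsto _).comp ((continuous_enorm.tendsto _).comp hx)
    have h2 : Tendsto (fun n => A n x) atTop (𝓝 (L x)) :=
      ENNReal.Tendsto.const_mul (h1.add tendsto_const_nhds) (Or.inr hCtop)
    have h3 : Tendsto (fun n => B n x) atTop (𝓝 0) := by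
      have h4 : Tendsto (fun n => ‖f n x - g x‖ₑ) atTop (𝓝 0) := by
        have := (continuous_enorm.tendsto _).comp (hx.sub (tendsto_const_nhds (x := g x)))
        simpa [Function.comp_def] using this
      have := ((ENNReal.continuous_rpow_const (y := p)).tendsto _).comp h4
      rw [ENNReal.zero_rpow_of_pos (by linarith)] at this
      exact this
    have := ENNReal.Tendsto.sub h2 h3 (Or.inr (by simp))
    simpa using this
  have hfatou : ∫⁻ x, L x ∂μ ≤ liminf (fun n => ∫⁻ x, (A n x - B n x) ∂μ) atTop := by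
    calc ∫⁻ x, L x ∂μ = ∫⁻ x, liminf (fun n => A n x - B n x) atTop ∂μ := by
          apply lintegral_congr_ae
          filter_upwards [hAB] with x hx using hx.liminf_eq.symm
      _ ≤ _ := lintegral_liminf_le' (fun n => (hAm n).sub (hBm n))
  rw [ENNReal.tendsto_nhds_zero]
  intro ε hε
  rcases eq_or_ne ε ∞ with rfl | hεtop
  · exact Eventually.of_forall fun n => le_top
  set J := ∫⁻ x, L x ∂μ with hJ
  have hε2 : ε / 2 ≠ 0 := (ENNReal.half_pos hε.ne').ne'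
  -- eventually ∫ (A - B) ≥ J - ε/2
  have h1 : ∀ᶠ n in atTop, J - ε / 2 ≤ ∫⁻ x, (A n x - B n x) ∂μ := by
    rcases eq_or_ne J 0 with h0 | h0
    · rw [h0]; simp
    have : J - ε / 2 < liminf (fun n => ∫⁻ x, (A n x - B n x) ∂μ) atTop :=
      lt_of_lt_of_le (ENNReal.sub_lt_self hLfin h0 hε2) hfatou
    exact (eventually_lt_of_lt_liminf this).mono fun n hn => hn.le
  have h2 : ∀ᶠ n in atTop, C * (b n + I) ≤ J + ε / 2 := by
    have : J < J + ε / 2 := ENNReal.lt_add_right hLfin hε2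
    exact (hAlim.eventually (gt_mem_nhds this)).mono fun n hn => hn.le
  filter_upwards [h1, h2, hAle] with n hn1 hn2 hn3
  have hsplit : ∫⁻ x, (A n x - B n x) ∂μ + ∫⁻ x, B n x ∂μ = ∫⁻ x, A n x ∂μ := by
    rw [← lintegral_add_right' _ (hBm n)]
    apply lintegral_congr
    intro x
    exact tsub_add_cancel_of_le (hBA n x)
  have h4 : (J - ε / 2) + ∫⁻ x, B n x ∂μ ≤ J + ε / 2 := by
    calc (J - ε / 2) + ∫⁻ x, B n x ∂μ ≤ ∫⁻ x, (A n x - B n x) ∂μ + ∫⁻ x, B n x ∂μ := by gcongr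
      _ = ∫⁻ x, A n x ∂μ := hsplit
      _ ≤ _ := hn3.trans hn2
  have h5 : J + ∫⁻ x, B n x ∂μ ≤ J + ε := by
    calc J + ∫⁻ x, B n x ∂μ ≤ (J - ε / 2 + ε / 2) + ∫⁻ x, B n x ∂μ := by
          gcongr; exact le_tsub_add
      _ = (J - ε / 2) + ∫⁻ x, B n x ∂μ + ε / 2 := by ring
      _ ≤ J + ε / 2 + ε / 2 := by gcongr
      _ = J + ε := by rw [add_assoc, ENNReal.add_halves]
  exact (ENNReal.add_le_add_iff_left hLfin).1 h5

/-- Riesz–Scheffé, `eLpNorm` form. -/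
theorem tendsto_eLpNorm_sub_of_tendsto {α : Type*} [MeasurableSpace α] {μ : Measure α}
    {p : ℝ≥0∞} (hp : 1 ≤ p) (hptop : p ≠ ∞) {f : ℕ → α → ℂ} {g : α → ℂ}
    (hf : ∀ n, AEMeasurable (f n) μ)
    (hg : AEMeasurable g μ) (hlim : ∀ᵐ x ∂μ, Tendsto (fun n => f n x) atTop (𝓝 (g x)))
    (hfin : ∫⁻ x, ‖g x‖ₑ ^ p.toReal ∂μ ≠ ∞) {b : ℕ → ℝ≥0∞}
    (hb : Tendsto b atTop (𝓝 (∫⁻ x, ‖g x‖ₑ ^ p.toReal ∂μ)))
    (hle : ∀ᶠ n in atTop, ∫⁻ x, ‖f n x‖ₑ ^ p.toReal ∂μ ≤ b n) :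
    Tendsto (fun n => eLpNorm (f n - g) p μ) atTop (𝓝 0) := by
  have hp1 : 1 ≤ p.toReal := by
    have := ENNReal.toReal_mono hptop hp
    simpa using this
  have hp0 : p ≠ 0 := by rintro rfl; simp at hp
  have h := tendsto_lintegral_sub_of_tendsto hp1 hf hg hlim hfin hb hle
  have h2 : ∀ n, eLpNorm (f n - g) p μ = (∫⁻ x, ‖f n x - g x‖ₑ ^ p.toReal ∂μ) ^ (1 / p.toReal) := by
    intro n
    rw [eLpNorm_eq_lintegral_rpow_enorm_toReal hp0 hptop]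
    rfl
  simp only [h2]
  have := ((ENNReal.continuous_rpow_const (y := 1 / p.toReal)).tendsto _).comp h
  rw [ENNReal.zero_rpow_of_pos (by positivity)] at this
  exact this

end Pool.Agent.Helper39
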