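import Pool.Agent.Helper39.ChangeVar
import Pool.Agent.Helper39.PolyUniform
import Pool.Agent.Helper39.RieszScheffe

/-!
Weighted polynomial density in Bergman spaces of star domains with radially decreasing weights.
-/

open Set Metric Filter Topology MeasureTheory
open scoped ENNReal

namespace Pool.Agent.Helper39

/-- The measure `ω dA` on `U`. -/
noncomputable def wmeas (U : Set ℂ) (ω : ℂ → ℝ≥0∞) : Measure ℂ :=
  (volume.restrict U).withDensity ω

theorem lintegral_wmeas {U : Set ℂ} {ω : ℂ → ℝ≥0∞} (hω : AEMeasurable ω (volume.restrict U))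
    {g : ℂ → ℝ≥0∞} (hg : AEMeasurable g (volume.restrict U)) :
    ∫⁻ z, g z ∂(wmeas U ω) = ∫⁻ z in U, ω z * g z := by
  unfold wmeas
  rw [lintegral_withDensity_eq_lintegral_mul₀ hω hg]
  rfl

theorem wmeas_ac (U : Set ℂ) (ω : ℂ → ℝ≥0∞) : wmeas U ω ≪ volume.restrict U :=
  withDensity_absolutelyContinuous _ _

theorem aemeasurable_of_diff {U : Set ℂ} (hU : IsOpen U) {f : ℂ → ℂ}
    (hf : DifferentiableOn ℂ f U) : AEMeasurable f (volume.restrict U) :=
  hf.continuousOn.aemeasurable hU.measurableSet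

theorem wmeas_univ_lt_top {U : Set ℂ} (hU : IsOpen U) (hb : Bornology.IsBounded U)
    {ω : ℂ → ℝ≥0∞} {C : ℝ≥0∞} (hC : C ≠ ∞) (hωb : ∀ z ∈ U, ω z ≤ C) :
    wmeas U ω univ < ∞ := by
  unfold wmeas
  rw [withDensity_apply _ MeasurableSet.univ, Measure.restrict_univ]
  calc ∫⁻ z in U, ω z ≤ ∫⁻ _ in U, C := setLIntegral_mono' hU.measurableSet hωb
    _ = C * volume U := by rw [setLIntegral_const]
    _ < ∞ := ENNReal.mul_lt_top hC.lt_top hb.measure_lt_top

/-- **Weighted density of polynomials on star domains.** -/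
theorem StarDom.dense {U : Set ℂ} (hU : StarDom U) {ω : ℂ → ℝ≥0∞}
    (hω : AEMeasurable ω (volume.restrict U)) {C : ℝ≥0∞} (hC : C ≠ ∞) (hωb : ∀ z ∈ U, ω z ≤ C)
    (hωmono : ∀ z ∈ U, ∀ t : ℝ, 0 < t → t < 1 → ω z ≤ ω (t * z)) {p : ℝ≥0∞} (hp : 1 ≤ p)
    (hptop : p ≠ ∞) {f : ℂ → ℂ} (hf : DifferentiableOn ℂ f U)
    (hfin : ∫⁻ z in U, ω z * ‖f z‖ₑ ^ p.toReal ≠ ∞) {ε : ℝ≥0∞} (hε : ε ≠ 0) :
    ∃ P : Polynomial ℂ, eLpNorm (fun z => f z - P.eval z) p (wmeas U ω) < ε := by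
  have hUo := hU.isOpen
  have hp0 : p ≠ 0 := by rintro rfl; simp at hp
  have hpr : 0 < p.toReal := ENNReal.toReal_pos hp0 hptop
  have hUU : ∀ t : ℝ, 0 ≤ t → t < 1 → ∀ z ∈ U, (t:ℂ) * z ∈ U := fun t h0 h1 z hz =>
    hU.smul_mem t h0 h1 z (subset_closure hz)
  set t : ℕ → ℝ := fun n => (n + 1) / (n + 2) with ht
  have ht0 : ∀ n, 0 < t n := fun n => by simp only [ht]; positivity
  have ht1 : ∀ n, t n < 1 := fun n => by
    simp only [ht]; rw [div_lt_one (by positivity)]; linarith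
  have htlim : Tendsto t atTop (𝓝 1) := by
    have h1 : Tendsto (fun n : ℕ => 1 - 1 / ((n:ℝ) + 2)) atTop (𝓝 (1 - 0)) := by
      refine tendsto_const_nhds.sub ?_
      have := (tendsto_one_div_add_atTop_nhds_zero_nat (𝕜 := ℝ)).comp (tendsto_add_atTop_nat 1)
      refine this.congr (fun n => ?_)
      simp only [Function.comp_apply]
      push_cast
      ring_nf
    rw [sub_zero] at h1
    refine h1.congr (fun n => ?_)
    simp only [ht]
    field_simp
    ring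
  set F : ℕ → ℂ → ℂ := fun n z => f (t n * z) with hF
  have hFd : ∀ n, DifferentiableOn ℂ (F n) U := fun n =>
    hf.comp (differentiable_id.const_mul _).differentiableOn
      (fun z hz => hUU (t n) (ht0 n).le (ht1 n) z hz)
  have hac := wmeas_ac U ω
  have hfm : AEMeasurable f (wmeas U ω) := (aemeasurable_of_diff hUo hf).mono_ac hac
  have hFm : ∀ n, AEMeasurable (F n) (wmeas U ω) := fun n =>
    (aemeasurable_of_diff hUo (hFd n)).mono_ac hac
  have hI : ∫⁻ z, ‖f z‖ₑ ^ p.toReal ∂(wmeas U ω) = ∫⁻ z in U, ω z * ‖f z‖ₑ ^ p.toReal :=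
    lintegral_wmeas hω ((aemeasurable_of_diff hUo hf).enorm.pow_const _)
  have hlim : ∀ᵐ z ∂(wmeas U ω), Tendsto (fun n => F n z) atTop (𝓝 (f z)) := by
    apply hac.ae_le
    filter_upwards [ae_restrict_mem hUo.measurableSet] with z hz
    have h1 : Tendsto (fun n => ((t n : ℝ) : ℂ) * z) atTop (𝓝 (((1:ℝ):ℂ) * z)) :=
      ((Complex.continuous_ofReal.tendsto _).comp htlim).mul_const z
    have h2 : Tendsto f (𝓝 (((1:ℝ):ℂ) * z)) (𝓝 (f z)) := by
      have := (hf.differentiableAt (hUo.mem_nhds hz)).continuousAt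
      simpa [ContinuousAt] using this
    exact h2.comp h1
  -- norm bound
  have hle : ∀ n, ∫⁻ z, ‖F n z‖ₑ ^ p.toReal ∂(wmeas U ω)
      ≤ ENNReal.ofReal (((t n) ^ 2)⁻¹) * ∫⁻ z, ‖f z‖ₑ ^ p.toReal ∂(wmeas U ω) := by
    intro n
    rw [lintegral_wmeas hω ((aemeasurable_of_diff hUo (hFd n)).enorm.pow_const _), hI]
    have hlin : DifferentiableOn ℂ (fun z : ℂ => (t n : ℂ) * z) U :=
      (differentiable_id.const_mul _).differentiableOn
    have htne : (t n : ℂ) ≠ 0 := by exact_mod_cast (ht0 n).ne'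
    have hinj : InjOn (fun z : ℂ => (t n : ℂ) * z) U := fun x _ y _ hxy => mul_left_cancel₀ htne hxy
    have hcv := lintegral_image_holo hUo hlin hinj (fun w => ω w * ‖f w‖ₑ ^ p.toReal)
    have hder : ∀ z, deriv (fun z : ℂ => (t n : ℂ) * z) z = t n := by
      intro z
      have : HasDerivAt (fun z : ℂ => (t n : ℂ) * z) ((t n : ℂ) * 1) z :=
        (hasDerivAt_id z).const_mul _
      rw [this.deriv, mul_one]
    simp only [hder] at hcv
    have hten : ‖(t n : ℂ)‖ₑ ^ 2 = ENNReal.ofReal ((t n) ^ 2) := by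
      rw [← ofReal_norm, Complex.norm_real, Real.norm_of_nonneg (ht0 n).le,
        ENNReal.ofReal_pow (ht0 n).le]
    rw [hten, lintegral_const_mul' _ _ ENNReal.ofReal_ne_top] at hcv
    have himg : (fun z : ℂ => (t n : ℂ) * z) '' U ⊆ U := by
      rintro _ ⟨z, hz, rfl⟩; exact hUU _ (ht0 n).le (ht1 n) z hz
    have h1 : ENNReal.ofReal ((t n) ^ 2) * ∫⁻ z in U, ω (t n * z) * ‖f (t n * z)‖ₑ ^ p.toReal
        ≤ ∫⁻ z in U, ω z * ‖f z‖ₑ ^ p.toReal := by
      rw [← hcv]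
      exact lintegral_mono_set himg
    have h2 : ∫⁻ z in U, ω z * ‖F n z‖ₑ ^ p.toReal
        ≤ ∫⁻ z in U, ω (t n * z) * ‖f (t n * z)‖ₑ ^ p.toReal := by
      refine setLIntegral_mono' hUo.measurableSet (fun z hz => ?_)
      gcongr
      exact hωmono z hz (t n) (ht0 n) (ht1 n)
    have h3 : ENNReal.ofReal (((t n) ^ 2)⁻¹) * ENNReal.ofReal ((t n) ^ 2) = 1 := by
      rw [← ENNReal.ofReal_mul (by positivity), inv_mul_cancel₀ (by have := ht0 n; positivity)]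
      simp
    calc ∫⁻ z in U, ω z * ‖F n z‖ₑ ^ p.toReal
        = ENNReal.ofReal (((t n) ^ 2)⁻¹) * (ENNReal.ofReal ((t n) ^ 2) *
            ∫⁻ z in U, ω z * ‖F n z‖ₑ ^ p.toReal) := by rw [← mul_assoc, h3, one_mul]
      _ ≤ ENNReal.ofReal (((t n) ^ 2)⁻¹) * (ENNReal.ofReal ((t n) ^ 2) *
            ∫⁻ z in U, ω (t n * z) * ‖f (t n * z)‖ₑ ^ p.toReal) := by gcongr
      _ ≤ _ := by gcongr
  have hb : Tendsto (fun n => ENNReal.ofReal (((t n) ^ 2)⁻¹) *
      ∫⁻ z, ‖f z‖ₑ ^ p.toReal ∂(wmeas U ω)) atTop (𝓝 (∫⁻ z, ‖f z‖ₑ ^ p.toReal ∂(wmeas U ω))) := by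
    have h1 : Tendsto (fun n => ((t n) ^ 2)⁻¹) atTop (𝓝 ((1 ^ 2)⁻¹)) :=
      (htlim.pow 2).inv₀ (by norm_num)
    have h2 := ENNReal.tendsto_ofReal h1
    have h3 := ENNReal.Tendsto.mul_const (b := ∫⁻ z, ‖f z‖ₑ ^ p.toReal ∂(wmeas U ω)) h2
      (Or.inl (by norm_num))
    simpa using h3
  have hconv := tendsto_eLpNorm_sub_of_tendsto hp hptop hFm hfm hlim (by rw [hI]; exact hfin) hb
    (Eventually.of_forall hle)
  have hε2 : ε / 2 ≠ 0 := (ENNReal.half_pos hε).ne'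
  obtain ⟨n, hn⟩ := (hconv.eventually (gt_mem_nhds (pos_iff_ne_zero.2 hε2))).exists
  -- uniform approximation
  have hmu : wmeas U ω univ < ∞ := wmeas_univ_lt_top hUo hU.bdd hC hωb
  have hmu' : (wmeas U ω univ) ^ (p.toReal)⁻¹ ≠ ∞ :=
    ENNReal.rpow_ne_top_of_nonneg (by positivity) hmu.ne
  obtain ⟨δ, hδ, hδlt⟩ : ∃ δ : ℝ, 0 < δ ∧ (wmeas U ω univ) ^ (p.toReal)⁻¹ * ENNReal.ofReal δ < ε / 2 := by
    have h1 : Tendsto (fun δ : ℝ => (wmeas U ω univ) ^ (p.toReal)⁻¹ * ENNReal.ofReal δ) (𝓝[>] 0)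
        (𝓝 ((wmeas U ω univ) ^ (p.toReal)⁻¹ * ENNReal.ofReal 0)) :=
      ENNReal.Tendsto.const_mul ((ENNReal.continuous_ofReal.tendsto 0).mono_left nhdsWithin_le_nhds)
        (Or.inr hmu')
    rw [ENNReal.ofReal_zero, mul_zero] at h1
    have h2 := (h1.eventually (gt_mem_nhds (pos_iff_ne_zero.2 hε2))).and self_mem_nhdsWithin
    obtain ⟨δ, h3, h4⟩ := h2.exists
    exact ⟨δ, h4, h3⟩
  obtain ⟨P, hP⟩ := hU.exists_poly hf (ht0 n).le (ht1 n) hδ
  refine ⟨P, ?_⟩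
  have hPm : AEMeasurable (fun z : ℂ => P.eval z) (wmeas U ω) := P.continuous.aemeasurable
  have h1 : eLpNorm (fun z => F n z - P.eval z) p (wmeas U ω)
      ≤ (wmeas U ω univ) ^ (p.toReal)⁻¹ * ENNReal.ofReal δ := by
    refine eLpNorm_le_of_ae_bound ?_
    apply hac.ae_le
    filter_upwards [ae_restrict_mem hUo.measurableSet] with z hz
    exact (hP z (subset_closure hz)).le
  have h2 : eLpNorm (fun z => f z - F n z) p (wmeas U ω) < ε / 2 := by
    have h3 : (fun z => f z - F n z) = f - F n := rfl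
    rw [h3, eLpNorm_sub_comm]
    exact hn
  calc eLpNorm (fun z => f z - P.eval z) p (wmeas U ω)
      = eLpNorm ((fun z => f z - F n z) + (fun z => F n z - P.eval z)) p (wmeas U ω) := by
        congr 1; funext z; simp
    _ ≤ eLpNorm (fun z => f z - F n z) p (wmeas U ω)
        + eLpNorm (fun z => F n z - P.eval z) p (wmeas U ω) :=
        eLpNorm_add_le (hfm.sub (hFm n)).aestronglyMeasurable
          ((hFm n).sub hPm).aestronglyMeasurable hp
    _ < ε / 2 + ε / 2 := ENNReal.add_lt_add h2 (h1.trans_lt hδlt)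
    _ = ε := ENNReal.add_halves ε

end Pool.Agent.Helper39
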