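import Pool.Agent.Helper39.Density

/-!
Transfer of weighted density from the disk to a simply connected domain through a conformal map.
-/

open Set Metric Filter Topology MeasureTheory
open scoped ENNReal

namespace Pool.Agent.Helper39

/-- `h` is approximable by polynomials in `L^p(μ)`. -/
def Appr (p : ℝ≥0∞) (μ : Measure ℂ) (h : ℂ → ℂ) : Prop :=
  ∀ ε : ℝ≥0∞, ε ≠ 0 → ∃ P : Polynomial ℂ, eLpNorm (fun z => h z - P.eval z) p μ < ε

theorem Appr.of_close {p : ℝ≥0∞} (hp : 1 ≤ p) {μ : Measure ℂ} {h : ℂ → ℂ}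
    (hm : AEMeasurable h μ) (H : ∀ ε : ℝ≥0∞, ε ≠ 0 → ∃ h' : ℂ → ℂ, AEMeasurable h' μ ∧
      Appr p μ h' ∧ eLpNorm (fun z => h z - h' z) p μ < ε) : Appr p μ h := by
  intro ε hε
  have hε2 : ε / 2 ≠ 0 := (ENNReal.half_pos hε).ne'
  obtain ⟨h', hm', ha, hlt⟩ := H (ε / 2) hε2
  obtain ⟨P, hP⟩ := ha (ε / 2) hε2
  have hPm : AEMeasurable (fun z : ℂ => P.eval z) μ := P.continuous.aemeasurable
  refine ⟨P, ?_⟩
  calc eLpNorm (fun z => h z - P.eval z) p μ
      = eLpNorm ((fun z => h z - h' z) + (fun z => h' z - P.eval z)) p μ := by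
        congr 1; funext z; simp
    _ ≤ eLpNorm (fun z => h z - h' z) p μ + eLpNorm (fun z => h' z - P.eval z) p μ :=
        eLpNorm_add_le (hm.sub hm').aestronglyMeasurable (hm'.sub hPm).aestronglyMeasurable hp
    _ < ε / 2 + ε / 2 := ENNReal.add_lt_add hlt hP
    _ = ε := ENNReal.add_halves ε

theorem Appr.add {p : ℝ≥0∞} (hp : 1 ≤ p) {μ : Measure ℂ} {h₁ h₂ : ℂ → ℂ}
    (hm₁ : AEMeasurable h₁ μ) (hm₂ : AEMeasurable h₂ μ) (h1 : Appr p μ h₁) (h2 : Appr p μ h₂) :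
    Appr p μ (fun z => h₁ z + h₂ z) := by
  intro ε hε
  have hε2 : ε / 2 ≠ 0 := (ENNReal.half_pos hε).ne'
  obtain ⟨P, hP⟩ := h1 (ε / 2) hε2
  obtain ⟨Q, hQ⟩ := h2 (ε / 2) hε2
  have hPm : AEMeasurable (fun z : ℂ => P.eval z) μ := P.continuous.aemeasurable
  have hQm : AEMeasurable (fun z : ℂ => Q.eval z) μ := Q.continuous.aemeasurable
  refine ⟨P + Q, ?_⟩
  calc eLpNorm (fun z => h₁ z + h₂ z - (P + Q).eval z) p μ
      = eLpNorm ((fun z => h₁ z - P.eval z) + (fun z => h₂ z - Q.eval z)) p μ := by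
        congr 1; funext z; simp; ring
    _ ≤ eLpNorm (fun z => h₁ z - P.eval z) p μ + eLpNorm (fun z => h₂ z - Q.eval z) p μ :=
        eLpNorm_add_le (hm₁.sub hPm).aestronglyMeasurable (hm₂.sub hQm).aestronglyMeasurable hp
    _ < ε / 2 + ε / 2 := ENNReal.add_lt_add hP hQ
    _ = ε := ENNReal.add_halves ε

theorem Appr.const_mul {p : ℝ≥0∞} {μ : Measure ℂ} {h : ℂ → ℂ}
    (hh : Appr p μ h) (c : ℂ) : Appr p μ (fun z => c * h z) := by
  intro ε hε
  rcases eq_or_ne c 0 with rfl | hc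
  · refine ⟨0, ?_⟩
    simp only [zero_mul, Polynomial.eval_zero, sub_zero]
    have : eLpNorm (fun _ : ℂ => (0:ℂ)) p μ = 0 := eLpNorm_zero
    rw [this]
    exact pos_iff_ne_zero.2 hε
  have hce : ‖c‖ₑ ≠ 0 := by simpa using hc
  obtain ⟨P, hP⟩ := hh (ε / ‖c‖ₑ) (ENNReal.div_ne_zero.2 ⟨hε, enorm_ne_top⟩)
  refine ⟨Polynomial.C c * P, ?_⟩
  have : (fun z => c * h z - (Polynomial.C c * P).eval z) = c • (fun z => h z - P.eval z) := by
    funext z; simp [mul_sub]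
  rw [this, eLpNorm_const_smul]
  calc ‖c‖ₑ * eLpNorm (fun z => h z - P.eval z) p μ < ‖c‖ₑ * (ε / ‖c‖ₑ) :=
        (ENNReal.mul_lt_mul_iff_right hce enorm_ne_top).2 hP
    _ = ε := ENNReal.mul_div_cancel hce enorm_ne_top

theorem starDom_disk : StarDom (ball (0:ℂ) 1) where
  isOpen := isOpen_ball
  zero_mem := mem_ball_self one_pos
  bdd := isBounded_ball
  smul_mem := by
    intro s hs0 hs1 z hz
    rw [closure_ball (0:ℂ) one_ne_zero, mem_closedBall_zero_iff] at hz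
    rw [mem_ball_zero_iff, norm_mul, Complex.norm_real, Real.norm_of_nonneg hs0]
    nlinarith [norm_nonneg z]

/-- Admissible profiles: bounded, positive, and decreasing to `0` at `0`. -/
structure Profile (W : ℝ → ℝ) : Prop where
  pos : ∀ t ∈ Ioc (0:ℝ) 1, 0 < W t
  bdd : ∃ C, ∀ t ∈ Ioc (0:ℝ) 1, W t ≤ C
  mono : MonotoneOn W (Ioc (0:ℝ) 1)

/-- The disk weight `W (1 - |u|)`. -/
noncomputable def dweight (W : ℝ → ℝ) (u : ℂ) : ℝ≥0∞ := ENNReal.ofReal (W (1 - ‖u‖))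

theorem one_sub_norm_mem {u : ℂ} (hu : u ∈ ball (0:ℂ) 1) : 1 - ‖u‖ ∈ Ioc (0:ℝ) 1 := by
  rw [mem_ball_zero_iff] at hu
  exact ⟨by linarith, by linarith [norm_nonneg u]⟩

/-- A measurable function agreeing with `W` on `(0,1]`. -/
theorem Profile.exists_measurable {W : ℝ → ℝ} (hW : Profile W) :
    ∃ V : ℝ → ℝ, Measurable V ∧ ∀ t ∈ Ioc (0:ℝ) 1, V t = W t := by
  classical
  refine ⟨fun t => if t ≤ 0 then 0 else W (min t 1), Monotone.measurable ?_, ?_⟩
  · intro a b hab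
    by_cases ha : a ≤ 0
    · by_cases hb : b ≤ 0
      · simp [ha, hb]
      · simp only [ha, hb, if_true, if_false]
        push Not at hb
        exact (hW.pos _ ⟨lt_min hb one_pos, min_le_right _ _⟩).le
    · push Not at ha
      have hb : 0 < b := ha.trans_le hab
      simp only [not_le.2 ha, not_le.2 hb, if_false]
      exact hW.mono ⟨lt_min ha one_pos, min_le_right _ _⟩ ⟨lt_min hb one_pos, min_le_right _ _⟩
        (min_le_min_right _ hab)
  · intro t ht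
    simp [not_le.2 ht.1, min_eq_left ht.2]

theorem Profile.aemeasurable {W : ℝ → ℝ} (hW : Profile W) {Ω : Set ℂ} (hΩ : IsOpen Ω)
    {φ : ℂ → ℂ} (hφ : DifferentiableOn ℂ φ Ω) (hm : MapsTo φ Ω (ball 0 1)) :
    AEMeasurable (fun z => dweight W (φ z)) (volume.restrict Ω) := by
  obtain ⟨V, hV, hVW⟩ := hW.exists_measurable
  have h1 : AEMeasurable (fun z => ENNReal.ofReal (V (1 - ‖φ z‖))) (volume.restrict Ω) := by
    have h2 : AEMeasurable φ (volume.restrict Ω) := aemeasurable_of_diff hΩ hφ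
    exact (hV.comp_aemeasurable ((aemeasurable_const).sub h2.norm)).ennreal_ofReal
  refine h1.congr ?_
  filter_upwards [ae_restrict_mem hΩ.measurableSet] with z hz
  rw [dweight, hVW _ (one_sub_norm_mem (hm hz))]

/-- The frame function `(φ')^{2/p}`. -/
noncomputable def frame (p : ℝ≥0∞) (L : ℂ → ℂ) (z : ℂ) : ℂ :=
  Complex.exp (((2 / p.toReal : ℝ) : ℂ) * L z)

theorem frame_norm {p : ℝ≥0∞} (hpr : 0 < p.toReal) {L : ℂ → ℂ} {z c : ℂ}
    (h : Complex.exp (L z) = c) : ‖frame p L z‖ₑ ^ p.toReal = ‖c‖ₑ ^ 2 := by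
  have h1 : ‖frame p L z‖ ^ p.toReal = ‖c‖ ^ 2 := by
    rw [frame, Complex.norm_exp, ← h, Complex.norm_exp, Complex.re_ofReal_mul, ← Real.exp_mul,
      ← Real.exp_nat_mul]
    congr 1
    push_cast
    field_simp
  have h2 := congrArg ENNReal.ofReal h1
  rwa [← ENNReal.ofReal_rpow_of_nonneg (norm_nonneg _) hpr.le, ofReal_norm,
    ENNReal.ofReal_pow (norm_nonneg _), ofReal_norm] at h2

/-- Isometry between weighted Bergman spaces. -/
theorem lintegral_frame {Ω : Set ℂ} (hΩ : IsOpen Ω) {φ : ℂ → ℂ}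
    (hφ : DifferentiableOn ℂ φ Ω) (hb : BijOn φ Ω (ball 0 1)) {L : ℂ → ℂ}
    (hL : ∀ z ∈ Ω, Complex.exp (L z) = deriv φ z) {p : ℝ≥0∞} (hpr : 0 < p.toReal)
    (ω : ℂ → ℝ≥0∞) (H : ℂ → ℂ) :
    ∫⁻ z in Ω, ω (φ z) * ‖H (φ z) * frame p L z‖ₑ ^ p.toReal
      = ∫⁻ u in ball 0 1, ω u * ‖H u‖ₑ ^ p.toReal := by
  rw [← hb.image_eq, lintegral_image_holo hΩ hφ hb.injOn]
  refine setLIntegral_congr_fun hΩ.measurableSet (fun z hz => ?_)
  rw [enorm_mul, ENNReal.mul_rpow_of_nonneg _ _ hpr.le, frame_norm hpr (hL z hz)]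
  ring

theorem frame_differentiableOn {Ω : Set ℂ} {L : ℂ → ℂ} (hL : DifferentiableOn ℂ L Ω)
    (p : ℝ≥0∞) : DifferentiableOn ℂ (frame p L) Ω := (hL.const_mul _).cexp

/-- Every function in the weighted Bergman space is approximable by `Q(φ) (φ')^{2/p}`. -/
theorem exists_poly_frame {Ω : Set ℂ} (hΩ : IsOpen Ω) {φ : ℂ → ℂ}
    (hφ : DifferentiableOn ℂ φ Ω) (hb : BijOn φ Ω (ball 0 1)) {L : ℂ → ℂ}
    (hLd : DifferentiableOn ℂ L Ω)
    (hL : ∀ z ∈ Ω, Complex.exp (L z) = deriv φ z) {p : ℝ≥0∞} (hp : 1 ≤ p) (hptop : p ≠ ∞)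
    {W : ℝ → ℝ} (hW : Profile W)
    {f : ℂ → ℂ} (hf : DifferentiableOn ℂ f Ω)
    (hfin : ∫⁻ z in Ω, dweight W (φ z) * ‖f z‖ₑ ^ p.toReal ≠ ∞) {ε : ℝ≥0∞} (hε : ε ≠ 0) :
    ∃ Q : Polynomial ℂ, eLpNorm (fun z => f z - Q.eval (φ z) * frame p L z) p
      (wmeas Ω (fun z => dweight W (φ z))) < ε := by
  have hp0 : p ≠ 0 := by rintro rfl; simp at hp
  have hpr : 0 < p.toReal := ENNReal.toReal_pos hp0 hptop
  obtain ⟨C, hC⟩ := hW.bdd
  obtain ⟨g, hgd, hgb, hgφ, hφg, -⟩ := exists_inverse hΩ hφ hb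
  set μ := wmeas Ω (fun z => dweight W (φ z)) with hμ
  have hwm := hW.aemeasurable hΩ hφ hb.mapsTo
  have hframe_ne : ∀ z, frame p L z ≠ 0 := fun z => Complex.exp_ne_zero _
  have hframe_d := frame_differentiableOn hLd p
  set F : ℂ → ℂ := fun u => f (g u) / frame p L (g u) with hF
  have hFd : DifferentiableOn ℂ F (ball 0 1) :=
    (hf.comp hgd hgb.mapsTo).div (hframe_d.comp hgd hgb.mapsTo) (fun u _ => hframe_ne _)
  have hFf : ∀ z ∈ Ω, F (φ z) * frame p L z = f z := by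
    intro z hz
    simp only [hF, hgφ z hz]
    exact div_mul_cancel₀ _ (hframe_ne z)
  have hfin' : ∫⁻ u in ball 0 1, dweight W u * ‖F u‖ₑ ^ p.toReal ≠ ∞ := by
    rw [← lintegral_frame hΩ hφ hb hL hpr (dweight W) F]
    have : ∫⁻ z in Ω, dweight W (φ z) * ‖F (φ z) * frame p L z‖ₑ ^ p.toReal
        = ∫⁻ z in Ω, dweight W (φ z) * ‖f z‖ₑ ^ p.toReal :=
      setLIntegral_congr_fun hΩ.measurableSet (fun z hz => by simp only [hFf z hz])
    rwa [this]
  have hdm : AEMeasurable (dweight W) (volume.restrict (ball (0:ℂ) 1)) := by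
    have := hW.aemeasurable (Ω := ball (0:ℂ) 1) isOpen_ball (φ := fun z => z)
      differentiable_id.differentiableOn (fun z hz => hz)
    exact this
  obtain ⟨Q, hQ⟩ := starDom_disk.dense hdm (C := ENNReal.ofReal C) ENNReal.ofReal_ne_top
    (fun u hu => ENNReal.ofReal_le_ofReal (hC _ (one_sub_norm_mem hu)))
    (fun u hu t ht0 ht1 => by
      apply ENNReal.ofReal_le_ofReal
      have hu' := hu
      rw [mem_ball_zero_iff] at hu'
      have htu : ‖(t:ℂ) * u‖ ≤ ‖u‖ := by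
        rw [norm_mul, Complex.norm_real, Real.norm_of_nonneg ht0.le]
        nlinarith [norm_nonneg u]
      refine hW.mono (one_sub_norm_mem hu) (one_sub_norm_mem ?_) (by linarith)
      rw [mem_ball_zero_iff]; linarith) hp hptop hFd hfin' hε
  refine ⟨Q, ?_⟩
  have hQm : AEMeasurable (fun u : ℂ => F u - Q.eval u) (volume.restrict (ball (0:ℂ) 1)) :=
    (aemeasurable_of_diff isOpen_ball hFd).sub Q.continuous.aemeasurable
  have hm2 : AEMeasurable (fun z => f z - Q.eval (φ z) * frame p L z) (volume.restrict Ω) :=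
    (aemeasurable_of_diff hΩ hf).sub
      ((Q.continuous.measurable.comp_aemeasurable (aemeasurable_of_diff hΩ hφ)).mul
        (aemeasurable_of_diff hΩ hframe_d))
  have heq : ∫⁻ z, ‖f z - Q.eval (φ z) * frame p L z‖ₑ ^ p.toReal ∂μ
      = ∫⁻ u, ‖F u - Q.eval u‖ₑ ^ p.toReal ∂(wmeas (ball 0 1) (dweight W)) := by
    rw [hμ, lintegral_wmeas hwm (hm2.enorm.pow_const _), lintegral_wmeas hdm (hQm.enorm.pow_const _),
      ← lintegral_frame hΩ hφ hb hL hpr (dweight W) (fun u => F u - Q.eval u)]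
    refine setLIntegral_congr_fun hΩ.measurableSet (fun z hz => ?_)
    have : (F (φ z) - Q.eval (φ z)) * frame p L z = f z - Q.eval (φ z) * frame p L z := by
      rw [sub_mul, hFf z hz]
    simp only [this]
  rw [eLpNorm_eq_lintegral_rpow_enorm_toReal hp0 hptop] at hQ ⊢
  rwa [heq]

/-- Polynomials in `φ` times a function are approximable if the monomials are. -/
theorem Appr.poly {p : ℝ≥0∞} (hp : 1 ≤ p) {μ : Measure ℂ} {φ e : ℂ → ℂ}
    (hφ : AEMeasurable φ μ) (he : AEMeasurable e μ)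
    (hfr : ∀ j : ℕ, Appr p μ (fun z => φ z ^ j * e z)) (Q : Polynomial ℂ) :
    Appr p μ (fun z => Q.eval (φ z) * e z) := by
  induction Q using Polynomial.induction_on' with
  | add Q₁ Q₂ h1 h2 =>
    have hm : ∀ Q : Polynomial ℂ, AEMeasurable (fun z => Q.eval (φ z) * e z) μ :=
      fun Q => (Q.continuous.measurable.comp_aemeasurable hφ).mul he
    have := Appr.add hp (hm Q₁) (hm Q₂) h1 h2
    refine (this : Appr p μ _) |> fun h => ?_
    simpa [add_mul] using h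
  | monomial n a =>
    have := (hfr n).const_mul a
    simpa [mul_assoc] using this

end Pool.Agent.Helper39
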