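import Pool.Agent.Helper39.PolyUniform

/-!
Gauge functions of star domains, null cones, and the modification step.
-/

open Set Metric Filter Topology MeasureTheory
open scoped ENNReal

namespace Pool.Agent.Helper39

/-- Continuous, positively homogeneous gauges between `‖z‖` and `2‖z‖`. -/
structure Gauge (g : ℂ → ℝ) : Prop where
  cont : Continuous g
  hom : ∀ t : ℝ, 0 ≤ t → ∀ z : ℂ, g ((t:ℂ) * z) = t * g z
  lower : ∀ z, ‖z‖ ≤ g z
  upper : ∀ z, g z ≤ 2 * ‖z‖

/-- The star domain of a gauge. -/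
def gdom (g : ℂ → ℝ) : Set ℂ := {z | g z < 1}

theorem Gauge.subset_ball {g : ℂ → ℝ} (hg : Gauge g) : gdom g ⊆ ball 0 1 := by
  intro z hz
  rw [mem_ball_zero_iff]
  exact (hg.lower z).trans_lt hz

theorem Gauge.starDom {g : ℂ → ℝ} (hg : Gauge g) : StarDom (gdom g) where
  isOpen := isOpen_lt hg.cont continuous_const
  zero_mem := by
    have := hg.upper 0
    simp only [norm_zero, mul_zero] at this
    exact this.trans_lt one_pos
  bdd := isBounded_ball.subset hg.subset_ball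
  smul_mem := by
    intro s hs0 hs1 z hz
    have h1 : closure (gdom g) ⊆ {z | g z ≤ 1} :=
      closure_minimal (fun z (hz : g z < 1) => show g z ≤ 1 from hz.le)
        (isClosed_le hg.cont continuous_const)
    have h2 : g z ≤ 1 := h1 hz
    show g ((s:ℂ) * z) < 1
    rw [hg.hom s hs0]
    have h3 : 0 ≤ g z := (norm_nonneg z).trans (hg.lower z)
    nlinarith

/-- Closed cones of zero area. -/
structure NullCone (C : Set ℂ) : Prop where
  closed : IsClosed C
  zero_mem : (0:ℂ) ∈ C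
  cone : ∀ t : ℝ, 0 ≤ t → ∀ z ∈ C, (t:ℂ) * z ∈ C
  null : volume C = 0

theorem NullCone.union {C D : Set ℂ} (hC : NullCone C) (hD : NullCone D) : NullCone (C ∪ D) where
  closed := hC.closed.union hD.closed
  zero_mem := Or.inl hC.zero_mem
  cone := by
    rintro t ht z (hz | hz)
    · exact Or.inl (hC.cone t ht z hz)
    · exact Or.inr (hD.cone t ht z hz)
  null := measure_union_null hC.null hD.null

/-- The ray through `e`. -/
def ray (e : ℂ) : Set ℂ := {z | (‖z‖ : ℂ) * e = (‖e‖ : ℂ) * z}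

theorem self_mem_ray (e : ℂ) : e ∈ ray e := rfl

theorem nullCone_ray {e : ℂ} (he : e ≠ 0) : NullCone (ray e) where
  closed := isClosed_eq (by fun_prop) (by fun_prop)
  zero_mem := by simp [ray]
  cone := by
    intro t ht z hz
    have hz' : (‖z‖ : ℂ) * e = (‖e‖ : ℂ) * z := hz
    show (‖(t:ℂ) * z‖ : ℂ) * e = (‖e‖ : ℂ) * ((t:ℂ) * z)
    rw [norm_mul, Complex.norm_real, Real.norm_of_nonneg ht]
    push_cast
    linear_combination (t:ℂ) * hz'
  null := by
    have hsub : ray e ⊆ (Submodule.span ℝ {e} : Submodule ℝ ℂ) := by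
      intro z hz
      have hz' : (‖z‖ : ℂ) * e = (‖e‖ : ℂ) * z := hz
      have hne : (‖e‖ : ℂ) ≠ 0 := by exact_mod_cast (norm_pos_iff.2 he).ne'
      rw [SetLike.mem_coe, Submodule.mem_span_singleton]
      refine ⟨‖z‖ / ‖e‖, ?_⟩
      rw [Complex.real_smul]
      push_cast
      field_simp
      linear_combination hz'
    refine measure_mono_null hsub (Measure.addHaar_submodule volume _ ?_)
    intro htop
    have hdim : Module.finrank ℝ (Submodule.span ℝ {e} : Submodule ℝ ℂ) ≤ 1 := by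
      have := finrank_span_le_card (R := ℝ) ({e} : Set ℂ)
      simpa using this
    rw [htop, finrank_top, Complex.finrank_real_complex] at hdim
    omega

/-- Null cones can be enlarged so as to be `η`-dense in the unit disk. -/
theorem NullCone.exists_dense {C : Set ℂ} (hC : NullCone C) {η : ℝ} (hη : 0 < η) :
    ∃ C', NullCone C' ∧ C ⊆ C' ∧ ∀ z ∈ ball (0:ℂ) 1, ∃ a ∈ C', ‖z - a‖ < η := by
  classical
  obtain ⟨E, hEsub, hEfin, hEcov⟩ := Metric.finite_approx_of_totallyBounded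
    (isCompact_closedBall (0:ℂ) 1).totallyBounded η hη
  have key : ∀ E' : Set ℂ, E'.Finite → ∃ C', NullCone C' ∧ C ⊆ C' ∧ E' ⊆ C' := by
    intro E' hE'
    induction E', hE' using Set.Finite.induction_on with
    | empty => exact ⟨C, hC, subset_rfl, empty_subset _⟩
    | @insert e s _ _ ih =>
      obtain ⟨C', h1, h2, h3⟩ := ih
      by_cases he : e = 0
      · refine ⟨C', h1, h2, ?_⟩
        rintro x (rfl | hx)
        · rw [he]; exact h1.zero_mem
        · exact h3 hx
      · refine ⟨C' ∪ ray e, h1.union (nullCone_ray he), h2.trans subset_union_left, ?_⟩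
        rintro x (rfl | hx)
        · exact Or.inr (self_mem_ray _)
        · exact Or.inl (h3 hx)
  obtain ⟨C', h1, h2, h3⟩ := key E hEfin
  refine ⟨C', h1, h2, fun z hz => ?_⟩
  obtain ⟨a, ha, hza⟩ := by simpa using hEcov (ball_subset_closedBall hz)
  exact ⟨a, h3 ha, by simpa [dist_eq_norm] using hza⟩

/-- Points of the unit disk outside the domain are close to cone points outside the domain. -/
theorem Gauge.exists_eta {g : ℂ → ℝ} (hg : Gauge g) {δ : ℝ} (hδ : 0 < δ) (hδ1 : δ < 1) :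
    ∃ η > 0, ∀ C : Set ℂ, NullCone C → (∀ z ∈ ball (0:ℂ) 1, ∃ a ∈ C, ‖z - a‖ < η) →
      ∀ z ∈ ball (0:ℂ) 1, 1 ≤ g z → ∃ a ∈ C, 1 ≤ g a ∧ ‖z - a‖ ≤ δ := by
  have huc : UniformContinuousOn g (closedBall 0 2) :=
    (isCompact_closedBall (0:ℂ) 2).uniformContinuousOn_of_continuous hg.cont.continuousOn
  rw [Metric.uniformContinuousOn_iff] at huc
  obtain ⟨η, hη, hηg⟩ := huc (δ / 2) (by positivity)
  refine ⟨min η (δ / 2), lt_min hη (by positivity), fun C hC hdense z hz hgz => ?_⟩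
  obtain ⟨b, hbC, hzb⟩ := hdense z hz
  have hzb1 : ‖z - b‖ < η := hzb.trans_le (min_le_left _ _)
  have hzb2 : ‖z - b‖ < δ / 2 := hzb.trans_le (min_le_right _ _)
  rw [mem_ball_zero_iff] at hz
  have hb2 : ‖b‖ ≤ 2 := by
    have : b = z - (z - b) := by ring
    calc ‖b‖ = ‖z - (z - b)‖ := by rw [← this]
      _ ≤ ‖z‖ + ‖z - b‖ := norm_sub_le _ _
      _ ≤ 2 := by linarith
  have hgb := hηg z (by rw [mem_closedBall_zero_iff]; linarith) b
    (by rw [mem_closedBall_zero_iff]; exact hb2) (by rw [dist_eq_norm]; exact hzb1)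
  rw [Real.dist_eq] at hgb
  have hgb' : 1 - δ / 2 < g b := by linarith [(abs_lt.1 hgb).2]
  by_cases h1 : 1 ≤ g b
  · exact ⟨b, hbC, h1, by linarith⟩
  push Not at h1
  have hgpos : 0 < g b := by linarith
  refine ⟨((g b)⁻¹ : ℝ) * b, hC.cone _ (by positivity) b hbC, ?_, ?_⟩
  · rw [hg.hom _ (by positivity), inv_mul_cancel₀ hgpos.ne']
  · have h2 : ‖b - ((g b)⁻¹ : ℝ) * b‖ ≤ δ / 2 := by
      have h3 : b - (((g b)⁻¹ : ℝ) : ℂ) * b = ((1 - (g b)⁻¹ : ℝ) : ℂ) * b := by push_cast; ring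
      rw [h3, norm_mul, Complex.norm_real, Real.norm_eq_abs]
      have h4 : 1 ≤ (g b)⁻¹ := (one_le_inv₀ hgpos).2 h1.le
      rw [abs_of_nonpos (by linarith)]
      have h5 : ‖b‖ ≤ g b := hg.lower b
      calc -(1 - (g b)⁻¹) * ‖b‖ ≤ -(1 - (g b)⁻¹) * g b := by
            apply mul_le_mul_of_nonneg_left h5; linarith
        _ = 1 - g b := by field_simp; ring
        _ ≤ δ / 2 := by linarith
    calc ‖z - ((g b)⁻¹ : ℝ) * b‖ = ‖(z - b) + (b - ((g b)⁻¹ : ℝ) * b)‖ := by congr 1; ring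
      _ ≤ ‖z - b‖ + ‖b - ((g b)⁻¹ : ℝ) * b‖ := norm_add_le _ _
      _ ≤ δ := by linarith

/-- The modified gauge. -/
noncomputable def gstep (g : ℂ → ℝ) (C : Set ℂ) (S : ℝ) (z : ℂ) : ℝ :=
  min (g z) (max ‖z‖ (2 * ‖z‖ - S * infDist z C))

theorem NullCone.infDist_mul {C : Set ℂ} (hC : NullCone C) {t : ℝ} (ht : 0 ≤ t) (z : ℂ) :
    infDist ((t:ℂ) * z) C = t * infDist z C := by
  rcases ht.eq_or_lt with rfl | ht
  · simp [infDist_zero_of_mem hC.zero_mem]
  have hne : C.Nonempty := ⟨0, hC.zero_mem⟩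
  have key : ∀ (s : ℝ), 0 < s → ∀ w : ℂ, infDist ((s:ℂ) * w) C ≤ s * infDist w C := by
    intro s hs w
    rw [← div_le_iff₀' hs]
    apply (le_infDist hne).2
    intro y hy
    rw [div_le_iff₀' hs]
    calc infDist ((s:ℂ) * w) C ≤ dist ((s:ℂ) * w) ((s:ℂ) * y) :=
          infDist_le_dist_of_mem (hC.cone s hs.le y hy)
      _ = s * dist w y := by
          rw [dist_eq_norm, ← mul_sub, norm_mul, Complex.norm_real, Real.norm_of_nonneg hs.le,
            dist_eq_norm]
  apply le_antisymm (key t ht z)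
  have h1 := key t⁻¹ (inv_pos.2 ht) ((t:ℂ) * z)
  have h2 : ((t⁻¹ : ℝ) : ℂ) * ((t:ℂ) * z) = z := by
    have : (t:ℂ) ≠ 0 := by exact_mod_cast ht.ne'
    push_cast
    field_simp
  rw [h2] at h1
  calc t * infDist z C ≤ t * (t⁻¹ * infDist ((t:ℂ) * z) C) := by gcongr
    _ = infDist ((t:ℂ) * z) C := by field_simp

theorem gstep_gauge {g : ℂ → ℝ} (hg : Gauge g) {C : Set ℂ} (hC : NullCone C) {S : ℝ} :
    Gauge (gstep g C S) where
  cont := by
    unfold gstep
    exact hg.cont.min (continuous_norm.max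
      ((continuous_const.mul continuous_norm).sub
        (continuous_const.mul (continuous_infDist_pt C))))
  hom := by
    intro t ht z
    unfold gstep
    rw [hg.hom t ht, hC.infDist_mul ht, norm_mul, Complex.norm_real, Real.norm_of_nonneg ht,
      mul_min_of_nonneg _ _ ht, mul_max_of_nonneg _ _ ht]
    congr 2
    ring
  lower := fun z => le_min (hg.lower z) (le_max_left _ _)
  upper := fun z => (min_le_left _ _).trans (hg.upper z)

theorem gstep_le (g : ℂ → ℝ) (C : Set ℂ) (S : ℝ) (z : ℂ) : gstep g C S z ≤ g z := min_le_left _ _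

theorem gstep_eq_on {g : ℂ → ℝ} (hg : Gauge g) {C : Set ℂ} (S : ℝ) {z : ℂ} (hz : z ∈ C) :
    gstep g C S z = g z := by
  unfold gstep
  rw [infDist_zero_of_mem hz]
  apply min_eq_left
  exact (hg.upper z).trans (by simp)

theorem gstep_eq_norm {g : ℂ → ℝ} (hg : Gauge g) {C : Set ℂ} {S : ℝ} {z : ℂ}
    (hz : ‖z‖ ≤ S * infDist z C) : gstep g C S z = ‖z‖ := by
  unfold gstep
  rw [max_eq_left (by linarith), min_eq_right (hg.lower z)]

/-- The exceptional area can be made small. -/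
theorem exists_S {g : ℂ → ℝ} (hg : Gauge g) {C : Set ℂ} (hC : NullCone C) {ε : ℝ≥0∞}
    (hε : ε ≠ 0) : ∃ S : ℝ, volume ({z | 1 ≤ gstep g C S z} ∩ ball (0:ℂ) 1) ≤ ε := by
  set B : ℕ → Set ℂ := fun n => {z | (n:ℝ) * infDist z C < ‖z‖} ∩ ball (0:ℂ) 1 with hB
  have hBmeas : ∀ n, MeasurableSet (B n) := fun n =>
    ((isOpen_lt (continuous_const.mul (continuous_infDist_pt C)) continuous_norm).inter
      isOpen_ball).measurableSet
  have hBanti : Antitone B := by
    intro m n hmn z hz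
    have h1 : (n:ℝ) * infDist z C < ‖z‖ := hz.1
    have h2 : (0:ℝ) ≤ infDist z C := infDist_nonneg
    have h3 : (m:ℝ) * infDist z C ≤ (n:ℝ) * infDist z C := by gcongr
    exact ⟨show (m:ℝ) * infDist z C < ‖z‖ from h3.trans_lt h1, hz.2⟩
  have hBint : ⋂ n, B n ⊆ C := by
    intro z hz
    rw [mem_iInter] at hz
    have h0 : infDist z C = 0 := by
      by_contra hne
      have hpos : 0 < infDist z C := lt_of_le_of_ne infDist_nonneg (Ne.symm hne)
      obtain ⟨n, hn⟩ := exists_nat_gt (‖z‖ / infDist z C)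
      have h1 := (hz n).1
      rw [div_lt_iff₀ hpos] at hn
      exact absurd h1 (not_lt.2 hn.le)
    exact (hC.closed.mem_iff_infDist_zero ⟨0, hC.zero_mem⟩).2 h0
  have hlim := tendsto_measure_iInter_atTop (μ := volume) (fun n => (hBmeas n).nullMeasurableSet)
    hBanti ⟨0, ((measure_mono inter_subset_right).trans_lt measure_ball_lt_top).ne⟩
  rw [measure_mono_null hBint hC.null] at hlim
  obtain ⟨n, hn⟩ := (hlim.eventually (gt_mem_nhds (pos_iff_ne_zero.2 hε))).exists
  refine ⟨n, (measure_mono ?_).trans hn.le⟩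
  rintro z ⟨hz1, hz2⟩
  refine ⟨?_, hz2⟩
  by_contra hcon
  have hcon' : ‖z‖ ≤ (n:ℝ) * infDist z C := not_lt.1 hcon
  have h1 : (1:ℝ) ≤ gstep g C n z := hz1
  rw [gstep_eq_norm hg hcon'] at h1
  rw [mem_ball_zero_iff] at hz2
  linarith

end Pool.Agent.Helper39
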