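import Mathlib

/-!
Injective holomorphic functions have nonvanishing derivative and holomorphic inverse.
-/

open Set Metric Filter Topology

namespace Pool.Agent.Helper39

theorem deriv_ne_zero_of_injOn {U : Set ℂ} (hU : IsOpen U) {f : ℂ → ℂ}
    (hf : DifferentiableOn ℂ f U) (hi : InjOn f U) {z₀ : ℂ} (hz₀ : z₀ ∈ U) :
    deriv f z₀ ≠ 0 := by
  have hfa : AnalyticAt ℂ (fun z => f z - f z₀) z₀ :=
    ((hf.sub_const _).analyticAt (hU.mem_nhds hz₀))
  -- not locally constant
  have hnc : ¬ ∀ᶠ z in 𝓝 z₀, f z - f z₀ = 0 := by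
    intro h
    obtain ⟨r, hr, hball⟩ := Metric.eventually_nhds_iff_ball.1 (h.and (hU.mem_nhds hz₀))
    have hw : z₀ + (r / 2 : ℝ) ∈ ball z₀ r := by
      rw [mem_ball, dist_eq_norm, add_sub_cancel_left, Complex.norm_real, Real.norm_eq_abs,
        abs_of_pos (by positivity)]
      linarith
    have h1 := hball _ hw
    have h2 := hi h1.2 hz₀ (sub_eq_zero.1 h1.1)
    have h3 : ((r / 2 : ℝ) : ℂ) = 0 := by simpa using h2
    have h4 : (r / 2 : ℝ) = 0 := by exact_mod_cast h3
    linarith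
  obtain ⟨n, g, hga, hg0, hfg⟩ := (hfa.exists_eventuallyEq_pow_smul_nonzero_iff).2 hnc
  have hn0 : n ≠ 0 := by
    rintro rfl
    have := hfg.self_of_nhds
    simp at this
    exact hg0 this.symm
  by_cases hn1 : n = 1
  · -- derivative equals `g z₀`
    subst hn1
    have h1 : HasDerivAt (fun z => (z - z₀) ^ 1 • g z) (g z₀) z₀ := by
      have h2 : HasDerivAt (fun z => (z - z₀)) 1 z₀ := (hasDerivAt_id z₀).sub_const z₀
      have h3 := h2.fun_mul hga.differentiableAt.hasDerivAt
      simp only [pow_one, smul_eq_mul]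
      exact h3.congr_deriv (by simp)
    have h4 : HasDerivAt (fun z => f z - f z₀) (g z₀) z₀ := h1.congr_of_eventuallyEq hfg
    have h5 : HasDerivAt f (g z₀) z₀ := by simpa using h4.add_const (f z₀)
    rw [h5.deriv]
    exact hg0
  · exfalso
    have hn2 : 2 ≤ n := by omega
    -- local `n`-th root
    obtain ⟨l, hl⟩ : ∃ l : ℂ → ℂ, AnalyticAt ℂ l z₀ ∧
        ∀ᶠ z in 𝓝 z₀, Complex.exp (l z) ^ n = g z := by
      refine ⟨fun z => (Complex.log (g z₀) + Complex.log (g z / g z₀)) / n, ?_, ?_⟩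
      · have h1 : AnalyticAt ℂ (fun z => g z / g z₀) z₀ := hga.div analyticAt_const hg0
        have h2 : g z₀ / g z₀ ∈ Complex.slitPlane := by
          rw [div_self hg0]; exact Complex.one_mem_slitPlane
        exact (analyticAt_const.add (h1.clog h2)).div analyticAt_const (by exact_mod_cast hn0)
      · have hgne : ∀ᶠ z in 𝓝 z₀, g z ≠ 0 := hga.continuousAt.eventually_ne hg0
        filter_upwards [hgne] with z hz
        rw [← Complex.exp_nat_mul, mul_div_cancel₀ _ (by exact_mod_cast hn0), Complex.exp_add,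
          Complex.exp_log hg0, Complex.exp_log (div_ne_zero hz hg0), mul_div_cancel₀ _ hg0]
    obtain ⟨hla, hlexp⟩ := hl
    set h : ℂ → ℂ := fun z => (z - z₀) * Complex.exp (l z) with hh
    have hha : AnalyticAt ℂ h z₀ := (analyticAt_id.sub analyticAt_const).mul hla.cexp
    have hhd : HasStrictDerivAt h (Complex.exp (l z₀)) z₀ := by
      have h1 : HasDerivAt h (1 * Complex.exp (l z₀) + (z₀ - z₀) * _) z₀ :=
        ((hasDerivAt_id z₀).sub_const z₀).fun_mul hla.cexp.differentiableAt.hasDerivAt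
      have h2 := hha.hasStrictDerivAt
      rw [h1.deriv] at h2
      simpa using h2
    have hopen := hhd.map_nhds_eq (Complex.exp_ne_zero _)
    have hh0 : h z₀ = 0 := by simp [hh]
    have hpow : ∀ᶠ z in 𝓝 z₀, f z - f z₀ = h z ^ n := by
      filter_upwards [hfg, hlexp] with z hz1 hz2
      rw [hz1, hh, smul_eq_mul]
      simp only [mul_pow]
      rw [hz2]
    set V : Set ℂ := {z | f z - f z₀ = h z ^ n} ∩ U with hV
    have hVn : V ∈ 𝓝 z₀ := inter_mem hpow (hU.mem_nhds hz₀)
    have himg : h '' V ∈ 𝓝 (0 : ℂ) := by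
      rw [← hh0, ← hopen]
      exact image_mem_map hVn
    obtain ⟨δ, hδ, hδV⟩ := Metric.mem_nhds_iff.1 himg
    set ε : ℂ := ((δ / 2 : ℝ) : ℂ) with hε
    have hεn : ‖ε‖ = δ / 2 := by
      rw [hε, Complex.norm_real, Real.norm_eq_abs, abs_of_pos (by positivity)]
    have hεne : ε ≠ 0 := by rw [← norm_pos_iff, hεn]; positivity
    -- primitive root
    have hω := Complex.isPrimitiveRoot_exp n hn0
    set ω : ℂ := Complex.exp (2 * Real.pi * Complex.I / n) with hωdef
    have hωn : ω ^ n = 1 := hω.pow_eq_one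
    have hω1 : ω ≠ 1 := hω.ne_one (by omega)
    have hωnorm : ‖ω‖ = 1 := hω.norm'_eq_one hn0
    have hm1 : ε ∈ ball (0:ℂ) δ := by rw [mem_ball_zero_iff, hεn]; linarith
    have hm2 : ω * ε ∈ ball (0:ℂ) δ := by
      rw [mem_ball_zero_iff, norm_mul, hωnorm, hεn]; linarith
    obtain ⟨a, haV, hha'⟩ := hδV hm1
    obtain ⟨b, hbV, hhb⟩ := hδV hm2
    have hab : f a = f b := by
      have h1 := haV.1
      have h2 := hbV.1
      simp only [mem_ofPred_eq] at h1 h2
      rw [hha'] at h1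
      rw [hhb, mul_pow, hωn, one_mul] at h2
      have : f a - f z₀ = f b - f z₀ := by rw [h1, h2]
      linear_combination this
    have := hi haV.2 hbV.2 hab
    rw [this, hhb] at hha'
    apply hω1
    have : ω * ε = 1 * ε := by rw [hha', one_mul]
    exact mul_right_cancel₀ hεne this

/-- The inverse of an injective holomorphic function. -/
theorem hasDerivAt_inverse {U : Set ℂ} (hU : IsOpen U) {f g : ℂ → ℂ}
    (hf : DifferentiableOn ℂ f U) (hi : InjOn f U) (hg : ∀ z ∈ U, g (f z) = z) {z : ℂ}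
    (hz : z ∈ U) : HasDerivAt g (deriv f z)⁻¹ (f z) := by
  have h1 : HasStrictDerivAt f (deriv f z) z :=
    ((hf.analyticAt (hU.mem_nhds hz))).hasStrictDerivAt
  refine (h1.to_local_left_inverse (deriv_ne_zero_of_injOn hU hf hi hz) ?_).hasDerivAt
  filter_upwards [hU.mem_nhds hz] with w hw using hg w hw

/-- An injective holomorphic function with image the disk has a holomorphic inverse. -/
theorem exists_inverse {U V : Set ℂ} (hU : IsOpen U) {f : ℂ → ℂ}
    (hf : DifferentiableOn ℂ f U) (hb : BijOn f U V) :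
    ∃ g : ℂ → ℂ, DifferentiableOn ℂ g V ∧ BijOn g V U ∧ (∀ z ∈ U, g (f z) = z) ∧
      (∀ w ∈ V, f (g w) = w) ∧ ∀ w ∈ V, HasDerivAt g (deriv f (g w))⁻¹ w := by
  classical
  have hinv := hb.invOn_invFunOn
  set g := Function.invFunOn f U with hg
  have hgf : ∀ z ∈ U, g (f z) = z := fun z hz => hinv.1 hz
  have hfg : ∀ w ∈ V, f (g w) = w := fun w hw => hinv.2 hw
  have hgm : MapsTo g V U := hb.surjOn.mapsTo_invFunOn
  have hgd : ∀ w ∈ V, HasDerivAt g (deriv f (g w))⁻¹ w := by
    intro w hw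
    have := hasDerivAt_inverse hU hf hb.injOn hgf (hgm hw)
    rwa [hfg w hw] at this
  refine ⟨g, fun w hw => (hgd w hw).differentiableAt.differentiableWithinAt, ⟨hgm, ?_, ?_⟩, hgf,
    hfg, hgd⟩
  · intro x hx y hy hxy
    rw [← hfg x hx, ← hfg y hy, hxy]
  · intro z hz
    exact ⟨f z, hb.mapsTo hz, hgf z hz⟩

end Pool.Agent.Helper39
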