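import Pool.Agent.Helper39.RMT
import Pool.Agent.Helper39.Injective

/-!
Convergence of Riemann maps for increasing unions of domains.
-/

open Set Metric Filter Topology
open scoped ComplexConjugate

namespace Pool.Agent.Helper39

theorem RMap.deriv_ne_zero {Ω : Set ℂ} {φ : ℂ → ℂ} (hφ : RMap Ω φ) : deriv φ 0 ≠ 0 := by
  intro h
  have := hφ.re_pos
  rw [h] at this
  simp at this

theorem RMap.deriv_eq_norm {Ω : Set ℂ} {φ : ℂ → ℂ} (hφ : RMap Ω φ) :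
    deriv φ 0 = (‖deriv φ 0‖ : ℂ) := by
  have h1 : deriv φ 0 = ((deriv φ 0).re : ℂ) := by
    apply Complex.ext <;> simp [hφ.im_zero]
  rw [h1, Complex.norm_real, Real.norm_of_nonneg hφ.re_pos.le]

theorem RMap.norm_lt {Ω : Set ℂ} {φ : ℂ → ℂ} (hφ : RMap Ω φ) {z : ℂ} (hz : z ∈ Ω) :
    ‖φ z‖ < 1 := by simpa using hφ.bij.mapsTo hz

/-- Riemann maps are extremal. -/
theorem RMap.extremal {Ω : Set ℂ} (hΩo : IsOpen Ω) (h0 : (0:ℂ) ∈ Ω) {φ : ℂ → ℂ}
    (hφ : RMap Ω φ) {h : ℂ → ℂ} (hd : DifferentiableOn ℂ h Ω) (hm : MapsTo h Ω (ball 0 1))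
    (hh0 : h 0 = 0) : ‖deriv h 0‖ ≤ ‖deriv φ 0‖ ∧
      (deriv h 0 = deriv φ 0 → ∀ z ∈ Ω, h z = φ z) := by
  obtain ⟨g, hgd, hgb, hgφ, hφg, hgder⟩ := exists_inverse hΩo hφ.diff hφ.bij
  have hg0 : g 0 = 0 := by
    have := hgφ 0 h0
    rwa [hφ.zero] at this
  have hball0 : (0:ℂ) ∈ ball (0:ℂ) 1 := mem_ball_self one_pos
  have hcd : DifferentiableOn ℂ (fun w => h (g w)) (ball 0 1) := hd.comp hgd hgb.mapsTo
  have hcm : MapsTo (fun w => h (g w)) (ball 0 1) (ball 0 1) := hm.comp hgb.mapsTo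
  have hc0 : h (g 0) = 0 := by rw [hg0, hh0]
  have hgd0 : HasDerivAt g (deriv φ 0)⁻¹ 0 := by
    have := hgder 0 hball0
    rwa [hg0] at this
  have hhd0 : HasDerivAt h (deriv h 0) (g 0) := by
    rw [hg0]; exact (hd.differentiableAt (hΩo.mem_nhds h0)).hasDerivAt
  have hcder : HasDerivAt (fun w => h (g w)) (deriv h 0 * (deriv φ 0)⁻¹) 0 := hhd0.comp 0 hgd0
  have hpos : 0 < ‖deriv φ 0‖ := norm_pos_iff.2 hφ.deriv_ne_zero
  constructor
  · have h1 : ‖deriv (fun w => h (g w)) 0‖ ≤ 1 := by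
      refine Complex.norm_deriv_le_one_of_mapsTo_ball hcd ?_ one_pos
      rw [hc0]
      exact hcm.mono_right ball_subset_closedBall
    rw [hcder.deriv, norm_mul, norm_inv] at h1
    rwa [mul_inv_le_iff₀ hpos, one_mul] at h1
  · intro heq z hz
    have h1 := Complex.affine_of_mapsTo_ball_of_norm_dslope_eq_div (f := fun w => h (g w))
      (c := 0) (R₁ := 1) (R₂ := 1) (z₀ := 0) hcd
      (by rw [hc0]; exact hcm.mono_right ball_subset_closedBall) hball0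
      (by rw [dslope_same, hcder.deriv, heq, mul_inv_cancel₀ hφ.deriv_ne_zero]; simp)
    have h2 := h1 (hφ.bij.mapsTo hz)
    simp only [dslope_same] at h2
    rw [hgφ z hz, hcder.deriv, heq, mul_inv_cancel₀ hφ.deriv_ne_zero, hc0] at h2
    simpa using h2

/-- Riemann maps of increasing domains converge, along a subsequence, to the Riemann map
of the union. -/
theorem rmap_subseq {Ω : ℕ → Set ℂ} (hmono : Monotone Ω) (hopen : ∀ n, IsOpen (Ω n))
    (h0 : ∀ n, (0:ℂ) ∈ Ω n) (hconn : IsPreconnected (⋃ n, Ω n)) {φ : ℕ → ℂ → ℂ}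
    (hφ : ∀ n, RMap (Ω n) (φ n)) {ψ : ℂ → ℂ} (hψ : RMap (⋃ n, Ω n) ψ) :
    ∃ k : ℕ → ℕ, StrictMono k ∧
      TendstoLocallyUniformlyOn (fun i => (Ω (k i)).indicator (φ (k i))) ψ atTop (⋃ n, Ω n) := by
  classical
  set U := ⋃ n, Ω n with hU
  have hUo : IsOpen U := isOpen_iUnion hopen
  have h0U : (0:ℂ) ∈ U := mem_iUnion.2 ⟨0, h0 0⟩
  have hsubU : ∀ n, Ω n ⊆ U := fun n => subset_iUnion Ω n
  have hev : ∀ z ∈ U, ∃ r > 0, ∀ᶠ n in atTop, ball z r ⊆ Ω n := by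
    intro z hz
    obtain ⟨m, hm⟩ := mem_iUnion.1 hz
    obtain ⟨r, hr, hrm⟩ := Metric.isOpen_iff.1 (hopen m) z hm
    exact ⟨r, hr, eventually_atTop.2 ⟨m, fun n hn => hrm.trans (hmono hn)⟩⟩
  set F : ℕ → ℂ → ℂ := fun n => (Ω n).indicator (φ n) with hF
  have hFeq : ∀ n, ∀ z ∈ Ω n, F n z = φ n z := fun n z hz => indicator_of_mem hz _
  have hFd : ∀ n, DifferentiableOn ℂ (F n) (Ω n) := fun n => (hφ n).diff.congr (hFeq n)
  have hFb : ∀ n z, ‖F n z‖ ≤ 1 := by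
    intro n z
    by_cases hz : z ∈ Ω n
    · rw [hFeq n z hz]; exact ((hφ n).norm_lt hz).le
    · rw [hF]; simp [hz]
  have hLip : ∀ z₀ ∈ U, ∃ r > 0, ∃ L : ℝ, ∀ᶠ n in atTop, ∀ x ∈ ball z₀ r, ∀ y ∈ ball z₀ r,
      ‖F n x - F n y‖ ≤ L * ‖x - y‖ := by
    intro z₀ hz₀
    obtain ⟨ρ, hρ, hρΩ⟩ := hev z₀ hz₀
    refine ⟨ρ / 2, by positivity, 2 * 1 / (ρ / 2), ?_⟩
    filter_upwards [hρΩ] with n hn
    have h2 : 2 * (ρ / 2) = ρ := by ring
    refine lipschitz_of_bounded (by positivity) ?_ (fun z _ => hFb n z)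
    rw [h2]
    exact (hFd n).mono hn
  obtain ⟨g, k, hk, hlim⟩ := exists_subseq_tendstoLocallyUniformlyOn hUo hFb hLip
  have hevk : ∀ z ∈ U, ∃ r > 0, ∀ᶠ n in atTop, ball z r ⊆ Ω (k n) := by
    intro z hz
    obtain ⟨r, hr, h⟩ := hev z hz
    exact ⟨r, hr, hk.tendsto_atTop.eventually h⟩
  have hdk : ∀ z ∈ U, ∃ r > 0, ∀ᶠ n in atTop, DifferentiableOn ℂ (F (k n)) (ball z r) := by
    intro z hz
    obtain ⟨ρ, hρ, hρΩ⟩ := hevk z hz
    exact ⟨ρ, hρ, by filter_upwards [hρΩ] with n hn using (hFd _).mono hn⟩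
  have hgd : DifferentiableOn ℂ g U := differentiableOn_of_tendsto hUo hlim hdk
  have hFderiv : ∀ n, deriv (F n) 0 = deriv (φ n) 0 := by
    intro n
    apply Filter.EventuallyEq.deriv_eq
    filter_upwards [(hopen n).mem_nhds (h0 n)] with z hz using hFeq n z hz
  -- lower bound for the derivatives
  have hlow : ∀ n, ‖deriv ψ 0‖ ≤ ‖deriv (φ n) 0‖ := fun n =>
    ((hφ n).extremal (hopen n) (h0 n) (hψ.diff.mono (hsubU n))
      (hψ.bij.mapsTo.mono_left (hsubU n)) hψ.zero).1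
  have hdlim : Tendsto (fun n => deriv (φ (k n)) 0) atTop (𝓝 (deriv g 0)) := by
    have := tendsto_deriv_of_tendsto hUo hlim hdk h0U
    exact this.congr (fun n => hFderiv _)
  have hψpos : 0 < ‖deriv ψ 0‖ := norm_pos_iff.2 hψ.deriv_ne_zero
  have hglow : ‖deriv ψ 0‖ ≤ ‖deriv g 0‖ := ge_of_tendsto' hdlim.norm (fun n => hlow _)
  have hgnorm : deriv g 0 = (‖deriv g 0‖ : ℂ) := by
    have h1 : Tendsto (fun n => ((‖deriv (φ (k n)) 0‖ : ℝ) : ℂ)) atTop (𝓝 (‖deriv g 0‖ : ℂ)) :=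
      (Complex.continuous_ofReal.tendsto _).comp hdlim.norm
    have h2 : (fun n => ((‖deriv (φ (k n)) 0‖ : ℝ) : ℂ)) = fun n => deriv (φ (k n)) 0 := by
      funext n; exact ((hφ (k n)).deriv_eq_norm).symm
    rw [h2] at h1
    exact tendsto_nhds_unique hdlim h1
  have hg0 : g 0 = 0 := by
    have h1 : Tendsto (fun n => F (k n) 0) atTop (𝓝 (g 0)) := hlim.tendsto_at h0U
    have h2 : (fun n => F (k n) 0) = fun _ => (0:ℂ) := by
      funext n; rw [hFeq _ _ (h0 _), (hφ _).zero]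
    rw [h2] at h1
    exact (tendsto_nhds_unique h1 tendsto_const_nhds)
  have hgb : ∀ z ∈ U, ‖g z‖ ≤ 1 := by
    intro z hz
    exact le_of_tendsto (hlim.tendsto_at hz).norm (Eventually.of_forall fun n => hFb _ z)
  have hgm : MapsTo g U (ball 0 1) := by
    intro z hz
    rw [mem_ball_zero_iff]
    by_contra hcon
    have hz1 : ‖g z‖ = 1 := le_antisymm (hgb z hz) (not_lt.1 hcon)
    have hmax : IsMaxOn (norm ∘ g) U z := by
      intro w hw
      simp only [Function.comp_apply, mem_ofPred_eq]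
      rw [hz1]; exact hgb w hw
    have := Complex.norm_eqOn_of_isPreconnected_of_isMaxOn hconn hUo hgd hz hmax h0U
    simp [hg0, hz1] at this
  have hext := hψ.extremal hUo h0U hgd hgm hg0
  have hdeq : deriv g 0 = deriv ψ 0 := by
    rw [hgnorm, hψ.deriv_eq_norm, le_antisymm hext.1 hglow]
  have hgψ := hext.2 hdeq
  exact ⟨k, hk, hlim.congr_right (fun z hz => hgψ z hz)⟩

end Pool.Agent.Helper39
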