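import Pool.Agent.Helper39.Frame
import Pool.Agent.Helper39.Kernel

/-!
Convergence of the frame functions along increasing unions of star domains.
-/

open Set Metric Filter Topology MeasureTheory
open scoped ENNReal

namespace Pool.Agent.Helper39

theorem StarDom.starConvex {U : Set ℂ} (hU : StarDom U) : StarConvex ℝ 0 U := by
  intro z hz a b ha hb hab
  have hb1 : b ≤ 1 := by linarith
  rcases hb1.lt_or_eq with hb1 | hb1
  · have := hU.smul_mem b hb hb1 z (subset_closure hz)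
    simpa using this
  · subst hb1
    simpa using hz

theorem starConvex_iUnion {Ω : ℕ → Set ℂ} (h : ∀ n, StarDom (Ω n)) :
    StarConvex ℝ 0 (⋃ n, Ω n) := by
  intro z hz a b ha hb hab
  obtain ⟨n, hn⟩ := mem_iUnion.1 hz
  exact mem_iUnion.2 ⟨n, (h n).starConvex hn ha hb hab⟩

theorem isSimplyConnected_of_starConvex {U : Set ℂ} (h : StarConvex ℝ 0 U) (h0 : (0:ℂ) ∈ U) :
    IsSimplyConnected U := by
  have : ContractibleSpace U := h.contractibleSpace ⟨0, h0⟩
  exact inferInstanceAs (SimplyConnectedSpace U)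

/-- Normalized logarithm of the derivative of a Riemann map. -/
structure LogDer (Ω : Set ℂ) (φ L : ℂ → ℂ) : Prop where
  diff : DifferentiableOn ℂ L Ω
  exp_eq : ∀ z ∈ Ω, Complex.exp (L z) = deriv φ z
  zero : L 0 = (Real.log ‖deriv φ 0‖ : ℂ)

theorem RMap.exists_logDer {Ω : Set ℂ} (hΩo : IsOpen Ω) (hΩs : IsSimplyConnected Ω)
    (h0 : (0:ℂ) ∈ Ω) {φ : ℂ → ℂ} (hφ : RMap Ω φ) : ∃ L, LogDer Ω φ L := by
  obtain ⟨L₀, hd, he⟩ := exists_differentiableOn_log hΩs hΩo (hφ.diff.deriv hΩo)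
    (fun z hz => deriv_ne_zero_of_injOn hΩo hφ.diff hφ.bij.injOn hz)
  have hpos : 0 < ‖deriv φ 0‖ := norm_pos_iff.2 hφ.deriv_ne_zero
  refine ⟨fun z => L₀ z - (L₀ 0 - (Real.log ‖deriv φ 0‖ : ℂ)), hd.sub_const _, ?_, by simp⟩
  intro z hz
  rw [Complex.exp_sub, he z hz, Complex.exp_sub, he 0 h0, ← Complex.ofReal_exp, Real.exp_log hpos,
    ← hφ.deriv_eq_norm, div_self hφ.deriv_ne_zero, div_one]

theorem LogDer.hasDerivAt {Ω : Set ℂ} (hΩo : IsOpen Ω) {φ L : ℂ → ℂ} (hφ : DifferentiableOn ℂ φ Ω)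
    (hL : LogDer Ω φ L) {z : ℂ} (hz : z ∈ Ω) :
    HasDerivAt L (deriv (deriv φ) z / deriv φ z) z := by
  refine hasDerivAt_of_exp_eq (hL.diff.continuousOn.continuousAt (hΩo.mem_nhds hz)) ?_ ?_
  · filter_upwards [hΩo.mem_nhds hz] with w hw using hL.exp_eq w hw
  · exact ((hφ.deriv hΩo).differentiableAt (hΩo.mem_nhds hz)).hasDerivAt

/-- Convergence of normalized logarithms. -/
theorem logDer_tendsto {Ω : ℕ → Set ℂ} (hmono : Monotone Ω) (hst : ∀ n, StarDom (Ω n))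
    {φ : ℕ → ℂ → ℂ} (hφ : ∀ n, RMap (Ω n) (φ n)) {ψ : ℂ → ℂ} (hψ : RMap (⋃ n, Ω n) ψ)
    {L : ℕ → ℂ → ℂ} (hL : ∀ n, LogDer (Ω n) (φ n) (L n)) {M : ℂ → ℂ} (hM : LogDer (⋃ n, Ω n) ψ M)
    {k : ℕ → ℕ} (hk : StrictMono k)
    (hlim : TendstoLocallyUniformlyOn (fun i => (Ω (k i)).indicator (φ (k i))) ψ atTop (⋃ n, Ω n)) :
    ∀ z ∈ ⋃ n, Ω n, Tendsto (fun i => L (k i) z) atTop (𝓝 (M z)) := by
  intro z hz
  set U := ⋃ n, Ω n with hU
  have hUo : IsOpen U := isOpen_iUnion (fun n => (hst n).isOpen)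
  have h0U : (0:ℂ) ∈ U := mem_iUnion.2 ⟨0, (hst 0).zero_mem⟩
  set F : ℕ → ℂ → ℂ := fun i => (Ω (k i)).indicator (φ (k i)) with hF
  have hFeq : ∀ i, ∀ w ∈ Ω (k i), F i w = φ (k i) w := fun i w hw => indicator_of_mem hw _
  have hFd : ∀ i, DifferentiableOn ℂ (F i) (Ω (k i)) := fun i => (hφ _).diff.congr (hFeq i)
  have hFev : ∀ i, ∀ w ∈ Ω (k i), F i =ᶠ[𝓝 w] φ (k i) := by
    intro i w hw
    filter_upwards [(hst _).isOpen.mem_nhds hw] with v hv using hFeq i v hv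
  have hev : ∀ z ∈ U, ∃ r > 0, ∀ᶠ i in atTop, ball z r ⊆ Ω (k i) := by
    intro z hz
    obtain ⟨m, hm⟩ := mem_iUnion.1 hz
    obtain ⟨r, hr, hrm⟩ := Metric.isOpen_iff.1 (hst m).isOpen z hm
    exact ⟨r, hr, (hk.tendsto_atTop.eventually (eventually_ge_atTop m)).mono
      fun n hn => hrm.trans (hmono hn)⟩
  have hd1 : ∀ z ∈ U, ∃ r > 0, ∀ᶠ n in atTop, DifferentiableOn ℂ (F n) (ball z r) := by
    intro z hz
    obtain ⟨r, hr, h⟩ := hev z hz
    exact ⟨r, hr, h.mono fun n hn => (hFd n).mono hn⟩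
  have hlim1 := exists_ball_deriv_tendsto hUo hlim hd1
  have hd2 : ∀ z ∈ U, ∃ r > 0, ∀ᶠ n in atTop, DifferentiableOn ℂ (deriv (F n)) (ball z r) := by
    intro z hz
    obtain ⟨r, hr, h⟩ := hd1 z hz
    exact ⟨r, hr, h.mono fun n hn => hn.deriv isOpen_ball⟩
  have hlim2 := exists_ball_deriv_tendsto hUo hlim1 hd2
  have hψ1 : DifferentiableOn ℂ (deriv ψ) U := hψ.diff.deriv hUo
  have hψ2 : DifferentiableOn ℂ (deriv (deriv ψ)) U := hψ1.deriv hUo
  have hψne : ∀ w ∈ U, deriv ψ w ≠ 0 := fun w hw =>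
    deriv_ne_zero_of_injOn hUo hψ.diff hψ.bij.injOn hw
  have hq := hlim2.div₀ hlim1 hψ2.continuousOn hψ1.continuousOn hψne
  -- the segment
  have hUstar : StarConvex ℝ 0 U := starConvex_iUnion hst
  have hseg : segment ℝ 0 z ⊆ U := hUstar.segment_subset hz
  have hcompact : IsCompact (segment ℝ (0:ℂ) z) := by
    rw [segment_eq_image_lineMap]
    exact isCompact_Icc.image (AffineMap.lineMap_continuous)
  have hunif := (tendstoLocallyUniformlyOn_iff_tendstoUniformlyOn_of_compact hcompact).1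
    (hq.mono hseg)
  rw [Metric.tendstoUniformlyOn_iff] at hunif
  obtain ⟨m, hm⟩ := mem_iUnion.1 hz
  have hkm : ∀ᶠ i in atTop, segment ℝ 0 z ⊆ Ω (k i) := by
    refine (hk.tendsto_atTop.eventually (eventually_ge_atTop m)).mono fun n hn => ?_
    exact (hst _).starConvex.segment_subset (hmono hn hm)
  -- convergence at zero
  have hzero : Tendsto (fun i => L (k i) 0) atTop (𝓝 (M 0)) := by
    have h1 : Tendsto (fun i => deriv (φ (k i)) 0) atTop (𝓝 (deriv ψ 0)) := by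
      have := hlim1.tendsto_at h0U
      refine this.congr (fun i => ?_)
      exact (hFev i 0 (hst _).zero_mem).deriv_eq
    have h2 := h1.norm
    have hpos : ‖deriv ψ 0‖ ≠ 0 := (norm_pos_iff.2 hψ.deriv_ne_zero).ne'
    have h3 := (Complex.continuous_ofReal.tendsto _).comp (h2.log hpos)
    rw [hM.zero]
    refine h3.congr (fun i => ?_)
    simp only [Function.comp_apply]
    rw [(hL _).zero]
  have hdiff : Tendsto (fun i => (L (k i) z - M z) - (L (k i) 0 - M 0)) atTop (𝓝 0) := by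
    rw [Metric.tendsto_nhds]
    intro ε hε
    have hz1 : 0 < ‖z‖ + 1 := by positivity
    filter_upwards [hunif (ε / (‖z‖ + 1)) (by positivity), hkm] with i hi1 hi2
    rw [dist_zero_right]
    have hder : ∀ w ∈ segment ℝ 0 z, HasDerivWithinAt (fun w => L (k i) w - M w)
        (deriv (deriv (φ (k i))) w / deriv (φ (k i)) w - deriv (deriv ψ) w / deriv ψ w)
        (segment ℝ 0 z) w := by
      intro w hw
      exact (((hL (k i)).hasDerivAt (hst _).isOpen (hφ _).diff (hi2 hw)).sub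
        (hM.hasDerivAt hUo hψ.diff (hseg hw))).hasDerivWithinAt
    have hb : ∀ w ∈ segment ℝ 0 z,
        ‖deriv (deriv (φ (k i))) w / deriv (φ (k i)) w - deriv (deriv ψ) w / deriv ψ w‖
          ≤ ε / (‖z‖ + 1) := by
      intro w hw
      have h1 := hi1 w hw
      rw [dist_comm, dist_eq_norm] at h1
      simp only [Pi.div_apply] at h1
      have e1 : deriv (F i) w = deriv (φ (k i)) w := (hFev i w (hi2 hw)).deriv_eq
      have e2 : deriv (deriv (F i)) w = deriv (deriv (φ (k i))) w :=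
        (hFev i w (hi2 hw)).deriv.deriv_eq
      rw [e1, e2] at h1
      exact h1.le
    have := (convex_segment (0:ℂ) z).norm_image_sub_le_of_norm_hasDerivWithin_le hder hb
      (left_mem_segment ℝ 0 z) (right_mem_segment ℝ 0 z)
    rw [sub_zero] at this
    refine this.trans_lt ?_
    rw [div_mul_eq_mul_div, div_lt_iff₀ hz1]
    nlinarith [norm_nonneg z]
  have h4 : Tendsto (fun i => L (k i) 0 - M 0) atTop (𝓝 0) := by
    simpa using hzero.sub_const (M 0)
  have h5 := (hdiff.add h4).add_const (M z)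
  simp only [add_zero, zero_add] at h5
  refine h5.congr (fun i => ?_)
  ring

/-- Convergence of the frame functions in `L^p`. -/
theorem frame_tendsto {Ω : ℕ → Set ℂ} (hmono : Monotone Ω) (hst : ∀ n, StarDom (Ω n))
    {φ : ℕ → ℂ → ℂ} (hφ : ∀ n, RMap (Ω n) (φ n)) {ψ : ℂ → ℂ} (hψ : RMap (⋃ n, Ω n) ψ)
    {L : ℕ → ℂ → ℂ} (hL : ∀ n, LogDer (Ω n) (φ n) (L n)) {M : ℂ → ℂ} (hM : LogDer (⋃ n, Ω n) ψ M)
    {k : ℕ → ℕ} (hk : StrictMono k)
    (hlim : TendstoLocallyUniformlyOn (fun i => (Ω (k i)).indicator (φ (k i))) ψ atTop (⋃ n, Ω n))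
    {p : ℝ≥0∞} (hp : 1 ≤ p) (hptop : p ≠ ∞) (j : ℕ) :
    Tendsto (fun i => eLpNorm ((Ω (k i)).indicator (fun z => φ (k i) z ^ j * frame p (L (k i)) z)
      - fun z => ψ z ^ j * frame p M z) p (volume.restrict (⋃ n, Ω n))) atTop (𝓝 0) := by
  set U := ⋃ n, Ω n with hU
  have hUo : IsOpen U := isOpen_iUnion (fun n => (hst n).isOpen)
  have hp0 : p ≠ 0 := by rintro rfl; simp at hp
  have hpr : 0 < p.toReal := ENNReal.toReal_pos hp0 hptop
  have hnorm : ∀ {Ω : Set ℂ} {φ L : ℂ → ℂ}, IsOpen Ω → RMap Ω φ → LogDer Ω φ L →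
      ∫⁻ z in Ω, ‖φ z ^ j * frame p L z‖ₑ ^ p.toReal = ∫⁻ u in ball (0:ℂ) 1, ‖u ^ j‖ₑ ^ p.toReal := by
    intro Ω φ L hΩo hφ hL
    have := lintegral_frame hΩo hφ.diff hφ.bij hL.exp_eq hpr (fun _ => 1) (fun u => u ^ j)
    simpa using this
  have hsub : ∀ n, Ω n ⊆ U := fun n => subset_iUnion Ω n
  have hfrd : ∀ {Ω : Set ℂ} {φ L : ℂ → ℂ}, RMap Ω φ → LogDer Ω φ L →
      DifferentiableOn ℂ (fun z => φ z ^ j * frame p L z) Ω := by
    intro Ω φ L hφ hL
    exact (hφ.diff.pow j).mul (frame_differentiableOn hL.diff p)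
  have hnormi : ∀ i, ∫⁻ z in U, ‖(Ω (k i)).indicator
      (fun z => φ (k i) z ^ j * frame p (L (k i)) z) z‖ₑ ^ p.toReal
      = ∫⁻ u in ball (0:ℂ) 1, ‖u ^ j‖ₑ ^ p.toReal := by
    intro i
    rw [← hnorm (hst (k i)).isOpen (hφ _) (hL _)]
    have h1 : ∀ z, ‖(Ω (k i)).indicator (fun z => φ (k i) z ^ j * frame p (L (k i)) z) z‖ₑ ^ p.toReal
        = (Ω (k i)).indicator
          (fun z => ‖φ (k i) z ^ j * frame p (L (k i)) z‖ₑ ^ p.toReal) z := by
      intro z
      by_cases hz : z ∈ Ω (k i)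
      · simp [hz]
      · simp [hz, hpr]
    simp only [h1]
    rw [lintegral_indicator (hst (k i)).isOpen.measurableSet,
      Measure.restrict_restrict (hst (k i)).isOpen.measurableSet,
      inter_eq_left.2 (hsub (k i))]
  refine tendsto_eLpNorm_sub_of_tendsto hp hptop (fun i => ?_) ?_ ?_ ?_
    (b := fun _ => ∫⁻ u in ball (0:ℂ) 1, ‖u ^ j‖ₑ ^ p.toReal) ?_ ?_
  · -- measurability
    have h1 : AEMeasurable (fun z => φ (k i) z ^ j * frame p (L (k i)) z)
        (volume.restrict (Ω (k i))) :=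
      aemeasurable_of_diff (hst _).isOpen (hfrd (hφ _) (hL _))
    have h2 := (aemeasurable_indicator_iff (hst (k i)).isOpen.measurableSet).2 h1
    exact h2.mono_measure Measure.restrict_le_self
  · exact aemeasurable_of_diff hUo (hfrd hψ hM)
  · filter_upwards [ae_restrict_mem hUo.measurableSet] with z hz
    have hLz := logDer_tendsto hmono hst hφ hψ hL hM hk hlim z hz
    have hφz : Tendsto (fun i => (Ω (k i)).indicator (φ (k i)) z) atTop (𝓝 (ψ z)) :=
      hlim.tendsto_at hz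
    have h1 : Tendsto (fun i => ((Ω (k i)).indicator (φ (k i)) z) ^ j * frame p (L (k i)) z) atTop
        (𝓝 (ψ z ^ j * frame p M z)) := by
      refine (hφz.pow j).mul ?_
      exact (Complex.continuous_exp.tendsto _).comp (hLz.const_mul _)
    refine h1.congr' ?_
    obtain ⟨m, hm⟩ := mem_iUnion.1 hz
    filter_upwards [hk.tendsto_atTop.eventually (eventually_ge_atTop m)] with i hi
    have hzi : z ∈ Ω (k i) := hmono hi hm
    simp [hzi]
  · rw [hnorm hUo hψ hM]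
    have : ∫⁻ u in ball (0:ℂ) 1, ‖u ^ j‖ₑ ^ p.toReal ≤ ∫⁻ _ in ball (0:ℂ) 1, 1 := by
      refine setLIntegral_mono' measurableSet_ball (fun u hu => ?_)
      apply ENNReal.rpow_le_one _ hpr.le
      rw [mem_ball_zero_iff] at hu
      rw [enorm_pow]
      apply pow_le_one₀ (by simp)
      rw [← ofReal_norm]
      exact ENNReal.ofReal_le_one.2 hu.le
    refine (this.trans_lt ?_).ne
    simp only [lintegral_const, one_mul, Measure.restrict_apply MeasurableSet.univ, univ_inter]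
    exact measure_ball_lt_top
  · rw [hnorm hUo hψ hM]
    exact tendsto_const_nhds
  · exact Eventually.of_forall fun i => (hnormi i).le

end Pool.Agent.Helper39
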