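import Mathlib

/-!
Holomorphic logarithms on simply connected open sets.
-/

open Set Metric Filter Topology

namespace Pool.Agent.Helper39

/-- A continuous logarithm of a holomorphic function is holomorphic. -/
theorem hasDerivAt_of_exp_eq {L h : ℂ → ℂ} {z h' : ℂ} (hL : ContinuousAt L z)
    (hexp : ∀ᶠ w in 𝓝 z, Complex.exp (L w) = h w) (hh : HasDerivAt h h' z) :
    HasDerivAt L (h' / h z) z := by
  have hz : Complex.exp (L z) = h z := hexp.self_of_nhds
  have hne : h z ≠ 0 := by rw [← hz]; exact Complex.exp_ne_zero _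
  -- near `z`, `L w = L z + log (h w / h z)`
  have hev : ∀ᶠ w in 𝓝 z, L w = L z + Complex.log (h w / h z) := by
    have h1 : ∀ᶠ w in 𝓝 z, ‖L w - L z‖ < 1 := by
      have := (hL.sub (continuousAt_const (y := L z))).norm
      have h2 : Tendsto (fun w => ‖L w - L z‖) (𝓝 z) (𝓝 0) := by simpa [ContinuousAt] using this
      exact h2.eventually (gt_mem_nhds one_pos)
    filter_upwards [h1, hexp] with w hw1 hw2
    have him : |(L w - L z).im| < 1 := (Complex.abs_im_le_norm _).trans_lt hw1
    have hpi := Real.pi_gt_three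
    rw [← hw2, ← hz, ← Complex.exp_sub, Complex.log_exp]
    · ring
    · linarith [(abs_lt.1 him).1]
    · linarith [(abs_lt.1 him).2]
  have hlog : HasDerivAt (fun w => L z + Complex.log (h w / h z)) (h' / h z) z := by
    have h1 : HasDerivAt (fun w => h w / h z) (h' / h z) z := hh.div_const _
    have h2 : h z / h z ∈ Complex.slitPlane := by rw [div_self hne]; exact Complex.one_mem_slitPlane
    have h3 := (h1.clog h2).const_add (L z)
    have : h' / h z / (h z / h z) = h' / h z := by rw [div_self hne, div_one]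
    rwa [this] at h3
  exact hlog.congr_of_eventuallyEq hev

/-- Holomorphic logarithms on simply connected open sets. -/
theorem exists_differentiableOn_log {U : Set ℂ} (hUc : IsSimplyConnected U) (hUo : IsOpen U)
    {h : ℂ → ℂ} (hd : DifferentiableOn ℂ h U) (h0 : ∀ z ∈ U, h z ≠ 0) :
    ∃ L : ℂ → ℂ, DifferentiableOn ℂ L U ∧ ∀ z ∈ U, Complex.exp (L z) = h z := by
  obtain ⟨L, hLc, hL⟩ := Complex.exists_continuousOn_eqOn_exp_comp hUc hUo hd.continuousOn
    (by rintro ⟨z, hz, hz0⟩; exact h0 z hz hz0)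
  refine ⟨L, fun z hz => ?_, fun z hz => hL hz⟩
  have hev : ∀ᶠ w in 𝓝 z, Complex.exp (L w) = h w := by
    filter_upwards [hUo.mem_nhds hz] with w hw using hL hw
  have := hasDerivAt_of_exp_eq (hLc.continuousAt (hUo.mem_nhds hz)) hev
    ((hd.differentiableAt (hUo.mem_nhds hz)).hasDerivAt)
  exact this.differentiableAt.differentiableWithinAt

/-- Holomorphic square roots on simply connected open sets. -/
theorem exists_differentiableOn_sqrt {U : Set ℂ} (hUc : IsSimplyConnected U) (hUo : IsOpen U)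
    {h : ℂ → ℂ} (hd : DifferentiableOn ℂ h U) (h0 : ∀ z ∈ U, h z ≠ 0) :
    ∃ s : ℂ → ℂ, DifferentiableOn ℂ s U ∧ ∀ z ∈ U, s z ^ 2 = h z := by
  obtain ⟨L, hLd, hL⟩ := exists_differentiableOn_log hUc hUo hd h0
  refine ⟨fun z => Complex.exp (L z / 2), (hLd.div_const 2).cexp, fun z hz => ?_⟩
  rw [← Complex.exp_nat_mul, ← hL z hz]
  congr 1
  push_cast
  ring

end Pool.Agent.Helper39
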