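import Mathlib

/-!
Montel-type compactness and Hurwitz-type facts for sequences of holomorphic functions.
-/

open Set Metric Filter Topology

namespace Pool.Agent.Helper39

/-- Selection theorem: a uniformly bounded sequence which is eventually locally Lipschitz
has a locally uniformly convergent subsequence. -/
theorem exists_subseq_tendstoLocallyUniformlyOn {U : Set ℂ} (hU : IsOpen U) {f : ℕ → ℂ → ℂ}
    {M : ℝ} (hM : ∀ n z, ‖f n z‖ ≤ M)
    (hL : ∀ z₀ ∈ U, ∃ r > 0, ∃ L : ℝ, ∀ᶠ n in atTop, ∀ x ∈ ball z₀ r, ∀ y ∈ ball z₀ r,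
      ‖f n x - f n y‖ ≤ L * ‖x - y‖) :
    ∃ g : ℂ → ℂ, ∃ k : ℕ → ℕ, StrictMono k ∧
      TendstoLocallyUniformlyOn (fun i => f (k i)) g atTop U := by
  classical
  -- the countable dense sequence
  let d := TopologicalSpace.denseSeq ℂ
  have hd : DenseRange d := TopologicalSpace.denseRange_denseSeq ℂ
  have hK : IsCompact (Set.pi univ (fun _ : ℕ => closedBall (0:ℂ) M)) :=
    isCompact_univ_pi (fun _ => isCompact_closedBall 0 M)
  obtain ⟨a, -, k, hk, hka⟩ := hK.tendsto_subseq (x := fun n i => f n (d i))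
    (fun n i _ => by simpa using hM n (d i))
  rw [tendsto_pi_nhds] at hka
  -- pointwise Cauchy on U
  have hcauchy : ∀ z ∈ U, CauchySeq (fun n => f (k n) z) := by
    intro z hz
    obtain ⟨r, hr, L, hrL⟩ := hL z hz
    rw [Metric.cauchySeq_iff']
    intro ε hε
    set L' := max L 1 with hL'
    have hL'pos : 0 < L' := lt_max_of_lt_right one_pos
    obtain ⟨i, hi⟩ : ∃ i, d i ∈ ball z (min r (ε / (4 * L'))) := by
      have := hd.exists_dist_lt z (ε := min r (ε / (4 * L'))) (lt_min hr (by positivity))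
      obtain ⟨i, hi⟩ := this
      exact ⟨i, by rwa [mem_ball, dist_comm]⟩
    have hir : d i ∈ ball z r := ball_subset_ball (min_le_left _ _) hi
    have hiε : ‖z - d i‖ < ε / (4 * L') := by
      have := lt_of_lt_of_le (mem_ball.1 hi) (min_le_right _ _)
      rwa [dist_comm, dist_eq_norm] at this
    have hc := (hka i).cauchySeq
    rw [Metric.cauchySeq_iff'] at hc
    obtain ⟨N1, hN1⟩ := hc (ε / 4) (by positivity)
    have hev := hk.tendsto_atTop.eventually hrL
    obtain ⟨N2, hN2⟩ := eventually_atTop.1 hev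
    refine ⟨max N1 N2, fun n hn => ?_⟩
    have hn1 : dist (f (k n) (d i)) (f (k N1) (d i)) < ε / 4 := hN1 n (le_trans (le_max_left _ _) hn)
    have hm1 : dist (f (k (max N1 N2)) (d i)) (f (k N1) (d i)) < ε / 4 := hN1 _ (le_max_left _ _)
    have hn2 : ‖f (k n) z - f (k n) (d i)‖ ≤ L * ‖z - d i‖ :=
      hN2 n (le_trans (le_max_right _ _) hn) z (mem_ball_self hr) (d i) hir
    have hm2 : ‖f (k (max N1 N2)) z - f (k (max N1 N2)) (d i)‖ ≤ L * ‖z - d i‖ :=
      hN2 _ (le_max_right _ _) z (mem_ball_self hr) (d i) hir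
    have hLb : L * ‖z - d i‖ < ε / 4 := by
      calc L * ‖z - d i‖ ≤ L' * ‖z - d i‖ := by gcongr; exact le_max_left _ _
        _ < L' * (ε / (4 * L')) := by gcongr
        _ = ε / 4 := by field_simp
    have h1 : dist (f (k n) z) (f (k n) (d i)) < ε / 4 := by rw [dist_eq_norm]; linarith
    have h2 : dist (f (k (max N1 N2)) z) (f (k (max N1 N2)) (d i)) < ε / 4 := by
      rw [dist_eq_norm]; linarith
    calc dist (f (k n) z) (f (k (max N1 N2)) z)
        ≤ dist (f (k n) z) (f (k n) (d i)) + dist (f (k n) (d i)) (f (k N1) (d i))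
          + dist (f (k N1) (d i)) (f (k (max N1 N2)) (d i))
          + dist (f (k (max N1 N2)) (d i)) (f (k (max N1 N2)) z) := by
            linarith [dist_triangle (f (k n) z) (f (k n) (d i)) (f (k (max N1 N2)) z),
              dist_triangle (f (k n) (d i)) (f (k N1) (d i)) (f (k (max N1 N2)) z),
              dist_triangle (f (k N1) (d i)) (f (k (max N1 N2)) (d i)) (f (k (max N1 N2)) z)]
      _ < ε := by
            have e1 := dist_comm (f (k N1) (d i)) (f (k (max N1 N2)) (d i))
            have e2 := dist_comm (f (k (max N1 N2)) (d i)) (f (k (max N1 N2)) z)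
            linarith
  choose! g hg using fun z (hz : z ∈ U) => cauchySeq_tendsto_of_complete (hcauchy z hz)
  refine ⟨g, k, hk, ?_⟩
  rw [Metric.tendstoLocallyUniformlyOn_iff]
  intro ε hε z₀ hz₀
  obtain ⟨r, hr, L, hrL⟩ := hL z₀ hz₀
  obtain ⟨r', hr', hr'U⟩ := Metric.isOpen_iff.1 hU z₀ hz₀
  set ρ := min r r' / 2 with hρ
  have hρpos : 0 < ρ := by positivity
  set L' := max L 1 with hL'
  have hL'pos : 0 < L' := lt_max_of_lt_right one_pos
  have hsub : closedBall z₀ ρ ⊆ ball z₀ r :=
    closedBall_subset_ball (by rw [hρ]; linarith [min_le_left r r', lt_min hr hr'])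
  have hsubU : closedBall z₀ ρ ⊆ U :=
    (closedBall_subset_ball (by rw [hρ]; linarith [min_le_right r r', lt_min hr hr'])).trans hr'U
  obtain ⟨t, htsub, htfin, htcov⟩ := Metric.finite_approx_of_totallyBounded
    (isCompact_closedBall z₀ ρ).totallyBounded (ε / (4 * L')) (by positivity)
  have hev := hk.tendsto_atTop.eventually hrL
  have hfin : ∀ᶠ n in atTop, ∀ y ∈ t, dist (f (k n) y) (g y) < ε / 4 := by
    rw [Filter.eventually_all_finite htfin]
    intro y hy
    exact (Metric.tendsto_nhds.1 (hg y (hsubU (htsub hy)))) _ (by positivity)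
  -- limit Lipschitz
  have hgL : ∀ x ∈ ball z₀ r, x ∈ U → ∀ y ∈ ball z₀ r, y ∈ U → ‖g x - g y‖ ≤ L * ‖x - y‖ := by
    intro x hx hxU y hy hyU
    refine le_of_tendsto ((hg x hxU).sub (hg y hyU)).norm ?_
    filter_upwards [hev] with n hn using hn x hx y hy
  refine ⟨closedBall z₀ ρ, mem_nhdsWithin_of_mem_nhds (closedBall_mem_nhds _ hρpos), ?_⟩
  filter_upwards [hev, hfin] with n hn1 hn2 z hz
  obtain ⟨y, hyt, hzy⟩ := by simpa using htcov hz
  have hzr := hsub hz
  have hyr := hsub (htsub hyt)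
  have hLb : L * ‖z - y‖ < ε / 4 := by
    calc L * ‖z - y‖ ≤ L' * ‖z - y‖ := by gcongr; exact le_max_left _ _
      _ < L' * (ε / (4 * L')) := by gcongr; simpa [dist_eq_norm] using hzy
      _ = ε / 4 := by field_simp
  have h1 := hn1 z hzr y hyr
  have h2 := hgL z hzr (hsubU hz) y hyr (hsubU (htsub hyt))
  have h3 := hn2 y hyt
  rw [dist_eq_norm] at h3
  rw [dist_comm, dist_eq_norm]
  have : f (k n) z - g z = (f (k n) z - f (k n) y) + (f (k n) y - g y) - (g z - g y) := by ring
  rw [this]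
  calc ‖(f (k n) z - f (k n) y) + (f (k n) y - g y) - (g z - g y)‖
      ≤ ‖f (k n) z - f (k n) y‖ + ‖f (k n) y - g y‖ + ‖g z - g y‖ := by
        refine (norm_sub_le _ _).trans ?_
        gcongr
        exact norm_add_le _ _
    _ < ε := by linarith

/-- Cauchy estimate in Lipschitz form. -/
theorem lipschitz_of_bounded {f : ℂ → ℂ} {M : ℝ} {z₀ : ℂ} {r : ℝ} (hr : 0 < r)
    (hf : DifferentiableOn ℂ f (ball z₀ (2 * r))) (hM : ∀ z ∈ ball z₀ (2 * r), ‖f z‖ ≤ M) :
    ∀ x ∈ ball z₀ r, ∀ y ∈ ball z₀ r, ‖f x - f y‖ ≤ (2 * M / r) * ‖x - y‖ := by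
  intro x hx y hy
  have hderiv : ∀ z ∈ ball z₀ r, ‖deriv f z‖ ≤ 2 * M / r := by
    intro z hz
    have hsub : closedBall z (r / 2) ⊆ ball z₀ (2 * r) := by
      intro w hw
      rw [mem_ball]
      have := dist_triangle w z z₀
      have h1 := mem_closedBall.1 hw
      have h2 := mem_ball.1 hz
      linarith
    have := Complex.norm_deriv_le_of_forall_mem_sphere_norm_le (c := z) (R := r / 2) (C := M) (f := f)
      (by positivity) ?_ ?_
    · calc ‖deriv f z‖ ≤ M / (r / 2) := this
        _ = 2 * M / r := by field_simp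
    · exact (hf.mono hsub).diffContOnCl_ball subset_rfl
    · intro w hw
      exact hM w (hsub (sphere_subset_closedBall hw))
  have hdiff : ∀ z ∈ ball z₀ r, DifferentiableAt ℂ f z := by
    intro z hz
    refine hf.differentiableAt (isOpen_ball.mem_nhds ?_)
    exact ball_subset_ball (by linarith) hz
  exact Convex.norm_image_sub_le_of_norm_deriv_le hdiff hderiv (convex_ball z₀ r) hy hx

end Pool.Agent.Helper39
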