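import Mathlib

set_option autoImplicit false

open Filter Topology Set

namespace Pool.Agent.Helper39.PLQ

variable {E : Type*} [NormedAddCommGroup E] [NormedSpace ℝ E]

/-- A (continuous) quadratic function on `E`: `x ↦ B x x + L x + c`. -/
structure Quad (E : Type*) [NormedAddCommGroup E] [NormedSpace ℝ E] where
  B : E →L[ℝ] E →L[ℝ] ℝ
  L : E →L[ℝ] ℝ
  c : ℝ

namespace Quad

/-- evaluation -/
noncomputable def eval (q : Quad E) (x : E) : ℝ := q.B x x + q.L x + q.c

/-- derivative -/
noncomputable def D (q : Quad E) (x : E) : E →L[ℝ] ℝ := q.B x + q.B.flip x + q.L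

lemma D_apply (q : Quad E) (x w : E) : q.D x w = q.B x w + q.B w x + q.L w := by
  simp [D]

lemma eval_add (q : Quad E) (x w : E) : q.eval (x + w) = q.eval x + q.D x w + q.B w w := by
  simp only [eval, D_apply, map_add, ContinuousLinearMap.add_apply]
  ring

lemma eval_add_smul (q : Quad E) (x w : E) (t : ℝ) :
    q.eval (x + t • w) = q.eval x + t * q.D x w + t ^ 2 * q.B w w := by
  rw [eval_add]
  simp only [map_smul, smul_eq_mul, ContinuousLinearMap.smul_apply]
  ring

lemma D_add_smul (q : Quad E) (x w : E) (t : ℝ) :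
    q.D (x + t • w) w = q.D x w + 2 * t * q.B w w := by
  simp only [D_apply, map_add, ContinuousLinearMap.add_apply, map_smul, smul_eq_mul,
    ContinuousLinearMap.smul_apply]
  ring

lemma continuous_B (q : Quad E) : Continuous fun w => q.B w w := by
  fun_prop

lemma continuous_eval (q : Quad E) : Continuous q.eval := by
  unfold eval
  fun_prop

/-- difference -/
noncomputable def sub (q r : Quad E) : Quad E := ⟨q.B - r.B, q.L - r.L, q.c - r.c⟩

lemma sub_eval (q r : Quad E) (x : E) : (q.sub r).eval x = q.eval x - r.eval x := by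
  simp only [sub, eval, ContinuousLinearMap.sub_apply]; ring

lemma sub_D (q r : Quad E) (x w : E) : (q.sub r).D x w = q.D x w - r.D x w := by
  simp only [D_apply, sub, ContinuousLinearMap.sub_apply]; ring

lemma sub_B (q r : Quad E) (x w : E) : (q.sub r).B x w = q.B x w - r.B x w := by
  simp only [sub, ContinuousLinearMap.sub_apply]

/-- The non-vanishing set of a nonzero quadratic function is dense. -/
lemma dense_ne (q : Quad E) (h : ∃ x, q.eval x ≠ 0) : Dense {x | q.eval x ≠ 0} := by
  obtain ⟨y, hy⟩ := h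
  intro x
  by_contra hx
  rw [mem_closure_iff_frequently, not_frequently] at hx
  have hx' : ∀ᶠ z in 𝓝 x, q.eval z = 0 := hx.mono fun z hz => by
    by_contra hne
    exact hz hne
  have hlim : Tendsto (fun t : ℝ => x + t • (y - x)) (𝓝 0) (𝓝 x) := by
    have : Tendsto (fun t : ℝ => x + t • (y - x)) (𝓝 0) (𝓝 (x + (0:ℝ) • (y - x))) :=
      (Continuous.tendsto (by fun_prop) _)
    simpa using this
  have h1 := hlim.eventually hx'
  rw [Metric.eventually_nhds_iff] at h1
  obtain ⟨ε, hε, h1⟩ := h1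
  have h0 : q.eval (x + (0:ℝ) • (y - x)) = 0 := h1 (by simpa using hε)
  have h2 : q.eval (x + (ε / 2) • (y - x)) = 0 := h1 (by
    rw [Real.dist_eq, sub_zero, abs_of_pos (by positivity)]; linarith)
  have h3 : q.eval (x + (ε / 4) • (y - x)) = 0 := h1 (by
    rw [Real.dist_eq, sub_zero, abs_of_pos (by positivity)]; linarith)
  rw [eval_add_smul] at h0 h2 h3
  have h4 : q.eval x = 0 := by simpa using h0
  rw [h4] at h2 h3
  have h5 : q.D x (y - x) + ε / 2 * q.B (y - x) (y - x) = 0 := by
    have : ε / 2 * (q.D x (y - x) + ε / 2 * q.B (y - x) (y - x)) = 0 := by linarith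
    rcases mul_eq_zero.1 this with h | h
    · linarith
    · exact h
  have h6 : q.D x (y - x) + ε / 4 * q.B (y - x) (y - x) = 0 := by
    have : ε / 4 * (q.D x (y - x) + ε / 4 * q.B (y - x) (y - x)) = 0 := by linarith
    rcases mul_eq_zero.1 this with h | h
    · linarith
    · exact h
  have h7 : q.B (y - x) (y - x) = 0 := by
    have : ε / 4 * q.B (y - x) (y - x) = 0 := by linarith
    rcases mul_eq_zero.1 this with h | h
    · linarith
    · exact h
  have h8 : q.D x (y - x) = 0 := by rw [h7] at h6; linarith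
  apply hy
  have : y = x + (1:ℝ) • (y - x) := by simp
  rw [this, eval_add_smul, h4, h7, h8]; ring

lemma isOpen_ne (q : Quad E) : IsOpen {x | q.eval x ≠ 0} :=
  isOpen_ne_fun q.continuous_eval continuous_const

end Quad

/-- Finitely many nonzero quadratic functions are simultaneously nonzero on an open dense set. -/
lemma dense_ne_finite {κ : Type*} (s : Finset κ) (g : κ → Quad E)
    (h : ∀ k ∈ s, ∃ x, (g k).eval x ≠ 0) :
    Dense {x | ∀ k ∈ s, (g k).eval x ≠ 0} ∧ IsOpen {x | ∀ k ∈ s, (g k).eval x ≠ 0} := by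
  classical
  induction s using Finset.induction_on with
  | empty => simp [Set.setOf_true, dense_univ]
  | insert a s ha ih =>
    have hi := ih (fun k hk => h k (Finset.mem_insert_of_mem hk))
    have heq : {x | ∀ k ∈ insert a s, (g k).eval x ≠ 0} =
        {x | (g a).eval x ≠ 0} ∩ {x | ∀ k ∈ s, (g k).eval x ≠ 0} := by
      ext x
      simp only [Finset.mem_insert, forall_eq_or_imp, Set.mem_setOf_eq, Set.mem_inter_iff]
    rw [heq]
    exact ⟨((g a).dense_ne (h a (Finset.mem_insert_self _ _))).inter_of_isOpen_left hi.1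
      (g a).isOpen_ne, (g a).isOpen_ne.inter hi.2⟩

/-- Affine functions as pairs. -/
noncomputable def affEval (A : (E →L[ℝ] ℝ) × ℝ) (x : E) : ℝ := A.1 x + A.2

/-- A quadratic function which is the product of two affine functions. -/
def Reducible (q : Quad E) : Prop :=
  ∃ A₁ A₂ : (E →L[ℝ] ℝ) × ℝ, ∀ x, q.eval x = affEval A₁ x * affEval A₂ x

/-- If the quadratic form vanishes on the kernel of the derivative at a zero, the quadratic is
reducible. -/
lemma reducible_of_vanish (q : Quad E) (z : E) (hz : q.eval z = 0) (hD : q.D z ≠ 0)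
    (hv : ∀ u, q.D z u = 0 → q.B u u = 0) : Reducible q := by
  obtain ⟨e, he⟩ : ∃ e, q.D z e = 1 := by
    obtain ⟨e, he⟩ : ∃ e, q.D z e ≠ 0 := by
      by_contra hcon
      push Not at hcon
      exact hD (ContinuousLinearMap.ext fun e => by simpa using hcon e)
    exact ⟨(q.D z e)⁻¹ • e, by simp [he]⟩
  set ℓ := q.D z with hℓ
  -- projection
  let m : E →L[ℝ] ℝ := (q.B.flip e) + (q.B e) - (q.B e e) • ℓ
  have hm : ∀ w, q.B w w = ℓ w * m w := by
    intro w
    have h1 := hv (w - ℓ w • e) (by simp [he])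
    simp only [map_sub, map_smul, ContinuousLinearMap.sub_apply, ContinuousLinearMap.smul_apply,
      smul_eq_mul] at h1
    simp only [m, ContinuousLinearMap.add_apply, ContinuousLinearMap.sub_apply,
      ContinuousLinearMap.smul_apply, ContinuousLinearMap.flip_apply, smul_eq_mul]
    linarith
  refine ⟨(ℓ, -ℓ z), (m, 1 - m z), fun x => ?_⟩
  have h1 : x = z + (x - z) := by abel
  rw [h1, q.eval_add, hz, hm, ← hℓ]
  simp only [affEval, map_sub, map_add]
  ring

/-- Discriminant along lines through `x₀`, as a quadratic function of the end point. -/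
noncomputable def disc (q : Quad E) (x₀ : E) : Quad E :=
  ⟨((q.D x₀).smulRight (q.D x₀)) - (4 * q.eval x₀) • q.B, 
    - ((2 * q.D x₀ x₀) • q.D x₀) + (4 * q.eval x₀) • (q.B x₀ + q.B.flip x₀), 
    (q.D x₀ x₀) ^ 2 - 4 * q.eval x₀ * q.B x₀ x₀⟩

lemma disc_eval (q : Quad E) (x₀ y : E) :
    (disc q x₀).eval y = (q.D x₀ (y - x₀)) ^ 2 - 4 * q.eval x₀ * q.B (y - x₀) (y - x₀) := by
  simp only [disc, Quad.eval, ContinuousLinearMap.sub_apply, ContinuousLinearMap.smulRight_apply,
    ContinuousLinearMap.smul_apply, smul_eq_mul, map_sub, ContinuousLinearMap.add_apply,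
    ContinuousLinearMap.neg_apply, ContinuousLinearMap.flip_apply]
  ring

lemma disc_ne (q : Quad E) (x₀ : E) (h0 : q.eval x₀ ≠ 0) (hred : ¬ Reducible q) :
    ∃ y, (disc q x₀).eval y ≠ 0 := by
  by_contra hcon
  push Not at hcon
  apply hred
  refine ⟨((1 / (4 * q.eval x₀)) • q.D x₀, (2 * q.eval x₀ - q.D x₀ x₀) / (4 * q.eval x₀)),
    (q.D x₀, 2 * q.eval x₀ - q.D x₀ x₀), fun x => ?_⟩
  have h1 := hcon x
  rw [disc_eval] at h1
  have h2 : x = x₀ + (x - x₀) := by abel
  have h3 : q.B (x - x₀) (x - x₀) = (q.D x₀ (x - x₀)) ^ 2 / (4 * q.eval x₀) := by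
    rw [eq_div_iff (by simpa using h0)]
    linarith
  have h4 : q.eval x = q.eval x₀ + q.D x₀ (x - x₀) + (q.D x₀ (x - x₀)) ^ 2 / (4 * q.eval x₀) := by
    conv_lhs => rw [h2, q.eval_add, h3]
  rw [h4]
  simp only [affEval, ContinuousLinearMap.smul_apply, smul_eq_mul, map_sub]
  field_simp
  ring

/-- simple zeros along the line -/
lemma D_ne_of_disc (q : Quad E) (x₀ y : E) (hy : (disc q x₀).eval y ≠ 0) (t : ℝ)
    (hz : q.eval (x₀ + t • (y - x₀)) = 0) : q.D (x₀ + t • (y - x₀)) ≠ 0 := by
  intro hD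
  apply hy
  rw [disc_eval]
  have h1 := q.D_add_smul x₀ (y - x₀) t
  rw [hD] at h1
  rw [q.eval_add_smul] at hz
  simp only [ContinuousLinearMap.zero_apply] at h1
  have h2 : q.D x₀ (y - x₀) = - (2 * t * q.B (y - x₀) (y - x₀)) := by linarith
  have h3 : q.eval x₀ = t ^ 2 * q.B (y - x₀) (y - x₀) := by rw [h2] at hz; linarith
  rw [h2, h3]; ring

end Pool.Agent.Helper39.PLQ
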