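import Mathlib
import Pool.Agent.Helper39.PLQCore

set_option autoImplicit false

open Filter Topology Set

namespace Pool.Agent.Helper39.PLQ

variable {E : Type*} [NormedAddCommGroup E] [NormedSpace ℝ E]

/-- The joint limit function is continuous. -/
lemma continuous_of_joint_limit (F : E × ℝ → ℝ) (φ : E → ℝ)
    (h : ∀ v, Tendsto F (𝓝 v ×ˢ 𝓝[>] 0) (𝓝 (φ v))) : Continuous φ := by
  rw [continuous_iff_continuousAt]
  intro v
  rw [ContinuousAt, (closed_nhds_basis (φ v)).tendsto_right_iff]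
  intro V hV
  obtain ⟨hVn, hVc⟩ := hV
  have h1 := (h v).eventually_mem hVn
  rw [Filter.eventually_prod_iff] at h1
  obtain ⟨pa, hpa, pb, hpb, h2⟩ := h1
  filter_upwards [hpa] with v' hv'
  have h3 : Tendsto (fun τ : ℝ => F (v', τ)) (𝓝[>] 0) (𝓝 (φ v')) := by
    have h4 : Tendsto (fun τ : ℝ => (v', τ)) (𝓝[>] (0:ℝ)) (𝓝 v' ×ˢ 𝓝[>] (0:ℝ)) :=
      tendsto_const_nhds.prodMk tendsto_id
    exact (h v').comp h4
  refine hVc.mem_of_tendsto h3 ?_
  filter_upwards [hpb] with τ hτ
  exact h2 hv' hτ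

/-- continuous selection lemma on a preconnected set -/
lemma selection {X Y κ : Type*} [TopologicalSpace X] [TopologicalSpace Y] [T2Space Y]
    [Finite κ] (S : Set X) (hS : IsPreconnected S) (φ : X → Y) (hφ : ContinuousOn φ S)
    (ψ : κ → X → Y) (hψ : ∀ i, ContinuousOn (ψ i) S)
    (hsel : ∀ x ∈ S, ∃ i, φ x = ψ i x)
    (hne : ∀ i j, i ≠ j → ∀ x ∈ S, ψ i x ≠ ψ j x) (x₀ : X) (hx₀ : x₀ ∈ S) (i₀ : κ)
    (h₀ : φ x₀ = ψ i₀ x₀) : ∀ x ∈ S, φ x = ψ i₀ x := by
  classical
  intro x hx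
  by_contra hxne
  haveI : PreconnectedSpace S := isPreconnected_iff_preconnectedSpace.1 hS
  let T : κ → Set S := fun i => {x | φ x = ψ i x}
  have hTc : ∀ i, IsClosed (T i) := fun i =>
    isClosed_eq (continuousOn_iff_continuous_restrict.1 hφ)
      (continuousOn_iff_continuous_restrict.1 (hψ i))
  have hcompl : (T i₀)ᶜ = ⋃ i ∈ {i | i ≠ i₀}, T i := by
    ext y
    simp only [T, Set.mem_compl_iff, Set.mem_iUnion, exists_prop]
    constructor
    · intro hy
      obtain ⟨i, hi⟩ := hsel y y.2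
      refine ⟨i, ?_, hi⟩
      show i ≠ i₀
      rintro rfl
      exact hy hi
    · rintro ⟨i, hi, hyi⟩ hy
      have h1 : φ y = ψ i y := hyi
      have h2 : φ y = ψ i₀ y := hy
      exact hne i i₀ hi y y.2 (h1.symm.trans h2)
  have hclopen : IsClopen (T i₀) := by
    refine ⟨hTc i₀, ?_⟩
    rw [← isClosed_compl_iff, hcompl]
    exact Set.Finite.isClosed_biUnion (Set.toFinite _) (fun i _ => hTc i)
  rcases isClopen_iff.1 hclopen with h | h
  · have : (⟨x₀, hx₀⟩ : S) ∈ T i₀ := h₀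
    rw [h] at this
    exact this
  · have : (⟨x, hx⟩ : S) ∈ T i₀ := by rw [h]; trivial
    exact hxne this

/-- Joint limits defining twice semidifferentiability at `x`. -/
def TwiceSemi (f : E → ℝ) (x : E) : Prop :=
  ∃ D : E → ℝ,
    (∀ v, Tendsto (fun p : E × ℝ => (f (x + p.2 • p.1) - f x) / p.2)
      (𝓝 v ×ˢ 𝓝[>] 0) (𝓝 (D v))) ∧
    ∀ w, ∃ s : ℝ, Tendsto (fun p : E × ℝ => (f (x + p.2 • p.1) - f x - p.2 * D p.1) / p.2 ^ 2)
      (𝓝 w ×ˢ 𝓝[>] 0) (𝓝 s)

section local_analysis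

variable {ι : Type*} [Finite ι] (q : ι → Quad E) (f : E → ℝ) (hf : Continuous f)
  (hsel : ∀ x, ∃ i, f x = (q i).eval x)

include hf hsel in
/-- At a point where the pairwise differences are nondegenerate, one quadratic is the germ of
`f` along every ray. -/
lemma germ (z : E) (hz : TwiceSemi f z)
    (hnd : ∀ i j, i ≠ j → ((q i).sub (q j)).eval z = 0 →
      ∃ u, ((q i).sub (q j)).D z u = 0 ∧ ((q i).sub (q j)).B u u ≠ 0)
    (hnd' : ∀ i j, i ≠ j → ((q i).sub (q j)).eval z = 0 → ((q i).sub (q j)).D z ≠ 0) :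
    ∃ i, ∀ w, ∀ᶠ τ in 𝓝[>] (0:ℝ), f (z + τ • w) = (q i).eval (z + τ • w) := by
  classical
  obtain ⟨D, hD, hS⟩ := hz
  choose S hS using hS
  have hDc : Continuous D := continuous_of_joint_limit _ D hD
  have hSc : Continuous S := continuous_of_joint_limit _ S hS
  have hray : ∀ w : E, Tendsto (fun τ : ℝ => (w, τ)) (𝓝[>] (0:ℝ)) (𝓝 w ×ˢ 𝓝[>] (0:ℝ)) :=
    fun w => tendsto_const_nhds.prodMk tendsto_id
  have hD1 : ∀ w, Tendsto (fun τ : ℝ => (f (z + τ • w) - f z) / τ) (𝓝[>] 0) (𝓝 (D w)) :=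
    fun w => (hD w).comp (hray w)
  have hS1 : ∀ w, Tendsto (fun τ : ℝ => (f (z + τ • w) - f z - τ * D w) / τ ^ 2) (𝓝[>] 0)
      (𝓝 (S w)) := fun w => (hS w).comp (hray w)
  have hline : ∀ w : E, Tendsto (fun τ : ℝ => z + τ • w) (𝓝[>] (0:ℝ)) (𝓝 z) := by
    intro w
    have : Tendsto (fun τ : ℝ => z + τ • w) (𝓝 (0:ℝ)) (𝓝 (z + (0:ℝ) • w)) :=
      Continuous.tendsto (by fun_prop) _
    rw [zero_smul, add_zero] at this
    exact this.mono_left nhdsWithin_le_nhds
  have hpos : ∀ᶠ τ in 𝓝[>] (0:ℝ), 0 < τ := self_mem_nhdsWithin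
  -- (b)
  have hb : ∀ w i, (∃ᶠ τ in 𝓝[>] (0:ℝ), f (z + τ • w) = (q i).eval (z + τ • w)) →
      f z = (q i).eval z ∧ D w = (q i).D z w ∧ S w = (q i).B w w := by
    intro w i hfr
    have h1 : f z = (q i).eval z := by
      refine tendsto_nhds_unique_of_frequently_eq ((hf.tendsto z).comp (hline w))
        (((q i).continuous_eval.tendsto z).comp (hline w)) ?_
      exact hfr
    have h2 : D w = (q i).D z w := by
      have h3 : Tendsto (fun τ : ℝ => (q i).D z w + τ * (q i).B w w) (𝓝[>] (0:ℝ))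
          (𝓝 ((q i).D z w)) := by
        have : Tendsto (fun τ : ℝ => (q i).D z w + τ * (q i).B w w) (𝓝 (0:ℝ))
            (𝓝 ((q i).D z w + 0 * (q i).B w w)) := Continuous.tendsto (by fun_prop) _
        rw [zero_mul, add_zero] at this
        exact this.mono_left nhdsWithin_le_nhds
      refine tendsto_nhds_unique_of_frequently_eq (hD1 w) h3 ?_
      refine (hfr.and_eventually hpos).mono fun τ hτ => ?_
      have hτ0 : τ ≠ 0 := hτ.2.ne'
      rw [hτ.1, (q i).eval_add_smul, h1]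
      field_simp
      ring
    refine ⟨h1, h2, ?_⟩
    have h4 : Tendsto (fun τ : ℝ => (q i).B w w) (𝓝[>] (0:ℝ)) (𝓝 ((q i).B w w)) :=
      tendsto_const_nhds
    refine tendsto_nhds_unique_of_frequently_eq (hS1 w) h4 ?_
    refine (hfr.and_eventually hpos).mono fun τ hτ => ?_
    have hτ0 : τ ≠ 0 := hτ.2.ne'
    rw [hτ.1, (q i).eval_add_smul, h1, h2]
    field_simp
    ring
  -- (c)
  have hc : ∀ w, ∃ i, ∃ᶠ τ in 𝓝[>] (0:ℝ), f (z + τ • w) = (q i).eval (z + τ • w) := by
    intro w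
    by_contra hcon
    push Not at hcon
    have h1 : ∀ i, ∀ᶠ τ in 𝓝[>] (0:ℝ), f (z + τ • w) ≠ (q i).eval (z + τ • w) := by
      intro i
      have := hcon i
      simpa only [not_frequently] using this
    have h2 := Filter.eventually_all.2 h1
    obtain ⟨τ, hτ⟩ := h2.exists
    obtain ⟨i, hi⟩ := hsel (z + τ • w)
    exact hτ i hi
  -- active set
  let I := {i : ι // f z = (q i).eval z}
  haveI : Finite I := Subtype.finite
  let φ : E → ℝ × ℝ := fun w => (D w, S w)
  have hφ : Continuous φ := hDc.prodMk hSc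
  let ψ : I → E → ℝ × ℝ := fun i w => ((q i.1).D z w, (q i.1).B w w)
  have hψ : ∀ i, Continuous (ψ i) := fun i =>
    ((q i.1).D z).continuous.prodMk (q i.1).continuous_B
  have hselφ : ∀ w, ∃ i : I, φ w = ψ i w := by
    intro w
    obtain ⟨i, hi⟩ := hc w
    obtain ⟨h1, h2, h3⟩ := hb w i hi
    exact ⟨⟨i, h1⟩, Prod.ext h2 h3⟩
  have hzero : ∀ i j : I, ((q i.1).sub (q j.1)).eval z = 0 := fun i j => by
    rw [Quad.sub_eval, ← i.2, ← j.2, sub_self]
  haveI := Fintype.ofFinite I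
  -- generic w₀
  let P : Finset (I × I) := Finset.univ.filter (fun p => p.1 ≠ p.2)
  have hw₀ : ∃ w₀ : E, ∀ p ∈ P, ((q p.1.1).sub (q p.2.1)).D z w₀ ≠ 0 := by
    have h1 := (dense_ne_finite P
      (fun p => (⟨0, ((q p.1.1).sub (q p.2.1)).D z, 0⟩ : Quad E)) (by
        intro p hp
        have hp' : p.1 ≠ p.2 := (Finset.mem_filter.1 hp).2
        have h2 := hnd' p.1.1 p.2.1 (fun h => hp' (Subtype.ext h)) (hzero _ _)
        by_contra hcon
        push Not at hcon
        apply h2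
        ext e
        simpa [Quad.eval] using hcon e)).1
    obtain ⟨w₀, hw₀⟩ := h1.nonempty
    refine ⟨w₀, fun p hp => ?_⟩
    have := hw₀ p hp
    simpa [Quad.eval] using this
  obtain ⟨w₀, hw₀⟩ := hw₀
  obtain ⟨i₀, hi₀⟩ := hselφ w₀
  -- main identity on the dense set
  let R : I × I → Quad E := fun p =>
    ⟨(((q p.1.1).sub (q p.2.1)).B).bilinearComp
        ((((q p.1.1).sub (q p.2.1)).D z).smulRight w₀
          - (((q p.1.1).sub (q p.2.1)).D z w₀) • ContinuousLinearMap.id ℝ E)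
        ((((q p.1.1).sub (q p.2.1)).D z).smulRight w₀
          - (((q p.1.1).sub (q p.2.1)).D z w₀) • ContinuousLinearMap.id ℝ E), 0, 0⟩
  have hR : ∀ p w, (R p).eval w = ((q p.1.1).sub (q p.2.1)).B
      ((((q p.1.1).sub (q p.2.1)).D z w) • w₀ - (((q p.1.1).sub (q p.2.1)).D z w₀) • w)
      ((((q p.1.1).sub (q p.2.1)).D z w) • w₀ - (((q p.1.1).sub (q p.2.1)).D z w₀) • w) := by
    intro p w
    simp only [R, Quad.eval, ContinuousLinearMap.bilinearComp_apply, ContinuousLinearMap.sub_apply,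
      ContinuousLinearMap.smulRight_apply, ContinuousLinearMap.smul_apply,
      ContinuousLinearMap.id_apply, ContinuousLinearMap.zero_apply, add_zero]
  have hRd := (dense_ne_finite P R (by
    intro p hp
    have hp' : p.1 ≠ p.2 := (Finset.mem_filter.1 hp).2
    obtain ⟨u, hu1, hu2⟩ := hnd p.1.1 p.2.1 (fun h => hp' (Subtype.ext h)) (hzero _ _)
    refine ⟨u, ?_⟩
    rw [hR, hu1]
    simp only [zero_smul, zero_sub, map_neg, ContinuousLinearMap.neg_apply, neg_neg, map_smul,
      ContinuousLinearMap.smul_apply, smul_eq_mul]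
    have h3 := hw₀ p hp
    exact neg_ne_zero.2 (mul_ne_zero h3 (neg_ne_zero.2 (mul_ne_zero h3 hu2))))).1
  have hmain : ∀ w, (∀ p ∈ P, (R p).eval w ≠ 0) → φ w = ψ i₀ w := by
    intro w hw
    have hsel2 := selection (Set.Icc (0:ℝ) 1) isPreconnected_Icc
      (fun s => φ ((1 - s) • w₀ + s • w)) (by
        refine Continuous.continuousOn ?_
        exact hφ.comp (by fun_prop))
      (fun (i : I) s => ψ i ((1 - s) • w₀ + s • w)) (fun i => by
        refine Continuous.continuousOn ?_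
        exact (hψ i).comp (by fun_prop))
      (fun s _ => hselφ _)
      (by
        intro i j hij s _ hEq
        have hP : (i, j) ∈ P := Finset.mem_filter.2 ⟨Finset.mem_univ _, hij⟩
        have h1 := congrArg Prod.fst hEq
        have h2 := congrArg Prod.snd hEq
        simp only [ψ] at h1 h2
        have h3 : ((q i.1).sub (q j.1)).D z ((1 - s) • w₀ + s • w) = 0 := by
          rw [Quad.sub_D, h1, sub_self]
        have h4 : ((q i.1).sub (q j.1)).B ((1 - s) • w₀ + s • w) ((1 - s) • w₀ + s • w) = 0 := by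
          rw [Quad.sub_B, h2, sub_self]
        have h5 := hw₀ _ hP
        have h6 := hw _ hP
        rw [hR] at h6
        simp only at h5 h6
        set ℓ := ((q i.1).sub (q j.1)).D z with hℓ
        set B := ((q i.1).sub (q j.1)).B with hB
        have h7 : (1 - s) * ℓ w₀ + s * ℓ w = 0 := by
          simpa only [map_add, map_smul, smul_eq_mul] using h3
        have hs : s ≠ 0 := by
          rintro rfl
          apply h5
          simpa using h7
        have h8 : ℓ w = - ((1 - s) / s) * ℓ w₀ := by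
          field_simp
          linarith
        apply h6
        have h9 : ℓ w • w₀ - ℓ w₀ • w = (-(ℓ w₀ / s)) • ((1 - s) • w₀ + s • w) := by
          rw [h8, smul_add, smul_smul, smul_smul]
          have h10 : -(ℓ w₀ / s) * s = - ℓ w₀ := by field_simp
          have h11 : -(ℓ w₀ / s) * (1 - s) = -((1 - s) / s) * ℓ w₀ := by field_simp
          rw [h10, h11, neg_smul (ℓ w₀), sub_eq_add_neg]
        rw [h9]
        simp only [map_smul, ContinuousLinearMap.smul_apply, smul_eq_mul]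
        rw [h4]; ring)
      0 (by simp) i₀ (by simpa using hi₀) 1 (by simp)
    simpa using hsel2
  have hall : ∀ w, φ w = ψ i₀ w := by
    have hcl : IsClosed {w | φ w = ψ i₀ w} := isClosed_eq hφ (hψ i₀)
    have hd : Dense {w | φ w = ψ i₀ w} := hRd.mono fun w hw => hmain w hw
    intro w
    have := hcl.closure_eq ▸ hd w
    exact this
  refine ⟨i₀.1, fun w => ?_⟩
  -- (e)
  have h1 : ∀ i, ∀ᶠ τ in 𝓝[>] (0:ℝ), f (z + τ • w) = (q i).eval (z + τ • w) →
      f (z + τ • w) = (q i₀.1).eval (z + τ • w) := by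
    intro i
    by_cases hfr : ∃ᶠ τ in 𝓝[>] (0:ℝ), f (z + τ • w) = (q i).eval (z + τ • w)
    · obtain ⟨ha, hb', hc'⟩ := hb w i hfr
      have h2 := hall w
      have h3 : D w = (q i₀.1).D z w := congrArg Prod.fst h2
      have h4 : S w = (q i₀.1).B w w := congrArg Prod.snd h2
      refine Filter.Eventually.of_forall fun τ hτ => ?_
      rw [hτ, (q i).eval_add_smul, (q i₀.1).eval_add_smul, ← ha, ← hb', ← hc', ← h3, ← h4, ← i₀.2]
    · rw [not_frequently] at hfr
      filter_upwards [hfr] with τ hτ h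
      exact absurd h hτ
  filter_upwards [Filter.eventually_all.2 h1] with τ hτ
  obtain ⟨i, hi⟩ := hsel (z + τ • w)
  exact hτ i hi

end local_analysis

end Pool.Agent.Helper39.PLQ
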