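import Mathlib
import Pool.Agent.Helper39.PLQMain

set_option autoImplicit false

open Filter Topology Set

namespace Pool.Agent.Helper39.PLQ

variable {E : Type*} [NormedAddCommGroup E] [NormedSpace ℝ E]

lemma analyticAt_line (q : Quad E) (x w : E) (t : ℝ) :
    AnalyticAt ℝ (fun s : ℝ => q.eval (x + s • w)) t := by
  have h : (fun s : ℝ => q.eval (x + s • w)) =
      fun s => q.eval x + s * q.D x w + s ^ 2 * q.B w w := by
    funext s
    exact q.eval_add_smul x w s
  rw [h]
  fun_prop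

/-- On an open convex set avoiding the zeros of the reducible differences, `f` is a single
quadratic. -/
lemma cell {ι : Type*} [Finite ι] (q : ι → Quad E) (f : E → ℝ) (hf : Continuous f)
    (hsel : ∀ x, ∃ i, f x = (q i).eval x)
    (hinj : ∀ i j, i ≠ j → ∃ x, (q i).eval x ≠ (q j).eval x)
    (C : Set E) (hCo : IsOpen C) (hCc : Convex ℝ C) (hCn : C.Nonempty)
    (htw : ∀ x ∈ C, TwiceSemi f x)
    (hC : ∀ i j, i ≠ j → Reducible ((q i).sub (q j)) → ∀ x ∈ C, ((q i).sub (q j)).eval x ≠ 0) :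
    ∃ i, ∀ x ∈ C, f x = (q i).eval x := by
  classical
  haveI := Fintype.ofFinite ι
  let P : Finset (ι × ι) := Finset.univ.filter (fun p => p.1 ≠ p.2)
  have hPd := dense_ne_finite P (fun p => (q p.1).sub (q p.2)) (by
    intro p hp
    obtain ⟨x, hx⟩ := hinj p.1 p.2 (Finset.mem_filter.1 hp).2
    exact ⟨x, by rw [Quad.sub_eval]; exact sub_ne_zero.2 hx⟩)
  obtain ⟨x₀, hx₀C, hx₀⟩ := hPd.1.inter_open_nonempty C hCo hCn
  have hx₀' : ∀ i j, i ≠ j → ((q i).sub (q j)).eval x₀ ≠ 0 := fun i j hij =>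
    hx₀ (i, j) (Finset.mem_filter.2 ⟨Finset.mem_univ _, hij⟩)
  obtain ⟨i₀, hi₀⟩ := germ q f hf hsel x₀ (htw x₀ hx₀C)
    (fun i j hij h => absurd h (hx₀' i j hij)) (fun i j hij h => absurd h (hx₀' i j hij))
  refine ⟨i₀, ?_⟩
  let P' : Finset (ι × ι) := Finset.univ.filter
    (fun p => p.1 ≠ p.2 ∧ ¬ Reducible ((q p.1).sub (q p.2)))
  have hP'd := dense_ne_finite P' (fun p => disc ((q p.1).sub (q p.2)) x₀) (by
    intro p hp
    obtain ⟨h1, h2⟩ := (Finset.mem_filter.1 hp).2
    exact disc_ne _ _ (hx₀' _ _ h1) h2)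
  have hgen : ∀ y ∈ C, (∀ p ∈ P', (disc ((q p.1).sub (q p.2)) x₀).eval y ≠ 0) →
      f y = (q i₀).eval y := by
    intro y hyC hy
    set w := y - x₀ with hw
    have hsegC : ∀ t ∈ Set.Icc (0:ℝ) 1, x₀ + t • w ∈ C := by
      intro t ht
      have := hCc.add_smul_sub_mem hx₀C hyC ht
      exact this
    have hgerm : ∀ t ∈ Set.Icc (0:ℝ) 1, ∃ i, ∀ w', ∀ᶠ τ in 𝓝[>] (0:ℝ),
        f ((x₀ + t • w) + τ • w') = (q i).eval ((x₀ + t • w) + τ • w') := by
      intro t ht
      have hirr : ∀ i j, i ≠ j → ((q i).sub (q j)).eval (x₀ + t • w) = 0 →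
          ¬ Reducible ((q i).sub (q j)) := fun i j hij h0 hred =>
        hC i j hij hred _ (hsegC t ht) h0
      have hDne : ∀ i j, i ≠ j → ((q i).sub (q j)).eval (x₀ + t • w) = 0 →
          ((q i).sub (q j)).D (x₀ + t • w) ≠ 0 := by
        intro i j hij h0
        have hmem : (i, j) ∈ P' :=
          Finset.mem_filter.2 ⟨Finset.mem_univ _, hij, hirr i j hij h0⟩
        exact D_ne_of_disc _ x₀ y (hy _ hmem) t h0
      refine germ q f hf hsel _ (htw _ (hsegC t ht)) ?_ hDne
      intro i j hij h0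
      by_contra hcon
      push Not at hcon
      exact hirr i j hij h0 (reducible_of_vanish _ _ h0 (hDne i j hij h0) hcon)
    have han : AnalyticOnNhd ℝ (fun s : ℝ => f (x₀ + s • w)) (Set.Icc 0 1) := by
      intro t ht
      obtain ⟨i, hi⟩ := hgerm t ht
      have h1 := hi w
      have h2 := hi (-w)
      have h0 : f (x₀ + t • w) = (q i).eval (x₀ + t • w) := by
        have h3 : Tendsto (fun τ : ℝ => (x₀ + t • w) + τ • w) (𝓝[>] (0:ℝ)) (𝓝 (x₀ + t • w)) := by
          have : Tendsto (fun τ : ℝ => (x₀ + t • w) + τ • w) (𝓝 (0:ℝ))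
              (𝓝 ((x₀ + t • w) + (0:ℝ) • w)) := Continuous.tendsto (by fun_prop) _
          rw [zero_smul, add_zero] at this
          exact this.mono_left nhdsWithin_le_nhds
        exact tendsto_nhds_unique_of_eventuallyEq ((hf.tendsto _).comp h3)
          (((q i).continuous_eval.tendsto _).comp h3) h1
      refine (analyticAt_line (q i) x₀ w t).congr ?_
      rw [eventually_nhdsWithin_iff, Metric.eventually_nhds_iff] at h1 h2
      obtain ⟨ε₁, hε₁, h1⟩ := h1
      obtain ⟨ε₂, hε₂, h2⟩ := h2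
      refine Metric.eventually_nhds_iff.2 ⟨min ε₁ ε₂, lt_min hε₁ hε₂, ?_⟩
      intro s hs
      rw [Real.dist_eq] at hs
      rcases lt_trichotomy s t with h | h | h
      · have h4 := h2 (y := t - s) (by
          rw [Real.dist_eq, sub_zero, abs_sub_comm]; exact lt_of_lt_of_le hs (min_le_right _ _))
          (by show (0:ℝ) < t - s; linarith)
        have h5 : x₀ + t • w + (t - s) • -w = x₀ + s • w := by
          rw [smul_neg, sub_smul]; abel
        rw [h5] at h4
        exact h4.symm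
      · rw [h]; exact h0.symm
      · have h4 := h1 (y := s - t) (by
          rw [Real.dist_eq, sub_zero]; exact lt_of_lt_of_le hs (min_le_left _ _))
          (by show (0:ℝ) < s - t; linarith)
        have h5 : x₀ + t • w + (s - t) • w = x₀ + s • w := by
          rw [sub_smul]; abel
        rw [h5] at h4
        exact h4.symm
    have han2 : AnalyticOnNhd ℝ (fun s : ℝ => (q i₀).eval (x₀ + s • w)) (Set.Icc 0 1) :=
      fun t _ => analyticAt_line (q i₀) x₀ w t
    have hfreq : ∃ᶠ s in 𝓝[≠] (0:ℝ), f (x₀ + s • w) = (q i₀).eval (x₀ + s • w) := by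
      have h1 := (hi₀ w).frequently
      exact h1.filter_mono (nhdsWithin_mono _ (fun s (hs : (0:ℝ) < s) => hs.ne'))
    have := han.eqOn_of_preconnected_of_frequently_eq han2 isPreconnected_Icc
      (show (0:ℝ) ∈ Set.Icc (0:ℝ) 1 by simp) hfreq (show (1:ℝ) ∈ Set.Icc (0:ℝ) 1 by simp)
    simpa [hw] using this
  intro y hyC
  by_contra hne
  have hopen : IsOpen (C ∩ {y | f y ≠ (q i₀).eval y}) :=
    hCo.inter (isOpen_ne_fun hf (q i₀).continuous_eval)
  obtain ⟨y', ⟨hy'C, hy'ne⟩, hy'⟩ := hP'd.1.inter_open_nonempty _ hopen ⟨y, hyC, hne⟩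
  exact hy'ne (hgen y' hy'C hy')

end Pool.Agent.Helper39.PLQ
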