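import Mathlib
import Pool.Agent.Helper39.PLQCell

set_option autoImplicit false

open Filter Topology Set

namespace Pool.Agent.Helper39.PLQ

variable {E : Type*} [NormedAddCommGroup E] [NormedSpace ℝ E]

/-- sign attached to a Boolean -/
def sg (b : Bool) : ℝ := if b then 1 else -1

/-- closed cells -/
def closedCell {κ : Type*} (A : κ → (E →L[ℝ] ℝ) × ℝ) (σ : κ → Bool) : Set E :=
  {x | ∀ k, 0 ≤ sg (σ k) * affEval (A k) x}

/-- open cells -/
def openCell {κ : Type*} (A : κ → (E →L[ℝ] ℝ) × ℝ) (σ : κ → Bool) : Set E :=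
  {x | ∀ k, 0 < sg (σ k) * affEval (A k) x}

lemma continuous_affEval (A : (E →L[ℝ] ℝ) × ℝ) : Continuous (affEval A) := by
  unfold affEval
  fun_prop

lemma affEval_combo (A : (E →L[ℝ] ℝ) × ℝ) (x y : E) (a b : ℝ) (h : a + b = 1) :
    affEval A (a • x + b • y) = a * affEval A x + b * affEval A y := by
  simp only [affEval, map_add, map_smul, smul_eq_mul]
  linear_combination (-A.2) * h

lemma isOpen_openCell {κ : Type*} [Finite κ] (A : κ → (E →L[ℝ] ℝ) × ℝ) (σ : κ → Bool) :
    IsOpen (openCell A σ) := by
  have : openCell A σ = ⋂ k, {x | 0 < sg (σ k) * affEval (A k) x} := by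
    ext x; simp [openCell]
  rw [this]
  exact isOpen_iInter_of_finite fun k =>
    isOpen_lt continuous_const (continuous_const.mul (continuous_affEval _))

lemma isClosed_closedCell {κ : Type*} (A : κ → (E →L[ℝ] ℝ) × ℝ) (σ : κ → Bool) :
    IsClosed (closedCell A σ) := by
  have : closedCell A σ = ⋂ k, {x | 0 ≤ sg (σ k) * affEval (A k) x} := by
    ext x; simp [closedCell]
  rw [this]
  exact isClosed_iInter fun k =>
    isClosed_le continuous_const (continuous_const.mul (continuous_affEval _))

lemma convex_openCell {κ : Type*} (A : κ → (E →L[ℝ] ℝ) × ℝ) (σ : κ → Bool) :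
    Convex ℝ (openCell A σ) := by
  intro x hx y hy a b ha hb hab k
  rw [affEval_combo _ _ _ _ _ hab]
  have h1 := hx k
  have h2 := hy k
  rcases ha.lt_or_eq with h | h
  · have h3 := mul_pos h h1
    have h4 := mul_nonneg hb h2.le
    nlinarith
  · have hb1 : b = 1 := by linarith
    rw [← h, hb1]
    linarith

/-- From the open cell to the closed cell. -/
lemma closedCell_subset_closure {κ : Type*} (A : κ → (E →L[ℝ] ℝ) × ℝ) (σ : κ → Bool)
    (hne : (openCell A σ).Nonempty) : closedCell A σ ⊆ closure (openCell A σ) := by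
  intro x hx
  obtain ⟨x₀, hx₀⟩ := hne
  have hlim : Tendsto (fun t : ℝ => (1 - t) • x + t • x₀) (𝓝[>] 0) (𝓝 x) := by
    have : Tendsto (fun t : ℝ => (1 - t) • x + t • x₀) (𝓝 0) (𝓝 ((1 - (0:ℝ)) • x + (0:ℝ) • x₀)) :=
      Continuous.tendsto (by fun_prop) _
    rw [sub_zero, one_smul, zero_smul, add_zero] at this
    exact this.mono_left nhdsWithin_le_nhds
  refine mem_closure_of_tendsto hlim ?_
  have h1 : ∀ᶠ t in 𝓝[>] (0:ℝ), t ∈ Set.Ioo (0:ℝ) 1 := Ioo_mem_nhdsGT one_pos
  filter_upwards [h1] with t ht k
  rw [affEval_combo _ _ _ _ _ (by ring)]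
  have h2 := mul_nonneg (sub_nonneg.2 ht.2.le) (hx k)
  have h3 := mul_pos ht.1 (hx₀ k)
  nlinarith

/-- Global statement: a continuous selection of finitely many quadratics which is twice
semidifferentiable everywhere is polyhedrally piecewise quadratic. -/
theorem global {ι : Type} [Finite ι] (q : ι → Quad E) (f : E → ℝ) (hf : Continuous f)
    (hsel : ∀ x, ∃ i, f x = (q i).eval x)
    (hinj : ∀ i j, i ≠ j → ∃ x, (q i).eval x ≠ (q j).eval x)
    (htw : ∀ x, TwiceSemi f x) :
    ∃ (κ : Type) (_ : Finite κ) (A : κ → (E →L[ℝ] ℝ) × ℝ), (∀ k, (A k).1 ≠ 0) ∧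
      (∀ x, ∃ σ : κ → Bool, (openCell A σ).Nonempty ∧ x ∈ closedCell A σ) ∧
      ∀ σ : κ → Bool, (openCell A σ).Nonempty → ∃ i, ∀ x ∈ closedCell A σ, f x = (q i).eval x := by
  classical
  let κ₀ := {p : ι × ι // p.1 ≠ p.2 ∧ Reducible ((q p.1).sub (q p.2))} × Bool
  have hfac : ∀ p : {p : ι × ι // p.1 ≠ p.2 ∧ Reducible ((q p.1).sub (q p.2))},
      ∃ A₁ A₂ : (E →L[ℝ] ℝ) × ℝ, ∀ x, ((q p.1.1).sub (q p.1.2)).eval x =
        affEval A₁ x * affEval A₂ x := fun p => p.2.2
  choose A₁ A₂ hA using hfac
  let A₀ : κ₀ → (E →L[ℝ] ℝ) × ℝ := fun k => if k.2 then A₁ k.1 else A₂ k.1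
  let κ := {k : κ₀ // (A₀ k).1 ≠ 0}
  let A : κ → (E →L[ℝ] ℝ) × ℝ := fun k => A₀ k.1
  haveI : Finite κ₀ := inferInstanceAs (Finite (_ × Bool))
  haveI : Finite κ := Subtype.finite
  haveI := Fintype.ofFinite κ
  refine ⟨κ, inferInstance, A, fun k => k.2, ?_, ?_⟩
  · -- covering
    have hclosed : IsClosed (⋃ σ ∈ {σ : κ → Bool | (openCell A σ).Nonempty}, closedCell A σ) :=
      Set.Finite.isClosed_biUnion (Set.toFinite _) (fun σ _ => isClosed_closedCell A σ)
    have hdense := (dense_ne_finite (Finset.univ : Finset κ)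
      (fun k => (⟨0, (A k).1, (A k).2⟩ : Quad E)) (by
        intro k _
        have h1 : (A k).1 ≠ 0 := k.2
        by_contra hcon
        push Not at hcon
        apply h1
        have h0 : (A k).2 = 0 := by simpa [Quad.eval] using hcon 0
        ext e
        simpa [Quad.eval, h0] using hcon e)).1
    have hsub : {x | ∀ k ∈ (Finset.univ : Finset κ),
        (⟨0, (A k).1, (A k).2⟩ : Quad E).eval x ≠ 0} ⊆
        ⋃ σ ∈ {σ : κ → Bool | (openCell A σ).Nonempty}, closedCell A σ := by
      intro x hx
      have hx' : ∀ k, affEval (A k) x ≠ 0 := by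
        intro k
        have := hx k (Finset.mem_univ _)
        simpa [Quad.eval, affEval] using this
      let σ : κ → Bool := fun k => decide (0 < affEval (A k) x)
      have hmem : x ∈ openCell A σ := by
        intro k
        simp only [σ, sg]
        by_cases h : 0 < affEval (A k) x
        · simpa [h] using h
        · have : affEval (A k) x < 0 := lt_of_le_of_ne (not_lt.1 h) (hx' k)
          simpa [h] using this
      simp only [Set.mem_iUnion, exists_prop]
      exact ⟨σ, ⟨x, hmem⟩, fun k => (hmem k).le⟩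
    intro x
    have hx := hclosed.closure_subset_iff.2 hsub (hdense x)
    simp only [Set.mem_iUnion, exists_prop] at hx
    exact hx
  · -- single quadratic
    intro σ hσ
    obtain ⟨i, hi⟩ := cell q f hf hsel hinj (openCell A σ) (isOpen_openCell A σ)
      (convex_openCell A σ) hσ (fun x _ => htw x) (by
        intro i j hij hred x hx h0
        let p : {p : ι × ι // p.1 ≠ p.2 ∧ Reducible ((q p.1).sub (q p.2))} := ⟨(i, j), hij, hred⟩
        have hne : ∃ y, ((q i).sub (q j)).eval y ≠ 0 := by
          obtain ⟨y, hy⟩ := hinj i j hij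
          exact ⟨y, by rw [Quad.sub_eval]; exact sub_ne_zero.2 hy⟩
        have key : ∀ b : Bool, affEval (A₀ (p, b)) x ≠ 0 := by
          intro b hb
          by_cases h1 : (A₀ (p, b)).1 = 0
          · -- constant factor
            have h2 : ∀ y, affEval (A₀ (p, b)) y = 0 := by
              intro y
              simp only [affEval, h1, ContinuousLinearMap.zero_apply, zero_add] at hb ⊢
              exact hb
            obtain ⟨y, hy⟩ := hne
            apply hy
            have h3 := hA p y
            have h4 := h2 y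
            simp only [p] at h3
            rw [h3]
            cases b
            · simp only [A₀, Bool.false_eq_true, if_false] at h4
              rw [h4, mul_zero]
            · simp only [A₀, if_true] at h4
              rw [h4, zero_mul]
          · have h2 := hx ⟨(p, b), h1⟩
            have h3 : A ⟨(p, b), h1⟩ = A₀ (p, b) := rfl
            rw [h3, hb, mul_zero] at h2
            exact lt_irrefl _ h2
        have h3 := hA p x
        have h4 : ((q p.1.1).sub (q p.1.2)).eval x = 0 := h0
        rw [h4] at h3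
        rcases mul_eq_zero.1 h3.symm with h | h
        · exact key true (by simpa [A₀] using h)
        · exact key false (by simpa [A₀] using h))
    refine ⟨i, ?_⟩
    have hcl : IsClosed {x | f x = (q i).eval x} := isClosed_eq hf (q i).continuous_eval
    intro x hx
    exact hcl.closure_subset_iff.2 (fun y hy => hi y hy) (closedCell_subset_closure A σ hσ hx)

end Pool.Agent.Helper39.PLQ
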