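import Pool.Agent.Helper39.Montel
import Pool.Agent.Helper39.Hurwitz
import Pool.Agent.Helper39.LogBranch

/-!
The Riemann mapping theorem for bounded simply connected open sets containing the origin.
-/

open Set Metric Filter Topology
open scoped ComplexConjugate

namespace Pool.Agent.Helper39

/-- The disk automorphism `w ↦ (w - a) / (1 - conj a * w)`. -/
noncomputable def mob (a w : ℂ) : ℂ := (w - a) / (1 - conj a * w)

theorem one_sub_conj_mul_ne_zero {a w : ℂ} (ha : ‖a‖ < 1) (hw : ‖w‖ < 1) :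
    1 - conj a * w ≠ 0 := by
  intro h
  have h1 : conj a * w = 1 := (sub_eq_zero.1 h).symm
  have h2 : ‖conj a * w‖ < 1 := by
    rw [norm_mul, RCLike.norm_conj]
    nlinarith [norm_nonneg a, norm_nonneg w]
  rw [h1, norm_one] at h2
  exact lt_irrefl _ h2

theorem mob_norm_lt {a w : ℂ} (ha : ‖a‖ < 1) (hw : ‖w‖ < 1) : ‖mob a w‖ < 1 := by
  have hne := one_sub_conj_mul_ne_zero ha hw
  unfold mob
  rw [norm_div, div_lt_one (norm_pos_iff.2 hne)]
  have key : ‖w - a‖ ^ 2 < ‖1 - conj a * w‖ ^ 2 := by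
    have h1 : ‖1 - conj a * w‖ ^ 2 - ‖w - a‖ ^ 2 = (1 - ‖a‖ ^ 2) * (1 - ‖w‖ ^ 2) := by
      rw [← Complex.normSq_eq_norm_sq, ← Complex.normSq_eq_norm_sq, ← Complex.normSq_eq_norm_sq,
        ← Complex.normSq_eq_norm_sq]
      simp only [Complex.normSq_apply, Complex.sub_re, Complex.sub_im, Complex.mul_re,
        Complex.mul_im, Complex.conj_re, Complex.conj_im, Complex.one_re, Complex.one_im]
      ring
    have h2 : 0 < (1 - ‖a‖ ^ 2) * (1 - ‖w‖ ^ 2) := by
      apply mul_pos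
      · nlinarith [norm_nonneg a]
      · nlinarith [norm_nonneg w]
    linarith
  exact lt_of_pow_lt_pow_left₀ 2 (norm_nonneg _) key

theorem mob_mob {a w : ℂ} (ha : ‖a‖ < 1) (hw : ‖w‖ < 1) : mob (-a) (mob a w) = w := by
  have hne := one_sub_conj_mul_ne_zero ha hw
  have hne2 : (1:ℂ) - conj a * a ≠ 0 := one_sub_conj_mul_ne_zero ha ha
  have hne3 : 1 - conj (-a) * mob a w ≠ 0 :=
    one_sub_conj_mul_ne_zero (by rwa [norm_neg]) (mob_norm_lt ha hw)
  have e1 : mob a w * (1 - conj a * w) = w - a := by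
    unfold mob; exact div_mul_cancel₀ _ hne
  have : mob (-a) (mob a w) = (mob a w - -a) / (1 - conj (-a) * mob a w) := rfl
  rw [this, div_eq_iff hne3]
  have hc : conj (-a) = - conj a := map_neg _ _
  rw [hc]
  have : mob a w * (1 - conj a * w) = w - a := e1
  linear_combination this

theorem mob_injOn {a : ℂ} (ha : ‖a‖ < 1) : InjOn (mob a) (ball 0 1) := by
  intro x hx y hy hxy
  rw [mem_ball_zero_iff] at hx hy
  rw [← mob_mob ha hx, ← mob_mob ha hy, hxy]

theorem hasDerivAt_mob {a w : ℂ} (ha : ‖a‖ < 1) (hw : ‖w‖ < 1) :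
    HasDerivAt (mob a) ((1 - conj a * a) / (1 - conj a * w) ^ 2) w := by
  have hne := one_sub_conj_mul_ne_zero ha hw
  have h1 : HasDerivAt (fun w => w - a) 1 w := (hasDerivAt_id w).sub_const a
  have h2 : HasDerivAt (fun w => 1 - conj a * w) (-(conj a)) w := by
    simpa using ((hasDerivAt_id w).const_mul (conj a)).const_sub 1
  have h3 : HasDerivAt (mob a) _ w := h1.fun_div h2 hne
  exact h3.congr_deriv (by ring)

theorem mob_eq_zero_iff {a w : ℂ} (ha : ‖a‖ < 1) (hw : ‖w‖ < 1) : mob a w = 0 ↔ w = a := by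
  have hne := one_sub_conj_mul_ne_zero ha hw
  unfold mob
  rw [div_eq_zero_iff, sub_eq_zero]
  simp [hne]

theorem mob_differentiableOn {a : ℂ} (ha : ‖a‖ < 1) : DifferentiableOn ℂ (mob a) (ball 0 1) := by
  intro w hw
  rw [mem_ball_zero_iff] at hw
  exact (hasDerivAt_mob ha hw).differentiableAt.differentiableWithinAt

/-- The Koebe family for the Riemann mapping theorem. -/
structure KFam (Ω : Set ℂ) (f : ℂ → ℂ) : Prop where
  diff : DifferentiableOn ℂ f Ω
  inj : InjOn f Ω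
  maps : MapsTo f Ω (ball 0 1)
  zero : f 0 = 0

/-- If a map in the Koebe family misses a point of the disk, then its derivative at `0` is not
extremal. -/
theorem KFam.improve {Ω : Set ℂ} (hΩo : IsOpen Ω) (hΩs : IsSimplyConnected Ω) (h0 : (0:ℂ) ∈ Ω)
    {f : ℂ → ℂ} (hf : KFam Ω f) {a : ℂ} (ha : ‖a‖ < 1) (hmiss : ∀ z ∈ Ω, f z ≠ a)
    (hder : deriv f 0 ≠ 0) : ∃ h, KFam Ω h ∧ ‖deriv f 0‖ < ‖deriv h 0‖ := by
  have hfb : ∀ z ∈ Ω, ‖f z‖ < 1 := fun z hz => by simpa using hf.maps hz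
  -- the function ψ_a ∘ f
  have hd1 : DifferentiableOn ℂ (fun z => mob a (f z)) Ω :=
    (mob_differentiableOn ha).comp hf.diff hf.maps
  obtain ⟨s, hsd, hs⟩ := exists_differentiableOn_sqrt hΩs hΩo hd1
    (fun z hz h => hmiss z hz ((mob_eq_zero_iff ha (hfb z hz)).1 h))
  have hsb : ∀ z ∈ Ω, ‖s z‖ < 1 := by
    intro z hz
    have h1 : ‖s z‖ ^ 2 < 1 := by
      rw [← norm_pow, hs z hz]; exact mob_norm_lt ha (hfb z hz)
    nlinarith [norm_nonneg (s z)]
  set b := s 0 with hb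
  have hbn : ‖b‖ < 1 := hsb 0 h0
  have hb2 : b ^ 2 = -a := by
    rw [hb, hs 0 h0, hf.zero]; simp [mob]
  have hane : a ≠ 0 := fun h => hmiss 0 h0 (by rw [hf.zero, h])
  have hbne : b ≠ 0 := by
    intro h; rw [h] at hb2; apply hane; simpa using hb2.symm
  refine ⟨fun z => mob b (s z), ⟨?_, ?_, ?_, ?_⟩, ?_⟩
  · exact (mob_differentiableOn hbn).comp hsd (fun z hz => by simpa using hsb z hz)
  · intro x hx y hy hxy
    have h1 : s x = s y := mob_injOn hbn (by simpa using hsb x hx) (by simpa using hsb y hy) hxy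
    have h2 : mob a (f x) = mob a (f y) := by rw [← hs x hx, ← hs y hy, h1]
    have h3 := mob_injOn ha (hf.maps hx) (hf.maps hy) h2
    exact hf.inj hx hy h3
  · intro z hz
    simpa using mob_norm_lt hbn (hsb z hz)
  · simp [mob, hb]
  · -- derivative computation
    have hfd : HasDerivAt f (deriv f 0) 0 := (hf.diff.differentiableAt (hΩo.mem_nhds h0)).hasDerivAt
    have hsd0 : HasDerivAt s (deriv s 0) 0 := (hsd.differentiableAt (hΩo.mem_nhds h0)).hasDerivAt
    have hm : HasDerivAt (mob a) (1 - conj a * a) (f 0) := by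
      have := hasDerivAt_mob ha (hfb 0 h0)
      rw [hf.zero] at this ⊢
      simpa using this
    have hcomp : HasDerivAt (fun z => mob a (f z)) ((1 - conj a * a) * deriv f 0) 0 := hm.comp 0 hfd
    have hsq : HasDerivAt (fun z => s z ^ 2) (2 * s 0 * deriv s 0) 0 := by
      simpa using hsd0.fun_pow 2
    have heq : (fun z => mob a (f z)) =ᶠ[𝓝 0] (fun z => s z ^ 2) := by
      filter_upwards [hΩo.mem_nhds h0] with z hz using (hs z hz).symm
    have huniq := (hcomp.congr_of_eventuallyEq heq.symm).unique hsq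
    rw [← hb] at huniq
    have hmb : HasDerivAt (mob b) ((1 - conj b * b) / (1 - conj b * b) ^ 2) (s 0) :=
      hasDerivAt_mob hbn hbn
    have hh : HasDerivAt (fun z => mob b (s z))
        ((1 - conj b * b) / (1 - conj b * b) ^ 2 * deriv s 0) 0 := hmb.comp 0 hsd0
    rw [hh.deriv]
    have hcb : conj b * b = ((‖b‖ ^ 2 : ℝ) : ℂ) := by
      rw [mul_comm, Complex.mul_conj, Complex.normSq_eq_norm_sq]
    have hca : conj a * a = ((‖a‖ ^ 2 : ℝ) : ℂ) := by
      rw [mul_comm, Complex.mul_conj, Complex.normSq_eq_norm_sq]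
    have hab : ‖a‖ = ‖b‖ ^ 2 := by rw [← norm_pow, hb2, norm_neg]
    set t := ‖b‖ with ht
    have ht0 : 0 < t := norm_pos_iff.2 hbne
    have hs0 : 0 < ‖deriv f 0‖ := norm_pos_iff.2 hder
    have h1t : 0 < 1 - t ^ 2 := by nlinarith
    have n1 : ‖(1 - conj b * b : ℂ)‖ = 1 - t ^ 2 := by
      rw [hcb, ← Complex.ofReal_one, ← Complex.ofReal_sub, Complex.norm_real, Real.norm_eq_abs,
        abs_of_pos h1t]
    have n2 : ‖(1 - conj a * a : ℂ)‖ = 1 - t ^ 4 := by
      have : 0 < 1 - t ^ 4 := by nlinarith [mul_pos ht0 ht0]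
      rw [hca, ← Complex.ofReal_one, ← Complex.ofReal_sub, Complex.norm_real, Real.norm_eq_abs, hab,
        abs_of_pos (by rw [← pow_mul]; exact this)]
      ring
    have n3 : (1 - t ^ 4) * ‖deriv f 0‖ = 2 * t * ‖deriv s 0‖ := by
      have := congrArg norm huniq
      rw [norm_mul, norm_mul, norm_mul, n2] at this
      simpa using this
    rw [norm_mul, norm_div, norm_pow, n1]
    have n4 : ‖deriv s 0‖ = (1 - t ^ 4) * ‖deriv f 0‖ / (2 * t) := by
      rw [n3]; field_simp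
    rw [n4]
    have n5 : (1 - t ^ 2) / (1 - t ^ 2) ^ 2 * ((1 - t ^ 4) * ‖deriv f 0‖ / (2 * t))
        = ‖deriv f 0‖ * ((1 + t ^ 2) / (2 * t)) := by
      field_simp
      ring
    rw [n5]
    have n6 : 1 < (1 + t ^ 2) / (2 * t) := by
      rw [one_lt_div (by positivity)]
      nlinarith [sq_nonneg (1 - t)]
    nlinarith

/-- Existence of an extremal map in the Koebe family. -/
theorem exists_extremal {Ω : Set ℂ} (hΩo : IsOpen Ω) (hΩc : IsPreconnected Ω) (h0 : (0:ℂ) ∈ Ω)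
    (hΩb : Bornology.IsBounded Ω) :
    ∃ g, KFam Ω g ∧ deriv g 0 ≠ 0 ∧ ∀ h, KFam Ω h → ‖deriv h 0‖ ≤ ‖deriv g 0‖ := by
  classical
  obtain ⟨r, hr, hrΩ⟩ := Metric.isOpen_iff.1 hΩo 0 h0
  obtain ⟨R, hR, hRΩ⟩ := hΩb.subset_ball_lt 0 0
  set S : Set ℝ := {t | ∃ h, KFam Ω h ∧ t = ‖deriv h 0‖} with hS
  have hbound : ∀ h, KFam Ω h → ‖deriv h 0‖ ≤ 1 / r := by
    intro h hh
    refine Complex.norm_deriv_le_div_of_mapsTo_ball (hh.diff.mono hrΩ) ?_ hr
    rw [hh.zero]
    intro z hz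
    exact ball_subset_closedBall (hh.maps (hrΩ hz))
  have hbdd : BddAbove S := ⟨1 / r, by rintro t ⟨h, hh, rfl⟩; exact hbound h hh⟩
  have hlin : KFam Ω (fun z => z / R) := by
    refine ⟨(differentiable_id.div_const _).differentiableOn, ?_, ?_, by simp⟩
    · intro x _ y _ hxy
      have hR' : (R : ℂ) ≠ 0 := by exact_mod_cast hR.ne'
      exact (div_left_inj' hR').1 hxy
    · intro z hz
      have := hRΩ hz
      rw [mem_ball_zero_iff] at this ⊢
      rw [norm_div, Complex.norm_real, Real.norm_of_nonneg hR.le]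
      exact (div_lt_one hR).2 this
  have hlinS : 1 / R ∈ S := by
    refine ⟨_, hlin, ?_⟩
    have : HasDerivAt (fun z : ℂ => z / R) (1 / R) 0 := (hasDerivAt_id (0:ℂ)).div_const _
    rw [this.deriv, norm_div, norm_one, Complex.norm_real, Real.norm_of_nonneg hR.le]
  have hApos : 0 < sSup S := lt_of_lt_of_le (by positivity) (le_csSup hbdd hlinS)
  obtain ⟨u, -, hu, huS⟩ := exists_seq_tendsto_sSup ⟨_, hlinS⟩ hbdd
  choose f hf hfu using huS
  set F : ℕ → ℂ → ℂ := fun n => Ω.indicator (f n) with hF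
  have hFeq : ∀ n, ∀ z ∈ Ω, F n z = f n z := fun n z hz => indicator_of_mem hz _
  have hFd : ∀ n, DifferentiableOn ℂ (F n) Ω := fun n => (hf n).diff.congr (hFeq n)
  have hFb : ∀ n z, ‖F n z‖ ≤ 1 := by
    intro n z
    by_cases hz : z ∈ Ω
    · rw [hFeq n z hz]
      have := (hf n).maps hz
      rw [mem_ball_zero_iff] at this
      exact this.le
    · rw [hF]; simp [hz]
  have hLip : ∀ z₀ ∈ Ω, ∃ r > 0, ∃ L : ℝ, ∀ᶠ n in atTop, ∀ x ∈ ball z₀ r, ∀ y ∈ ball z₀ r,
      ‖F n x - F n y‖ ≤ L * ‖x - y‖ := by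
    intro z₀ hz₀
    obtain ⟨ρ, hρ, hρΩ⟩ := Metric.isOpen_iff.1 hΩo z₀ hz₀
    refine ⟨ρ / 2, by positivity, 2 * 1 / (ρ / 2), Eventually.of_forall fun n => ?_⟩
    have h2 : 2 * (ρ / 2) = ρ := by ring
    refine lipschitz_of_bounded (by positivity) ?_ (fun z _ => hFb n z)
    rw [h2]
    exact (hFd n).mono hρΩ
  obtain ⟨g, k, hk, hlim⟩ := exists_subseq_tendstoLocallyUniformlyOn hΩo hFb hLip
  have hdk : ∀ z ∈ Ω, ∃ r > 0, ∀ᶠ n in atTop, DifferentiableOn ℂ (F (k n)) (ball z r) := by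
    intro z hz
    obtain ⟨ρ, hρ, hρΩ⟩ := Metric.isOpen_iff.1 hΩo z hz
    exact ⟨ρ, hρ, Eventually.of_forall fun n => (hFd _).mono hρΩ⟩
  have hgd : DifferentiableOn ℂ g Ω := differentiableOn_of_tendsto hΩo hlim hdk
  have hFderiv : ∀ n, deriv (F n) 0 = deriv (f n) 0 := by
    intro n
    apply Filter.EventuallyEq.deriv_eq
    filter_upwards [hΩo.mem_nhds h0] with z hz using hFeq n z hz
  have hder : ‖deriv g 0‖ = sSup S := by
    have h1 : Tendsto (fun n => ‖deriv (F (k n)) 0‖) atTop (𝓝 ‖deriv g 0‖) :=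
      (tendsto_deriv_of_tendsto hΩo hlim hdk h0).norm
    have h2 : Tendsto (fun n => ‖deriv (F (k n)) 0‖) atTop (𝓝 (sSup S)) := by
      have := hu.comp hk.tendsto_atTop
      refine this.congr (fun n => ?_)
      simp only [Function.comp_apply]
      rw [hFderiv, ← hfu]
    exact tendsto_nhds_unique h1 h2
  have hg0 : g 0 = 0 := by
    have h1 : Tendsto (fun n => F (k n) 0) atTop (𝓝 (g 0)) := hlim.tendsto_at h0
    have h2 : (fun n => F (k n) 0) = fun _ => (0:ℂ) := by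
      funext n; rw [hFeq _ _ h0, (hf _).zero]
    rw [h2] at h1
    exact (tendsto_nhds_unique h1 tendsto_const_nhds)
  have hgb : ∀ z ∈ Ω, ‖g z‖ ≤ 1 := by
    intro z hz
    exact le_of_tendsto (hlim.tendsto_at hz).norm (Eventually.of_forall fun n => hFb _ z)
  have hderne : deriv g 0 ≠ 0 := by
    intro h; rw [h, norm_zero] at hder; linarith
  have hnc : ¬ ∃ c, ∀ z ∈ Ω, g z = c := by
    rintro ⟨c, hc⟩
    apply hderne
    have : g =ᶠ[𝓝 0] fun _ => c := by
      filter_upwards [hΩo.mem_nhds h0] with z hz using hc z hz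
    rw [this.deriv_eq, deriv_const]
  have hgi : InjOn g Ω := by
    refine injOn_of_tendsto hΩo hΩc hlim (fun _ => Ω) ?_ (fun n => hFd _) ?_ hnc
    · intro z hz
      obtain ⟨ρ, hρ, hρΩ⟩ := Metric.isOpen_iff.1 hΩo z hz
      exact ⟨ρ, hρ, Eventually.of_forall fun n => hρΩ⟩
    · intro n x hx y hy hxy
      rw [hFeq _ _ hx, hFeq _ _ hy] at hxy
      exact (hf _).inj hx hy hxy
  have hgm : MapsTo g Ω (ball 0 1) := by
    intro z hz
    rw [mem_ball_zero_iff]
    by_contra hcon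
    have hz1 : ‖g z‖ = 1 := le_antisymm (hgb z hz) (not_lt.1 hcon)
    have hmax : IsMaxOn (norm ∘ g) Ω z := by
      intro w hw
      simp only [Function.comp_apply, mem_ofPred_eq]
      rw [hz1]; exact hgb w hw
    have := Complex.norm_eqOn_of_isPreconnected_of_isMaxOn hΩc hΩo hgd hz hmax h0
    simp [hg0, hz1] at this
  refine ⟨g, ⟨hgd, hgi, hgm, hg0⟩, hderne, fun h hh => ?_⟩
  rw [hder]
  exact le_csSup hbdd ⟨h, hh, rfl⟩

/-- A Riemann map: a normalized conformal map onto the disk. -/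
structure RMap (Ω : Set ℂ) (φ : ℂ → ℂ) : Prop where
  diff : DifferentiableOn ℂ φ Ω
  bij : BijOn φ Ω (ball 0 1)
  zero : φ 0 = 0
  re_pos : 0 < (deriv φ 0).re
  im_zero : (deriv φ 0).im = 0

/-- **Riemann mapping theorem** (bounded simply connected open sets containing the origin). -/
theorem exists_rmap {Ω : Set ℂ} (hΩo : IsOpen Ω) (hΩs : IsSimplyConnected Ω) (h0 : (0:ℂ) ∈ Ω)
    (hΩb : Bornology.IsBounded Ω) : ∃ φ, RMap Ω φ := by
  have hΩc : IsPreconnected Ω := hΩs.isPathConnected.isConnected.isPreconnected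
  obtain ⟨g, hg, hgne, hext⟩ := exists_extremal hΩo hΩc h0 hΩb
  have hsurj : SurjOn g Ω (ball 0 1) := by
    intro a ha
    by_contra hcon
    obtain ⟨h, hh, hlt⟩ := hg.improve hΩo hΩs h0 (by simpa using ha)
      (fun z hz hza => hcon ⟨z, hz, hza⟩) hgne
    exact absurd (hext h hh) (not_le.2 hlt)
  -- rotate
  set c : ℂ := (‖deriv g 0‖ : ℂ) / deriv g 0 with hc
  have hn : (‖deriv g 0‖ : ℂ) ≠ 0 := by exact_mod_cast (norm_pos_iff.2 hgne).ne'
  have hcn : ‖c‖ = 1 := by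
    rw [hc, norm_div, Complex.norm_real, norm_norm, div_self (norm_pos_iff.2 hgne).ne']
  have hcne : c ≠ 0 := by rw [← norm_pos_iff, hcn]; exact one_pos
  have hd0 : HasDerivAt (fun z => c * g z) (c * deriv g 0) 0 :=
    ((hg.diff.differentiableAt (hΩo.mem_nhds h0)).hasDerivAt).const_mul c
  have hcd : c * deriv g 0 = (‖deriv g 0‖ : ℂ) := by rw [hc]; exact div_mul_cancel₀ _ hgne
  refine ⟨fun z => c * g z, ⟨hg.diff.const_mul c, ⟨?_, ?_, ?_⟩, by simp [hg.zero], ?_, ?_⟩⟩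
  · intro z hz
    have := hg.maps hz
    rw [mem_ball_zero_iff] at this ⊢
    rwa [norm_mul, hcn, one_mul]
  · intro x hx y hy hxy
    exact hg.inj hx hy (mul_left_cancel₀ hcne hxy)
  · intro w hw
    have hw' : c⁻¹ * w ∈ ball (0:ℂ) 1 := by
      rw [mem_ball_zero_iff] at hw ⊢
      rwa [norm_mul, norm_inv, hcn, inv_one, one_mul]
    obtain ⟨z, hz, hzw⟩ := hsurj hw'
    refine ⟨z, hz, ?_⟩
    simp only [hzw]
    rw [← mul_assoc, mul_inv_cancel₀ hcne, one_mul]
  · rw [hd0.deriv, hcd, Complex.ofReal_re]; exact norm_pos_iff.2 hgne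
  · rw [hd0.deriv, hcd, Complex.ofReal_im]

end Pool.Agent.Helper39
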