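import Pool.Agent.Helper39.Gauge
import Pool.Agent.Helper39.BoundaryDist

/-!
The inductive step of the construction.
-/

open Set Metric Filter Topology MeasureTheory
open scoped ENNReal

namespace Pool.Agent.Helper39

/-- An enumeration of rational exponents `≥ 1`. -/
noncomputable def qexp (i : ℕ) : ℝ≥0∞ :=
  ENNReal.ofReal (1 + (i.unpair.1 : ℝ) / ((i.unpair.2 : ℝ) + 1))

theorem qexp_toReal (i : ℕ) : (qexp i).toReal = 1 + (i.unpair.1 : ℝ) / ((i.unpair.2 : ℝ) + 1) := by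
  rw [qexp, ENNReal.toReal_ofReal (by positivity)]

theorem one_le_qexp (i : ℕ) : 1 ≤ qexp i := by
  rw [qexp]
  rw [ENNReal.one_le_ofReal]
  have : 0 ≤ (i.unpair.1 : ℝ) / ((i.unpair.2 : ℝ) + 1) := by positivity
  linarith

theorem qexp_ne_top (i : ℕ) : qexp i ≠ ∞ := ENNReal.ofReal_ne_top

theorem exists_qexp {r ε : ℝ} (hr : 1 ≤ r) (hε : 0 < ε) :
    ∃ i, r ≤ (qexp i).toReal ∧ (qexp i).toReal < r + ε := by
  obtain ⟨b, hb⟩ := exists_nat_one_div_lt hε
  set a := ⌈(r - 1) * (b + 1)⌉₊ with ha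
  have hb1 : (0:ℝ) < (b:ℝ) + 1 := by positivity
  have h1 : (r - 1) * (b + 1) ≤ a := Nat.le_ceil _
  have h2 : (a:ℝ) < (r - 1) * (b + 1) + 1 := Nat.ceil_lt_add_one (by
    apply mul_nonneg (by linarith) hb1.le)
  refine ⟨Nat.pair a b, ?_, ?_⟩
  · rw [qexp_toReal, Nat.unpair_pair]
    simp only
    have : r - 1 ≤ (a:ℝ) / (b + 1) := by rwa [le_div_iff₀ hb1]
    linarith
  · rw [qexp_toReal, Nat.unpair_pair]
    simp only
    have h3 : (a:ℝ) / (b + 1) < (r - 1) + 1 / (b + 1) := by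
      rw [div_lt_iff₀ hb1, add_mul, one_div, inv_mul_cancel₀ hb1.ne']
      exact h2
    linarith

/-- State of the construction. -/
structure St where
  g : ℂ → ℝ
  C : Set ℂ
  W : ℝ
  t : ℝ

structure St.Valid (s : St) : Prop where
  gauge : Gauge s.g
  cone : NullCone s.C
  Wpos : 0 < s.W
  tpos : 0 < s.t

/-- One step of the construction. -/
structure Step (Θ : ℝ → ℝ) (n : ℕ) (s s' : St) : Prop where
  gle : ∀ z, s'.g z ≤ s.g z
  geq : ∀ z ∈ s'.C, s'.g z = s.g z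
  Csub : s.C ⊆ s'.C
  Wle : s'.W ≤ s.W / 2
  tle : s'.t ≤ s.t / 2
  integ : s'.t * |Θ s'.W| ≤ (1 / 2) ^ n
  near : ∀ z ∈ ball (0:ℂ) 1, 1 ≤ s.g z → ∃ a ∈ s'.C, 1 ≤ s.g a ∧ ∃ δ : ℝ, 0 < δ ∧ δ ≤ 1 ∧
    ‖z - a‖ ≤ δ ∧ (n + 1) / Real.log (3 / δ) ≤ s'.t
  area : volume ({z | 1 ≤ s'.g z} ∩ ball (0:ℂ) 1) ≤ ENNReal.ofReal ((1 / 2) ^ n)
  poly : ∃ φ L : ℂ → ℂ, RMap (gdom s.g) φ ∧ LogDer (gdom s.g) φ L ∧ ∀ κ ≤ n, ∃ P : Polynomial ℂ,
    eLpNorm (fun z => φ z ^ κ.unpair.2 * frame (qexp κ.unpair.1) L z - P.eval z)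
      (qexp κ.unpair.1) (volume.restrict (gdom s.g)) ≤ ENNReal.ofReal (1 / (n + 1)) ∧
    eLpNorm (fun z => P.eval z) (qexp κ.unpair.1)
      (ENNReal.ofReal s'.W • volume.restrict (ball (0:ℂ) 1)) ≤ ENNReal.ofReal (1 / (n + 1))

theorem exists_step (Θ : ℝ → ℝ) (n : ℕ) (s : St) (hs : s.Valid) : ∃ s', s'.Valid ∧ Step Θ n s s' := by
  have hst := hs.gauge.starDom
  have hsc : IsSimplyConnected (gdom s.g) :=
    isSimplyConnected_of_starConvex hst.starConvex hst.zero_mem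
  obtain ⟨φ, hφ⟩ := exists_rmap hst.isOpen hsc hst.zero_mem hst.bdd
  obtain ⟨L, hL⟩ := hφ.exists_logDer hst.isOpen hsc hst.zero_mem
  have hn1 : (0:ℝ) < 1 / ((n:ℝ) + 1) := by positivity
  -- polynomials
  have hpoly : ∀ κ : ℕ, ∃ P : Polynomial ℂ,
      eLpNorm (fun z => φ z ^ κ.unpair.2 * frame (qexp κ.unpair.1) L z - P.eval z)
      (qexp κ.unpair.1) (volume.restrict (gdom s.g)) ≤ ENNReal.ofReal (1 / (n + 1)) := by
    intro κ
    set q := qexp κ.unpair.1 with hq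
    have hq1 : 1 ≤ q := one_le_qexp _
    have hqt : q ≠ ∞ := qexp_ne_top _
    have hq0 : q ≠ 0 := by intro h; rw [h] at hq1; simp at hq1
    have hqr : 0 < q.toReal := ENNReal.toReal_pos hq0 hqt
    have hfd : DifferentiableOn ℂ (fun z => φ z ^ κ.unpair.2 * frame q L z) (gdom s.g) :=
      (hφ.diff.pow _).mul (frame_differentiableOn hL.diff q)
    obtain ⟨P, hP⟩ := hst.dense (ω := fun _ => 1) aemeasurable_const (C := 1) (by simp)
      (fun _ _ => le_rfl) (fun _ _ _ _ _ => le_rfl) hq1 hqt hfd (by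
        rw [lintegral_frame hst.isOpen hφ.diff hφ.bij hL.exp_eq hqr (fun _ => 1)
          (fun u => u ^ κ.unpair.2)]
        have : ∫⁻ u in ball (0:ℂ) 1, 1 * ‖u ^ κ.unpair.2‖ₑ ^ q.toReal ≤ ∫⁻ _ in ball (0:ℂ) 1, 1 := by
          refine setLIntegral_mono' measurableSet_ball (fun u hu => ?_)
          rw [one_mul]
          apply ENNReal.rpow_le_one _ hqr.le
          rw [mem_ball_zero_iff] at hu
          rw [enorm_pow]
          apply pow_le_one₀ (by simp)
          rw [← ofReal_norm]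
          exact ENNReal.ofReal_le_one.2 hu.le
        refine (this.trans_lt ?_).ne
        simp only [lintegral_const, one_mul, Measure.restrict_apply MeasurableSet.univ, univ_inter]
        exact measure_ball_lt_top)
      (ε := ENNReal.ofReal (1 / (n + 1))) (by simpa using hn1)
    refine ⟨P, ?_⟩
    have hw : wmeas (gdom s.g) (fun _ => 1) = volume.restrict (gdom s.g) := by
      unfold wmeas
      exact withDensity_one
    rw [hw] at hP
    exact hP.le
  choose P hP using hpoly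
  -- the weight
  have hWev : ∀ κ : ℕ, ∀ᶠ W in 𝓝[>] (0:ℝ), eLpNorm (fun z => (P κ).eval z) (qexp κ.unpair.1)
      (ENNReal.ofReal W • volume.restrict (ball (0:ℂ) 1)) ≤ ENNReal.ofReal (1 / (n + 1)) := by
    intro κ
    set q := qexp κ.unpair.1 with hq
    have hq1 : 1 ≤ q := one_le_qexp _
    have hqt : q ≠ ∞ := qexp_ne_top _
    have hq0 : q ≠ 0 := by intro h; rw [h] at hq1; simp at hq1
    have hqr : 0 < (1 / q).toReal := by
      rw [one_div, ENNReal.toReal_inv]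
      exact inv_pos.2 (ENNReal.toReal_pos hq0 hqt)
    have hfin : eLpNorm (fun z => (P κ).eval z) q (volume.restrict (ball (0:ℂ) 1)) ≠ ∞ := by
      obtain ⟨B, hB⟩ := (isCompact_closedBall (0:ℂ) 1).exists_bound_of_continuousOn
        (P κ).continuous.continuousOn
      have h1 : eLpNorm (fun z => (P κ).eval z) q (volume.restrict (ball (0:ℂ) 1))
          ≤ (volume.restrict (ball (0:ℂ) 1)) univ ^ q.toReal⁻¹ * ENNReal.ofReal B := by
        refine eLpNorm_le_of_ae_bound ?_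
        filter_upwards [ae_restrict_mem measurableSet_ball] with z hz
        exact hB z (ball_subset_closedBall hz)
      refine (h1.trans_lt (ENNReal.mul_lt_top ?_ ENNReal.ofReal_lt_top)).ne
      apply ENNReal.rpow_lt_top_of_nonneg (by positivity)
      rw [Measure.restrict_apply MeasurableSet.univ, univ_inter]
      exact measure_ball_lt_top.ne
    have hlim : Tendsto (fun W : ℝ => (ENNReal.ofReal W) ^ (1 / q).toReal *
        eLpNorm (fun z => (P κ).eval z) q (volume.restrict (ball (0:ℂ) 1))) (𝓝[>] 0) (𝓝 0) := by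
      have h1 : Tendsto (fun W : ℝ => (ENNReal.ofReal W) ^ (1 / q).toReal) (𝓝[>] 0) (𝓝 0) := by
        have h2 : Tendsto (fun W : ℝ => ENNReal.ofReal W) (𝓝[>] 0) (𝓝 0) := by
          have := (ENNReal.continuous_ofReal.tendsto 0).mono_left
            (nhdsWithin_le_nhds (s := Ioi (0:ℝ)))
          simpa using this
        have h3 := ((ENNReal.continuous_rpow_const (y := (1 / q).toReal)).tendsto 0).comp h2
        rw [ENNReal.zero_rpow_of_pos hqr] at h3
        exact h3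
      have h4 := ENNReal.Tendsto.mul_const (b := eLpNorm (fun z => (P κ).eval z) q
        (volume.restrict (ball (0:ℂ) 1))) h1 (Or.inr hfin)
      simpa using h4
    have hpos : (0:ℝ≥0∞) < ENNReal.ofReal (1 / (n + 1)) := by simpa using hn1
    filter_upwards [hlim.eventually (gt_mem_nhds hpos)] with W hW
    rw [eLpNorm_smul_measure_of_ne_top hqt, smul_eq_mul]
    exact hW.le
  have hWev' : ∀ᶠ W in 𝓝[>] (0:ℝ), (∀ κ ∈ Iic n, eLpNorm (fun z => (P κ).eval z)
      (qexp κ.unpair.1) (ENNReal.ofReal W • volume.restrict (ball (0:ℂ) 1))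
        ≤ ENNReal.ofReal (1 / (n + 1))) ∧ W ≤ s.W / 2 ∧ 0 < W := by
    refine ((Filter.eventually_all_finite (Set.finite_Iic n)).2 (fun κ _ => hWev κ)).and
      (Eventually.and ?_ self_mem_nhdsWithin)
    have : ∀ᶠ W in 𝓝 (0:ℝ), W < s.W / 2 := gt_mem_nhds (half_pos hs.Wpos)
    exact (this.filter_mono nhdsWithin_le_nhds).mono fun W hW => hW.le
  obtain ⟨W', hW1, hW2, hW3⟩ := hWev'.exists
  -- the time
  set t' : ℝ := min (s.t / 2) ((1 / 2) ^ n / (|Θ W'| + 1)) with ht'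
  have ht'pos : 0 < t' := lt_min (half_pos hs.tpos) (by positivity)
  have ht'int : t' * |Θ W'| ≤ (1 / 2) ^ n := by
    have h1 : t' ≤ (1 / 2) ^ n / (|Θ W'| + 1) := min_le_right _ _
    calc t' * |Θ W'| ≤ (1 / 2) ^ n / (|Θ W'| + 1) * (|Θ W'| + 1) := by
          gcongr
          linarith
      _ = (1 / 2) ^ n := by field_simp
  -- the distance
  set δ : ℝ := min (1 / 2) (3 * Real.exp (-((n + 1) / t'))) with hδ
  have hδ0 : 0 < δ := lt_min (by norm_num) (by positivity)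
  have hδ1 : δ < 1 := (min_le_left _ _).trans_lt (by norm_num)
  have hδlog : (n + 1) / Real.log (3 / δ) ≤ t' := by
    have h1 : (n + 1) / t' ≤ Real.log (3 / δ) := by
      have h2 : Real.exp ((n + 1) / t') ≤ 3 / δ := by
        rw [le_div_iff₀ hδ0]
        calc Real.exp ((n + 1) / t') * δ
            ≤ Real.exp ((n + 1) / t') * (3 * Real.exp (-((n + 1) / t'))) := by
              gcongr; exact min_le_right _ _
          _ = 3 * (Real.exp ((n + 1) / t') * Real.exp (-((n + 1) / t'))) := by ring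
          _ = 3 := by rw [← Real.exp_add, add_neg_cancel, Real.exp_zero, mul_one]
      calc (n + 1) / t' = Real.log (Real.exp ((n + 1) / t')) := (Real.log_exp _).symm
        _ ≤ _ := Real.log_le_log (Real.exp_pos _) h2
    have hlogpos : 0 < Real.log (3 / δ) := by
      apply Real.log_pos
      rw [lt_div_iff₀ hδ0]
      linarith
    rw [div_le_iff₀ hlogpos]
    rw [div_le_iff₀ ht'pos] at h1
    linarith
  obtain ⟨η, hη, hηC⟩ := hs.gauge.exists_eta hδ0 hδ1
  obtain ⟨C', hC', hCC', hdense⟩ := hs.cone.exists_dense hη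
  obtain ⟨S, hS⟩ := exists_S hs.gauge hC' (ε := ENNReal.ofReal ((1 / 2) ^ n)) (by
    have : (0:ℝ) < (1 / 2) ^ n := by positivity
    simpa using this)
  refine ⟨⟨gstep s.g C' S, C', W', t'⟩, ⟨gstep_gauge hs.gauge hC', hC', hW3, ht'pos⟩,
    ⟨gstep_le _ _ _, fun z hz => gstep_eq_on hs.gauge S hz, hCC', hW2, min_le_left _ _, ht'int,
      ?_, hS, ?_⟩⟩
  · intro z hz hgz
    obtain ⟨a, ha, hga, hza⟩ := hηC C' hC' hdense z hz hgz
    exact ⟨a, ha, hga, δ, hδ0, hδ1.le, hza, hδlog⟩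
  · exact ⟨φ, L, hφ, hL, fun κ hκ => ⟨P κ, hP κ, hW1 κ hκ⟩⟩

end Pool.Agent.Helper39
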