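import Mathlib

set_option autoImplicit false

open Complex ComplexConjugate InnerProductSpace

namespace Pool.Agent.Helper39.Toep

/-- For non-real `x` there is `z` in the punctured unit disk with `z + 1/z = x`. -/
lemma exists_inner_root (x : ℂ) (hx : x.im ≠ 0) : ∃ z : ℂ, z ≠ 0 ∧ ‖z‖ < 1 ∧ z + z⁻¹ = x := by
  obtain ⟨s, hs⟩ : ∃ s : ℂ, s ^ 2 = x ^ 2 - 4 := by
    obtain ⟨s, hs⟩ := IsAlgClosed.exists_pow_nat_eq (x ^ 2 - 4) (n := 2) (by norm_num)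
    exact ⟨s, hs⟩
  set z := (x + s) / 2 with hz
  have hq : z * (x - z) = 1 := by
    rw [hz]
    linear_combination (-1/4 : ℂ) * hs
  have hz0 : z ≠ 0 := by
    intro h
    rw [h, zero_mul] at hq
    exact zero_ne_one hq
  have hinv : x - z = z⁻¹ := by
    field_simp
    linear_combination hq
  have hx1 : z + z⁻¹ = x := by rw [← hinv]; ring
  rcases lt_trichotomy ‖z‖ 1 with h | h | h
  · exact ⟨z, hz0, h, hx1⟩
  · exfalso
    apply hx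
    have h1 : z⁻¹ = conj z := by
      rw [Complex.inv_def, Complex.normSq_eq_norm_sq, h]
      simp
    rw [← hx1, h1]
    simp
  · refine ⟨z⁻¹, inv_ne_zero hz0, ?_, ?_⟩
    · rw [norm_inv]
      exact inv_lt_one_of_one_lt₀ h
    · rw [inv_inv, add_comm]
      exact hx1

section abstract_hilbert

variable {H : Type*} [NormedAddCommGroup H] [InnerProductSpace ℂ H] [CompleteSpace H]

/-- solving `(1 - a S) h = g` -/
lemma exists_solve (S : H →L[ℂ] H) (hS : ‖S‖ ≤ 1) (a : ℂ) (ha : ‖a‖ < 1) (g : H) :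
    ∃ h : H, h - a • S h = g := by
  have h1 : ‖a • S‖ < 1 := by
    rw [norm_smul]
    calc ‖a‖ * ‖S‖ ≤ ‖a‖ * 1 := by gcongr
      _ < 1 := by rw [mul_one]; exact ha
  have h2 : IsUnit (1 - a • S) := isUnit_one_sub_of_norm_lt_one h1
  obtain ⟨u, hu⟩ := h2
  refine ⟨(u⁻¹ : (H →L[ℂ] H)ˣ).1 g, ?_⟩
  have h3 : (1 - a • S) ((u⁻¹ : (H →L[ℂ] H)ˣ).1 g) = g := by
    rw [← hu]
    have := congrArg (fun A : H →L[ℂ] H => A g) u.mul_inv
    exact this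
  simpa using h3

variable (S S' : H →L[ℂ] H) (hadj : ∀ x y, ⟪S' x, y⟫_ℂ = ⟪x, S y⟫_ℂ)
  (hSS : ∀ x, S' (S x) = x) (e : H) (he : ‖e‖ = 1) (hSe : S' e = 0)

include hSS hSe in
/-- kernel vectors are eigenvectors of the backward shift -/
lemma kernel_eig (w : ℂ) (k : H) (hk : k - w • S k = e) : S' k = w • k := by
  have h1 : k = e + w • S k := by rw [← hk]; abel
  calc S' k = S' (e + w • S k) := by rw [← h1]
    _ = w • k := by rw [map_add, hSe, zero_add, map_smul, hSS]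

include hadj hSe he in
lemma inner_kernel_e (w : ℂ) (k : H) (hk : k - w • S k = e) : ⟪k, e⟫_ℂ = 1 := by
  have h1 : k = e + w • S k := by rw [← hk]; abel
  have h2 : ⟪e, k⟫_ℂ = 1 := by
    rw [h1, inner_add_right, inner_smul_right, ← hadj, hSe, inner_zero_left, mul_zero, add_zero,
      inner_self_eq_norm_sq_to_K, he]
    simp
  rw [← inner_conj_symm, h2, map_one]

include hadj in
lemma inner_eval (w : ℂ) (k : H) (hk : S' k = w • k) (a : ℂ) (h g : H) (hg : h - a • S h = g) :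
    (1 - a * conj w) * ⟪k, h⟫_ℂ = ⟪k, g⟫_ℂ := by
  rw [← hg, inner_sub_right, inner_smul_right, ← hadj, hk, inner_smul_left]
  ring

include hadj hSS hSe he in
lemma norm_kernel (w : ℂ) (k : H) (hk : k - w • S k = e) : (1 - ‖w‖ ^ 2) * ‖k‖ ^ 2 = 1 := by
  have h1 := kernel_eig S S' hSS e hSe w k hk
  have h2 := inner_eval S S' hadj w k h1 w k e hk
  rw [inner_kernel_e S S' hadj e he hSe w k hk, Complex.mul_conj, inner_self_eq_norm_sq_to_K] at h2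
  have h3 : ((1 - ‖w‖ ^ 2) * ‖k‖ ^ 2 : ℂ) = 1 := by
    rw [Complex.normSq_eq_norm_sq] at h2
    push_cast at h2
    exact h2
  exact_mod_cast h3

/-- Wiener–Hopf factorisation of `T - λ`. -/
lemma factor (z₁ z₂ z₃ lam : ℂ) (h1 : z₁ ≠ 0) (h2 : z₂ ≠ 0) (h3 : z₃ ≠ 0)
    (hs1 : (z₁ + z₁⁻¹) + (z₂ + z₂⁻¹) + (z₃ + z₃⁻¹) = I)
    (hs2 : (z₁ + z₁⁻¹) * (z₂ + z₂⁻¹) + (z₁ + z₁⁻¹) * (z₃ + z₃⁻¹) + (z₂ + z₂⁻¹) * (z₃ + z₃⁻¹) = 0)
    (hs3 : lam = I * ((z₁ + z₁⁻¹) * (z₂ + z₂⁻¹) * (z₃ + z₃⁻¹)))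
    (hSS : ∀ x, S' (S x) = x) (h k k₁ k₂ : H)
    (hk : k = k₁ - z₁ • S k₁) (hk1 : k₁ = k₂ - z₂ • S k₂) (hk2 : k₂ = h - z₃ • S h)
    (g g₁ g₂ : H) (hg2 : g₂ = k - z₁ • S' k) (hg1 : g₁ = g₂ - z₂ • S' g₂)
    (hg : g = g₁ - z₃ • S' g₁) :
    (z₁ * z₂ * z₃) • ((S (S h) + (2:ℂ) • h + S' (S' h) + I • (S (S (S h)) + (3:ℂ) • S h +
      (3:ℂ) • S' h + S' (S' (S' h)))) - lam • h) = (-I) • g := by
  have ha1 : (z₁ * z₂ + z₁ * z₃ + z₂ * z₃) + (z₁ + z₂ + z₃) * (z₁ * z₂ * z₃) =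
      I * (z₁ * z₂ * z₃) := by
    rw [← hs1]
    field_simp
    ring
  have ha2 : (z₁ + z₂ + z₃) + (z₁ + z₂ + z₃) * (z₁ * z₂ + z₁ * z₃ + z₂ * z₃) +
      (z₁ * z₂ + z₁ * z₃ + z₂ * z₃) * (z₁ * z₂ * z₃) = 3 * (z₁ * z₂ * z₃) := by
    have : (z₁ * z₂ * z₃) * ((z₁ + z₁⁻¹) * (z₂ + z₂⁻¹) + (z₁ + z₁⁻¹) * (z₃ + z₃⁻¹) +
        (z₂ + z₂⁻¹) * (z₃ + z₃⁻¹)) = 0 := by rw [hs2, mul_zero]
    field_simp at this
    linear_combination this
  have ha3 : lam * (z₁ * z₂ * z₃) = I * ((1 + z₁ ^ 2) * (1 + z₂ ^ 2) * (1 + z₃ ^ 2)) := by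
    rw [hs3]
    field_simp
    ring
  have hI : I * I = -1 := Complex.I_mul_I
  subst hg hg1 hg2 hk hk1 hk2
  simp only [map_sub, map_smul, hSS]
  match_scalars
  all_goals first
    | ring1
    | linear_combination I * ha1 + (z₁ * z₂ * z₃) * hI
    | linear_combination 2 * I * ha1 - ha3 + 2 * (z₁ * z₂ * z₃) * hI
    | linear_combination (-I) * ha2

/-- Elementary facts on the three roots attached to a parameter `s`. -/
lemma roots (s : ℝ) (hs0 : 0 < s) (hs : s ≤ 1 / 100) :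
    ∃ z₁ z₂ z₃ : ℂ, z₁ ≠ 0 ∧ z₂ ≠ 0 ∧ z₃ ≠ 0 ∧ ‖z₁‖ < 1 ∧ ‖z₂‖ < 1 ∧ ‖z₃‖ < 1 ∧
      (z₁ + z₁⁻¹) + (z₂ + z₂⁻¹) + (z₃ + z₃⁻¹) = I ∧
      (z₁ + z₁⁻¹) * (z₂ + z₂⁻¹) + (z₁ + z₁⁻¹) * (z₃ + z₃⁻¹) + (z₂ + z₂⁻¹) * (z₃ + z₃⁻¹) = 0 ∧
      I * ((z₁ + z₁⁻¹) * (z₂ + z₂⁻¹) * (z₃ + z₃⁻¹)) = ((2 * s ^ 2 * (1 + 2 * s ^ 2) ^ 2 : ℝ) : ℂ) ∧
      1 - ‖z₁‖ ^ 2 ≤ 2 * s ^ 2 ∧ ‖1 - z₂ * conj z₁‖ ^ 2 ≤ 3 * s ^ 2 ∧
      1 / 5 ≤ ‖z₁ * z₂ * z₃‖ := by
  set η : ℝ := s ^ 2 with hη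
  have hη0 : 0 < η := by positivity
  have hη1 : η ≤ 1 / 10000 := by rw [hη]; nlinarith
  set δ : ℝ := Real.sqrt (2 * η + 3 * η ^ 2) with hδ
  have hδ2 : δ ^ 2 = 2 * η + 3 * η ^ 2 := Real.sq_sqrt (by positivity)
  have hδ0 : 0 ≤ δ := Real.sqrt_nonneg _
  have hδ1 : δ ≤ 1 / 50 := by
    rw [hδ]
    apply Real.sqrt_le_iff.2
    constructor
    · norm_num
    · nlinarith
  have hxn : δ ^ 2 + η ^ 2 ≤ (1 / 50) ^ 2 := by nlinarith
  -- the first root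
  obtain ⟨z₁, hz1, hz1n, hx1⟩ := exists_inner_root (⟨δ, -η⟩ : ℂ) (by
    show -η ≠ 0
    exact (neg_neg_of_pos hη0).ne)
  obtain ⟨z₃, hz3, hz3n, hx3⟩ := exists_inner_root (⟨0, 1 + 2 * η⟩ : ℂ) (by
    show 1 + 2 * η ≠ 0
    positivity)
  have hx2 : (-conj z₁) + (-conj z₁)⁻¹ = (⟨-δ, -η⟩ : ℂ) := by
    have h1 := congrArg conj hx1
    rw [map_add, map_inv₀] at h1
    rw [inv_neg, ← neg_add, h1]
    apply Complex.ext <;> simp
  set N : ℝ := ‖z₁‖ ^ 2 with hN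
  have hN0 : 0 < N := by
    have : 0 < ‖z₁‖ := norm_pos_iff.2 hz1
    positivity
  have hN1 : N < 1 := by
    have : 0 ≤ ‖z₁‖ := norm_nonneg _
    rw [hN]; nlinarith
  have hNsq : N = z₁.re ^ 2 + z₁.im ^ 2 := by
    rw [hN, ← Complex.normSq_eq_norm_sq, Complex.normSq_apply]; ring
  have hmul : z₁ * z₁ + 1 = z₁ * (⟨δ, -η⟩ : ℂ) := by
    rw [← hx1]; field_simp
  have hre := congrArg Complex.re hx1
  have him := congrArg Complex.im hx1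
  simp only [Complex.add_re, Complex.add_im, Complex.inv_re, Complex.inv_im,
    Complex.normSq_eq_norm_sq, ← hN] at hre him
  have hre' : z₁.re * (N + 1) = δ * N := by
    field_simp at hre
    linarith
  have him' : z₁.im * (1 - N) = η * N := by
    field_simp at him
    linarith
  have hxnorm : ‖(⟨δ, -η⟩ : ℂ)‖ ≤ 1 / 50 := by
    have : ‖(⟨δ, -η⟩ : ℂ)‖ ^ 2 ≤ (1 / 50) ^ 2 := by
      rw [← Complex.normSq_eq_norm_sq, Complex.normSq_apply]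
      nlinarith
    exact abs_le_of_sq_le_sq' this (by norm_num) |>.2
  have hlow : 49 / 50 ≤ ‖z₁‖ := by
    have h1 : z₁⁻¹ = (⟨δ, -η⟩ : ℂ) - z₁ := by rw [← hx1]; ring
    have h2 : ‖z₁‖⁻¹ ≤ 1 / 50 + 1 := by
      rw [← norm_inv, h1]
      exact (norm_sub_le _ _).trans (add_le_add hxnorm hz1n.le)
    have h3 : 0 < ‖z₁‖ := norm_pos_iff.2 hz1
    have h4 : 1 ≤ (1 / 50 + 1) * ‖z₁‖ := by
      rw [inv_le_iff_one_le_mul₀ h3] at h2
      exact h2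
    linarith
  have hNlow : 24 / 25 ≤ N := by rw [hN]; nlinarith
  have hre0 : 0 ≤ z₁.re := by
    by_contra hcon
    push Not at hcon
    have : z₁.re * (N + 1) < 0 := mul_neg_of_neg_of_pos hcon (by linarith)
    have h5 : 0 ≤ δ * N := by positivity
    linarith
  have hre1 : z₁.re ≤ 1 / 50 := by nlinarith
  have him0 : 0 < z₁.im := by
    by_contra hcon
    push Not at hcon
    have : z₁.im * (1 - N) ≤ 0 := mul_nonpos_of_nonpos_of_nonneg hcon (by linarith)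
    have h5 : 0 < η * N := by positivity
    linarith
  have him1 : 1 / 2 ≤ z₁.im := by nlinarith
  have hnz2 : ‖-conj z₁‖ = ‖z₁‖ := by rw [norm_neg, Complex.norm_conj]
  have hx3norm : ‖(⟨0, 1 + 2 * η⟩ : ℂ)‖ ≤ 1 + 1 / 1000 := by
    have : ‖(⟨0, 1 + 2 * η⟩ : ℂ)‖ ^ 2 ≤ (1 + 1 / 1000) ^ 2 := by
      rw [← Complex.normSq_eq_norm_sq, Complex.normSq_apply]
      simp only
      nlinarith
    exact abs_le_of_sq_le_sq' this (by norm_num) |>.2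
  have hlow3 : 2 / 5 ≤ ‖z₃‖ := by
    have h1 : z₃⁻¹ = (⟨0, 1 + 2 * η⟩ : ℂ) - z₃ := by rw [← hx3]; ring
    have h2 : ‖z₃‖⁻¹ ≤ (1 + 1 / 1000) + 1 := by
      rw [← norm_inv, h1]
      exact (norm_sub_le _ _).trans (add_le_add hx3norm hz3n.le)
    have h3 : 0 < ‖z₃‖ := norm_pos_iff.2 hz3
    have h4 : 1 ≤ ((1 + 1 / 1000) + 1) * ‖z₃‖ := by
      rw [inv_le_iff_one_le_mul₀ h3] at h2
      exact h2
    linarith
  refine ⟨z₁, -conj z₁, z₃, hz1, ?_, hz3, hz1n, by rw [hnz2]; exact hz1n, hz3n, ?_, ?_, ?_, ?_, ?_,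
    ?_⟩
  · exact neg_ne_zero.2 ((map_ne_zero _).2 hz1)
  · rw [hx1, hx2, hx3]
    apply Complex.ext
    · simp
    · simp; ring
  · rw [hx1, hx2, hx3]
    apply Complex.ext
    · simp only [Complex.add_re, Complex.mul_re, Complex.zero_re]
      nlinarith
    · simp only [Complex.add_im, Complex.mul_im, Complex.zero_im]
      ring
  · rw [hx1, hx2, hx3]
    apply Complex.ext
    · simp only [Complex.mul_re, Complex.mul_im, Complex.I_re, Complex.I_im, Complex.ofReal_re]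
      have : δ * δ = 2 * η + 3 * η ^ 2 := by rw [← hδ2]; ring
      linear_combination (1 + 2 * η) * this
    · simp only [Complex.mul_re, Complex.mul_im, Complex.I_re, Complex.I_im, Complex.ofReal_im]
      ring
  · rw [← hN]
    nlinarith
  · have h1 : ‖1 - -conj z₁ * conj z₁‖ = ‖z₁ * (⟨δ, -η⟩ : ℂ)‖ := by
      rw [← hmul, ← Complex.norm_conj (z₁ * z₁ + 1)]
      congr 1
      simp only [map_add, map_mul, map_one]
      ring
    rw [h1, norm_mul, mul_pow, ← hN, ← Complex.normSq_eq_norm_sq, Complex.normSq_apply]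
    simp only
    nlinarith
  · rw [norm_mul, norm_mul, hnz2]
    nlinarith

end abstract_hilbert

end Pool.Agent.Helper39.Toep
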