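import Pool.Agent.Helper39.ToepKey

set_option autoImplicit false

open Complex ComplexConjugate InnerProductSpace MeasureTheory AddCircle Set Metric Filter Topology
open scoped ENNReal Polynomial Real

namespace Pool.Agent.Helper39.ToepHardy

/-! ### Hardy space, Toeplitz operators, similarity -/

/-- The unit circle, parametrised as `ℝ/ℤ`; the point with parameter `θ` is `e^{2πiθ}`. -/
abbrev Circ : Type := UnitAddCircle

/-- Normalised arc length on the unit circle. -/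
noncomputable abbrev arcLength : Measure Circ := haarAddCircle

/-- The point `e^{2πiθ}` of the unit circle. -/
noncomputable def pt (θ : Circ) : ℂ := (toCircle θ : ℂ)

lemma memLp_mul (ν : Measure Circ) [IsFiniteMeasure ν] (G : C(Circ, ℂ)) (h : Lp ℂ 2 ν) :
    MemLp (fun θ => G θ * h θ) 2 ν := by
  have h1 : MemLp (fun θ => G θ) ∞ ν := by
    refine memLp_top_of_bound G.continuous.aestronglyMeasurable ‖G‖ ?_
    exact Filter.Eventually.of_forall fun θ => G.norm_coe_le_norm θ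
  exact (Lp.memLp h).mul h1

/-- Multiplication by a continuous function `G` on `L²(ν)`: the class of `θ ↦ G(θ) h(θ)`. -/
noncomputable def mulL2 (ν : Measure Circ) [IsFiniteMeasure ν] (G : C(Circ, ℂ)) (h : Lp ℂ 2 ν) :
    Lp ℂ 2 ν :=
  (memLp_mul ν G h).toLp (fun θ => G θ * h θ)

/-- The Hardy space `H²`: the closed linear span of `1, z, z², …` in `L²` of the circle. -/
noncomputable def H2 : Submodule ℂ (Lp ℂ 2 arcLength) :=
  (Submodule.span ℂ (Set.range fun n : ℕ => (fourierLp 2 (n : ℤ) : Lp ℂ 2 arcLength))).topologicalClosure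

instance completeH2 : CompleteSpace H2 :=
  (Submodule.isClosed_topologicalClosure _).completeSpace_coe

/-- The compression `k ↦ P (A k)` of an operator `A` on a Hilbert space to a subspace `K`, where `P`
is the orthogonal projection onto `K`. -/
noncomputable def compression {H : Type} [NormedAddCommGroup H] [InnerProductSpace ℂ H]
    (K : Submodule ℂ H) [K.HasOrthogonalProjection] (A : H → H) : K → K :=
  fun k => K.orthogonalProjectionOnto (A k)

/-- The Toeplitz operator `T_G h = P (G h)` on `H²`, `P` the orthogonal projection of `L²` onto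
`H²`. -/
noncomputable def toeplitz (G : C(Circ, ℂ)) : H2 → H2 := compression H2 (mulL2 arcLength G)

/-- Operators `A` on `H` and `B` on `K` are similar: `X A = B X` for some bounded linear bijection
`X : H → K` with bounded inverse. -/
def Similar {H K : Type} [NormedAddCommGroup H] [NormedSpace ℂ H] [NormedAddCommGroup K]
    [NormedSpace ℂ K] (A : H → H) (B : K → K) : Prop :=
  ∃ X : H ≃L[ℂ] K, ∀ h, X (A h) = B (X h)

/-- The Hilbert space direct sum `L²(γ_1) ⊕ ⋯ ⊕ L²(γ_n)`. -/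
abbrev SumL2 (n : ℕ) (γ : Fin n → Set Circ) : Type :=
  PiLp 2 (fun k => Lp ℂ 2 (arcLength.restrict (γ k)))

/-- `M_1 ⊕ ⋯ ⊕ M_n`, where `M_k` is multiplication by `F` on `L²(γ_k)` (with arc length measure). -/
noncomputable def sumMul (F : C(Circ, ℂ)) (n : ℕ) (γ : Fin n → Set Circ) (v : SumL2 n γ) :
    SumL2 n γ :=
  WithLp.toLp 2 (fun k => mulL2 (arcLength.restrict (γ k)) F (v k))

/-! ### The Toeplitz operator -/

/-- multiplication as a bounded operator -/
noncomputable def mulC (ν : Measure Circ) [IsFiniteMeasure ν] (G : C(Circ, ℂ)) :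
    Lp ℂ 2 ν →L[ℂ] Lp ℂ 2 ν :=
  (ContinuousLinearMap.mul ℂ ℂ).holderL ν ∞ 2 2 (ContinuousMap.toLp ∞ ν ℂ G)

/-- the Toeplitz operator as a bounded operator -/
noncomputable def toepC (G : C(Circ, ℂ)) : H2 →L[ℂ] H2 :=
  H2.orthogonalProjectionOnto ∘L mulC arcLength G ∘L H2.subtypeL

lemma mulC_ae (ν : Measure Circ) [IsFiniteMeasure ν] (G : C(Circ, ℂ)) (h : Lp ℂ 2 ν) :
    mulC ν G h =ᵐ[ν] fun θ => G θ * h θ := by
  have h1 := ContinuousLinearMap.coeFn_holder (r := 2) (ContinuousLinearMap.mul ℂ ℂ)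
    (ContinuousMap.toLp ∞ ν ℂ G) h
  have h2 := ContinuousMap.coeFn_toLp (E := ℂ) (p := ∞) (𝕜 := ℂ) ν G
  filter_upwards [h1, h2] with θ h3 h4
  show (ContinuousLinearMap.holder 2 (ContinuousLinearMap.mul ℂ ℂ)
    (ContinuousMap.toLp ∞ ν ℂ G) h) θ = _
  rw [h3, h4]
  rfl

lemma mulC_mul (ν : Measure Circ) [IsFiniteMeasure ν] (G G' : C(Circ, ℂ)) (h : Lp ℂ 2 ν) :
    mulC ν G (mulC ν G' h) = mulC ν (G * G') h := by
  refine Lp.ext ?_
  filter_upwards [mulC_ae ν G (mulC ν G' h), mulC_ae ν G' h, mulC_ae ν (G * G') h] with θ h1 h2 h3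
  rw [h1, h2, h3, ContinuousMap.mul_apply, mul_assoc]

lemma mulC_one (ν : Measure Circ) [IsFiniteMeasure ν] (h : Lp ℂ 2 ν) :
    mulC ν 1 h = h := by
  refine Lp.ext ?_
  filter_upwards [mulC_ae ν 1 h] with θ h1
  rw [h1]; simp

lemma mulC_add (ν : Measure Circ) [IsFiniteMeasure ν] (G G' : C(Circ, ℂ)) (h : Lp ℂ 2 ν) :
    mulC ν (G + G') h = mulC ν G h + mulC ν G' h := by
  simp only [mulC, map_add, ContinuousLinearMap.add_apply]

lemma mulC_smul (ν : Measure Circ) [IsFiniteMeasure ν] (c : ℂ) (G : C(Circ, ℂ)) (h : Lp ℂ 2 ν) :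
    mulC ν (c • G) h = c • mulC ν G h := by
  simp only [mulC, map_smul, ContinuousLinearMap.smul_apply]

lemma mulC_fourier (m n : ℤ) :
    mulC arcLength (fourier m) (fourierLp 2 n) = fourierLp 2 (m + n) := by
  refine Lp.ext ?_
  filter_upwards [mulC_ae arcLength (fourier m) (fourierLp 2 n), coeFn_fourierLp 2 n,
    coeFn_fourierLp 2 (m + n)] with θ h1 h2 h3
  rw [h1, h2, h3, fourier_add]

lemma fourier_mul (m n : ℤ) : (fourier m * fourier n : C(Circ, ℂ)) = fourier (m + n) := by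
  ext θ
  rw [ContinuousMap.mul_apply, fourier_add]

/-- adjoint relation on `L²` -/
lemma inner_mulC (n : ℤ) (f g : Lp ℂ 2 arcLength) :
    ⟪mulC arcLength (fourier (-n)) f, g⟫_ℂ = ⟪f, mulC arcLength (fourier n) g⟫_ℂ := by
  rw [L2.inner_def, L2.inner_def]
  refine integral_congr_ae ?_
  filter_upwards [mulC_ae arcLength (fourier (-n)) f, mulC_ae arcLength (fourier n) g] with θ h1 h2
  rw [h1, h2, fourier_neg]
  simp only [RCLike.inner_apply, map_mul, Complex.conj_conj]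
  ring

/-- `H²` is invariant under multiplication by `z`. -/
lemma mul_z_mem (h : Lp ℂ 2 arcLength) (hh : h ∈ H2) : mulC arcLength (fourier 1) h ∈ H2 := by
  set W := Submodule.span ℂ (Set.range fun n : ℕ => (fourierLp 2 (n : ℤ) : Lp ℂ 2 arcLength))
  have h1 : W ≤ H2.comap (mulC arcLength (fourier 1)).toLinearMap := by
    rw [Submodule.span_le]
    rintro _ ⟨n, rfl⟩
    show mulC arcLength (fourier 1) (fourierLp 2 (n:ℤ)) ∈ H2
    rw [mulC_fourier]
    refine Submodule.le_topologicalClosure _ (Submodule.subset_span ⟨n + 1, ?_⟩)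
    simp [add_comm]
  have h2 : IsClosed ((H2.comap (mulC arcLength (fourier 1)).toLinearMap : Submodule ℂ _) :
      Set (Lp ℂ 2 arcLength)) :=
    (Submodule.isClosed_topologicalClosure _).preimage (mulC arcLength (fourier 1)).continuous
  exact Submodule.topologicalClosure_minimal _ h1 h2 hh

/-- the constant function `1` as an element of `H²` -/
noncomputable def one2 : H2 :=
  ⟨fourierLp 2 0, Submodule.le_topologicalClosure _ (Submodule.subset_span ⟨0, by simp⟩)⟩

lemma norm_one2 : ‖one2‖ = 1 := by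
  have := (orthonormal_fourier (T := 1)).1 0
  exact this

/-- negative frequencies are orthogonal to `H²` -/
lemma neg_orth (n : ℕ) (h : Lp ℂ 2 arcLength) (hh : h ∈ H2) :
    ⟪h, (fourierLp 2 (-((n : ℤ) + 1)) : Lp ℂ 2 arcLength)⟫_ℂ = 0 := by
  set W := Submodule.span ℂ (Set.range fun n : ℕ => (fourierLp 2 (n : ℤ) : Lp ℂ 2 arcLength))
  have h1 : W ≤ (ℂ ∙ (fourierLp 2 (-((n : ℤ) + 1)) : Lp ℂ 2 arcLength))ᗮ := by
    rw [Submodule.span_le]
    rintro _ ⟨m, rfl⟩
    rw [SetLike.mem_coe, Submodule.mem_orthogonal_singleton_iff_inner_left]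
    have := (orthonormal_fourier (T := 1)).2 (i := (m : ℤ)) (j := -((n : ℤ) + 1)) (by omega)
    exact this
  have h2 := Submodule.topologicalClosure_minimal _ h1 (Submodule.isClosed_orthogonal _) hh
  rwa [Submodule.mem_orthogonal_singleton_iff_inner_left] at h2

/-- the shift and the backward shift -/
noncomputable abbrev S : H2 →L[ℂ] H2 := toepC (fourier 1)
noncomputable abbrev S' : H2 →L[ℂ] H2 := toepC (fourier (-1))

lemma coe_S (h : H2) : ((S h : H2) : Lp ℂ 2 arcLength) = mulC arcLength (fourier 1) h := by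
  have h1 := mul_z_mem h h.2
  have h2 := Submodule.orthogonalProjectionOnto_mem_subspace_eq_self (K := H2)
    (⟨mulC arcLength (fourier 1) h, h1⟩ : H2)
  exact congrArg Subtype.val h2

lemma toepC_inner (G : C(Circ, ℂ)) (f g : H2) :
    ⟪toepC G f, g⟫_ℂ = ⟪mulC arcLength G f, (g : Lp ℂ 2 arcLength)⟫_ℂ := by
  exact Submodule.inner_orthogonalProjectionOnto_eq_of_mem_right g _

lemma toepC_inner' (G : C(Circ, ℂ)) (f g : H2) :
    ⟪g, toepC G f⟫_ℂ = ⟪(g : Lp ℂ 2 arcLength), mulC arcLength G f⟫_ℂ := by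
  exact Submodule.inner_orthogonalProjectionOnto_eq_of_mem_left g _

lemma S_adj (x y : H2) : ⟪S' x, y⟫_ℂ = ⟪x, S y⟫_ℂ := by
  rw [toepC_inner, toepC_inner', inner_mulC]

lemma SS (x : H2) : S' (S x) = x := by
  refine ext_inner_right ℂ fun y => ?_
  rw [toepC_inner, coe_S, mulC_mul, fourier_mul]
  have : (fourier (-1 + 1) : C(Circ, ℂ)) = 1 := by ext θ; simp
  rw [this, mulC_one]
  rfl

lemma norm_S_le : ‖S‖ ≤ 1 := by
  refine ContinuousLinearMap.opNorm_le_bound _ zero_le_one fun h => ?_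
  have h1 : ‖S h‖ ^ 2 = ‖h‖ ^ 2 := by
    have h2 : ⟪S h, S h⟫_ℂ = ⟪h, h⟫_ℂ := by rw [← S_adj, SS]
    have h3 : ((‖S h‖ : ℂ)) ^ 2 = (‖h‖ : ℂ) ^ 2 :=
      (inner_self_eq_norm_sq_to_K (𝕜 := ℂ) (S h)).symm.trans
        (h2.trans (inner_self_eq_norm_sq_to_K (𝕜 := ℂ) h))
    exact_mod_cast h3
  rw [one_mul]
  exact ((pow_left_inj₀ (norm_nonneg _) (norm_nonneg _) two_ne_zero).1 h1).le

lemma S'_one : S' one2 = 0 := by
  refine ext_inner_right ℂ fun y => ?_
  rw [toepC_inner, inner_zero_left]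
  have h1 : mulC arcLength (fourier (-1)) (one2 : Lp ℂ 2 arcLength) =
      fourierLp 2 (-(((0 : ℕ) : ℤ) + 1)) := by
    show mulC arcLength (fourier (-1)) (fourierLp 2 0) = _
    rw [mulC_fourier]; rfl
  rw [h1, ← inner_conj_symm, neg_orth 0 y y.2, map_zero]

lemma toepC_add (G G' : C(Circ, ℂ)) (h : H2) :
    toepC (G + G') h = toepC G h + toepC G' h := by
  show H2.orthogonalProjectionOnto (mulC arcLength (G + G') h) =
    H2.orthogonalProjectionOnto (mulC arcLength G h) +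
    H2.orthogonalProjectionOnto (mulC arcLength G' h)
  rw [mulC_add, map_add]

lemma toepC_smul (c : ℂ) (G : C(Circ, ℂ)) (h : H2) :
    toepC (c • G) h = c • toepC G h := by
  show H2.orthogonalProjectionOnto (mulC arcLength (c • G) h) =
    c • H2.orthogonalProjectionOnto (mulC arcLength G h)
  rw [mulC_smul, map_smul]

lemma toepC_one (h : H2) : toepC 1 h = h := by
  show H2.orthogonalProjectionOnto (mulC arcLength 1 h) = h
  rw [mulC_one]
  exact Submodule.orthogonalProjectionOnto_mem_subspace_eq_self h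

lemma coe_SS (h : H2) : ((S (S h) : H2) : Lp ℂ 2 arcLength) = mulC arcLength (fourier 2) h := by
  rw [coe_S, coe_S, mulC_mul, fourier_mul]; rfl

lemma coe_SSS (h : H2) :
    ((S (S (S h)) : H2) : Lp ℂ 2 arcLength) = mulC arcLength (fourier 3) h := by
  rw [coe_S, coe_SS, mulC_mul, fourier_mul]; rfl

lemma toepC_of_coe (G : C(Circ, ℂ)) (h g : H2) (hg : (g : Lp ℂ 2 arcLength) =
    mulC arcLength G h) : toepC G h = g := by
  show H2.orthogonalProjectionOnto (mulC arcLength G h) = g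
  rw [← hg]
  exact Submodule.orthogonalProjectionOnto_mem_subspace_eq_self g

lemma toepC_two (h : H2) : toepC (fourier 2) h = S (S h) :=
  toepC_of_coe _ _ _ (coe_SS h)

lemma toepC_three (h : H2) : toepC (fourier 3) h = S (S (S h)) :=
  toepC_of_coe _ _ _ (coe_SSS h)

lemma toepC_neg_two (h : H2) : toepC (fourier (-2)) h = S' (S' h) := by
  refine ext_inner_right ℂ fun y => ?_
  rw [S_adj, S_adj, toepC_inner, inner_mulC, ← coe_SS]
  rfl

lemma toepC_neg_three (h : H2) : toepC (fourier (-3)) h = S' (S' (S' h)) := by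
  refine ext_inner_right ℂ fun y => ?_
  rw [S_adj, S_adj, S_adj, toepC_inner, inner_mulC, ← coe_SSS]
  rfl

/-- The symbol `F(z) = (z + 1/z)² + i (z + 1/z)³`, as a trigonometric polynomial. -/
noncomputable def F0 : C(Circ, ℂ) :=
  fourier 2 + (2 : ℂ) • 1 + fourier (-2) +
    I • (fourier 3 + (3 : ℂ) • fourier 1 + (3 : ℂ) • fourier (-1) + fourier (-3))

lemma toepC_F0 (h : H2) : toepC F0 h =
    S (S h) + (2:ℂ) • h + S' (S' h) + I • (S (S (S h)) + (3:ℂ) • S h +
      (3:ℂ) • S' h + S' (S' (S' h))) := by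
  simp only [F0, toepC_add, toepC_smul, toepC_two, toepC_three, toepC_neg_two,
    toepC_neg_three, toepC_one]

lemma pt_norm (θ : Circ) : ‖pt θ‖ = 1 := Circle.norm_coe _

lemma fourier_pt (n : ℤ) (θ : Circ) : fourier n θ = (pt θ) ^ n := by
  rw [fourier_apply, pt, toCircle_zsmul, Circle.coe_zpow]

/-- values of the symbol: `F = x² + i x³`, `x = 2 Re z`. -/
lemma F0_apply (θ : Circ) :
    F0 θ = ((2 * (pt θ).re : ℝ) : ℂ) ^ 2 + I * ((2 * (pt θ).re : ℝ) : ℂ) ^ 3 := by
  have h1 : pt θ ≠ 0 := by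
    intro h
    have := pt_norm θ
    rw [h, norm_zero] at this
    exact zero_ne_one this
  have h2 : ((2 * (pt θ).re : ℝ) : ℂ) = pt θ + (pt θ)⁻¹ := by
    have h3 : (pt θ)⁻¹ = conj (pt θ) := by
      rw [Complex.inv_def, Complex.normSq_eq_norm_sq, pt_norm]; simp
    rw [h3, Complex.add_conj]
  rw [h2]
  simp only [F0, ContinuousMap.add_apply, ContinuousMap.smul_apply, fourier_pt,
    ContinuousMap.one_apply, smul_eq_mul]
  have e1 : (pt θ) ^ (-1 : ℤ) = (pt θ)⁻¹ := zpow_neg_one _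
  have e2 : (pt θ) ^ (-2 : ℤ) = (pt θ)⁻¹ ^ 2 := by
    rw [zpow_neg, ← inv_zpow]; rfl
  have e3 : (pt θ) ^ (-3 : ℤ) = (pt θ)⁻¹ ^ 3 := by
    rw [zpow_neg, ← inv_zpow]; rfl
  have e4 : (pt θ) ^ (2 : ℤ) = (pt θ) ^ 2 := rfl
  have e5 : (pt θ) ^ (3 : ℤ) = (pt θ) ^ 3 := rfl
  rw [e1, e2, e3, e4, e5, zpow_one]
  field_simp
  ring

lemma mulL2_ae (ν : Measure Circ) [IsFiniteMeasure ν] (G : C(Circ, ℂ)) (h : Lp ℂ 2 ν) :
    mulL2 ν G h =ᵐ[ν] fun θ => G θ * h θ := MemLp.coeFn_toLp _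

lemma mulL2_eq (ν : Measure Circ) [IsFiniteMeasure ν] (G : C(Circ, ℂ)) (h : Lp ℂ 2 ν) :
    mulL2 ν G h = mulC ν G h := by
  refine Lp.ext ?_
  filter_upwards [mulL2_ae ν G h, mulC_ae ν G h] with θ h1 h2
  rw [h1, h2]

lemma toeplitz_eq (G : C(Circ, ℂ)) (h : H2) : toeplitz G h = toepC G h := by
  show H2.orthogonalProjectionOnto (mulL2 arcLength G h) =
    H2.orthogonalProjectionOnto (mulC arcLength G h)
  rw [mulL2_eq]

/-- lower bound for `M - λ` -/
lemma mul_lower (ν : Measure Circ) [IsFiniteMeasure ν] (G : C(Circ, ℂ)) (lam : ℂ) (d : ℝ)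
    (hd : 0 < d) (hG : ∀ θ, d ≤ ‖G θ - lam‖) (g : Lp ℂ 2 ν) :
    d * ‖g‖ ≤ ‖mulL2 ν G g - lam • g‖ := by
  have h1 : ‖(d : ℂ) • g‖ ≤ ‖mulL2 ν G g - lam • g‖ := by
    refine Lp.norm_le_norm_of_ae_le ?_
    filter_upwards [mulL2_ae ν G g, Lp.coeFn_smul (d : ℂ) g, Lp.coeFn_smul lam g,
      Lp.coeFn_sub (mulL2 ν G g) (lam • g)] with θ h1 h2 h3 h4
    rw [h2, h4, Pi.sub_apply, h1, h3, Pi.smul_apply, Pi.smul_apply, smul_eq_mul, smul_eq_mul,
      ← sub_mul, norm_mul, norm_mul, Complex.norm_real, Real.norm_of_nonneg hd.le]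
    exact mul_le_mul_of_nonneg_right (hG θ) (norm_nonneg _)
  rwa [norm_smul, Complex.norm_real, Real.norm_of_nonneg hd.le] at h1

/-- The operator `T_F` is not similar to any direct sum of multiplications by `F` on `L²(γ_k)`. -/
theorem not_similar (n : ℕ) (γ : Fin n → Set Circ) : ¬ Similar (toeplitz F0) (sumMul F0 n γ) := by
  rintro ⟨X, hX⟩
  set K : ℝ := ‖X.toContinuousLinearMap‖ * ‖X.symm.toContinuousLinearMap‖ + 1 with hK
  have hK0 : 0 < K := by positivity
  obtain ⟨lam, d, h, hd, hdist, hlt⟩ := Pool.Agent.Helper39.Toep.key S S' S_adj SS norm_S_le one2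
    norm_one2 S'_one K hK0
  rw [← toepC_F0, ← toeplitz_eq] at hlt
  -- lower bound on the direct sum
  have h1 : d * ‖X h‖ ≤ ‖X (toeplitz F0 h - lam • h)‖ := by
    have h2 : ∀ k, d * ‖(X h) k‖ ≤ ‖(X (toeplitz F0 h - lam • h)) k‖ := by
      intro k
      have h3 : (X (toeplitz F0 h - lam • h)) k =
          mulL2 (arcLength.restrict (γ k)) F0 ((X h) k) - lam • ((X h) k) := by
        rw [map_sub, map_smul, PiLp.sub_apply, PiLp.smul_apply, hX]
        rfl
      rw [h3]
      refine mul_lower _ F0 lam d hd (fun θ => ?_) _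
      rw [F0_apply]
      exact hdist _
    have h4 : (d * ‖X h‖) ^ 2 ≤ ‖X (toeplitz F0 h - lam • h)‖ ^ 2 := by
      rw [mul_pow, PiLp.norm_sq_eq_of_L2, PiLp.norm_sq_eq_of_L2, Finset.mul_sum]
      refine Finset.sum_le_sum fun k _ => ?_
      rw [← mul_pow]
      exact pow_le_pow_left₀ (by positivity) (h2 k) 2
    exact le_of_sq_le_sq h4 (norm_nonneg _)
  have h5 : ‖h‖ ≤ ‖X.symm.toContinuousLinearMap‖ * ‖X h‖ := by
    have := X.symm.toContinuousLinearMap.le_opNorm (X h)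
    simpa using this
  have h6 : ‖X (toeplitz F0 h - lam • h)‖ ≤
      ‖X.toContinuousLinearMap‖ * ‖toeplitz F0 h - lam • h‖ :=
    X.toContinuousLinearMap.le_opNorm _
  have h7 : d * ‖h‖ ≤ K * ‖toeplitz F0 h - lam • h‖ := by
    have hn := norm_nonneg X.symm.toContinuousLinearMap
    have hn2 := norm_nonneg (toeplitz F0 h - lam • h)
    calc d * ‖h‖ ≤ d * (‖X.symm.toContinuousLinearMap‖ * ‖X h‖) := by gcongr
      _ = ‖X.symm.toContinuousLinearMap‖ * (d * ‖X h‖) := by ring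
      _ ≤ ‖X.symm.toContinuousLinearMap‖ *
          (‖X.toContinuousLinearMap‖ * ‖toeplitz F0 h - lam • h‖) :=
        mul_le_mul_of_nonneg_left (h1.trans h6) hn
      _ = (‖X.toContinuousLinearMap‖ * ‖X.symm.toContinuousLinearMap‖) *
          ‖toeplitz F0 h - lam • h‖ := by ring
      _ ≤ K * ‖toeplitz F0 h - lam • h‖ := by
        gcongr; rw [hK]; linarith
  exact absurd hlt (not_lt.2 h7)

end Pool.Agent.Helper39.ToepHardy
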