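import Mathlib
import Pool.Agent.Helper39.ToepAbstract

set_option autoImplicit false

open Complex ComplexConjugate InnerProductSpace

namespace Pool.Agent.Helper39.Toep

/-- distance from `λ` to the cuspidal curve -/
lemma dist_curve (s : ℝ) (hs0 : 0 < s) (hs : s ≤ 1 / 100) (x : ℝ) :
    s ^ 3 ≤ ‖(x : ℂ) ^ 2 + I * (x : ℂ) ^ 3 - ((2 * s ^ 2 * (1 + 2 * s ^ 2) ^ 2 : ℝ) : ℂ)‖ := by
  set lam : ℝ := 2 * s ^ 2 * (1 + 2 * s ^ 2) ^ 2 with hlam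
  have h1 : (x : ℂ) ^ 2 + I * (x : ℂ) ^ 3 - (lam : ℂ) = ⟨x ^ 2 - lam, x ^ 3⟩ := by
    apply Complex.ext
    · simp [← Complex.ofReal_pow]
    · simp [← Complex.ofReal_pow]
  rw [h1]
  have hlow : 2 * s ^ 2 ≤ lam := by
    rw [hlam]
    have : 1 ≤ (1 + 2 * s ^ 2) ^ 2 := by nlinarith [sq_nonneg s]
    nlinarith [sq_nonneg s]
  rcases le_or_gt s |x| with h | h
  · have h2 : |x ^ 3| ≤ ‖(⟨x ^ 2 - lam, x ^ 3⟩ : ℂ)‖ :=
      Complex.abs_im_le_norm (⟨x ^ 2 - lam, x ^ 3⟩ : ℂ)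
    refine le_trans ?_ h2
    rw [abs_pow]
    gcongr
  · have h2 : |x ^ 2 - lam| ≤ ‖(⟨x ^ 2 - lam, x ^ 3⟩ : ℂ)‖ :=
      Complex.abs_re_le_norm (⟨x ^ 2 - lam, x ^ 3⟩ : ℂ)
    refine le_trans ?_ h2
    have h3 : x ^ 2 ≤ s ^ 2 := by
      rw [← sq_abs x]
      have := abs_nonneg x
      nlinarith
    rw [abs_sub_comm]
    refine le_trans ?_ (le_abs_self _)
    nlinarith [sq_nonneg s]

variable {H : Type*} [NormedAddCommGroup H] [InnerProductSpace ℂ H] [CompleteSpace H]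

/-- Approximate eigenvectors violating the resolvent bound. -/
lemma key (S S' : H →L[ℂ] H) (hadj : ∀ x y, ⟪S' x, y⟫_ℂ = ⟪x, S y⟫_ℂ)
    (hSS : ∀ x, S' (S x) = x) (hSn : ‖S‖ ≤ 1) (e : H) (he : ‖e‖ = 1) (hSe : S' e = 0)
    (K : ℝ) (hK : 0 < K) :
    ∃ (lam : ℂ) (d : ℝ) (h : H), 0 < d ∧ (∀ x : ℝ, d ≤ ‖(x : ℂ) ^ 2 + I * (x : ℂ) ^ 3 - lam‖) ∧
      K * ‖(S (S h) + (2:ℂ) • h + S' (S' h) + I • (S (S (S h)) + (3:ℂ) • S h +
      (3:ℂ) • S' h + S' (S' (S' h)))) - lam • h‖ < d * ‖h‖ := by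
  obtain ⟨s, hs0, hs, hsK⟩ : ∃ s : ℝ, 0 < s ∧ s ≤ 1 / 100 ∧ 240 * K * s < 1 := by
    refine ⟨min (1 / 100) (1 / (480 * K)), by positivity, min_le_left _ _, ?_⟩
    have h1 : min (1 / 100) (1 / (480 * K)) ≤ 1 / (480 * K) := min_le_right _ _
    calc 240 * K * min (1 / 100) (1 / (480 * K)) ≤ 240 * K * (1 / (480 * K)) := by gcongr
      _ < 1 := by
        have : 240 * K * (1 / (480 * K)) = 1 / 2 := by field_simp; norm_num
        rw [this]; norm_num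
  obtain ⟨z₁, z₂, z₃, hz1, hz2, hz3, hn1, hn2, hn3, hs1, hs2, hs3, ha, hB, he3⟩ := roots s hs0 hs
  have hc1 : ‖conj z₁‖ < 1 := by rw [Complex.norm_conj]; exact hn1
  obtain ⟨k, hk⟩ := exists_solve S hSn (conj z₁) hc1 e
  obtain ⟨k', hk'⟩ := exists_solve S hSn z₁ hn1 e
  obtain ⟨k₁, hk1⟩ := exists_solve S hSn z₁ hn1 k
  obtain ⟨k₂, hk2⟩ := exists_solve S hSn z₂ hn2 k₁
  obtain ⟨h, hh⟩ := exists_solve S hSn z₃ hn3 k₂
  have hSk := kernel_eig S S' hSS e hSe _ k hk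
  have hSk' := kernel_eig S S' hSS e hSe _ k' hk'
  have hfac := factor S S' z₁ z₂ z₃ _ hz1 hz2 hz3 hs1 hs2 hs3.symm hSS h k k₁ k₂ hk1.symm
    hk2.symm hh.symm
    ((1 - z₃ * conj z₁) • ((1 - z₂ * conj z₁) • ((1 - z₁ * conj z₁) • k)))
    ((1 - z₂ * conj z₁) • ((1 - z₁ * conj z₁) • k))
    ((1 - z₁ * conj z₁) • k)
    (by simp only [map_smul, hSk]; module)
    (by simp only [map_smul, hSk]; module)
    (by simp only [map_smul, hSk]; module)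
  refine ⟨((2 * s ^ 2 * (1 + 2 * s ^ 2) ^ 2 : ℝ) : ℂ), s ^ 3, h, by positivity,
    dist_curve s hs0 hs, ?_⟩
  -- notation
  set V := (S (S h) + (2:ℂ) • h + S' (S' h) + I • (S (S (S h)) + (3:ℂ) • S h +
      (3:ℂ) • S' h + S' (S' (S' h)))) - ((2 * s ^ 2 * (1 + 2 * s ^ 2) ^ 2 : ℝ) : ℂ) • h with hV
  set a : ℝ := 1 - ‖z₁‖ ^ 2 with haa
  have ha0 : 0 < a := by
    have := norm_nonneg z₁
    rw [haa]; nlinarith
  have hac : (1 - z₁ * conj z₁ : ℂ) = (a : ℂ) := by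
    rw [Complex.mul_conj, Complex.normSq_eq_norm_sq, haa]; push_cast; ring
  set B : ℝ := ‖1 - z₂ * conj z₁‖ with hBB
  set D : ℝ := ‖1 - z₃ * conj z₁‖ with hDD
  have hD : D ≤ 2 := by
    rw [hDD]
    refine (norm_sub_le _ _).trans ?_
    rw [norm_one, norm_mul]
    have : ‖z₃‖ * ‖conj z₁‖ ≤ 1 := mul_le_one₀ hn3.le (norm_nonneg _) hc1.le
    linarith
  have hnk := norm_kernel S S' hadj hSS e he hSe _ k hk
  have hnk' := norm_kernel S S' hadj hSS e he hSe _ k' hk'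
  rw [Complex.norm_conj, ← haa] at hnk
  rw [← haa] at hnk'
  have hkk : ‖k‖ = ‖k'‖ := by
    have h1 : ‖k‖ ^ 2 = ‖k'‖ ^ 2 := mul_left_cancel₀ ha0.ne' (hnk.trans hnk'.symm)
    exact (pow_left_inj₀ (norm_nonneg _) (norm_nonneg _) two_ne_zero).1 h1
  -- norm of V
  have hVn : ‖z₁ * z₂ * z₃‖ * ‖V‖ = a * B * D * ‖k‖ := by
    rw [← norm_smul, hfac, norm_smul, norm_neg, Complex.norm_I, one_mul, norm_smul, norm_smul,
      norm_smul, hac, Complex.norm_real, Real.norm_of_nonneg ha0.le]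
    ring
  have hVle : ‖V‖ ≤ 5 * (a * B * D * ‖k‖) := by
    rw [← hVn]
    nlinarith [norm_nonneg V]
  -- evaluation
  have hev : (1:ℝ) ≤ 2 * (a * B * D * ‖k‖) * ‖h‖ := by
    have e1 := inner_eval S S' hadj z₁ k' hSk' z₃ h k₂ hh
    have e2 := inner_eval S S' hadj z₁ k' hSk' z₂ k₂ k₁ hk2
    have e3 := inner_eval S S' hadj z₁ k' hSk' z₁ k₁ k hk1
    have e4 := inner_eval S S' hadj z₁ k' hSk' (conj z₁) k e hk
    have e5 := inner_kernel_e S S' hadj e he hSe _ k' hk'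
    have e6 : (1 - conj z₁ * conj z₁) * ((1 - z₁ * conj z₁) * ((1 - z₂ * conj z₁) *
        ((1 - z₃ * conj z₁) * ⟪k', h⟫_ℂ))) = 1 := by
      rw [e1, e2, e3, e4, e5]
    have e7 := congrArg norm e6
    rw [norm_mul, norm_mul, norm_mul, norm_mul, hac, Complex.norm_real,
      Real.norm_of_nonneg ha0.le, norm_one, ← hBB, ← hDD] at e7
    have hG : ‖1 - conj z₁ * conj z₁‖ ≤ 2 := by
      refine (norm_sub_le _ _).trans ?_
      rw [norm_one, norm_mul]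
      have : ‖conj z₁‖ * ‖conj z₁‖ ≤ 1 := mul_le_one₀ hc1.le (norm_nonneg _) hc1.le
      linarith
    have hin : ‖⟪k', h⟫_ℂ‖ ≤ ‖k‖ * ‖h‖ := by
      rw [hkk]; exact norm_inner_le_norm _ _
    rw [← e7]
    have hB0 : 0 ≤ B := norm_nonneg _
    have hD0 : 0 ≤ D := norm_nonneg _
    calc ‖1 - conj z₁ * conj z₁‖ * (a * (B * (D * ‖⟪k', h⟫_ℂ‖)))
        ≤ 2 * (a * (B * (D * (‖k‖ * ‖h‖)))) := by gcongr
      _ = 2 * (a * B * D * ‖k‖) * ‖h‖ := by ring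
  -- conclusion
  set X : ℝ := a * B * D * ‖k‖ with hX
  have hB0 : 0 ≤ B := norm_nonneg _
  have hD0 : 0 ≤ D := norm_nonneg _
  have hX0 : 0 ≤ X := by positivity
  have hXpos : 0 < X := by
    rcases hX0.lt_or_eq with h0 | h0
    · exact h0
    · rw [← h0] at hev; norm_num at hev
  have hX2 : X ^ 2 ≤ 24 * s ^ 4 := by
    have h1 : X ^ 2 = (a * ‖k‖ ^ 2) * (a * B ^ 2 * D ^ 2) := by rw [hX]; ring
    rw [h1, hnk, one_mul]
    have h2 : D ^ 2 ≤ 4 := by nlinarith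
    calc a * B ^ 2 * D ^ 2 ≤ (2 * s ^ 2) * (3 * s ^ 2) * 4 := by gcongr
      _ = 24 * s ^ 4 := by ring
  have h10 : K * ‖V‖ ≤ 5 * K * X := by nlinarith
  refine lt_of_le_of_lt h10 ?_
  have h11 : 10 * K * X ^ 2 < s ^ 3 := by
    have h12 : 10 * K * X ^ 2 ≤ (240 * K * s) * s ^ 3 := by
      calc 10 * K * X ^ 2 ≤ 10 * K * (24 * s ^ 4) := by gcongr
        _ = (240 * K * s) * s ^ 3 := by ring
    have h13 : (240 * K * s) * s ^ 3 < 1 * s ^ 3 := by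
      have : 0 < s ^ 3 := by positivity
      exact mul_lt_mul_of_pos_right hsK this
    linarith
  have h14 : (5 * K * X) * (2 * X) < (s ^ 3 * ‖h‖) * (2 * X) := by
    have h15 : s ^ 3 ≤ s ^ 3 * (2 * X * ‖h‖) := by
      have : 0 < s ^ 3 := by positivity
      nlinarith
    nlinarith
  exact lt_of_mul_lt_mul_right h14 (by positivity)

end Pool.Agent.Helper39.Toep
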